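import Pool.Agent.Lib.MP_cec001_ag.Defs

set_option autoImplicit false

open Module Pool.Agent.Lib.CEC001

namespace MPcec

universe u v

/-! ## commutative algebra -/

/-- CANON: the canonical minimizer exists and is tight. -/
def SpecCanon : Prop :=
  ∀ (F : Type u) (A : Type v) [Field F] [CommRing A] [Algebra F A] (L W : Submodule F A),
    L.FG → W.FG → ∃ Y, IsCan L W Y ∧ Tight L Y

/-- PERSIST. -/
def SpecPersist : Prop :=
  ∀ (F : Type u) (A : Type v) [Field F] [CommRing A] [Algebra F A] (L Y : Submodule F A),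
    L.FG → Tight L Y → ∀ (a : ℕ) (U : Submodule F A), U < L ^ (a + 1) * Y →
      finrank F (L ^ (a + 1) * Y : Submodule F A) + finrank F (col L U (L ^ a * Y)) <
        finrank F (L ^ a * Y : Submodule F A) + finrank F U

/-- PCONS: (WM), (DEC), (K), (GG). Uses SpecPersist. -/
def SpecPCons : Prop :=
  ∀ (F : Type u) (A : Type v) [Field F] [CommRing A] [Algebra F A] (L Y : Submodule F A),
    L.FG → Tight L Y →
    (∀ (a : ℕ) (Z : Submodule F A), Z ≤ L ^ a * Y →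
      finrank F (L ^ (a + 1) * Y : Submodule F A) + finrank F Z ≤
        finrank F (L * Z : Submodule F A) + finrank F (L ^ a * Y : Submodule F A)) ∧
    (∀ a : ℕ, L ^ (a + 1) * Y ≠ ⊥ →
      finrank F (L ^ (a + 1) * Y : Submodule F A) < finrank F (L ^ a * Y : Submodule F A)) ∧
    (∀ z ∈ L, ∀ a : ℕ, kk L Y z (a + 1) = 0 ∨ kk L Y z (a + 1) + 1 ≤ kk L Y z a) ∧
    (∀ (g : A) (a : ℕ), ml g (L ^ (a + 1) * Y) ≠ ⊥ →
      finrank F (ml g (L ^ (a + 1) * Y)) < finrank F (ml g (L ^ a * Y)))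

/-- SQ: products of tight spaces of the same degree vanish. -/
def SpecSq : Prop :=
  ∀ (F : Type u) (A : Type v) [Field F] [CommRing A] [Algebra F A] (G : GD F A) (m : ℕ)
    (Y Y' : Submodule F A), 2 * m + 1 ≤ G.j → Y ≤ G.L ^ m → Y' ≤ G.L ^ m → Tight G.L Y →
    Tight G.L Y' → ∀ a ∈ Y, ∀ b ∈ Y', a * b = 0

/-- GROW: annihilators of linear forms contract. -/
def SpecGrow : Prop :=
  ∀ (F : Type u) (A : Type v) [Field F] [CommRing A] [Algebra F A] (G : G4 F A) (m : ℕ),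
    2 * m + 2 ≤ G.j → G.Uni →
    finrank F (G.L ^ (m + 1) : Submodule F A) < finrank F (G.L ^ m : Submodule F A) →
    ∀ l ∈ G.L, finrank F (G.L * ann l (G.L ^ m) : Submodule F A) < finrank F (ann l (G.L ^ m))

/-- DUAL: duality between `L^i V` and the forms modulo those killing `V`. -/
def SpecDual : Prop :=
  ∀ (F : Type u) (A : Type v) [Field F] [CommRing A] [Algebra F A] (G : G4 F A) (m : ℕ)
    (V : Submodule F A), m ≤ G.j → V ≤ G.L ^ m → ∀ i ≤ G.j - m,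
    finrank F (G.L ^ i * V : Submodule F A) + finrank F (G.kil V (G.j - m - i)) =
      (G.j - m - i + 3).choose 3

/-- UP (uses SpecDual). -/
def SpecUp : Prop :=
  ∀ (F : Type u) (A : Type v) [Field F] [CommRing A] [Algebra F A] (G : G4 F A) (m : ℕ)
    (V : Submodule F A), 2 * m ≤ G.j → V ≤ G.L ^ m → (∀ a ∈ V, ∀ b ∈ V, a * b = 0) →
    2 * finrank F V ≤ (G.j - m + 3).choose 3

/-- CHI (uses SpecDual). -/
def SpecChi : Prop :=
  ∀ (F : Type u) (A : Type v) [Field F] [Infinite F] [CommRing A] [Algebra F A] (G : G4 F A) (m : ℕ)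
    (V : Submodule F A), 2 * m + 2 ≤ G.j → G.Uni → V ≤ G.L ^ m → (∀ a ∈ V, ∀ b ∈ V, a * b = 0) →
    ∀ (s : ℕ) (P : MvPolynomial (Fin 4) F), 1 ≤ s → P.IsHomogeneous s → P ≠ 0 →
    (∀ v ∈ V, G.ev P * v = 0) →
    2 * finrank F V + (G.j - m + 3 - s).choose 3 + (m + 3 - 2 * s).choose 3 ≤
      (G.j - m + 3).choose 3 + (m + 3 - s).choose 3

/-! ## the family -/

/-- LOW. -/
def SpecLow : Prop :=
  ∀ (F : Type u) (A : Type v) [Field F] [CommRing A] [Algebra F A] (G : GD F A) (m : ℕ)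
    (w : ℕ → A) (Y : ℕ → Submodule F A), Fam G m w Y →
    ∑ b ∈ Finset.range (G.j - m + 1), (yy G.L (Y 0) b - ∑ a ∈ Finset.range b, kk G.L (Y 0) (w 1) a) ≤
      finrank F (⨆ n, Y n : Submodule F A)

/-- GROWV (uses SpecPCons). -/
def SpecGrowV : Prop :=
  ∀ (F : Type u) (A : Type v) [Field F] [CommRing A] [Algebra F A] (G : GD F A) (m : ℕ)
    (w : ℕ → A) (Y : ℕ → Submodule F A), Fam G m w Y → ∀ i : ℕ,
    finrank F (G.L ^ i * (⨆ n, Y n) : Submodule F A) + (i - kk G.L (Y 0) (w 1) 0) * yy G.L (Y 0) i ≤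
      finrank F (⨆ n, Y n : Submodule F A)

/-- FAMSYM (uses SpecCanon): the family of canonical spaces of the generic planes. -/
def SpecFamSym : Prop :=
  ∀ (k : Type u) [Field k] (A : Type v) [CommRing A] [Algebra (Om k) A] (G : G4 (Om k) A)
    (S : SymA G) (m : ℕ),
    (∀ n, finrank (Om k) (G.L * Wn G m n : Submodule (Om k) A) < finrank (Om k) (Wn G m n)) →
    ∃ Y : ℕ → Submodule (Om k) A, (∀ n, IsCan G.L (Wn G m n) (Y n)) ∧
      Fam G.toGD m (fun n => G.ev (wp k n)) Y ∧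
      (∀ (σ : Equiv.Perm ℕ) (n : ℕ), ∀ a ∈ Y n, S.act σ a ∈ Y (σ n))

/-! ## plane and line -/

/-- LINE: (a), (b), (c), (d) of section 7. -/
def SpecLine : Prop :=
  ∀ (F : Type u) (A : Type v) [Field F] [CommRing A] [Algebra F A] (D : Pl F A),
    (∀ d ≤ D.N, finrank F (D.C d) + finrank F (D.Z (D.N - d)) = d + 1) ∧
    (∀ d, d + 1 ≤ D.N → ∀ q ∈ D.C d, ∀ i : Fin 2, MvPolynomial.X i * q ∈ D.C (d + 1)) ∧
    (∀ d ≤ D.N, ∀ p ∈ D.J d, restr D.y p ∈ D.C d) ∧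
    (∀ d ≤ D.N, ∀ q ∈ D.C d, ∃ p ∈ D.J d, restr D.y p = q)

/-- LINE2: surjectivity of `z`, and nondegeneracy against forms in three variables. -/
def SpecLine2 : Prop :=
  ∀ (F : Type u) (A : Type v) [Field F] [CommRing A] [Algebra F A] (D : Pl F A),
    (∀ a < D.N, (∀ p : MvPolynomial (Fin 3) F, p.IsHomogeneous (D.N - a - 1) →
        D.zp * p ∈ D.J (D.N - a) → p ∈ D.J (D.N - a - 1)) →
      ml D.z (D.G.L ^ a * D.E) = D.G.L ^ (a + 1) * D.E) ∧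
    (∀ (i s : ℕ), i + s ≤ D.N → ∀ P : MvPolynomial (Fin 3) F, P.IsHomogeneous s →
      ∀ v ∈ ml (D.G.ev3 P) (D.G.L ^ i * D.E),
        (∀ u : MvPolynomial (Fin 3) F, u.IsHomogeneous (D.N - i - s) → D.G.ev3 u * v = 0) → v = 0)

/-- POLY3: the kernel of the restriction to a line. -/
def SpecPoly3 : Prop :=
  ∀ (F : Type u) [Field F] (y : Fin 2 → F),
    Prime (MvPolynomial.X 2 - (MvPolynomial.C (y 0) * MvPolynomial.X 0 + MvPolynomial.C (y 1) * MvPolynomial.X 1) :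
      MvPolynomial (Fin 3) F) ∧
    (∀ (d : ℕ) (p : MvPolynomial (Fin 3) F), p.IsHomogeneous d → restr y p = 0 → p ≠ 0 →
      ∃ q : MvPolynomial (Fin 3) F, q.IsHomogeneous (d - 1) ∧ 1 ≤ d ∧
        p = (MvPolynomial.X 2 - (MvPolynomial.C (y 0) * MvPolynomial.X 0 +
          MvPolynomial.C (y 1) * MvPolynomial.X 1)) * q) ∧
    (∀ (s e : ℕ) (P q : MvPolynomial (Fin 3) F), P.IsHomogeneous s → P ≠ 0 → (P * q).IsHomogeneous (s + e) →
      q.IsHomogeneous e)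

/-- BIN: binary forms. -/
def SpecBin : Prop :=
  ∀ (F : Type u) [Field F] (d : ℕ) (C D : Submodule F (MvPolynomial (Fin 2) F)),
    (∀ q ∈ C, q.IsHomogeneous d) → (∀ q ∈ D, q.IsHomogeneous (d + 1)) →
    (∀ q ∈ C, ∀ i : Fin 2, MvPolynomial.X i * q ∈ D) → C ≠ ⊥ →
    finrank F C + 1 ≤ finrank F D ∧
    (finrank F D = finrank F C + 1 → ∃ (s : ℕ) (g : MvPolynomial (Fin 2) F),
      s + finrank F C = d + 1 ∧ g ≠ 0 ∧ g.IsHomogeneous s ∧
      (∀ q, q ∈ C ↔ ∃ h : MvPolynomial (Fin 2) F, h.IsHomogeneous (d - s) ∧ q = g * h) ∧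
      (∀ q, q ∈ D ↔ ∃ h : MvPolynomial (Fin 2) F, h.IsHomogeneous (d + 1 - s) ∧ q = g * h))

/-- PLAT: the plateau analysis (uses SpecPCons, SpecLine, SpecLine2, SpecPoly3, SpecBin). -/
def SpecPlat : Prop :=
  ∀ (F : Type u) (A : Type v) [Field F] [CommRing A] [Algebra F A] (D : Pl F A),
    Tight D.G.L D.E → finrank F (D.G.L * D.E : Submodule F A) < finrank F D.E → D.Gen →
    ∃ i s : ℕ, D.Profile i s

/-! ## generic sections -/

/-- LIFT: divisors of the restriction of a form to a generic hyperplane lift. -/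
def SpecLift : Prop :=
  ∀ (k : Type u) [Field k] (r : ℕ) (w : Fin (r + 2) → ℕ × Fin 3), Function.Injective w →
    ∀ U : Set (ℕ × Fin 3), (∀ i, w i ∈ U) →
    ∀ (f : MvPolynomial (Fin (r + 2 + 1)) (Om k)) (s e : ℕ) (g h : MvPolynomial (Fin (r + 2)) (Om k)),
      f.IsHomogeneous (s + e) → g.IsHomogeneous s → h.IsHomogeneous e → FreeOf U f →
      restr (fun i => xv k (w i)) f = g * h → g * h ≠ 0 →
      ∃ P Q : MvPolynomial (Fin (r + 2 + 1)) (Om k), P.IsHomogeneous s ∧ Q.IsHomogeneous e ∧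
        FreeOf U P ∧ FreeOf U Q ∧ f = P * Q ∧
        ∃ c : Om k, c ≠ 0 ∧ restr (fun i => xv k (w i)) P = MvPolynomial.C c * g

/-- INJ: the restriction is injective on forms which do not involve its parameters, and
proportional restrictions come from proportional forms. -/
def SpecInj : Prop :=
  ∀ (k : Type u) [Field k] (r : ℕ) (w : Fin (r + 2) → ℕ × Fin 3), Function.Injective w →
    ∀ U : Set (ℕ × Fin 3), (∀ i, w i ∈ U) →
    (∀ f : MvPolynomial (Fin (r + 2 + 1)) (Om k), FreeOf U f →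
      restr (fun i => xv k (w i)) f = 0 → f = 0) ∧
    (∀ (d : ℕ) (f g : MvPolynomial (Fin (r + 2 + 1)) (Om k)), f.IsHomogeneous d → g.IsHomogeneous d →
      FreeOf U f → FreeOf U g → g ≠ 0 →
      (∃ c : Om k, restr (fun i => xv k (w i)) f = MvPolynomial.C c * restr (fun i => xv k (w i)) g) →
      ∃ c : Om k, f = MvPolynomial.C c * g)

/-- FREE: elements involve finitely many parameters. -/
def SpecFree : Prop :=
  ∀ (k : Type u) [Field k] (ρ : Type) (f : MvPolynomial ρ (Om k)),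
    (∃ B : Finset ℕ, FreeOf {v : ℕ × Fin 3 | v.1 ∉ B} f) ∧
    (∀ U U' : Set (ℕ × Fin 3), U' ⊆ U → FreeOf U f → FreeOf U' f) ∧
    (∀ (B : Finset ℕ) (σ : Equiv.Perm ℕ), (∀ n ∈ B, σ n = n) → FreeOf {v : ℕ × Fin 3 | v.1 ∉ B} f →
      ∃ c : Om k, c ≠ 0 ∧ MvPolynomial.map (ac k σ : Om k →+* Om k) f = MvPolynomial.C c * f)

/-- AUT: the automorphism moving the line coordinates to parameters. -/
def SpecAut : Prop :=
  ∀ (k : Type u) [Field k] (n : ℕ), n ≠ 0 →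
    ∃ α : Om k ≃+* Om k, (∀ c : k, α (algebraMap k (Om k) c) = algebraMap k (Om k) c) ∧
      (∀ v : ℕ × Fin 3, v ≠ (n, 0) → v ≠ (n, 1) → α (xv k v) = xv k v) ∧
      α (xv k (n, 0)) = yl k n 0 ∧ α (xv k (n, 1)) = yl k n 1

/-- GENL (uses SpecLift, SpecInj, SpecFree, SpecAut): genericity of the lines. -/
def SpecGenL : Prop :=
  ∀ (k : Type u) [Field k] (d : ℕ) (W : Submodule (Om k) (MvPolynomial (Fin 3) (Om k))),
    (∀ p ∈ W, p.IsHomogeneous d) →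
    ∃ B : Finset ℕ, ∀ n, n ∉ B →
      ((∀ p ∈ W, restr (yl k n) p = 0) → W = ⊥) ∧
      (∀ s ≤ d, ∀ g : MvPolynomial (Fin 2) (Om k), g.IsHomogeneous s → g ≠ 0 → W ≠ ⊥ →
        (∀ p ∈ W, ∃ h : MvPolynomial (Fin 2) (Om k), h.IsHomogeneous (d - s) ∧ restr (yl k n) p = g * h) →
        ∃ P : MvPolynomial (Fin 3) (Om k), P.IsHomogeneous s ∧
          (∃ c : Om k, c ≠ 0 ∧ restr (yl k n) P = MvPolynomial.C c * g) ∧
          ∀ p ∈ W, ∃ q : MvPolynomial (Fin 3) (Om k), q.IsHomogeneous (d - s) ∧ p = P * q)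

/-- CASEA (uses SpecLift, SpecInj, SpecFree). -/
def SpecCaseA : Prop :=
  ∀ (k : Type u) [Field k] (A : Type v) [CommRing A] [Algebra (Om k) A] (G : G4 (Om k) A)
    (S : SymA G) (Y : ℕ → Submodule (Om k) A),
    (∀ n, ∀ y ∈ Y n, G.ev (wp k n) * y = 0) →
    (∀ (σ : Equiv.Perm ℕ) (n : ℕ), ∀ a ∈ Y n, S.act σ a ∈ Y (σ n)) →
    (∀ B : Set ℕ, B.Finite → ⨆ n ∈ Bᶜ, Y n = ⨆ n, Y n) →
    ∀ (s e : ℕ) (P0 : MvPolynomial (Fin 3) (Om k)), P0 ≠ 0 → P0.IsHomogeneous s →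
      (∀ y ∈ Y 0, G.ev3 P0 * y = 0) →
      (∀ p : MvPolynomial (Fin 3) (Om k), p.IsHomogeneous (s + e) → (∀ y ∈ Y 0, G.ev3 p * y = 0) →
        ∃ q : MvPolynomial (Fin 3) (Om k), q.IsHomogeneous e ∧ p = P0 * q) →
    ∀ f : MvPolynomial (Fin 4) (Om k), f ≠ 0 → f.IsHomogeneous (s + e) →
      (∀ v ∈ (⨆ n, Y n : Submodule (Om k) A), G.ev f * v = 0) →
      ∃ P : MvPolynomial (Fin 4) (Om k), P ≠ 0 ∧ P.IsHomogeneous s ∧
        ∀ v ∈ (⨆ n, Y n : Submodule (Om k) A), G.ev P * v = 0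

/-! ## the algebra of a functional -/

/-- ALG: the algebra of a functional. -/
def SpecAlg : Prop :=
  ∀ (F : Type u) [Field F] (Λ : MvPolynomial (Fin 4) F →ₗ[F] F) (j : ℕ),
    ∃ G : G4 F (AL Λ j), G.j = j ∧
      (∀ i, G.x i = Ideal.Quotient.mk (annI Λ j) (MvPolynomial.X i)) ∧
      (∀ d ≤ j, finrank F (G.L ^ d : Submodule F (AL Λ j)) = H Λ d (j - d)) ∧
      (∀ (e : ℕ) (f : MvPolynomial (Fin 4) F), f.IsHomogeneous e → ∀ d, e + d ≤ j →
        finrank F (ml (G.ev f) (G.L ^ d)) = H (tw Λ f) d (j - e - d))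

/-- SYMALG: permutations act on the algebra of a functional with constant coefficients. -/
def SpecSymAlg : Prop :=
  ∀ (k : Type u) [Field k] (Λ : MvPolynomial (Fin 4) k →ₗ[k] k) (j : ℕ)
    (G : G4 (Om k) (AL (up (Om k) Λ) j)),
    (∀ i, G.x i = Ideal.Quotient.mk (annI (up (Om k) Λ) j) (MvPolynomial.X i)) → Nonempty (SymA G)

/-! ## numbers (0-indexed: `b a = β_{a+1}`, `κ a = k_{a+1}`) -/

/-- hypotheses common to the three numerical lemmas; `v` is the dimension of `V`. -/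
def NumH (M i s v : ℕ) (b κ : ℕ → ℕ) : Prop :=
  3 ≤ M ∧ i + s ≤ M ∧ κ 0 + i ≤ s ∧
  (∀ a < i, κ 0 + 1 + a ≤ b a) ∧ (∀ a, i ≤ a → a < M → min s (M - a) ≤ b a) ∧
  (∀ a, κ (a + 1) = 0 ∨ κ (a + 1) + 1 ≤ κ a) ∧ (∀ a, i ≤ a → κ a = 0) ∧
  ∑ c ∈ Finset.range M, ((∑ a ∈ Finset.Ico c M, b a) - ∑ a ∈ Finset.range M, κ a) ≤ v

/-- NUM1. -/
def SpecNum1 : Prop :=
  ∀ (M i s v : ℕ) (b κ : ℕ → ℕ), NumH M i s v b κ → M ≤ 2 * s →
    (i + s = M ∨ κ 0 + i + 1 ≤ s) → (M + 2).choose 3 < 2 * v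

/-- NUMA. -/
def SpecNumA : Prop :=
  ∀ (M i s v m : ℕ) (b κ : ℕ → ℕ), NumH M i s v b κ → 2 * s ≤ M → κ 0 + i + 1 ≤ s → i + s + 2 ≤ M →
    m + 3 ≤ M →
    (M + 2).choose 3 + (m + 3 - s).choose 3 < 2 * v + (M + 2 - s).choose 3 + (m + 3 - 2 * s).choose 3

/-- NUMB. -/
def SpecNumB : Prop :=
  ∀ (M i s v : ℕ) (b κ : ℕ → ℕ), NumH M i s v b κ → 2 * s ≤ M → κ 0 + i + 1 ≤ s → i + s + 2 ≤ M →
    (M - i + 2).choose 3 + (i - κ 0) * (∑ a ∈ Finset.Ico i M, b a) ≤ v → (M + 2).choose 3 < 2 * v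

/-! ## the theorem -/

/-- MAIN (uses everything): no drop in the first half, in every characteristic. -/
def SpecMain : Prop :=
  ∀ (j : ℕ) (k : Type u) [Field k] (Λ : MvPolynomial (Fin 4) k →ₗ[k] k) (m : ℕ), 2 * m + 2 ≤ j →
    H Λ m (j - m) ≤ H Λ (m + 1) (j - (m + 1))

end MPcec
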