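import Pool.Agent.Lib.MP_cec001_ag.Spec

section
set_option autoImplicit false

open Module Pool.Agent.Lib.CEC001

namespace MPcec

universe u v

namespace MainM

section gen

variable {F : Type u} {A : Type v} [Field F] [CommRing A] [Algebra F A]

lemma fin_of_fg {P : Submodule F A} (h : P.FG) : FiniteDimensional F P := Module.Finite.of_fg h

lemma fg_of_le {P Q : Submodule F A} (h : P ≤ Q) (hQ : Q.FG) : P.FG := by
  have := fin_of_fg hQ
  have : FiniteDimensional F P := Submodule.finiteDimensional_of_le h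
  exact Module.Finite.iff_fg.1 this

lemma mem_ml {a : A} {Y : Submodule F A} {v : A} : v ∈ ml a Y ↔ ∃ y ∈ Y, a * y = v := Iff.rfl

lemma finrank_ann_add (a : A) {Y : Submodule F A} (h : Y.FG) :
    finrank F (ann a Y) + finrank F (ml a Y) = finrank F Y := by
  have := fin_of_fg h
  let φ := (LinearMap.mulLeft F a).domRestrict Y
  have h1 := LinearMap.finrank_range_add_finrank_ker φ
  have h2 : LinearMap.range φ = ml a Y := by
    ext v
    constructor
    · rintro ⟨y, rfl⟩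
      exact ⟨y, y.2, rfl⟩
    · rintro ⟨y, hy, rfl⟩
      exact ⟨⟨y, hy⟩, rfl⟩
  have h3 : (LinearMap.ker φ).map Y.subtype = ann a Y := by
    ext v
    constructor
    · rintro ⟨y, hy, rfl⟩
      exact ⟨y.2, hy⟩
    · rintro ⟨hv, hv'⟩
      exact ⟨⟨v, hv⟩, hv', rfl⟩
  have h4 : finrank F (LinearMap.ker φ) = finrank F (ann a Y) := by
    rw [← h3]
    exact (Submodule.equivMapOfInjective _ (Submodule.injective_subtype _) _).finrank_eq
  rw [h2, h4] at h1
  omega

lemma G4.x_mem (G : G4 F A) (i : Fin 4) : G.x i ∈ G.L := by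
  rw [G.hL]
  exact Submodule.subset_span ⟨i, rfl⟩

lemma ml_eq_of_smul {a b : A} {δ : F} (hδ : δ ≠ 0) {W : Submodule F A}
    (h : ∀ v ∈ W, a * v = δ • (b * v)) : ml a W = ml b W := by
  ext v
  rw [mem_ml, mem_ml]
  constructor
  · rintro ⟨y, hy, rfl⟩
    exact ⟨δ • y, W.smul_mem _ hy, by rw [h y hy, mul_smul_comm]⟩
  · rintro ⟨y, hy, rfl⟩
    refine ⟨δ⁻¹ • y, W.smul_mem _ hy, ?_⟩
    rw [mul_smul_comm, h y hy, smul_smul, inv_mul_cancel₀ hδ, one_smul]

/-- an element which kills `Y` kills `L^a Y`. -/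
lemma kill_mul {w : A} {P Y : Submodule F A} (h : ∀ y ∈ Y, w * y = 0) : ∀ v ∈ P * Y, w * v = 0 := by
  intro v hv
  induction hv using Submodule.mul_induction_on' with
  | mem_mul_mem p _ y hy =>
    rw [mul_left_comm, h y hy, mul_zero]
  | add a _ b _ ha hb => rw [mul_add, ha, hb, add_zero]

end gen

section book

variable {F : Type u} {A : Type v} [Field F] [CommRing A] [Algebra F A]

lemma ml_mul_le {L : Submodule F A} {z : A} (hz : z ∈ L) (a : ℕ) (E : Submodule F A) :
    ml z (L ^ a * E) ≤ L ^ (a + 1) * E := by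
  rintro _ ⟨v, hv, rfl⟩
  rw [pow_succ', mul_assoc]
  exact Submodule.mul_mem_mul hz hv

lemma rel (G : GD F A) {E : Submodule F A} (hE : E.FG) {z : A} (hz : z ∈ G.L) (a : ℕ) :
    yy G.L E a + kk G.L E z a = yy G.L E (a + 1) + bb G.L E z a := by
  have h1 := finrank_ann_add z ((G.fg.pow a).mul hE)
  have hf : (G.L ^ (a + 1) * E).FG := (G.fg.pow (a + 1)).mul hE
  have := fin_of_fg hf
  have h2 := Submodule.finrank_mono (ml_mul_le hz a E)
  unfold yy kk bb
  omega

lemma yy_zero (G : GD F A) {E : Submodule F A} {m : ℕ} (hm : m ≤ G.j) (hE : E ≤ G.L ^ m) {a : ℕ}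
    (ha : G.j - m + 1 ≤ a) : yy G.L E a = 0 := by
  have h1 : G.L ^ a * E ≤ ⊥ := by
    obtain ⟨b, rfl⟩ : ∃ b, a = b + (G.j - m + 1) := ⟨a - (G.j - m + 1), by omega⟩
    calc G.L ^ (b + (G.j - m + 1)) * E ≤ G.L ^ (b + (G.j - m + 1)) * G.L ^ m :=
          mul_le_mul' le_rfl hE
      _ = G.L ^ b * G.L ^ (G.j + 1) := by
          rw [← pow_add, ← pow_add]
          congr 1
          omega
      _ = ⊥ := by rw [G.top, Submodule.mul_bot]
  unfold yy
  rw [le_bot_iff.1 h1, finrank_bot]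

lemma sum_rel (G : GD F A) {E : Submodule F A} (hfg : E.FG) {m : ℕ} (hm : m ≤ G.j)
    (hE : E ≤ G.L ^ m) {z : A} (hz : z ∈ G.L) : ∀ c b, b + c = G.j - m + 1 →
    yy G.L E b + ∑ a ∈ Finset.Ico b (G.j - m + 1), kk G.L E z a =
      ∑ a ∈ Finset.Ico b (G.j - m + 1), bb G.L E z a := by
  intro c
  induction c with
  | zero =>
    intro b hb
    rw [add_zero] at hb
    rw [← hb, Finset.Ico_self, Finset.sum_empty, Finset.sum_empty, add_zero]
    exact yy_zero G hm hE (by omega)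
  | succ c ih =>
    intro b hb
    have h1 := ih (b + 1) (by omega)
    have h2 := rel G hfg hz b
    have hlt : b < G.j - m + 1 := by omega
    have h3 := Finset.sum_eq_sum_Ico_succ_bot hlt (kk G.L E z)
    have h4 := Finset.sum_eq_sum_Ico_succ_bot hlt (bb G.L E z)
    omega

lemma sub_rel (G : GD F A) {E : Submodule F A} (hfg : E.FG) {m : ℕ} (hm : m ≤ G.j)
    (hE : E ≤ G.L ^ m) {z : A} (hz : z ∈ G.L) {b : ℕ} (hb : b ≤ G.j - m + 1) :
    yy G.L E b - ∑ a ∈ Finset.range b, kk G.L E z a =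
      (∑ a ∈ Finset.Ico b (G.j - m + 1), bb G.L E z a) -
        ∑ a ∈ Finset.range (G.j - m + 1), kk G.L E z a := by
  have h1 := sum_rel G hfg hm hE hz (G.j - m + 1 - b) b (by omega)
  have h2 := Finset.sum_range_add_sum_Ico (kk G.L E z) hb
  omega

end book

section conc

variable {k : Type u} [Field k] {A : Type v} [CommRing A] [Algebra (Om k) A]

lemma ev_wp (G : G4 (Om k) A) (n : ℕ) :
    G.ev (wp k n) = G.x 3 - ∑ i : Fin 3, xx k n i • G.x i.castSucc := by
  rw [G4.ev, wp, map_sub, map_sum, MvPolynomial.aeval_X]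
  congr 1
  refine Finset.sum_congr rfl (fun i _ => ?_)
  rw [map_mul, MvPolynomial.aeval_C, MvPolynomial.aeval_X, Algebra.smul_def]

lemma ev_wp_mem (G : G4 (Om k) A) (n : ℕ) : G.ev (wp k n) ∈ G.L := by
  rw [ev_wp]
  exact sub_mem (G4.x_mem G 3) (Submodule.sum_mem _ (fun i _ => Submodule.smul_mem _ _ (G4.x_mem G _)))

lemma delta_ne {n : ℕ} (hn : n ≠ 0) : xx k 0 2 - xx k n 2 ≠ 0 := by
  intro h
  rw [sub_eq_zero] at h
  have h1 := IsFractionRing.injective (Sx k) (Om k) h
  have h2 := MvPolynomial.X_injective h1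
  exact hn (Prod.ext_iff.1 h2).1.symm

/-- plane data for a space killed by the plane `0`. -/
noncomputable def mkPl (G : G4 (Om k) A) (m : ℕ) (hm : m ≤ G.j) (E : Submodule (Om k) A)
    (hE : E ≤ G.L ^ m) (hk : ∀ e ∈ E, G.ev (wp k 0) * e = 0) (n : ℕ) : Pl (Om k) A where
  G := G
  m := m
  hm := hm
  E := E
  hE := hE
  c := xx k 0
  hc := by
    intro e he
    have h := hk e he
    rw [ev_wp, sub_mul, sub_eq_zero, Finset.sum_mul] at h
    rw [h]
    exact Finset.sum_congr rfl (fun i _ => smul_mul_assoc _ _ _)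
  y := yl k n

/-- forms of degree `d` in three variables killing `E`. -/
def JJ (G : G4 (Om k) A) (E : Submodule (Om k) A) (d : ℕ) : Submodule (Om k) (MvPolynomial (Fin 3) (Om k)) where
  carrier := {p | p.IsHomogeneous d ∧ ∀ e ∈ E, G.ev3 p * e = 0}
  add_mem' := by
    rintro a b ⟨ha, ha'⟩ ⟨hb, hb'⟩
    exact ⟨ha.add hb, fun e he => by rw [map_add, add_mul, ha' e he, hb' e he, add_zero]⟩
  zero_mem' := ⟨MvPolynomial.isHomogeneous_zero _ _ _, fun e _ => by rw [map_zero, zero_mul]⟩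
  smul_mem' := by
    rintro c a ⟨ha, ha'⟩
    refine ⟨Submodule.smul_mem (MvPolynomial.homogeneousSubmodule (Fin 3) (Om k) d) c ha, fun e he => ?_⟩
    rw [map_smul, smul_mul_assoc, ha' e he, smul_zero]

lemma mem_JJ {G : G4 (Om k) A} {E : Submodule (Om k) A} {d : ℕ} {p : MvPolynomial (Fin 3) (Om k)} :
    p ∈ JJ G E d ↔ p.IsHomogeneous d ∧ ∀ e ∈ E, G.ev3 p * e = 0 := Iff.rfl

lemma mem_J {D : Pl (Om k) A} {d : ℕ} {p : MvPolynomial (Fin 3) (Om k)} :
    p ∈ D.J d ↔ p.IsHomogeneous d ∧ ∀ e ∈ D.E, D.G.ev3 p * e = 0 := Iff.rfl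

lemma J_mk (G : G4 (Om k) A) (m : ℕ) (hm : m ≤ G.j) (E : Submodule (Om k) A)
    (hE : E ≤ G.L ^ m) (hk : ∀ e ∈ E, G.ev (wp k 0) * e = 0) (n d : ℕ) :
    (mkPl G m hm E hE hk n).J d = JJ G E d := by
  ext p
  rw [mem_J, mem_JJ]
  rfl

lemma y_mk (G : G4 (Om k) A) (m : ℕ) (hm : m ≤ G.j) (E : Submodule (Om k) A)
    (hE : E ≤ G.L ^ m) (hk : ∀ e ∈ E, G.ev (wp k 0) * e = 0) (n : ℕ) :
    (mkPl G m hm E hE hk n).y = yl k n := rfl

lemma N_mk (G : G4 (Om k) A) (m : ℕ) (hm : m ≤ G.j) (E : Submodule (Om k) A)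
    (hE : E ≤ G.L ^ m) (hk : ∀ e ∈ E, G.ev (wp k 0) * e = 0) (n : ℕ) :
    (mkPl G m hm E hE hk n).N = G.j - m := rfl

lemma gen_mk (G : G4 (Om k) A) (m : ℕ) (hm : m ≤ G.j) (E : Submodule (Om k) A)
    (hE : E ≤ G.L ^ m) (hk : ∀ e ∈ E, G.ev (wp k 0) * e = 0) (n : ℕ)
    (h1 : ∀ d ≤ G.j - m, (∀ p ∈ JJ G E d, restr (yl k n) p = 0) → JJ G E d = ⊥)
    (h2 : ∀ d ≤ G.j - m, ∀ s ≤ d, ∀ g : MvPolynomial (Fin 2) (Om k), g.IsHomogeneous s → g ≠ 0 →
      JJ G E d ≠ ⊥ →
      (∀ p ∈ JJ G E d, ∃ h : MvPolynomial (Fin 2) (Om k), h.IsHomogeneous (d - s) ∧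
        restr (yl k n) p = g * h) →
      ∃ P : MvPolynomial (Fin 3) (Om k), P.IsHomogeneous s ∧
        (∃ c : Om k, c ≠ 0 ∧ restr (yl k n) P = MvPolynomial.C c * g) ∧
        ∀ p ∈ JJ G E d, ∃ q : MvPolynomial (Fin 3) (Om k), q.IsHomogeneous (d - s) ∧ p = P * q) :
    (mkPl G m hm E hE hk n).Gen := by
  constructor
  · intro d hd
    rw [J_mk, y_mk]
    exact h1 d hd
  · intro d hd
    rw [J_mk, y_mk]
    exact h2 d hd

lemma wn_mul (G : G4 (Om k) A) {n : ℕ} (hn : n ≠ 0) (y : Fin 2 → Om k) (hy : y = yl k n) {v : A}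
    (hv : G.ev (wp k 0) * v = 0) :
    G.ev (wp k n) * v = (xx k 0 2 - xx k n 2) • ((G.x 2 - (y 0 • G.x 0 + y 1 • G.x 1)) * v) := by
  subst hy
  have hd := delta_ne (k := k) hn
  have h1 : G.ev (wp k n) * v = (G.ev (wp k n) - G.ev (wp k 0)) * v := by
    rw [sub_mul, hv, sub_zero]
  rw [h1, ← smul_mul_assoc]
  congr 1
  rw [ev_wp, ev_wp, Fin.sum_univ_three, Fin.sum_univ_three]
  have e0 : (xx k 0 2 - xx k n 2) * yl k n 0 = xx k n 0 - xx k 0 0 := by
    unfold yl
    rw [mul_div_cancel₀ _ hd]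
    rfl
  have e1 : (xx k 0 2 - xx k n 2) * yl k n 1 = xx k n 1 - xx k 0 1 := by
    unfold yl
    rw [mul_div_cancel₀ _ hd]
    rfl
  have e2 : (Fin.castSucc 0 : Fin 4) = 0 := rfl
  have e3 : (Fin.castSucc 1 : Fin 4) = 1 := rfl
  have e4 : (Fin.castSucc 2 : Fin 4) = 2 := rfl
  rw [smul_sub, smul_add, smul_smul, smul_smul, e0, e1, e2, e3, e4]
  simp only [sub_smul]
  abel

/-- products of elements of the sum vanish. -/
lemma sq_iSup {Y : ℕ → Submodule (Om k) A} (h : ∀ n n', ∀ a ∈ Y n, ∀ b ∈ Y n', a * b = 0) :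
    ∀ a ∈ (⨆ n, Y n : Submodule (Om k) A), ∀ b ∈ (⨆ n, Y n : Submodule (Om k) A), a * b = 0 := by
  intro a ha b hb
  induction ha using Submodule.iSup_induction' with
  | mem n a ha =>
    induction hb using Submodule.iSup_induction' with
    | mem n' b hb => exact h n n' a ha b hb
    | zero => rw [mul_zero]
    | add x y _ _ hx hy => rw [mul_add, hx, hy, add_zero]
  | zero => rw [zero_mul]
  | add x y _ _ hx hy => rw [add_mul, hx, hy, add_zero]

/-- the profile of the space `E` killed by the plane `0`, for a suitable line. -/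
lemma exists_profile (hPlat : SpecPlat.{u, v}) (hGenL : SpecGenL.{u}) (G : G4 (Om k) A) (m : ℕ)
    (hm : m ≤ G.j) (E : Submodule (Om k) A) (hE : E ≤ G.L ^ m)
    (hk : ∀ e ∈ E, G.ev (wp k 0) * e = 0) (hT : Tight G.L E)
    (hneg : finrank (Om k) (G.L * E : Submodule (Om k) A) < finrank (Om k) E) :
    ∃ (n : ℕ) (z : A) (i s : ℕ), n ≠ 0 ∧ z ∈ G.L ∧
      (∀ a, ml z (G.L ^ a * E) = ml (G.ev (wp k n)) (G.L ^ a * E)) ∧
      i + s ≤ G.j - m + 1 ∧ kk G.L E z 0 + i ≤ s ∧
      (∀ a < i, kk G.L E z 0 + 1 + a ≤ bb G.L E z a) ∧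
      (∀ a, i ≤ a → a < G.j - m + 1 → min s (G.j - m + 1 - a) ≤ bb G.L E z a) ∧
      (∀ a, i ≤ a → kk G.L E z a = 0) ∧
      (i + s = G.j - m + 1 ∨
        (kk G.L E z 0 + i + 1 ≤ s ∧ i + s + 1 ≤ G.j - m ∧
          ∃ P : MvPolynomial (Fin 3) (Om k), P ≠ 0 ∧ P.IsHomogeneous s ∧ (∀ e ∈ E, G.ev3 P * e = 0) ∧
            ∀ p : MvPolynomial (Fin 3) (Om k), p.IsHomogeneous (G.j - m - i) →
              (∀ e ∈ E, G.ev3 p * e = 0) →
              ∃ q : MvPolynomial (Fin 3) (Om k), q.IsHomogeneous (G.j - m - i - s) ∧ p = P * q)) := by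
  classical
  have hgen := fun d => hGenL k d (JJ G E d) (fun p hp => hp.1)
  choose B hB using hgen
  obtain ⟨n, hn⟩ := Infinite.exists_notMem_finset
    (insert 0 ((Finset.range (G.j - m + 1)).biUnion B))
  have hn0 : n ≠ 0 := fun h => hn (h ▸ Finset.mem_insert_self _ _)
  have hnB : ∀ d ≤ G.j - m, n ∉ B d := by
    intro d hd h
    exact hn (Finset.mem_insert_of_mem (Finset.mem_biUnion.2 ⟨d, Finset.mem_range.2 (by omega), h⟩))
  have hGen : (mkPl G m hm E hE hk n).Gen := gen_mk G m hm E hE hk n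
    (fun d hd => (hB d n (hnB d hd)).1) (fun d hd => (hB d n (hnB d hd)).2)
  have hp := hPlat _ _ (mkPl G m hm E hE hk n) hT hneg hGen
  generalize hD : mkPl G m hm E hE hk n = D at hp
  have hDG : D.G = G := by rw [← hD]; rfl
  have hDE : D.E = E := by rw [← hD]; rfl
  have hDN : D.N = G.j - m := by rw [← hD]; rfl
  have hDJ : ∀ d, D.J d = JJ G E d := by intro d; rw [← hD, J_mk]
  have hDz : D.z = G.x 2 - (yl k n 0 • G.x 0 + yl k n 1 • G.x 1) := by
    unfold Pl.z
    rw [hDG]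
    rw [← hD, y_mk]
  obtain ⟨i, s, hp1, hp2, hp3, hp4, hp5, hp6⟩ := hp
  rw [hDN] at hp1 hp4 hp6
  rw [hDG, hDE] at hp2 hp3 hp4 hp5 hp6
  refine ⟨n, D.z, i, s, hn0, ?_, ?_, hp1, hp2, hp3, hp4, hp5, ?_⟩
  · rw [hDz]
    exact sub_mem (G4.x_mem G _) (add_mem (Submodule.smul_mem _ _ (G4.x_mem G _))
      (Submodule.smul_mem _ _ (G4.x_mem G _)))
  · intro a
    symm
    rw [hDz]
    exact ml_eq_of_smul (delta_ne hn0) (fun v hv => wn_mul G hn0 (yl k n) rfl (kill_mul hk v hv))
  · rcases hp6 with h | ⟨h1, h2, P, hP0, hPs, hPE, hPJ⟩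
    · exact Or.inl h
    · exact Or.inr ⟨h1, h2, P, hP0, hPs, hPE, fun p hp hpE => hPJ p (by
        rw [hDJ]
        exact ⟨hp, hpE⟩)⟩

theorem core (hGrow : SpecGrow.{u, v}) (hDual : SpecDual.{u, v}) (hSq : SpecSq.{u, v})
    (hUp : SpecUp.{u, v}) (hChi : SpecChi.{u, v}) (hPC : SpecPCons.{u, v}) (hLow : SpecLow.{u, v})
    (hGrowV : SpecGrowV.{u, v}) (hFamSym : SpecFamSym.{u, v}) (hPlat : SpecPlat.{u, v})
    (hGenL : SpecGenL.{u}) (hCaseA : SpecCaseA.{u, v}) (hN1 : SpecNum1) (hNA : SpecNumA)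
    (hNB : SpecNumB) [Infinite (Om k)] (G : G4 (Om k) A) (S : SymA G) (m : ℕ) (h2 : 2 * m + 2 ≤ G.j)
    (hU : G.Uni)
    (hdrop : finrank (Om k) (G.L ^ (m + 1) : Submodule (Om k) A) <
      finrank (Om k) (G.L ^ m : Submodule (Om k) A)) : False := by
  have hW : ∀ n, finrank (Om k) (G.L * Wn G m n : Submodule (Om k) A) < finrank (Om k) (Wn G m n) :=
    fun n => hGrow _ _ G m h2 hU hdrop _ (ev_wp_mem G n)
  obtain ⟨Y, hcan, hfam, heq⟩ := hFamSym k A G S m hW
  have hVle : (⨆ n, Y n : Submodule (Om k) A) ≤ G.L ^ m := iSup_le hfam.le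
  have hV2 := sq_iSup (fun n n' =>
    hSq _ _ G.toGD m (Y n) (Y n') (by omega) (hfam.le n) (hfam.le n') (hfam.tight n) (hfam.tight n'))
  have hup := hUp _ _ G m (⨆ n, Y n) (by omega) hVle hV2
  have hm : m ≤ G.j := by omega
  obtain ⟨n, z, i, s, hn0, hzL, hml, hp1, hp2, hp3, hp4, hp5, hp6⟩ :=
    exists_profile hPlat hGenL G m hm (Y 0) (hfam.le 0) (hfam.kill 0) (hfam.tight 0) (hfam.neg 0)
  have hkk : ∀ a, kk G.L (Y 0) (G.ev (wp k 1)) a = kk G.L (Y 0) z a := by
    intro a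
    have h1 := hfam.s2 a 0 n hn0
    unfold kk
    rw [hml a, h1]
  have hfg0 : (Y 0).FG := (hfam.tight 0).1
  -- numerical hypotheses
  have hlow := hLow _ _ G.toGD m _ Y hfam
  have hlow2 : ∑ c ∈ Finset.range (G.j - m + 1),
      ((∑ a ∈ Finset.Ico c (G.j - m + 1), bb G.L (Y 0) z a) -
      ∑ a ∈ Finset.range (G.j - m + 1), kk G.L (Y 0) z a) ≤
        finrank (Om k) (⨆ n, Y n : Submodule (Om k) A) := by
    refine le_trans (le_of_eq ?_) hlow
    refine Finset.sum_congr rfl (fun c hc => ?_)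
    have h1 := sub_rel G.toGD hfg0 hm (hfam.le 0) hzL (b := c) (by
      have := Finset.mem_range.1 hc; omega)
    have h3 : ∑ a ∈ Finset.range c, kk G.L (Y 0) (G.ev (wp k 1)) a =
        ∑ a ∈ Finset.range c, kk G.L (Y 0) z a := Finset.sum_congr rfl (fun a _ => hkk a)
    rw [← h1]
    change _ = yy G.L (Y 0) c - ∑ a ∈ Finset.range c, kk G.L (Y 0) (G.ev (wp k 1)) a
    rw [h3]
  have hK : ∀ a, kk G.L (Y 0) z (a + 1) = 0 ∨ kk G.L (Y 0) z (a + 1) + 1 ≤ kk G.L (Y 0) z a :=
    (hPC _ _ G.L (Y 0) G.fg (hfam.tight 0)).2.2.1 _ hzL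
  have h3' := hGrowV _ _ G.toGD m _ Y hfam i
  have h3 : finrank (Om k) (G.L ^ i * (⨆ n, Y n) : Submodule (Om k) A) +
      (i - kk G.L (Y 0) z 0) * yy G.L (Y 0) i ≤ finrank (Om k) (⨆ n, Y n : Submodule (Om k) A) := by
    rw [← hkk 0]
    exact h3'
  have hz : ∑ a ∈ Finset.Ico i (G.j - m + 1), kk G.L (Y 0) z a = 0 :=
    Finset.sum_eq_zero (fun a ha => hp5 a (Finset.mem_Ico.1 ha).1)
  have h4 := sum_rel G.toGD hfg0 hm (hfam.le 0) hzL (G.j - m + 1 - i) i (by omega)
  have h4' : yy G.L (Y 0) i = ∑ a ∈ Finset.Ico i (G.j - m + 1), bb G.L (Y 0) z a := by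
    rw [← h4, hz, add_zero]
  rw [h4'] at h3
  have hA : G.kil (⨆ n, Y n) (G.j - m - i) ≠ ⊥ →
      (kk G.L (Y 0) z 0 + i + 1 ≤ s ∧ i + s + 1 ≤ G.j - m ∧
          ∃ P : MvPolynomial (Fin 3) (Om k), P ≠ 0 ∧ P.IsHomogeneous s ∧ (∀ e ∈ Y 0, G.ev3 P * e = 0) ∧
            ∀ p : MvPolynomial (Fin 3) (Om k), p.IsHomogeneous (G.j - m - i) →
              (∀ e ∈ Y 0, G.ev3 p * e = 0) →
              ∃ q : MvPolynomial (Fin 3) (Om k), q.IsHomogeneous (G.j - m - i - s) ∧ p = P * q) →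
      2 * finrank (Om k) (⨆ n, Y n : Submodule (Om k) A) + (G.j - m + 3 - s).choose 3 +
        (m + 3 - 2 * s).choose 3 ≤ (G.j - m + 3).choose 3 + (m + 3 - s).choose 3 := by
    intro hkil ⟨hs1, hs2, P, hP0, hPs, hPE, hPJ⟩
    obtain ⟨f, hf, hf0⟩ := Submodule.exists_mem_ne_zero_of_ne_bot hkil
    have hse : s + (G.j - m - i - s) = G.j - m - i := by omega
    obtain ⟨Q, hQ0, hQs, hQV⟩ := hCaseA k A G S Y hfam.kill heq hfam.s3 s (G.j - m - i - s) P hP0 hPs
      hPE (by rw [hse]; exact hPJ) f hf0 (by rw [hse]; exact hf.1) hf.2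
    exact hChi _ _ G m _ h2 hU hVle hV2 s Q (by omega) hQs hQ0 hQV
  have hB : G.kil (⨆ n, Y n) (G.j - m - i) = ⊥ →
      finrank (Om k) (G.L ^ i * (⨆ n, Y n) : Submodule (Om k) A) = (G.j - m - i + 3).choose 3 := by
    intro hkil
    have h1 := hDual _ _ G m (⨆ n, Y n) hm hVle i (by omega)
    rw [hkil, finrank_bot, add_zero] at h1
    exact h1
  clear h4 h4' hz h3' hlow hml hV2 hVle hW heq hcan hfam
  generalize finrank (Om k) (⨆ n, Y n : Submodule (Om k) A) = v at *
  generalize bb G.L (Y 0) z = b at *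
  generalize kk G.L (Y 0) z = κ at *
  have hnum : NumH (G.j - m + 1) i s v b κ := ⟨by omega, hp1, hp2, hp3, hp4, hK, hp5, hlow2⟩
  have e3 : G.j - m + 1 + 2 = G.j - m + 3 := by omega
  rcases Nat.lt_or_ge (2 * s) (G.j - m + 1) with hs | hs
  · -- small `s`
    have hp6' := hp6.resolve_left (by omega)
    have hs1 := hp6'.1
    have hs2 := hp6'.2.1
    by_cases hkil : G.kil (⨆ n, Y n) (G.j - m - i) = ⊥
    · -- case B
      have h1 := hB hkil
      rw [h1] at h3
      have e4 : G.j - m + 1 - i + 2 = G.j - m - i + 3 := by omega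
      have h5 := hNB (G.j - m + 1) i s v b κ hnum (by omega) hs1 (by omega) (by rw [e4]; exact h3)
      rw [e3] at h5
      omega
    · -- case A
      have h1 := hA hkil hp6'
      have h5 := hNA (G.j - m + 1) i s v m b κ hnum (by omega) hs1 (by omega) (by omega)
      rw [e3] at h5
      omega
  · -- large `s`
    have h5 := hN1 (G.j - m + 1) i s v b κ hnum hs (by
      rcases hp6 with h | h
      · exact Or.inl h
      · exact Or.inr h.1)
    rw [e3] at h5
    omega

end conc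

lemma infinite_Om (k : Type u) [Field k] : Infinite (Om k) := by
  have h : Function.Injective (fun n : ℕ => xx k n 0) := by
    intro n n' h
    have h1 := IsFractionRing.injective (Sx k) (Om k) h
    have h2 := MvPolynomial.X_injective h1
    exact (Prod.ext_iff.1 h2).1
  exact Infinite.of_injective _ h

end MainM

open MainM in
/-- MAIN. -/
theorem specMain (hGrow : SpecGrow.{u, u}) (hDual : SpecDual.{u, u}) (hSq : SpecSq.{u, u})
    (hUp : SpecUp.{u, u}) (hChi : SpecChi.{u, u}) (hPC : SpecPCons.{u, u}) (hLow : SpecLow.{u, u})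
    (hGrowV : SpecGrowV.{u, u}) (hFamSym : SpecFamSym.{u, u}) (hPlat : SpecPlat.{u, u})
    (hGenL : SpecGenL.{u}) (hCaseA : SpecCaseA.{u, u}) (hAlg : SpecAlg.{u}) (hSymAlg : SpecSymAlg.{u})
    (hN1 : SpecNum1) (hNA : SpecNumA) (hNB : SpecNumB) : SpecMain.{u} := by
  intro j
  induction j using Nat.strong_induction_on with
  | _ j ih =>
    intro k _ Λ m hm
    by_contra hlt
    push Not at hlt
    have hinf := infinite_Om k
    obtain ⟨G, hGj, hGx, hGH, hGf⟩ := hAlg (Om k) (up (Om k) Λ) j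
    obtain ⟨S⟩ := hSymAlg k Λ j G hGx
    have h2 : 2 * m + 2 ≤ G.j := by rw [hGj]; exact hm
    have hdrop : finrank (Om k) (G.L ^ (m + 1) : Submodule (Om k) (AL (up (Om k) Λ) j)) <
        finrank (Om k) (G.L ^ m : Submodule (Om k) (AL (up (Om k) Λ) j)) := by
      rw [hGH (m + 1) (by omega), hGH m (by omega), H_up, H_up]
      exact hlt
    have hU : G.Uni := by
      intro e he f hf d hd
      rw [hGj] at hd
      rw [hGf e f hf d (by omega), hGf e f hf (d + 1) (by omega)]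
      exact ih (j - e) (by omega) (Om k) (tw (up (Om k) Λ) f) d (by omega)
    exact core hGrow hDual hSq hUp hChi hPC hLow hGrowV hFamSym hPlat hGenL hCaseA hN1 hNA hNB
      G S m h2 hU hdrop

end MPcec
end

section
/-!
Problem MP_cec001_ag, module NUM1: the numerical inequality of the first case.
-/
set_option autoImplicit false

open Finset

namespace MPcec.Num1

/-- the profile -/
def be (M i s k t : ℕ) : ℤ := if t ≤ i then (k : ℤ) + t else min (s : ℤ) ((M : ℤ) + 1 - t)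

/-- tail sums of the profile -/
def SS (M i s k b : ℕ) : ℤ := ∑ t ∈ Ioc b M, be M i s k t

lemma SS_succ (M i s k b : ℕ) (h : b < M) :
    SS M i s k b = be M i s k (b + 1) + SS M i s k (b + 1) := by
  unfold SS
  have h1 : Ioc b M = insert (b + 1) (Ioc (b + 1) M) := by
    ext t
    simp only [mem_Ioc, mem_insert]
    omega
  rw [h1, sum_insert (by simp)]

lemma SS_self (M i s k : ℕ) : SS M i s k M = 0 := by simp [SS]

/-- closed form on the last part -/
lemma SS_last (M i s k : ℕ) (hi : i + s ≤ M) : ∀ c : ℕ, c ≤ s →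
    2 * SS M i s k (M - c) = (c : ℤ) * (c + 1) := by
  intro c
  induction c with
  | zero => intro _; simp [SS_self]
  | succ c ih =>
    intro hc
    have h1 := ih (by omega)
    rw [SS_succ M i s k (M - (c + 1)) (by omega)]
    have h2 : M - (c + 1) + 1 = M - c := by omega
    rw [h2]
    have h3 : be M i s k (M - c) = (c : ℤ) + 1 := by
      unfold be
      rw [if_neg (by omega)]
      have h4 : ((M - c : ℕ) : ℤ) = (M : ℤ) - c := by push_cast [show c ≤ M by omega]; ring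
      rw [h4]
      have h5 : (c : ℤ) + 1 ≤ s := by exact_mod_cast hc
      have h6 : (M : ℤ) + 1 - (M - c) = c + 1 := by ring
      rw [h6, min_eq_right h5]
    rw [h3]
    push_cast
    linarith

lemma SS_last' (M i s k b : ℕ) (hi : i + s ≤ M) (hb : M ≤ b + s) (hbM : b ≤ M) :
    2 * SS M i s k b = ((M : ℤ) - b) * ((M : ℤ) - b + 1) := by
  have h1 := SS_last M i s k hi (M - b) (by omega)
  have h2 : M - (M - b) = b := by omega
  rw [h2] at h1
  have h3 : ((M - b : ℕ) : ℤ) = (M : ℤ) - b := by push_cast [hbM]; ring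
  rw [h3] at h1
  exact h1

/-- closed form on the plateau -/
lemma SS_mid (M i s k r : ℕ) (hM : M = r + s) (hi : i ≤ r) : ∀ c : ℕ, c ≤ r - i →
    2 * SS M i s k (r - c) = 2 * (s : ℤ) * c + (s : ℤ) * (s + 1) := by
  intro c
  induction c with
  | zero =>
    intro _
    have h1 := SS_last' M i s k r (by omega) (by omega) (by omega)
    simp only [Nat.sub_zero]
    rw [h1, hM]
    push_cast
    ring
  | succ c ih =>
    intro hc
    have h1 := ih (by omega)
    rw [SS_succ M i s k (r - (c + 1)) (by omega)]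
    have h2 : r - (c + 1) + 1 = r - c := by omega
    rw [h2]
    have h3 : be M i s k (r - c) = (s : ℤ) := by
      unfold be
      rw [if_neg (by omega)]
      have h4 : ((r - c : ℕ) : ℤ) = (r : ℤ) - c := by push_cast [show c ≤ r by omega]; ring
      rw [h4, hM]
      push_cast
      rw [min_eq_left (by linarith)]
    rw [h3]
    push_cast
    linarith

lemma SS_mid' (M i s k r b : ℕ) (hM : M = r + s) (hi : i ≤ b) (hb : b ≤ r) :
    2 * SS M i s k b = 2 * (s : ℤ) * (r - b) + (s : ℤ) * (s + 1) := by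
  have h1 := SS_mid M i s k r hM (by omega) (r - b) (by omega)
  have h2 : r - (r - b) = b := by omega
  rw [h2] at h1
  have h3 : ((r - b : ℕ) : ℤ) = (r : ℤ) - b := by push_cast [hb]; ring
  rw [h3] at h1
  exact h1

/-- closed form on the first part -/
lemma SS_fst (M i s k r : ℕ) (hM : M = r + s) (hi : i ≤ r) : ∀ c : ℕ, c ≤ i →
    2 * SS M i s k (i - c) = 2 * (s : ℤ) * (r - i) + (s : ℤ) * (s + 1) + 2 * (k : ℤ) * c +
      ((i : ℤ) * (i + 1) - ((i : ℤ) - c) * ((i : ℤ) - c + 1)) := by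
  intro c
  induction c with
  | zero =>
    intro _
    have h1 := SS_mid' M i s k r i hM (le_refl _) hi
    simp only [Nat.sub_zero]
    rw [h1]
    push_cast
    ring
  | succ c ih =>
    intro hc
    have h1 := ih (by omega)
    rw [SS_succ M i s k (i - (c + 1)) (by omega)]
    have h2 : i - (c + 1) + 1 = i - c := by omega
    rw [h2]
    have h3 : be M i s k (i - c) = (k : ℤ) + (i - c) := by
      unfold be
      rw [if_pos (by omega)]
      push_cast [show c ≤ i by omega]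
      ring
    rw [h3]
    push_cast
    linarith

lemma SS_fst' (M i s k r b : ℕ) (hM : M = r + s) (hi : i ≤ r) (hb : b ≤ i) :
    2 * SS M i s k b = 2 * (s : ℤ) * (r - i) + (s : ℤ) * (s + 1) + 2 * (k : ℤ) * (i - b) +
      ((i : ℤ) * (i + 1) - (b : ℤ) * (b + 1)) := by
  have h1 := SS_fst M i s k r hM hi (i - b) (by omega)
  have h2 : i - (i - b) = b := by omega
  rw [h2] at h1
  have h3 : ((i - b : ℕ) : ℤ) = (i : ℤ) - b := by push_cast [hb]; ring
  rw [h3] at h1
  rw [h1]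
  ring

/-- telescoping -/
lemma tele (f P : ℕ → ℤ) (a n : ℕ) (han : a ≤ n)
    (h : ∀ b, a ≤ b → b < n → f b = P (b + 1) - P b) : ∑ b ∈ Ico a n, f b = P n - P a := by
  induction n, han using Nat.le_induction with
  | base => simp
  | succ n han ih =>
    rw [sum_Ico_succ_top han, ih (fun b hb hbn => h b hb (by omega)), h n han (by omega)]
    ring

/-- the sum of the tail sums up to `B` -/
lemma sum_SS (M i s k r B : ℕ) (hM : M = r + s) (hi : i ≤ r) (hB : r ≤ B) (hBM : B ≤ M) :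
    12 * ∑ b ∈ range B, SS M i s k b =
      12 * i * s * (r - i) + 6 * i * s * (s + 1) + 6 * k * i * (i + 1) +
        2 * i * (i + 1) * (2 * i + 1) +
      (6 * s * (r - i) * (r - i + 1) + 6 * (r - i) * s * (s + 1)) +
      (2 * s * (s + 1) * (s + 2) - 2 * ((M : ℤ) - B) * (M - B + 1) * (M - B + 2)) := by
  have e1 : ∑ b ∈ Ico 0 i, 12 * SS M i s k b = 12 * i * s * (r - i) + 6 * i * s * (s + 1) +
      6 * k * i * (i + 1) + 2 * i * (i + 1) * (2 * i + 1) := by
    rw [tele (fun b => 12 * SS M i s k b) (fun n => (n : ℤ) * (12 * s * (r - i) +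
      6 * s * (s + 1) + 12 * k * i + 6 * i * (i + 1)) - 6 * k * n * (n - 1) -
      2 * (n - 1) * n * (n + 1)) 0 i (Nat.zero_le _) ?_]
    · push_cast
      ring
    · intro b _ hb
      have h1 := SS_fst' M i s k r b hM hi hb.le
      push_cast
      linarith
  have e2 : ∑ b ∈ Ico i r, 12 * SS M i s k b =
      6 * s * (r - i) * (r - i + 1) + 6 * (r - i) * s * (s + 1) := by
    rw [tele (fun b => 12 * SS M i s k b) (fun n => (n : ℤ) * (12 * s * r +
      6 * s * (s + 1)) - 6 * s * n * (n - 1)) i r hi ?_]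
    · push_cast
      ring
    · intro b hb hbr
      have h1 := SS_mid' M i s k r b hM hb hbr.le
      push_cast
      linarith
  have e3 : ∑ b ∈ Ico r B, 12 * SS M i s k b =
      2 * s * (s + 1) * (s + 2) - 2 * ((M : ℤ) - B) * (M - B + 1) * (M - B + 2) := by
    rw [tele (fun b => 12 * SS M i s k b) (fun n => - 2 * ((M : ℤ) - n) * (M - n + 1) *
      (M - n + 2)) r B hB ?_]
    · rw [hM]
      push_cast
      ring
    · intro b hb hbr
      have h1 := SS_last' M i s k b (by omega) (by omega) (by omega)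
      push_cast
      linarith
  have e4 : ∑ b ∈ range B, 12 * SS M i s k b = ∑ b ∈ Ico 0 i, 12 * SS M i s k b +
      ∑ b ∈ Ico i r, 12 * SS M i s k b + ∑ b ∈ Ico r B, 12 * SS M i s k b := by
    rw [sum_Ico_consecutive _ (Nat.zero_le _) hi, sum_Ico_consecutive _ (Nat.zero_le _) hB,
      range_eq_Ico]
  rw [mul_sum, e4, e1, e2, e3]

/-- the loss -/
def K0 (i k : ℕ) : ℤ := ∑ t ∈ range (min i k), ((k : ℤ) - t)

lemma two_sum_sub (k n : ℕ) : 2 * ∑ t ∈ range n, ((k : ℤ) - t) = 2 * n * k - n * (n - 1) := by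
  induction n with
  | zero => simp
  | succ n ih =>
    rw [sum_range_succ, mul_add, ih]
    push_cast
    ring

lemma K0_le (i k : ℕ) (h : k ≤ i) : 2 * K0 i k = (k : ℤ) * (k + 1) := by
  rw [K0, min_eq_right h, two_sum_sub]
  ring

lemma K0_ge (i k : ℕ) (h : i ≤ k) : 2 * K0 i k = 2 * (i : ℤ) * k - i * (i - 1) := by
  rw [K0, min_eq_left h, two_sum_sub]

/-- `6 C(n+2,3) = n (n+1) (n+2)` -/
lemma choose3 (n : ℕ) : 6 * ((n + 2).choose 3 : ℤ) = (n : ℤ) * (n + 1) * (n + 2) := by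
  induction n with
  | zero => simp
  | succ n ih =>
    have h1 : (n + 1 + 2).choose 3 = (n + 2).choose 2 + (n + 2).choose 3 := by
      rw [Nat.choose_succ_succ' (n + 2) 2]
    have h2 : 2 * ((n + 2).choose 2 : ℤ) = (n + 1) * (n + 2) := by
      have h3 := Nat.choose_two_right (n + 2)
      have h4 : (n + 2) * (n + 2 - 1) / 2 * 2 = (n + 2) * (n + 2 - 1) :=
        Nat.div_mul_cancel (Nat.even_mul_pred_self _).two_dvd
      have h5 : (n + 2 - 1) = n + 1 := by omega
      rw [h5] at h3 h4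
      rw [h3]
      have h6 : (2 : ℤ) * (((n + 2) * (n + 1) / 2 : ℕ) : ℤ) =
          (((n + 2) * (n + 1) / 2 * 2 : ℕ) : ℤ) := by push_cast; ring
      rw [h6, h4]
      push_cast
      ring
    rw [h1]
    push_cast
    linarith

/-- the polynomial inequality in the first region -/
lemma poly1 (k w v u : ℤ) (hk : 0 ≤ k) (hw : 0 ≤ w) (hv : 0 ≤ v) (hu : 0 ≤ u)
    (h3 : 3 ≤ 2 * (k + w + v) + u) (h : v = 0 ∨ k + 1 ≤ v + u) :
    0 < 72*k*u*v + 24*k*u*w + 18*k*u^2 + 48*k*v*w + 48*k*v^2 + 48*k*w^2 + 48*k^2*w + 8*k^3 +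
      72*u*v*w + 36*u*v^2 + 12*u*w^2 + 18*u^2*v + 18*u^2*w + 3*u^3 + 24*v*w^2 + 48*v^2*w +
      16*v^3 + 8*w^3 - 12*k*u - 48*k*v + 24*u*v + 6*u^2 - 24*v*w - 8*k - 16*v - 8*w := by
  have sq : ∀ x : ℤ, 0 ≤ x → 0 ≤ x ^ 2 - x := by
    intro x hx
    rcases hx.eq_or_lt with h0 | h0
    · rw [← h0]; norm_num
    · nlinarith
  have cu : ∀ x : ℤ, 0 ≤ x → 0 ≤ x ^ 3 - x := by
    intro x hx
    rcases hx.eq_or_lt with h0 | h0
    · rw [← h0]; norm_num
    · nlinarith [mul_nonneg hx (sq x hx), sq x hx]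
  have a1 := mul_nonneg hk (sq v hv)
  have a2 := mul_nonneg hk (sq u hu)
  have a3 := mul_nonneg hw (sq v hv)
  have b1 := cu k hk
  have b2 := cu w hw
  have b3 := cu v hv
  have c1 : 0 ≤ k * u := mul_nonneg hk hu
  have c2 : 0 ≤ v * w := mul_nonneg hv hw
  have c3 : 0 ≤ k * u * v := mul_nonneg c1 hv
  have c4 : 0 ≤ k * u * w := mul_nonneg c1 hw
  have c5 : 0 ≤ k * v * w := mul_nonneg (mul_nonneg hk hv) hw
  have c6 : 0 ≤ k * w ^ 2 := by positivity
  have c7 : 0 ≤ k ^ 2 * w := by positivity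
  have c8 : 0 ≤ u * v * w := by positivity
  have c9 : 0 ≤ u * v ^ 2 := by positivity
  have c10 : 0 ≤ u * w ^ 2 := by positivity
  have c11 : 0 ≤ u ^ 2 * v := by positivity
  have c12 : 0 ≤ u ^ 2 * w := by positivity
  have c13 : 0 ≤ v * w ^ 2 := by positivity
  have c14 : 0 ≤ u * v := mul_nonneg hu hv
  have c15 : 0 ≤ v ^ 2 * w := by positivity
  have c16 : 0 ≤ u ^ 3 := by positivity
  rcases hu.eq_or_lt with h0 | h0
  · -- `u = 0`
    subst h0
    have a3' : 0 ≤ v ^ 2 * w - v * w := by linarith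
    -- positivity of a cubic
    by_cases hk2 : 2 ≤ k
    · have : 0 < k ^ 3 - k := by nlinarith
      nlinarith
    by_cases hw2 : 2 ≤ w
    · have : 0 < w ^ 3 - w := by nlinarith
      nlinarith
    by_cases hv2 : 2 ≤ v
    · have : 0 < v ^ 3 - v := by nlinarith
      nlinarith
    have hk' : k = 0 ∨ k = 1 := by omega
    have hw' : w = 0 ∨ w = 1 := by omega
    have hv' : v = 0 ∨ v = 1 := by omega
    rcases hk' with rfl | rfl <;> rcases hw' with rfl | rfl <;> rcases hv' with rfl | rfl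
    all_goals first
      | (exfalso; omega)
      | norm_num
  · have : 0 < u ^ 3 := by positivity
    nlinarith

/-- the polynomial inequality in the second region -/
lemma poly2 (i v u : ℤ) (hi : 0 ≤ i) (hv : 0 ≤ v) (hu : 0 ≤ u) (h3 : 3 ≤ 2 * (i + v) + u)
    (h : ¬ (i = 1 ∧ v = 1 ∧ u = 0)) :
    0 < - 6*i*u^2 + 24*i^2*v + 32*i^3 + 36*u*v^2 + 18*u^2*v + 3*u^3 + 16*v^3 + 12*i*u -
      24*i*v - 24*i^2 + 24*u*v + 6*u^2 - 8*i - 16*v := by
  have sq : ∀ x : ℤ, 0 ≤ x → 0 ≤ x ^ 2 - x := by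
    intro x hx
    rcases hx.eq_or_lt with h0 | h0
    · rw [← h0]; norm_num
    · nlinarith
  have cu : ∀ x : ℤ, 0 ≤ x → 0 ≤ x ^ 3 - x := by
    intro x hx
    rcases hx.eq_or_lt with h0 | h0
    · rw [← h0]; norm_num
    · nlinarith [mul_nonneg hx (sq x hx), sq x hx]
  have a1 : 0 ≤ i ^ 2 * v - i * v := by nlinarith [mul_nonneg hv (sq i hi)]
  have b3 := cu v hv
  have c9 : 0 ≤ u * v ^ 2 := by positivity
  have c11 : 0 ≤ u ^ 2 * v := by positivity
  have c14 : 0 ≤ u * v := mul_nonneg hu hv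
  have ciu : 0 ≤ i * u := mul_nonneg hi hu
  by_cases hi2 : 2 ≤ i
  · -- `3u³ - 6iu² + 6 i³ ≥ 0`
    have d1 : 0 ≤ 3 * u ^ 3 - 6 * i * u ^ 2 + 6 * i ^ 3 := by
      rcases le_total u (2 * i) with h1 | h1
      · nlinarith [mul_nonneg hu (sq_nonneg (u - i)), mul_nonneg (sq_nonneg i)
          (sub_nonneg.2 h1)]
      · have : 0 ≤ 3 * u ^ 2 * (u - 2 * i) :=
          mul_nonneg (by positivity) (by linarith)
        have h2 : 0 ≤ i ^ 3 := by positivity
        nlinarith
    have d2 : 0 < 26 * i ^ 3 - 24 * i ^ 2 - 8 * i := by nlinarith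
    nlinarith [sq_nonneg u]
  · have hi' : i = 0 ∨ i = 1 := by omega
    rcases hi' with rfl | rfl
    · -- `i = 0`
      rcases hu.eq_or_lt with h0 | h0
      · subst h0
        have hv2 : 2 ≤ v := by omega
        have : 0 < v ^ 3 - v := by nlinarith
        nlinarith
      · have : 0 < u ^ 3 := by positivity
        nlinarith [sq_nonneg u]
    · -- `i = 1`
      by_cases hu2 : 2 ≤ u
      · have : 0 ≤ 3 * u ^ 2 * (u - 2) := mul_nonneg (by positivity) (by linarith)
        nlinarith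
      · have hu' : u = 0 ∨ u = 1 := by omega
        rcases hu' with rfl | rfl
        · have hv2 : 2 ≤ v := by
            by_contra hlt
            have : v = 0 ∨ v = 1 := by omega
            rcases this with rfl | rfl
            · norm_num at h3
            · exact h ⟨rfl, rfl, rfl⟩
          have : 0 < v ^ 3 - v := by nlinarith
          nlinarith
        · nlinarith

/-- the value `F₀` -/
def F0 (i r s k tw : ℤ) : ℤ :=
  4 * (12 * i * s * (r - i) + 6 * i * s * (s + 1) + 6 * k * i * (i + 1) +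
      2 * i * (i + 1) * (2 * i + 1)) +
    4 * (6 * s * (r - i) * (r - i + 1) + 6 * (r - i) * s * (s + 1)) +
    (8 * s * (s + 1) * (s + 2) - (r + s) * (r + s + 2) * (r + s + 4)) - 12 * (r + s) * tw -
    4 * (r + s) * (r + s + 1) * (r + s + 2)

lemma F0_pos1 (i r s k : ℤ) (hk : 0 ≤ k) (hki : k ≤ i) (hir : i ≤ r) (hrs : r ≤ s)
    (h3 : 3 ≤ r + s) (h : r = i ∨ k + i + 1 ≤ s) : 0 < F0 i r s k (k * (k + 1)) := by
  have h1 := poly1 k (i - k) (r - i) (s - r) hk (by linarith) (by linarith) (by linarith)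
    (by linarith) (by
      rcases h with h | h
      · left; linarith
      · right; linarith)
  refine lt_of_lt_of_eq h1 ?_
  unfold F0
  ring

lemma F0_pos2 (i r s k : ℤ) (hi : 0 ≤ i) (hki : i ≤ k) (hir : i ≤ r) (hrs : r ≤ s)
    (h3 : 3 ≤ r + s) (h4 : k + i ≤ s) (h : r = i ∨ k + i + 1 ≤ s) :
    0 < F0 i r s k (2 * i * k - i * (i - 1)) := by
  have h1 := poly2 i (r - i) (s - r) hi (by linarith) (by linarith) (by linarith) (by
    rintro ⟨e1, e2, e3⟩
    rcases h with h | h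
    · linarith
    · linarith)
  have h5 : F0 i r s k (2 * i * k - i * (i - 1)) =
      (- 6*i*(s - r)^2 + 24*i^2*(r - i) + 32*i^3 + 36*(s - r)*(r - i)^2 +
        18*(s - r)^2*(r - i) + 3*(s - r)^3 + 16*(r - i)^3 + 12*i*(s - r) -
        24*i*(r - i) - 24*i^2 + 24*(s - r)*(r - i) + 6*(s - r)^2 - 8*i - 16*(r - i)) +
      24 * i * (r + s - i - 1) * (s - i - k) := by
    unfold F0
    ring
  rw [h5]
  have h6 : 0 ≤ 24 * i * (r + s - i - 1) * (s - i - k) := by
    refine mul_nonneg (mul_nonneg (by linarith) ?_) (by linarith)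
    linarith
  linarith

/-- **NUM1** -/
theorem num1 (M i s k : ℕ) (hM : 3 ≤ M) (h1 : M ≤ 2 * s) (h2 : s + i ≤ M)
    (h3 : s + i = M ∨ k + i + 1 ≤ s) (h4 : k + i ≤ s) :
    ((M + 2).choose 3 : ℤ) < 2 * ∑ b ∈ range ((M + 1) / 2), (SS M i s k b - K0 i k) := by
  obtain ⟨r, hr⟩ : ∃ r, M = r + s := ⟨M - s, by omega⟩
  set B : ℕ := (M + 1) / 2 with hB
  have hsum := sum_SS M i s k r B hr (by omega) (by omega) (by omega)
  have hc := choose3 M
  rw [sum_sub_distrib, sum_const, card_range, nsmul_eq_mul]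
  have hMr : (M : ℤ) = r + s := by rw [hr]; push_cast; ring
  have hir : (i : ℤ) ≤ r := by exact_mod_cast (show i ≤ r by omega)
  have hrs : (r : ℤ) ≤ s := by exact_mod_cast (show r ≤ s by omega)
  have h3' : (3 : ℤ) ≤ r + s := by rw [← hMr]; exact_mod_cast hM
  have h4' : (k : ℤ) + i ≤ s := by exact_mod_cast h4
  have hor : (r : ℤ) = i ∨ (k : ℤ) + i + 1 ≤ s := by
    rcases h3 with h | h
    · left; exact_mod_cast (show r = i by omega)
    · right; exact_mod_cast h
  have hk0 : (0 : ℤ) ≤ k := by positivity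
  have hi0 : (0 : ℤ) ≤ i := by positivity
  -- the key inequality, with `tw = 2 K0`
  obtain ⟨tw, htw, hF, htwM⟩ : ∃ tw : ℤ, 2 * K0 i k = tw ∧ 0 < F0 i r s k tw ∧
      12 * tw ≤ 3 * (r + s : ℤ) ^ 2 + 9 * (r + s) + 3 := by
    rcases le_total k i with hki | hki
    · have hki' : (k : ℤ) ≤ i := by exact_mod_cast hki
      refine ⟨_, K0_le i k hki, F0_pos1 i r s k hk0 hki' hir hrs h3' hor, ?_⟩
      have e1 : 3 * (k : ℤ) ≤ r + s := by linarith
      nlinarith
    · have hki' : (i : ℤ) ≤ k := by exact_mod_cast hki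
      refine ⟨_, K0_ge i k hki, F0_pos2 i r s k hi0 hki' hir hrs h3' h4' hor, ?_⟩
      have e1 : (k : ℤ) ≤ (r + s) - 2 * i := by linarith
      have e2 : (i : ℤ) * k ≤ i * ((r + s) - 2 * i) := mul_le_mul_of_nonneg_left e1 hi0
      have e3 : 2 * (i : ℤ) ≤ r + s := by linarith
      nlinarith [sq_nonneg ((r + s : ℤ) - 4 * i), sq_nonneg (i : ℤ)]
  rcases Nat.even_or_odd' M with ⟨q, hq | hq⟩
  · -- even
    have hBq : B = q := by omega
    have hMq : (r : ℤ) + s = 2 * q := by rw [← hMr, hq]; push_cast; ring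
    rw [hBq] at hsum ⊢
    have hr' : (r : ℤ) = 2 * q - s := by linarith
    have e : 2 * ((q : ℤ) * K0 i k) = q * tw := by rw [← htw]; ring
    unfold F0 at hF
    rw [hMr] at hsum hc
    rw [hr'] at hsum hc hF
    linarith
  · have hBq : B = q + 1 := by omega
    have hMq : (r : ℤ) + s = 2 * q + 1 := by rw [← hMr, hq]; push_cast; ring
    rw [hBq] at hsum ⊢
    have hr' : (r : ℤ) = 2 * q + 1 - s := by linarith
    have e : 2 * (((q : ℤ) + 1) * K0 i k) = (q + 1) * tw := by rw [← htw]; ring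
    unfold F0 at hF
    rw [hMr] at hsum hc
    rw [hr'] at hsum hc hF htwM
    push_cast at hsum ⊢
    linarith

/-! ### the interface -/

/-- common reduction: the hypotheses `NumH` bound `v` by the model sums -/
lemma model (M i s v B : ℕ) (b κ : ℕ → ℕ) (h : NumH M i s v b κ) (hB : B ≤ M) :
    ∑ c ∈ range B, (SS M i s (κ 0) c - K0 i (κ 0)) ≤ (v : ℤ) := by
  obtain ⟨hM, his, hκs, hb1, hb2, hκ1, hκ2, hv⟩ := h
  -- the losses
  have hκa : ∀ a, κ a ≤ κ 0 - a := by
    intro a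
    induction a with
    | zero => simp
    | succ a ih =>
      rcases hκ1 a with h0 | h0
      · omega
      · omega
  have hK : ((∑ a ∈ range M, κ a : ℕ) : ℤ) ≤ K0 i (κ 0) := by
    have h1 : ∑ a ∈ range M, κ a = ∑ a ∈ range (min i (κ 0)), κ a := by
      symm
      apply sum_subset
      · intro a ha
        rw [mem_range] at ha ⊢
        have := min_le_left i (κ 0)
        omega
      · intro a _ ha
        rw [mem_range, not_lt, min_le_iff] at ha
        rcases ha with ha | ha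
        · exact hκ2 a ha
        · have := hκa a
          omega
    rw [h1, K0]
    push_cast
    apply sum_le_sum
    intro a ha
    rw [mem_range] at ha
    have h2 := hκa a
    have h3 : a < κ 0 := lt_of_lt_of_le ha (min_le_right _ _)
    have h4 : ((κ 0 - a : ℕ) : ℤ) = (κ 0 : ℤ) - a := by push_cast [h3.le]; ring
    rw [← h4]
    exact_mod_cast h2
  -- the tail sums
  have hS : ∀ c, c ≤ M → SS M i s (κ 0) c ≤ ((∑ a ∈ Ico c M, b a : ℕ) : ℤ) := by
    intro c hc
    have h1 : SS M i s (κ 0) c = ∑ a ∈ Ico c M, be M i s (κ 0) (a + 1) := by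
      unfold SS
      rw [sum_bij (fun t _ => t - 1)]
      · intro t ht
        rw [mem_Ioc] at ht
        rw [mem_Ico]
        omega
      · intro t ht t' ht' htt
        rw [mem_Ioc] at ht ht'
        omega
      · intro a ha
        rw [mem_Ico] at ha
        exact ⟨a + 1, by rw [mem_Ioc]; omega, by omega⟩
      · intro t ht
        rw [mem_Ioc] at ht
        congr 1
        omega
    rw [h1]
    push_cast
    apply sum_le_sum
    intro a ha
    rw [mem_Ico] at ha
    unfold be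
    by_cases hai : a + 1 ≤ i
    · rw [if_pos hai]
      have h2 := hb1 a (by omega)
      push_cast
      have h3 : ((κ 0 + 1 + a : ℕ) : ℤ) ≤ (b a : ℤ) := by exact_mod_cast h2
      push_cast at h3
      linarith
    · rw [if_neg hai]
      have h2 := hb2 a (by omega) ha.2
      have h3 : ((min s (M - a) : ℕ) : ℤ) ≤ (b a : ℤ) := by exact_mod_cast h2
      refine le_trans (le_of_eq ?_) h3
      push_cast [ha.2.le]
      congr 1
      ring
  set K : ℕ := ∑ a ∈ range M, κ a with hKdef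
  have h1 : ∑ c ∈ range B, (SS M i s (κ 0) c - K0 i (κ 0)) ≤
      ∑ c ∈ range B, ((((∑ a ∈ Ico c M, b a) - K : ℕ) : ℤ)) := by
    apply sum_le_sum
    intro c hc
    rw [mem_range] at hc
    have h2 := hS c (by omega)
    have h3 : ((∑ a ∈ Ico c M, b a : ℕ) : ℤ) - (K : ℤ) ≤
        (((∑ a ∈ Ico c M, b a) - K : ℕ) : ℤ) := by
      omega
    linarith
  refine h1.trans ?_
  have h4 : ∑ c ∈ range B, ((∑ a ∈ Ico c M, b a) - K) ≤
      ∑ c ∈ range M, ((∑ a ∈ Ico c M, b a) - K) := by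
    apply sum_le_sum_of_subset
    intro c hc
    rw [mem_range] at hc ⊢
    omega
  have h5 := h4.trans hv
  have h6 : ((∑ c ∈ range B, ((∑ a ∈ Ico c M, b a) - K) : ℕ) : ℤ) ≤ v := by exact_mod_cast h5
  rw [Nat.cast_sum] at h6
  exact h6

end MPcec.Num1

namespace MPcec

theorem specNum1 : SpecNum1 := by
  intro M i s v b κ h hMs hor
  have h1 := Num1.model M i s v ((M + 1) / 2) b κ h (by have := h.1; omega)
  have h2 := Num1.num1 M i s (κ 0) h.1 hMs (by have := h.2.1; omega)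
    (by rcases hor with h3 | h3 <;> omega) h.2.2.1
  have h3 : ((M + 2).choose 3 : ℤ) < ((2 * v : ℕ) : ℤ) := by
    push_cast
    linarith
  exact_mod_cast h3

end MPcec
end

section
/-!
Arithmetic of the cases A and B (elementary inequalities between binomial coefficients and
sums of the profile `β`).
-/
open Finset

namespace MPcec
namespace NumAB

theorem choose_two_int (n : ℕ) : (2 : ℤ) * (n.choose 2 : ℤ) = n * (n - 1) := by
  induction n with
  | zero => simp
  | succ n ih =>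
    rw [Nat.choose_succ_succ' n 1, Nat.choose_one_right]
    push_cast
    linarith

theorem choose_three_int (n : ℕ) : (6 : ℤ) * (n.choose 3 : ℤ) = n * (n - 1) * (n - 2) := by
  induction n with
  | zero => simp
  | succ n ih =>
    rw [Nat.choose_succ_succ' n 2]
    have := choose_two_int n
    push_cast
    nlinarith [this, ih]

theorem sum_id (a b : ℕ) (hab : a ≤ b) :
    2 * ∑ t ∈ Ioc a b, (t : ℤ) = b * (b + 1) - a * (a + 1) := by
  obtain ⟨c, rfl⟩ := Nat.exists_eq_add_of_le hab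
  induction c with
  | zero => simp
  | succ c ih =>
    rw [← Nat.add_assoc, Finset.sum_Ioc_succ_top (by omega), mul_add, ih (by omega)]
    push_cast
    ring

theorem sum_sq (a b : ℕ) (hab : a ≤ b) :
    6 * ∑ t ∈ Ioc a b, (t : ℤ) ^ 2 = b * (b + 1) * (2 * b + 1) - a * (a + 1) * (2 * a + 1) := by
  obtain ⟨c, rfl⟩ := Nat.exists_eq_add_of_le hab
  induction c with
  | zero => simp
  | succ c ih =>
    rw [← Nat.add_assoc, Finset.sum_Ioc_succ_top (by omega), mul_add, ih (by omega)]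
    push_cast
    ring

theorem sum_swap (M : ℕ) (β : ℕ → ℤ) :
    ∑ b ∈ range M, ∑ t ∈ Ioc b M, β t = ∑ t ∈ Ioc 0 M, (t : ℤ) * β t := by
  rw [Finset.sum_comm' (s' := fun t => range t) (t' := Ioc 0 M)]
  · refine Finset.sum_congr rfl fun t _ => ?_
    rw [Finset.sum_const, card_range, nsmul_eq_mul]
  · intro x y
    simp only [mem_range, mem_Ioc]
    omega

/-- Lower bound of the double sum. -/
theorem sum_bound (M s i k : ℕ) (β : ℕ → ℤ) (hs : 2 * s ≤ M) (hi : k + i + 1 ≤ s)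
    (h1 : ∀ t, 1 ≤ t → t ≤ i → (k : ℤ) + t ≤ β t)
    (h2 : ∀ t, i < t → t ≤ M → min (s : ℤ) (M + 1 - t) ≤ β t) :
    (3 * k * i * (i + 1) + i * (i + 1) * (2 * i + 1)
      + 3 * s * ((M + 1 - s) * (M + 2 - s) - i * (i + 1))
      + (3 * (M + 1) * (M * (M + 1) - (M + 1 - s) * (M + 2 - s))
        - (M * (M + 1) * (2 * M + 1) - (M + 1 - s) * (M + 2 - s) * (2 * (M + 1 - s) + 1))) : ℤ)
      ≤ 6 * ∑ b ∈ range M, ∑ t ∈ Ioc b M, β t := by
  rw [sum_swap]
  have e1 : Ioc 0 M = (Ioc 0 i ∪ Ioc i (M + 1 - s)) ∪ Ioc (M + 1 - s) M := by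
    rw [Ioc_union_Ioc_eq_Ioc (by omega) (by omega), Ioc_union_Ioc_eq_Ioc (by omega) (by omega)]
  have d1 : Disjoint (Ioc 0 i) (Ioc i (M + 1 - s)) := by
    rw [Finset.disjoint_left]; intro x; simp only [mem_Ioc]; omega
  have d2 : Disjoint (Ioc 0 i ∪ Ioc i (M + 1 - s)) (Ioc (M + 1 - s) M) := by
    rw [Finset.disjoint_left]; intro x; simp only [mem_Ioc, mem_union]; omega
  rw [e1, sum_union d2, sum_union d1]
  have b1 : ∑ t ∈ Ioc 0 i, ((k : ℤ) * t + (t : ℤ) ^ 2) ≤ ∑ t ∈ Ioc 0 i, (t : ℤ) * β t := by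
    refine sum_le_sum fun t ht => ?_
    have := h1 t (mem_Ioc.1 ht).1 (mem_Ioc.1 ht).2
    nlinarith [this, (Int.natCast_nonneg t)]
  have b2 : ∑ t ∈ Ioc i (M + 1 - s), (s : ℤ) * t ≤ ∑ t ∈ Ioc i (M + 1 - s), (t : ℤ) * β t := by
    refine sum_le_sum fun t ht => ?_
    have ht2 := mem_Ioc.1 ht
    have := h2 t ht2.1 (by omega)
    have h3 : (s : ℤ) ≤ M + 1 - t := by omega
    rw [min_eq_left h3] at this
    nlinarith [this, (Int.natCast_nonneg t)]
  have b3 : ∑ t ∈ Ioc (M + 1 - s) M, (((M : ℤ) + 1) * t - (t : ℤ) ^ 2)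
      ≤ ∑ t ∈ Ioc (M + 1 - s) M, (t : ℤ) * β t := by
    refine sum_le_sum fun t ht => ?_
    have ht2 := mem_Ioc.1 ht
    have := h2 t (by omega) (by omega)
    have h3 : (M : ℤ) + 1 - t ≤ s := by omega
    rw [min_eq_right h3] at this
    nlinarith [this, (Int.natCast_nonneg t)]
  have c1 := sum_id 0 i (by omega)
  have c2 := sum_sq 0 i (by omega)
  have c3 := sum_id i (M + 1 - s) (by omega)
  have c4 := sum_id (M + 1 - s) M (by omega)
  have c5 := sum_sq (M + 1 - s) M (by omega)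
  have hc : ((M + 1 - s : ℕ) : ℤ) = M + 1 - s := by omega
  rw [sum_add_distrib, ← mul_sum] at b1
  rw [← mul_sum] at b2
  rw [sum_sub_distrib, ← mul_sum] at b3
  rw [hc] at c3 c4 c5
  push_cast at c1 c2
  have f1 : 6 * ((k : ℤ) * ∑ t ∈ Ioc 0 i, (t : ℤ) + ∑ t ∈ Ioc 0 i, (t : ℤ) ^ 2)
      = 3 * k * i * (i + 1) + i * (i + 1) * (2 * i + 1) := by
    linear_combination 3 * (k : ℤ) * c1 + c2
  have f2 : 6 * ((s : ℤ) * ∑ t ∈ Ioc i (M + 1 - s), (t : ℤ))
      = 3 * s * ((M + 1 - s) * (M + 2 - s) - i * (i + 1)) := by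
    linear_combination 3 * (s : ℤ) * c3
  have f3 : 6 * (((M : ℤ) + 1) * ∑ t ∈ Ioc (M + 1 - s) M, (t : ℤ)
      - ∑ t ∈ Ioc (M + 1 - s) M, (t : ℤ) ^ 2)
      = 3 * (M + 1) * (M * (M + 1) - (M + 1 - s) * (M + 2 - s))
        - (M * (M + 1) * (2 * M + 1) - (M + 1 - s) * (M + 2 - s) * (2 * (M + 1 - s) + 1)) := by
    linear_combination 3 * ((M : ℤ) + 1) * c4 - c5
  linarith [b1, b2, b3, f1, f2, f3]

/-- Closed form of the defect bound. -/
theorem K_bound (i k : ℕ) :
    (i ≤ k → 2 * ∑ t ∈ Ioc 0 (min i k), ((k : ℤ) + 1 - t) = 2 * i * k - i * (i - 1)) ∧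
    (k ≤ i → 2 * ∑ t ∈ Ioc 0 (min i k), ((k : ℤ) + 1 - t) = k * (k + 1)) := by
  have key : ∀ n : ℕ, 2 * ∑ t ∈ Ioc 0 n, ((k : ℤ) + 1 - t) = 2 * n * (k + 1) - n * (n + 1) := by
    intro n
    have := sum_id 0 n (by omega)
    rw [sum_sub_distrib, sum_const, Nat.card_Ioc, nsmul_eq_mul, Nat.sub_zero]
    push_cast at this ⊢
    linarith
  constructor
  · intro hle
    rw [min_eq_left hle, key]
    ring
  · intro hle
    rw [min_eq_right hle, key]
    ring

end NumAB

open NumAB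

/-- NUMA. -/
theorem numA (M s i k : ℕ) (β : ℕ → ℤ) (K0 : ℤ) (hs : 2 * s ≤ M) (hi : k + i + 1 ≤ s)
    (h1 : ∀ t, 1 ≤ t → t ≤ i → (k : ℤ) + t ≤ β t)
    (h2 : ∀ t, i < t → t ≤ M → min (s : ℤ) (M + 1 - t) ≤ β t)
    (hK : K0 ≤ ∑ t ∈ Ioc 0 (min i k), ((k : ℤ) + 1 - t)) :
    (((M + 2).choose 3 : ℕ) : ℤ) + ((M - s).choose 3 : ℕ)
      < 2 * ∑ b ∈ range M, ((∑ t ∈ Ioc b M, β t) - K0)
        + ((M + 2 - s).choose 3 : ℕ) + ((M - 2 * s).choose 3 : ℕ) := by
  have hb := sum_bound M s i k β hs hi h1 h2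
  have hk := K_bound i k
  rw [sum_sub_distrib, sum_const, card_range, nsmul_eq_mul]
  have q1 := choose_three_int (M + 2)
  have q2 := choose_three_int (M - s)
  have q3 := choose_three_int (M + 2 - s)
  have q4 := choose_three_int (M - 2 * s)
  have w2 : ((M - s : ℕ) : ℤ) = (M : ℤ) - s := by omega
  have w3 : ((M + 2 - s : ℕ) : ℤ) = (M : ℤ) + 2 - s := by omega
  have w4 : ((M - 2 * s : ℕ) : ℤ) = (M : ℤ) - 2 * s := by omega
  rw [w2] at q2
  rw [w3] at q3
  rw [w4] at q4
  push_cast at q1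
  have hK2 := mul_le_mul_of_nonneg_left hK (Int.natCast_nonneg M)
  generalize (∑ b ∈ range M, ∑ t ∈ Ioc b M, β t) = X at *
  generalize (∑ t ∈ Ioc 0 (min i k), ((k : ℤ) + 1 - t)) = KS at *
  generalize (((M + 2).choose 3 : ℕ) : ℤ) = C1 at *
  generalize (((M - s).choose 3 : ℕ) : ℤ) = C2 at *
  generalize (((M + 2 - s).choose 3 : ℕ) : ℤ) = C3 at *
  generalize (((M - 2 * s).choose 3 : ℕ) : ℤ) = C4 at *
  have ha : ∃ a : ℤ, 0 ≤ a ∧ (s : ℤ) = k + i + 1 + a := ⟨s - (k + i + 1), by omega, by omega⟩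
  have hc : ∃ c : ℤ, 0 ≤ c ∧ (M : ℤ) = 2 * s + c := ⟨M - 2 * s, by omega, by omega⟩
  obtain ⟨a, ha0, ha⟩ := ha
  obtain ⟨c, hc0, hc⟩ := hc
  have hi0 := Int.natCast_nonneg i
  have hk0 := Int.natCast_nonneg k
  rw [ha] at hc
  rcases le_total i k with hik | hik
  · have hk1 := hk.1 hik
    have hd : ∃ d : ℤ, 0 ≤ d ∧ (k : ℤ) = i + d := ⟨k - i, by omega, by omega⟩
    obtain ⟨d, hd0, hd⟩ := hd
    have hk2 : (M : ℤ) * (2 * KS) = M * (2 * i * k - i * (i - 1)) := by rw [hk1]
    generalize (i : ℤ) = I at *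
    generalize (k : ℤ) = Kk at *
    generalize (s : ℤ) = Ss at *
    generalize (M : ℤ) = Mm at *
    subst hd ha hc
    have hpos : (0 : ℤ) < 12*a*c*d + 24*a*c*I + 48*a*d*I + 18*a*d^2 + 54*a*I^2 + 6*a^2*c
        + 18*a^2*d + 36*a^2*I + 6*a^3 + 12*c*d*I + 6*c*d^2 + 18*c*I^2 + 12*d*I^2 + 12*d^2*I
        + 6*d^3 + 22*I^3 + 24*a*c + 60*a*d + 102*a*I + 30*a^2 + 24*c*d + 42*c*I + 84*d*I
        + 30*d^2 + 78*I^2 + 42*a + 18*c + 42*d + 68*I + 18 := by positivity
    linarith [hpos, hb, hK2, hk2, q1, q2, q3, q4]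
  · have hk1 := hk.2 hik
    have hd : ∃ d : ℤ, 0 ≤ d ∧ (i : ℤ) = k + d := ⟨i - k, by omega, by omega⟩
    obtain ⟨d, hd0, hd⟩ := hd
    have hk2 : (M : ℤ) * (2 * KS) = M * (k * (k + 1)) := by rw [hk1]
    generalize (i : ℤ) = I at *
    generalize (k : ℤ) = Kk at *
    generalize (s : ℤ) = Ss at *
    generalize (M : ℤ) = Mm at *
    subst hd ha hc
    have hpos : (0 : ℤ) < 12*a*c*d + 24*a*c*Kk + 60*a*d*Kk + 12*a*d^2 + 54*a*Kk^2 + 6*a^2*c
        + 18*a^2*d + 36*a^2*Kk + 6*a^3 + 24*c*d*Kk + 6*c*d^2 + 18*c*Kk^2 + 54*d*Kk^2 + 30*d^2*Kk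
        + 4*d^3 + 22*Kk^3 + 24*a*c + 54*a*d + 102*a*Kk + 30*a^2 + 24*c*d + 42*c*Kk + 96*d*Kk
        + 24*d^2 + 78*Kk^2 + 42*a + 18*c + 38*d + 68*Kk + 18 := by positivity
    linarith [hpos, hb, hK2, hk2, q1, q2, q3, q4]

/-- Bound of the tail of the profile. -/
theorem tail_bound (M s i : ℕ) (β : ℕ → ℤ) (hs : 2 * s ≤ M) (hi : i + 1 ≤ s)
    (h2 : ∀ t, i < t → t ≤ M → min (s : ℤ) (M + 1 - t) ≤ β t) :
    (2 * s * (M + 1 - s - i) + s * (s - 1) : ℤ) ≤ 2 * ∑ t ∈ Ioc i M, β t := by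
  have e1 : Ioc i M = Ioc i (M + 1 - s) ∪ Ioc (M + 1 - s) M := by
    rw [Ioc_union_Ioc_eq_Ioc (by omega) (by omega)]
  have d2 : Disjoint (Ioc i (M + 1 - s)) (Ioc (M + 1 - s) M) := by
    rw [Finset.disjoint_left]; intro x; simp only [mem_Ioc]; omega
  rw [e1, sum_union d2]
  have b2 : ∑ t ∈ Ioc i (M + 1 - s), (s : ℤ) ≤ ∑ t ∈ Ioc i (M + 1 - s), β t := by
    refine sum_le_sum fun t ht => ?_
    have ht2 := mem_Ioc.1 ht
    have := h2 t ht2.1 (by omega)
    have h3 : (s : ℤ) ≤ M + 1 - t := by omega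
    rwa [min_eq_left h3] at this
  have b3 : ∑ t ∈ Ioc (M + 1 - s) M, (((M : ℤ) + 1) - t) ≤ ∑ t ∈ Ioc (M + 1 - s) M, β t := by
    refine sum_le_sum fun t ht => ?_
    have ht2 := mem_Ioc.1 ht
    have := h2 t (by omega) (by omega)
    have h3 : (M : ℤ) + 1 - t ≤ s := by omega
    rwa [min_eq_right h3] at this
  have c4 := sum_id (M + 1 - s) M (by omega)
  have hc : ((M + 1 - s : ℕ) : ℤ) = M + 1 - s := by omega
  rw [sum_const, Nat.card_Ioc, nsmul_eq_mul] at b2
  rw [sum_sub_distrib, sum_const, Nat.card_Ioc, nsmul_eq_mul] at b3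
  have hc2 : ((M + 1 - s - i : ℕ) : ℤ) = M + 1 - s - i := by omega
  have hc3 : ((M - (M + 1 - s) : ℕ) : ℤ) = s - 1 := by omega
  rw [hc2] at b2
  rw [hc3] at b3
  rw [hc] at c4
  linarith [b2, b3, c4]

/-- NUMB. -/
theorem numB (M s i k : ℕ) (β : ℕ → ℤ) (K0 : ℤ) (hs : 2 * s ≤ M) (hi : k + i + 1 ≤ s)
    (h1 : ∀ t, 1 ≤ t → t ≤ i → (k : ℤ) + t ≤ β t)
    (h2 : ∀ t, i < t → t ≤ M → min (s : ℤ) (M + 1 - t) ≤ β t)
    (hK : K0 ≤ ∑ t ∈ Ioc 0 (min i k), ((k : ℤ) + 1 - t)) :
    5 * (((M + 2).choose 3 : ℕ) : ℤ)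
      < 4 * ∑ b ∈ range M, ((∑ t ∈ Ioc b M, β t) - K0)
        + 6 * (((M - i + 2).choose 3 : ℕ) + ((i - k : ℕ) : ℤ) * ∑ t ∈ Ioc i M, β t) := by
  have hb := sum_bound M s i k β hs hi h1 h2
  have hk := K_bound i k
  have ht := tail_bound M s i β hs (by omega) h2
  rw [sum_sub_distrib, sum_const, card_range, nsmul_eq_mul]
  have q1 := choose_three_int (M + 2)
  have q2 := choose_three_int (M - i + 2)
  have w2 : ((M - i + 2 : ℕ) : ℤ) = (M : ℤ) - i + 2 := by omega
  rw [w2] at q2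
  push_cast at q1
  have hK2 := mul_le_mul_of_nonneg_left hK (Int.natCast_nonneg M)
  have hT := mul_le_mul_of_nonneg_left ht (Int.natCast_nonneg (i - k))
  generalize (∑ b ∈ range M, ∑ t ∈ Ioc b M, β t) = X at *
  generalize (∑ t ∈ Ioc 0 (min i k), ((k : ℤ) + 1 - t)) = KS at *
  generalize (∑ t ∈ Ioc i M, β t) = T at *
  generalize (((M + 2).choose 3 : ℕ) : ℤ) = C1 at *
  generalize (((M - i + 2).choose 3 : ℕ) : ℤ) = C2 at *
  have ha : ∃ a : ℤ, 0 ≤ a ∧ (s : ℤ) = k + i + 1 + a := ⟨s - (k + i + 1), by omega, by omega⟩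
  have hc : ∃ c : ℤ, 0 ≤ c ∧ (M : ℤ) = 2 * s + c := ⟨M - 2 * s, by omega, by omega⟩
  obtain ⟨a, ha0, ha⟩ := ha
  obtain ⟨c, hc0, hc⟩ := hc
  have hi0 := Int.natCast_nonneg i
  have hk0 := Int.natCast_nonneg k
  rw [ha] at hc
  rcases le_total i k with hik | hik
  · have hk1 := hk.1 hik
    have hd : ∃ d : ℤ, 0 ≤ d ∧ (k : ℤ) = i + d := ⟨k - i, by omega, by omega⟩
    obtain ⟨d, hd0, hd⟩ := hd
    have hk2 : (M : ℤ) * (2 * KS) = M * (2 * i * k - i * (i - 1)) := by rw [hk1]
    have hz : ((i - k : ℕ) : ℤ) = 0 := by omega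
    rw [hz] at hT ⊢
    generalize (i : ℤ) = I at *
    generalize (k : ℤ) = Kk at *
    generalize (s : ℤ) = Ss at *
    generalize (M : ℤ) = Mm at *
    subst hd ha hc
    have hpos : (0 : ℤ) < 96*a*c*d + 120*a*c*I + 18*a*c^2 + 240*a*d*I + 108*a*d^2 + 144*a*I^2
        + 48*a^2*c + 108*a^2*d + 144*a^2*I + 36*a^3 + 96*c*d*I + 48*c*d^2 + 54*c*I^2 + 18*c^2*d
        + 18*c^2*I + 1*c^3 + 60*d*I^2 + 96*d^2*I + 36*d^3 + 14*I^3 + 132*a*c + 312*a*d
        + 372*a*I + 156*a^2 + 132*c*d + 144*c*I + 21*c^2 + 336*d*I + 156*d^2 + 162*I^2 + 216*a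
        + 86*c + 216*d + 244*I + 96 := by positivity
    linarith [hpos, hb, hK2, hk2, q1, q2]
  · have hk1 := hk.2 hik
    have hd : ∃ d : ℤ, 0 ≤ d ∧ (i : ℤ) = k + d := ⟨i - k, by omega, by omega⟩
    obtain ⟨d, hd0, hd⟩ := hd
    have hk2 : (M : ℤ) * (2 * KS) = M * (k * (k + 1)) := by rw [hk1]
    have hz : ((i - k : ℕ) : ℤ) = d := by omega
    rw [hz] at hT ⊢
    generalize (i : ℤ) = I at *
    generalize (k : ℤ) = Kk at *
    generalize (s : ℤ) = Ss at *
    generalize (M : ℤ) = Mm at *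
    subst hd ha hc
    have hpos : (0 : ℤ) < 60*a*c*d + 120*a*c*Kk + 18*a*c^2 + 228*a*d*Kk + 60*a*d^2
        + 144*a*Kk^2 + 48*a^2*c + 90*a^2*d + 144*a^2*Kk + 36*a^3 + 84*c*d*Kk + 30*c*d^2
        + 54*c*Kk^2 + 18*c^2*Kk + 1*c^3 + 126*d*Kk^2 + 78*d^2*Kk + 8*d^3 + 14*Kk^3 + 132*a*c
        + 210*a*d + 372*a*Kk + 156*a^2 + 60*c*d + 144*c*Kk + 21*c^2 + 252*d*Kk + 72*d^2
        + 162*Kk^2 + 216*a + 86*c + 124*d + 244*Kk + 96 := by positivity
    linarith [hpos, hb, hK2, hk2, hT, q1, q2]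

namespace NumAB

theorem shift_sum (b : ℕ → ℕ) (c M : ℕ) :
    ∑ t ∈ Ioc c M, ((b (t - 1) : ℕ) : ℤ) = ((∑ a ∈ Ico c M, b a : ℕ) : ℤ) := by
  push_cast
  refine Finset.sum_nbij' (fun t => t - 1) (fun a => a + 1) ?_ ?_ ?_ ?_ ?_
  · intro t ht; simp only [mem_Ioc, mem_Ico] at *; omega
  · intro t ht; simp only [mem_Ioc, mem_Ico] at *; omega
  · intro t ht; simp only [mem_Ioc] at *; omega
  · intro t ht; simp
  · intro t ht; rfl

theorem kap_le (κ : ℕ → ℕ) (h : ∀ a, κ (a + 1) = 0 ∨ κ (a + 1) + 1 ≤ κ a) (a : ℕ) :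
    κ a ≤ κ 0 - a := by
  induction a with
  | zero => simp
  | succ a ih => rcases h a with h | h <;> omega

theorem kap_sum (M i : ℕ) (κ : ℕ → ℕ) (h : ∀ a, κ (a + 1) = 0 ∨ κ (a + 1) + 1 ≤ κ a)
    (hz : ∀ a, i ≤ a → κ a = 0) (hiM : i ≤ M) :
    ((∑ a ∈ range M, κ a : ℕ) : ℤ) ≤ ∑ t ∈ Ioc 0 (min i (κ 0)), (((κ 0 : ℕ) : ℤ) + 1 - t) := by
  have e1 : ∑ t ∈ Ioc 0 (min i (κ 0)), (((κ 0 : ℕ) : ℤ) + 1 - t)
      = ∑ a ∈ range (min i (κ 0)), (((κ 0 : ℕ) : ℤ) - a) := by
    refine Finset.sum_nbij' (fun t => t - 1) (fun a => a + 1) ?_ ?_ ?_ ?_ ?_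
    · intro t ht; simp only [mem_Ioc, mem_range] at *; omega
    · intro t ht; simp only [mem_Ioc, mem_range] at *; omega
    · intro t ht; simp only [mem_Ioc] at *; omega
    · intro t ht; simp
    · intro t ht; simp only [mem_Ioc] at ht; omega
  have e2 : ∑ a ∈ range M, κ a = ∑ a ∈ range (min i (κ 0)), κ a := by
    symm
    refine Finset.sum_subset (Finset.range_subset_range.2 (by omega)) ?_
    intro a _ ha
    simp only [mem_range] at ha
    by_cases hia : i ≤ a
    · exact hz a hia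
    · have := kap_le κ h a
      omega
  rw [e1, e2]
  push_cast
  refine Finset.sum_le_sum fun a ha => ?_
  have := kap_le κ h a
  simp only [mem_range] at ha
  omega

theorem sum_trunc (M : ℕ) (b κ : ℕ → ℕ) :
    ∑ c ∈ range M, ((∑ t ∈ Ioc c M, ((b (t - 1) : ℕ) : ℤ)) - ((∑ a ∈ range M, κ a : ℕ) : ℤ)) ≤
      ((∑ c ∈ range M, ((∑ a ∈ Ico c M, b a) - ∑ a ∈ range M, κ a) : ℕ) : ℤ) := by
  push_cast
  refine Finset.sum_le_sum fun c _ => ?_
  rw [shift_sum]
  have key : ∀ x y : ℕ, (x : ℤ) - (y : ℤ) ≤ ((x - y : ℕ) : ℤ) := by intro x y; omega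
  have := key (∑ a ∈ Ico c M, b a) (∑ a ∈ range M, κ a)
  push_cast at this ⊢
  exact this

theorem choose_mono_diff (s n d : ℕ) :
    (n - s).choose 3 + (n + d - 2 * s).choose 3 ≤ (n + d - s).choose 3 + (n - 2 * s).choose 3 := by
  induction d with
  | zero => simp
  | succ d ih =>
    by_cases h1 : 2 * s ≤ n + d
    · have e1 : n + (d + 1) - 2 * s = (n + d - 2 * s) + 1 := by omega
      have e2 : n + (d + 1) - s = (n + d - s) + 1 := by omega
      rw [e1, e2, Nat.choose_succ_succ' _ 2, Nat.choose_succ_succ' _ 2]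
      have : (n + d - 2 * s).choose 2 ≤ (n + d - s).choose 2 := Nat.choose_le_choose 2 (by omega)
      show (n - s).choose 3 + ((n + d - 2 * s).choose 2 + (n + d - 2 * s).choose 3)
        ≤ (n + d - s).choose 2 + (n + d - s).choose 3 + (n - 2 * s).choose 3
      omega
    · have e1 : n + (d + 1) - 2 * s = 0 := by omega
      have e3 : n - 2 * s = 0 := by omega
      rw [e1, e3]
      have : (n - s).choose 3 ≤ (n + (d + 1) - s).choose 3 := Nat.choose_le_choose 3 (by omega)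
      simpa using this

end NumAB

theorem specNumA : SpecNumA := by
  intro M i s v m b κ hH hs hi hi2 hm
  obtain ⟨hM, his, hks, h1, h2, hκ, hκz, hv⟩ := hH
  have hA := numA M s i (κ 0) (fun t => ((b (t - 1) : ℕ) : ℤ)) ((∑ a ∈ range M, κ a : ℕ) : ℤ) hs hi
    (by
      intro t ht1 ht2
      have := h1 (t - 1) (by omega)
      show ((κ 0 : ℕ) : ℤ) + t ≤ ((b (t - 1) : ℕ) : ℤ)
      omega)
    (by
      intro t ht1 ht2
      have := h2 (t - 1) (by omega) (by omega)
      show min (s : ℤ) (M + 1 - t) ≤ ((b (t - 1) : ℕ) : ℤ)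
      rcases min_le_iff.1 this with h | h
      · exact min_le_iff.2 (Or.inl (by omega))
      · exact min_le_iff.2 (Or.inr (by omega)))
    (kap_sum M i κ hκ hκz (by omega))
  have hT := sum_trunc M b κ
  obtain ⟨d, hd⟩ := Nat.exists_eq_add_of_le hm
  have hD := choose_mono_diff s (m + 3) d
  rw [← hd] at hD
  have hv' : ((∑ c ∈ range M, ((∑ a ∈ Ico c M, b a) - ∑ a ∈ range M, κ a) : ℕ) : ℤ) ≤ v := by
    exact_mod_cast hv
  zify at hD ⊢
  linarith

theorem specNumB : SpecNumB := by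
  intro M i s v b κ hH hs hi hi2 hL
  obtain ⟨hM, his, hks, h1, h2, hκ, hκz, hv⟩ := hH
  have hB := numB M s i (κ 0) (fun t => ((b (t - 1) : ℕ) : ℤ)) ((∑ a ∈ range M, κ a : ℕ) : ℤ) hs hi
    (by
      intro t ht1 ht2
      have := h1 (t - 1) (by omega)
      show ((κ 0 : ℕ) : ℤ) + t ≤ ((b (t - 1) : ℕ) : ℤ)
      omega)
    (by
      intro t ht1 ht2
      have := h2 (t - 1) (by omega) (by omega)
      show min (s : ℤ) (M + 1 - t) ≤ ((b (t - 1) : ℕ) : ℤ)
      rcases min_le_iff.1 this with h | h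
      · exact min_le_iff.2 (Or.inl (by omega))
      · exact min_le_iff.2 (Or.inr (by omega)))
    (kap_sum M i κ hκ hκz (by omega))
  have hT := sum_trunc M b κ
  have hv' : ((∑ c ∈ range M, ((∑ a ∈ Ico c M, b a) - ∑ a ∈ range M, κ a) : ℕ) : ℤ) ≤ v := by
    exact_mod_cast hv
  rw [shift_sum b i M] at hB
  zify at hL ⊢
  push_cast at hB hL hT hv' ⊢
  linarith

end MPcec
end

section
/-!
Problem MP_cec001_ag, module PLAT: the plateau analysis.
-/
set_option autoImplicit false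

open Module

namespace MPcec.PlatM

universe u v

section alg

variable {F : Type u} {A : Type v} [Field F] [CommRing A] [Algebra F A]

lemma mem_ml {a x : A} {Y : Submodule F A} : x ∈ ml a Y ↔ ∃ y ∈ Y, a * y = x := by
  unfold ml
  rw [Submodule.mem_map]
  rfl

lemma mem_ann {a x : A} {Y : Submodule F A} : x ∈ ann a Y ↔ x ∈ Y ∧ a * x = 0 := by
  unfold ann
  rw [Submodule.mem_inf, LinearMap.mem_ker]
  rfl

lemma fg_pow_mul (L E : Submodule F A) (hL : L.FG) (hE : E.FG) (a : ℕ) : (L ^ a * E).FG :=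
  (hL.pow a).mul hE

lemma fin_of_fg {W : Submodule F A} (hW : W.FG) : Module.Finite F W := Module.Finite.iff_fg.2 hW

lemma fg_ml (a : A) {W : Submodule F A} (hW : W.FG) : (ml a W).FG := hW.map _

lemma rank_null (a : A) (W : Submodule F A) (hW : W.FG) :
    finrank F (ann a W) + finrank F (ml a W) = finrank F W := by
  have := fin_of_fg hW
  have h1 := LinearMap.finrank_range_add_finrank_ker ((LinearMap.mulLeft F a).domRestrict W)
  have h2 : LinearMap.range ((LinearMap.mulLeft F a).domRestrict W) = ml a W := by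
    rw [LinearMap.range_domRestrict]
    rfl
  have h3 : finrank F (LinearMap.ker ((LinearMap.mulLeft F a).domRestrict W)) =
      finrank F (ann a W) := by
    have h4 : (LinearMap.ker ((LinearMap.mulLeft F a).domRestrict W)).map W.subtype =
        ann a W := by
      ext x
      rw [Submodule.mem_map, mem_ann]
      constructor
      · rintro ⟨y, hy, rfl⟩
        exact ⟨y.2, hy⟩
      · rintro ⟨hx, hax⟩
        exact ⟨⟨x, hx⟩, hax, rfl⟩
    rw [← h4]
    exact (Submodule.finrank_map_subtype_eq _ _).symm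
  rw [h2, h3] at h1
  omega

lemma kills_mul (x : A) (L E : Submodule F A) (h : ∀ e ∈ E, x * e = 0) :
    ∀ v ∈ L * E, x * v = 0 := by
  intro v hv
  refine Submodule.mul_induction_on hv (fun l _ e he => ?_) (fun a b ha hb => ?_)
  · rw [mul_left_comm, h e he, mul_zero]
  · rw [mul_add, ha, hb, add_zero]

lemma ml_le_mul (a : A) (L W : Submodule F A) (ha : a ∈ L) : ml a W ≤ L * W := by
  intro x hx
  obtain ⟨y, hy, rfl⟩ := mem_ml.1 hx
  exact Submodule.mul_mem_mul ha hy

/-- nondegeneracy against `L^i`. -/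
lemma nondeg_pow (G : GD F A) (d i : ℕ) (hdi : d + i ≤ G.j) (x : A) (hx : x ∈ G.L ^ d)
    (h : ∀ l ∈ G.L ^ i, x * l = 0) : x = 0 := by
  refine G.nondeg d (by omega) x hx fun b hb => ?_
  have h1 : G.L ^ (G.j - d) = G.L ^ i * G.L ^ (G.j - d - i) := by
    rw [← pow_add]
    congr 1
    omega
  rw [h1] at hb
  have h2 : x * b = 0 := by
    refine Submodule.mul_induction_on hb (fun l hl e _ => ?_) (fun a b ha hb => ?_)
    · rw [← mul_assoc, h l hl, zero_mul]
    · rw [mul_add, ha, hb, add_zero]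
  rw [h2, map_zero]

end alg

section pl

variable {F : Type u} {A : Type v} [Field F] [CommRing A] [Algebra F A] (D : Pl F A)

lemma x_mem (i : Fin 4) : D.G.x i ∈ D.G.L := by
  rw [D.G.hL]
  exact Submodule.subset_span ⟨i, rfl⟩

lemma z_mem : D.z ∈ D.G.L := by
  unfold Pl.z
  refine sub_mem (x_mem D _) (add_mem ?_ ?_)
  · exact Submodule.smul_mem _ _ (x_mem D _)
  · exact Submodule.smul_mem _ _ (x_mem D _)

lemma ev3_zp : D.G.ev3 D.zp = D.z := by
  unfold Pl.z Pl.zp G4.ev3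
  rw [map_sub, map_add, map_mul, map_mul, MvPolynomial.aeval_X, MvPolynomial.aeval_X,
    MvPolynomial.aeval_X, MvPolynomial.aeval_C, MvPolynomial.aeval_C, Algebra.smul_def,
    Algebra.smul_def]
  rfl

lemma restr_zp : restr D.y D.zp = 0 := by
  unfold Pl.zp restr
  rw [map_sub, map_add, map_mul, map_mul, MvPolynomial.aeval_X, MvPolynomial.aeval_X,
    MvPolynomial.aeval_X, MvPolynomial.aeval_C, MvPolynomial.aeval_C]
  have e2 : (Fin.snoc (α := fun _ => MvPolynomial (Fin 2) F) (fun i => MvPolynomial.X i)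
    (∑ i, MvPolynomial.C (D.y i) * MvPolynomial.X i)) (2 : Fin 3) =
      ∑ i, MvPolynomial.C (D.y i) * MvPolynomial.X i := by
    exact Fin.snoc_last _ _
  have e0 : (Fin.snoc (α := fun _ => MvPolynomial (Fin 2) F) (fun i => MvPolynomial.X i)
    (∑ i, MvPolynomial.C (D.y i) * MvPolynomial.X i)) (0 : Fin 3) = MvPolynomial.X 0 := by
    exact Fin.snoc_castSucc (α := fun _ => MvPolynomial (Fin 2) F) _ _ (0 : Fin 2)
  have e1 : (Fin.snoc (α := fun _ => MvPolynomial (Fin 2) F) (fun i => MvPolynomial.X i)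
    (∑ i, MvPolynomial.C (D.y i) * MvPolynomial.X i)) (1 : Fin 3) = MvPolynomial.X 1 := by
    exact Fin.snoc_castSucc (α := fun _ => MvPolynomial (Fin 2) F) _ _ (1 : Fin 2)
  rw [e2, e0, e1, Fin.sum_univ_two]
  exact sub_self _

lemma zp_hom : D.zp.IsHomogeneous 1 := by
  unfold Pl.zp
  refine (MvPolynomial.isHomogeneous_X _ _).sub (MvPolynomial.IsHomogeneous.add ?_ ?_)
  · simpa using (MvPolynomial.isHomogeneous_C (Fin 3) (D.y 0)).mul
      (MvPolynomial.isHomogeneous_X F (0 : Fin 3))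
  · simpa using (MvPolynomial.isHomogeneous_C (Fin 3) (D.y 1)).mul
      (MvPolynomial.isHomogeneous_X F (1 : Fin 3))

lemma J_kill {d : ℕ} {p : MvPolynomial (Fin 3) F} (hp : p ∈ D.J d) (a : ℕ) :
    ∀ v ∈ D.G.L ^ a * D.E, D.G.ev3 p * v = 0 := kills_mul _ _ _ hp.2

lemma C_le (d : ℕ) : D.C d ≤ MvPolynomial.homogeneousSubmodule (Fin 2) F d := fun _ hq => hq.1

lemma C_fin (d : ℕ) : Module.Finite F (D.C d) := by
  have := Module.Finite.iff_fg.2 (MvPolynomial.homogeneousSubmodule_fg (Fin 2) F d)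
  exact Submodule.finiteDimensional_of_le (C_le D d)

lemma C_pos {d : ℕ} (h : D.C d ≠ ⊥) : 1 ≤ finrank F (D.C d) := by
  have := C_fin D d
  exact Nat.one_le_iff_ne_zero.2 fun h0 => h (Submodule.finrank_eq_zero.1 h0)

lemma ne_bot_of_pos {W : Submodule F (MvPolynomial (Fin 2) F)} (h : 1 ≤ finrank F W) : W ≠ ⊥ := by
  rintro rfl
  rw [finrank_bot] at h
  omega

end pl

end MPcec.PlatM

namespace MPcec

open PlatM

universe u v

theorem specPlat (hPC : SpecPCons.{u, v}) (hLine : SpecLine.{u, v}) (hLine2 : SpecLine2.{u, v})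
    (hPoly : SpecPoly3.{u}) (hBin : SpecBin.{u}) : SpecPlat.{u, v} := by
  intro F A _ _ _ D hT hneg hGen
  obtain ⟨hla, hlb, hlc, hld⟩ := hLine F A D
  obtain ⟨hl2a, hl2b⟩ := hLine2 F A D
  obtain ⟨hp1, hp2, hp3⟩ := hPoly F D.y
  have hzprime : Prime D.zp := hp1
  have hEfg : D.E.FG := hT.1
  have hLfg : D.G.L.FG := D.G.fg
  have hWfg : ∀ a, (D.G.L ^ a * D.E).FG := fun a => fg_pow_mul _ _ hLfg hEfg a
  have hz := z_mem D
  have hNj : D.N = D.G.j - D.m := rfl
  have hmj := D.hm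
  -- binary forms
  have hB : ∀ d, d + 1 ≤ D.N → D.C d ≠ ⊥ → finrank F (D.C d) + 1 ≤ finrank F (D.C (d + 1)) :=
    fun d hd hC => (hBin F d (D.C d) (D.C (d + 1)) (fun q hq => hq.1) (fun q hq => hq.1)
      (fun q hq i => hlb d hd q hq i) hC).1
  have hmono : ∀ d e, d ≤ e → e ≤ D.N → D.C d ≠ ⊥ →
      D.C e ≠ ⊥ ∧ finrank F (D.C d) + (e - d) ≤ finrank F (D.C e) := by
    intro d e hde
    induction e, hde using Nat.le_induction with
    | base => intro _ h; exact ⟨h, by omega⟩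
    | succ e hde ih =>
      intro heN hC
      obtain ⟨h1, h2⟩ := ih (by omega) hC
      have h3 := hB e heN h1
      refine ⟨ne_bot_of_pos (by omega), by omega⟩
  -- formula for the kernels
  have hbb : ∀ a, a ≤ D.N → finrank F (D.C (D.N - a)) + bb D.G.L D.E D.z a = D.N - a + 1 := by
    intro a ha
    have h1 := hla (D.N - a) (by omega)
    have h2 : D.N - (D.N - a) = a := by omega
    rw [h2] at h1
    exact h1
  -- `C_0 = 0`
  have hE0 : D.E ≠ ⊥ := by
    intro h
    rw [h, finrank_bot] at hneg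
    omega
  have hC0 : D.C 0 = ⊥ := by
    rw [Submodule.eq_bot_iff]
    intro q hq
    obtain ⟨p, hp, rfl⟩ := hld 0 (Nat.zero_le _) q hq
    have h1 : p = MvPolynomial.C (MvPolynomial.coeff 0 p) :=
      MvPolynomial.totalDegree_eq_zero_iff_eq_C.1 (Nat.le_zero.1 hp.1.totalDegree_le)
    obtain ⟨e, he, he0⟩ := Submodule.exists_mem_ne_zero_of_ne_bot hE0
    have h2 := hp.2 e he
    rw [h1] at h2
    have h3 : D.G.ev3 (MvPolynomial.C (MvPolynomial.coeff 0 p)) =
        algebraMap F A (MvPolynomial.coeff 0 p) := MvPolynomial.aeval_C _ _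
    rw [h3, ← Algebra.smul_def, smul_eq_zero] at h2
    rcases h2 with h2 | h2
    · rw [h1, h2, map_zero, map_zero]
    · exact absurd h2 he0
  -- the first kernel
  have hb0 : kk D.G.L D.E D.z 0 + 1 ≤ bb D.G.L D.E D.z 0 := by
    have h1 := rank_null D.z (D.G.L ^ 0 * D.E) (hWfg 0)
    have h2 : finrank F (ml D.z (D.G.L ^ 0 * D.E)) ≤
        finrank F (D.G.L ^ (0 + 1) * D.E : Submodule F A) := by
      have := fin_of_fg (hWfg (0 + 1))
      apply Submodule.finrank_mono
      refine (ml_le_mul D.z D.G.L _ hz).trans ?_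
      rw [← mul_assoc, ← pow_succ']
    unfold kk bb
    have h3 : (D.G.L ^ 0 * D.E : Submodule F A) = D.E := by rw [pow_zero, one_mul]
    have h4 : (D.G.L ^ (0 + 1) * D.E : Submodule F A) = D.G.L * D.E := by rw [zero_add, pow_one]
    rw [h3] at h1 h2 ⊢
    rw [h4] at h2 ⊢
    omega
  -- `k_a = 0` from surjectivity
  have hkk : ∀ a, (a < D.N → ml D.z (D.G.L ^ a * D.E) = D.G.L ^ (a + 1) * D.E) →
      kk D.G.L D.E D.z a = 0 := by
    intro a ha
    unfold kk
    by_cases haN : a < D.N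
    · rw [ha haN, Nat.sub_self]
    · have h1 : (D.G.L ^ (a + 1) * D.E : Submodule F A) = ⊥ := by
        rw [eq_bot_iff]
        calc (D.G.L ^ (a + 1) * D.E : Submodule F A) ≤ D.G.L ^ (a + 1) * D.G.L ^ D.m :=
              mul_le_mul_right D.hE _
          _ = D.G.L ^ (a + 1 + D.m - (D.G.j + 1)) * D.G.L ^ (D.G.j + 1) := by
              rw [← pow_add, ← pow_add]
              congr 1
              omega
          _ = ⊥ := by rw [D.G.top, Submodule.mul_bot]
      rw [h1, finrank_bot, Nat.zero_sub]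
  by_cases hQ : ∃ a, a + 1 ≤ D.N ∧ D.C (D.N - a - 1) ≠ ⊥ ∧
      bb D.G.L D.E D.z (a + 1) ≤ bb D.G.L D.E D.z a
  · -- Case 2: a plateau
    classical
    set i := Nat.find hQ with hi
    obtain ⟨hiN, hiC, hib⟩ := Nat.find_spec hQ
    rw [← hi] at hiN hiC hib
    have hmin : ∀ a < i, D.C (D.N - a - 1) ≠ ⊥ →
        bb D.G.L D.E D.z a + 1 ≤ bb D.G.L D.E D.z (a + 1) := by
      intro a ha hC
      have h1 := Nat.find_min hQ ha
      by_contra h2
      exact h1 ⟨by omega, hC, by omega⟩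
    obtain ⟨d0, hd0⟩ : ∃ d0, d0 = D.N - i := ⟨_, rfl⟩
    have e1 : D.N - i - 1 + 1 = d0 := by omega
    have hCd0 := hB (D.N - i - 1) (by omega) hiC
    rw [e1] at hCd0
    have hbi := hbb i (by omega)
    have hbi1 := hbb (i + 1) hiN
    have e2 : D.N - (i + 1) = D.N - i - 1 := by omega
    rw [e2] at hbi1
    rw [← hd0] at hbi
    have hpos := C_pos D hiC
    -- the equality case of binary forms
    have hbin := (hBin F (D.N - i - 1) (D.C (D.N - i - 1)) (D.C (D.N - i - 1 + 1))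
      (fun q hq => hq.1) (fun q hq => hq.1) (fun q hq l => hlb _ (by omega) q hq l) hiC).2
      (by rw [e1]; omega)
    obtain ⟨s, g, hs', hg0, hgh, hgC, hgD⟩ := hbin
    have hs : s = bb D.G.L D.E D.z i := by omega
    rw [e1] at hgD
    -- growth
    have hgrow : ∀ a ≤ i, kk D.G.L D.E D.z 0 + 1 + a ≤ bb D.G.L D.E D.z a := by
      intro a
      induction a with
      | zero => intro _; exact hb0
      | succ a ih =>
        intro ha
        have h1 := ih (by omega)
        have h2 := hmin a (by omega) (hmono (D.N - i - 1) (D.N - a - 1) (by omega) (by omega)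
          hiC).1
        omega
    have hgi := hgrow i le_rfl
    -- lift of `g`
    have hJd0 : D.J d0 ≠ ⊥ := by
      intro h
      have h1 : D.C d0 ≠ ⊥ := (hmono (D.N - i - 1) d0 (by omega) (by omega) hiC).1
      obtain ⟨q, hq, hq0⟩ := Submodule.exists_mem_ne_zero_of_ne_bot h1
      obtain ⟨p, hp, hpq⟩ := hld d0 (by omega) q hq
      rw [h, Submodule.mem_bot] at hp
      rw [hp, map_zero] at hpq
      exact hq0 hpq.symm
    obtain ⟨P, hPh, ⟨c, hc0, hPc⟩, hPJ⟩ := hGen.g2 d0 (by omega) s (by omega) g hgh hg0 hJd0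
      (by
        intro p hp
        have h1 := hlc d0 (by omega) p hp
        obtain ⟨h, hh, hph⟩ := (hgD _).1 h1
        exact ⟨h, hh, hph⟩)
    have hrP : restr D.y P ≠ 0 := by
      rw [hPc]
      exact mul_ne_zero (by rwa [Ne, MvPolynomial.C_eq_zero]) hg0
    have hP0 : P ≠ 0 := by
      rintro rfl
      exact hrP (map_zero _)
    -- the kernel of `z` on `P L^i E` is zero
    have hker : ∀ y ∈ ml (D.G.ev3 P) (D.G.L ^ i * D.E), D.z * y = 0 → y = 0 := by
      intro y hy hzy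
      refine hl2b i s (by omega) P hPh y hy ?_
      intro w hw
      have h1 : restr D.y (P * w) ∈ D.C d0 := by
        rw [hgD]
        refine ⟨MvPolynomial.C c * restr D.y w, ?_, ?_⟩
        · have h2 : (restr D.y w).IsHomogeneous (D.N - i - s) := by
            have h3 : ∀ j : Fin 3, ((Fin.snoc (α := fun _ => MvPolynomial (Fin 2) F)
                (fun i => MvPolynomial.X i)
                (∑ i, MvPolynomial.C (D.y i) * MvPolynomial.X i)) j).IsHomogeneous 1 := by
              intro j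
              refine Fin.lastCases ?_ (fun j => ?_) j
              · rw [Fin.snoc_last]
                apply MvPolynomial.IsHomogeneous.sum
                intro l _
                simpa using (MvPolynomial.isHomogeneous_C (Fin 2) (D.y l)).mul
                  (MvPolynomial.isHomogeneous_X F l)
              · rw [Fin.snoc_castSucc]
                exact MvPolynomial.isHomogeneous_X F j
            have h4 := hw.aeval _ h3
            rwa [one_mul] at h4
          rw [hd0]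
          simpa using (MvPolynomial.isHomogeneous_C (Fin 2) c).mul h2
        · rw [map_mul, hPc]
          ring
      obtain ⟨p, hp, hpr⟩ := hld d0 (by omega) _ h1
      obtain ⟨q, hq, hpq⟩ := hPJ p hp
      have h2 : restr D.y (w - q) = 0 := by
        rw [hpq, map_mul, map_mul] at hpr
        have h3 := mul_left_cancel₀ hrP hpr
        rw [map_sub, h3, sub_self]
      have hwh : w.IsHomogeneous (d0 - s) := by rw [hd0]; exact hw
      have h3 : D.G.ev3 (w - q) * y = 0 := by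
        by_cases h0 : w - q = 0
        · rw [h0, map_zero, zero_mul]
        · obtain ⟨q', -, -, hq'⟩ := hp2 (d0 - s) (w - q) (hwh.sub hq) h2 h0
          have h4 : w - q = D.zp * q' := hq'
          rw [h4, map_mul, ev3_zp, mul_right_comm, hzy, zero_mul]
      have h4 : D.G.ev3 q * y = 0 := by
        obtain ⟨v, hv, rfl⟩ := mem_ml.1 hy
        rw [← mul_assoc, ← map_mul, mul_comm q P, ← hpq]
        exact J_kill D hp i v hv
      rw [map_sub, sub_mul, h4, sub_zero] at h3
      exact h3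
    -- hence `P L^i E = 0`
    have hPL : ml (D.G.ev3 P) (D.G.L ^ i * D.E) = ⊥ := by
      obtain ⟨-, -, -, hGG⟩ := hPC F A D.G.L D.E hLfg hT
      have h1 := hGG (D.G.ev3 P) i
      have hfg1 : (ml (D.G.ev3 P) (D.G.L ^ i * D.E)).FG := fg_ml _ (hWfg i)
      have hfg2 : (ml (D.G.ev3 P) (D.G.L ^ (i + 1) * D.E)).FG := fg_ml _ (hWfg (i + 1))
      have h2 := rank_null D.z _ hfg1
      have h3 : ann D.z (ml (D.G.ev3 P) (D.G.L ^ i * D.E)) = ⊥ := by
        rw [Submodule.eq_bot_iff]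
        intro y hy
        obtain ⟨hy1, hy2⟩ := mem_ann.1 hy
        exact hker y hy1 hy2
      have h4 : finrank F (ml D.z (ml (D.G.ev3 P) (D.G.L ^ i * D.E))) ≤
          finrank F (ml (D.G.ev3 P) (D.G.L ^ (i + 1) * D.E)) := by
        have := fin_of_fg hfg2
        apply Submodule.finrank_mono
        intro y hy
        obtain ⟨y', hy', rfl⟩ := mem_ml.1 hy
        obtain ⟨v, hv, rfl⟩ := mem_ml.1 hy'
        refine mem_ml.2 ⟨D.z * v, ?_, by ring⟩
        rw [pow_succ', mul_assoc]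
        exact Submodule.mul_mem_mul hz hv
      rw [h3, finrank_bot, zero_add] at h2
      have h5 : ml (D.G.ev3 P) (D.G.L ^ (i + 1) * D.E) = ⊥ := by
        by_contra hne
        have := h1 hne
        omega
      rw [h5, finrank_bot] at h4
      have := fin_of_fg hfg1
      apply Submodule.finrank_eq_zero.1
      omega
    -- hence `P E = 0`
    have hPE : ∀ e ∈ D.E, D.G.ev3 P * e = 0 := by
      intro e he
      have hev : D.G.ev3 P ∈ D.G.L ^ s := by
        have h1 : ∀ (n : ℕ) (Q : MvPolynomial (Fin 3) F), Q.IsHomogeneous n →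
            D.G.ev3 Q ∈ D.G.L ^ n := by
          intro n Q hQ
          unfold G4.ev3
          rw [MvPolynomial.aeval_def, MvPolynomial.eval₂_eq']
          refine Submodule.sum_mem _ fun ν hν => ?_
          rw [← Algebra.smul_def]
          refine Submodule.smul_mem _ _ ?_
          have h2 : ∑ l, ν l = n := by
            have h3 := hQ (MvPolynomial.mem_support_iff.1 hν)
            rw [Finsupp.weight_apply, Finsupp.sum_fintype _ _ (by intro; simp)] at h3
            simpa using h3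
          rw [← h2, ← Finset.prod_pow_eq_pow_sum]
          have h4 : ∀ t : Finset (Fin 3), ∏ l ∈ t, (D.G.x l.castSucc) ^ (ν l) ∈
              ∏ l ∈ t, D.G.L ^ (ν l) := by
            intro t
            induction t using Finset.cons_induction with
            | empty =>
              rw [Finset.prod_empty, Finset.prod_empty]
              exact Submodule.mem_one.2 ⟨1, map_one _⟩
            | cons l t hl ih =>
              rw [Finset.prod_cons, Finset.prod_cons]
              exact Submodule.mul_mem_mul (Submodule.pow_mem_pow _ (x_mem D _) _) ih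
          exact h4 _
        exact h1 s P hPh
      refine nondeg_pow D.G.toGD (s + D.m) i (by omega) _ ?_ ?_
      · rw [pow_add]
        exact Submodule.mul_mem_mul hev (D.hE he)
      · intro l hl
        have h1 : D.G.ev3 P * (l * e) ∈ ml (D.G.ev3 P) (D.G.L ^ i * D.E) :=
          mem_ml.2 ⟨l * e, Submodule.mul_mem_mul hl he, rfl⟩
        rw [hPL, Submodule.mem_bot] at h1
        rw [mul_assoc, mul_comm e l]
        exact h1
    have hzP : ¬ D.zp ∣ P := by
      rintro ⟨Q, rfl⟩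
      apply hrP
      rw [map_mul, restr_zp, zero_mul]
    -- cancellation
    have hcan : ∀ (n : ℕ) (p q : MvPolynomial (Fin 3) F), D.zp ^ n * p = P * q →
        ∃ q', p = P * q' := by
      intro n
      induction n with
      | zero => intro p q h; exact ⟨q, by rwa [pow_zero, one_mul] at h⟩
      | succ n ih =>
        intro p q h
        have h1 : D.zp ∣ P * q := ⟨D.zp ^ n * p, by rw [← h, pow_succ']; ring⟩
        rcases hzprime.dvd_or_dvd h1 with h2 | ⟨q', rfl⟩
        · exact absurd h2 hzP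
        · apply ih p q'
          have h3 : D.zp * (D.zp ^ n * p) = D.zp * (P * q') := by
            rw [← mul_assoc, ← pow_succ', h]
            ring
          exact mul_left_cancel₀ hzprime.ne_zero h3
    refine ⟨i, s, by omega, by omega, fun a ha => hgrow a ha.le, ?_, ?_, Or.inr ⟨by omega,
      by omega, P, hP0, hPh, hPE, by rw [← hd0]; exact hPJ⟩⟩
    · -- lower bounds after the plateau
      intro a ha haN
      have h1 := hbb a (by omega)
      by_cases hC : D.C (D.N - a) = ⊥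
      · rw [hC, finrank_bot] at h1
        omega
      · have h2 := (hmono (D.N - a) d0 (by omega) (by omega) hC).2
        omega
    · -- surjectivity after the plateau
      intro a ha
      apply hkk a
      intro haN
      apply hl2a a haN
      intro p hp hzp
      refine ⟨hp, fun e he => ?_⟩
      have h1 : D.zp ^ (a - i) * (D.zp * p) ∈ D.J d0 := by
        refine ⟨?_, fun e he => ?_⟩
        · have h2 := ((zp_hom D).pow (a - i)).mul ((zp_hom D).mul hp)
          rwa [show 1 * (a - i) + (1 + (D.N - a - 1)) = d0 by omega] at h2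
        · rw [map_mul, mul_assoc, hzp.2 e he, mul_zero]
      obtain ⟨q, -, hq⟩ := hPJ _ h1
      rw [← mul_assoc, ← pow_succ] at hq
      obtain ⟨q', rfl⟩ := hcan _ p q hq
      rw [mul_comm P q', map_mul, mul_assoc, hPE e he, mul_zero]
  · -- Case 1: no plateau
    classical
    have hex : ∃ i, D.C (D.N - i) = ⊥ := ⟨D.N, by rw [Nat.sub_self]; exact hC0⟩
    set i := Nat.find hex with hi
    have hiC : D.C (D.N - i) = ⊥ := Nat.find_spec hex
    have hiN : i ≤ D.N := Nat.find_min' hex (by rw [Nat.sub_self]; exact hC0)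
    have hmin : ∀ a < i, D.C (D.N - a) ≠ ⊥ := fun a ha => Nat.find_min hex ha
    have hgrow : ∀ a < i, kk D.G.L D.E D.z 0 + 1 + a ≤ bb D.G.L D.E D.z a := by
      intro a
      induction a with
      | zero => intro _; exact hb0
      | succ a ih =>
        intro ha
        have h1 := ih (by omega)
        have h2 : ¬ bb D.G.L D.E D.z (a + 1) ≤ bb D.G.L D.E D.z a := by
          intro h3
          refine hQ ⟨a, by omega, ?_, h3⟩
          have h4 := hmin (a + 1) ha
          rwa [show D.N - (a + 1) = D.N - a - 1 by omega] at h4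
        omega
    have hzero : ∀ a, i ≤ a → D.C (D.N - a) = ⊥ := by
      intro a ha
      by_contra hne
      exact (hmono (D.N - a) (D.N - i) (by omega) (by omega) hne).1 hiC
    refine ⟨i, D.N + 1 - i, by omega, ?_, hgrow, ?_, ?_, Or.inl (by omega)⟩
    · rcases Nat.eq_zero_or_pos i with h0 | h0
      · have h1 := hbb 0 (Nat.zero_le _)
        have h2 := hzero 0 (by omega)
        rw [h2, finrank_bot] at h1
        omega
      · have h1 := hbb (i - 1) (by omega)
        have h2 := C_pos D (hmin (i - 1) (by omega))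
        have h3 := hgrow (i - 1) (by omega)
        omega
    · intro a ha haN
      have h1 := hbb a (by omega)
      rw [hzero a ha, finrank_bot] at h1
      omega
    · intro a ha
      apply hkk a
      intro haN
      apply hl2a a haN
      intro p hp hzp
      have h1 : D.J (D.N - a) = ⊥ := by
        apply hGen.g1 (D.N - a) (by omega)
        intro p' hp'
        have h2 := hlc (D.N - a) (by omega) p' hp'
        rwa [hzero a ha, Submodule.mem_bot] at h2
      rw [h1, Submodule.mem_bot, mul_eq_zero] at hzp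
      rcases hzp with h2 | h2
      · exact absurd h2 hzprime.ne_zero
      · rw [h2]
        exact zero_mem _

end MPcec
end

section
set_option autoImplicit false

open Module

namespace MPcec

universe u v

namespace SqM

variable {F : Type u} {A : Type v} [Field F] [CommRing A] [Algebra F A]

/-- `{p ∈ P | ∀ q ∈ Q, lam (a * p * q) = 0}`. -/
def lk (lam : A →ₗ[F] F) (a : A) (P Q : Submodule F A) : Submodule F A where
  carrier := {p | p ∈ P ∧ ∀ q ∈ Q, lam (a * p * q) = 0}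
  add_mem' := by
    rintro x y ⟨hx, hx'⟩ ⟨hy, hy'⟩
    exact ⟨add_mem hx hy, fun q hq => by
      rw [mul_add, add_mul, map_add, hx' q hq, hy' q hq, add_zero]⟩
  zero_mem' := ⟨zero_mem _, fun q _ => by rw [mul_zero, zero_mul, map_zero]⟩
  smul_mem' := by
    rintro c x ⟨hx, hx'⟩
    exact ⟨Submodule.smul_mem _ c hx, fun q hq => by
      rw [mul_smul_comm, smul_mul_assoc, map_smul, hx' q hq, smul_zero]⟩

/-- the pairing. -/
noncomputable def pr (lam : A →ₗ[F] F) (a : A) (P Q : Submodule F A) : P →ₗ[F] Q →ₗ[F] F :=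
  LinearMap.mk₂ F (fun p q => lam (a * (p : A) * (q : A)))
    (fun x y q => by simp only [Submodule.coe_add]; rw [mul_add, add_mul, map_add])
    (fun c x q => by
      simp only [Submodule.coe_smul]
      rw [mul_smul_comm, smul_mul_assoc, map_smul])
    (fun x y q => by simp only [Submodule.coe_add]; rw [mul_add, map_add])
    (fun c x q => by
      simp only [Submodule.coe_smul]
      rw [mul_smul_comm, map_smul])

theorem pr_ker (lam : A →ₗ[F] F) (a : A) (P Q : Submodule F A) :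
    finrank F (LinearMap.ker (pr lam a P Q)) = finrank F (lk lam a P Q) := by
  have e : (LinearMap.ker (pr lam a P Q)).map P.subtype = lk lam a P Q := by
    ext x
    constructor
    · rintro ⟨y, hy, rfl⟩
      refine ⟨y.2, fun q hq => ?_⟩
      have := LinearMap.congr_fun (LinearMap.mem_ker.mp hy) ⟨q, hq⟩
      exact this
    · rintro ⟨h1, h2⟩
      refine ⟨⟨x, h1⟩, ?_, rfl⟩
      rw [SetLike.mem_coe, LinearMap.mem_ker]
      ext q
      exact h2 q q.2
  rw [← e]
  exact (LinearEquiv.finrank_eq (Submodule.equivMapOfInjective _ P.injective_subtype _))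

theorem rank_flip {P Q : Type*} [AddCommGroup P] [Module F P] [AddCommGroup Q] [Module F Q]
    [FiniteDimensional F P] [FiniteDimensional F Q] (B : P →ₗ[F] Q →ₗ[F] F) :
    finrank F (LinearMap.range B.flip) = finrank F (LinearMap.range B) := by
  have h1 : B.flip = (LinearMap.dualMap B) ∘ₗ (Module.evalEquiv F Q).toLinearMap := by
    ext q p
    simp
  have h2 : LinearMap.range B.flip = LinearMap.range (LinearMap.dualMap B) := by
    rw [h1]
    exact LinearMap.range_comp_of_range_eq_top _ (LinearEquiv.range _)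
  rw [h2]
  exact LinearMap.finrank_range_dualMap_eq_finrank_range B

theorem lk_dim (lam : A →ₗ[F] F) (a : A) (P Q : Submodule F A) [FiniteDimensional F P]
    [FiniteDimensional F Q] :
    finrank F P + finrank F (lk lam a Q P) = finrank F Q + finrank F (lk lam a P Q) := by
  have h1 := LinearMap.finrank_range_add_finrank_ker (pr lam a P Q)
  have h2 := LinearMap.finrank_range_add_finrank_ker (pr lam a Q P)
  have h3 : (pr lam a P Q).flip = pr lam a Q P := by
    ext q p
    change lam (a * (p : A) * (q : A)) = lam (a * (q : A) * (p : A))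
    congr 1
    ring
  have h4 := rank_flip (pr lam a P Q)
  rw [h3] at h4
  rw [pr_ker] at h1 h2
  omega

theorem lk_le (lam : A →ₗ[F] F) (a : A) (P Q : Submodule F A) : lk lam a P Q ≤ P := fun _ h => h.1

theorem mul_lk (lam : A →ₗ[F] F) (a : A) (L Y Y' : Submodule F A) :
    L * lk lam a Y (L * Y') ≤ lk lam a (L * Y) Y' := by
  rw [Submodule.mul_le]
  rintro l hl y ⟨hy, hy'⟩
  refine ⟨Submodule.mul_mem_mul hl hy, fun q hq => ?_⟩
  have := hy' (l * q) (Submodule.mul_mem_mul hl hq)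
  rw [← this]
  congr 1
  ring

theorem vanish {L Y Y' : Submodule F A} (lam : A →ₗ[F] F) (a : A) (hL : L.FG)
    (hY : Tight L Y) (hY' : Tight L Y') : ∀ y ∈ Y, ∀ u ∈ L * Y', lam (a * y * u) = 0 := by
  have : FiniteDimensional F Y := Module.Finite.iff_fg.mpr hY.1
  have : FiniteDimensional F Y' := Module.Finite.iff_fg.mpr hY'.1
  have : FiniteDimensional F (L * Y : Submodule F A) := Module.Finite.iff_fg.mpr (hL.mul hY.1)
  have : FiniteDimensional F (L * Y' : Submodule F A) := Module.Finite.iff_fg.mpr (hL.mul hY'.1)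
  have : FiniteDimensional F (lk lam a (L * Y) Y') :=
    Submodule.finiteDimensional_of_le (lk_le lam a (L * Y) Y')
  have : FiniteDimensional F (lk lam a (L * Y') Y) :=
    Submodule.finiteDimensional_of_le (lk_le lam a (L * Y') Y)
  have d1 := lk_dim lam a Y (L * Y')
  have d2 := lk_dim lam a (L * Y) Y'
  have m1 := Submodule.finrank_mono (mul_lk lam a L Y Y')
  have m2 := Submodule.finrank_mono (mul_lk lam a L Y' Y)
  rcases lt_or_eq_of_le (lk_le lam a Y (L * Y')) with h | h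
  · rcases lt_or_eq_of_le (lk_le lam a Y' (L * Y)) with h' | h'
    · have t1 := hY.2 _ h
      have t2 := hY'.2 _ h'
      omega
    · intro y hy u hu
      refine Submodule.mul_induction_on hu (fun l hl y' hy' => ?_) (fun u1 u2 h1 h2 => ?_)
      · have h3 : y' ∈ lk lam a Y' (L * Y) := by rw [h']; exact hy'
        have h4 := h3.2 (l * y) (Submodule.mul_mem_mul hl hy)
        rw [← h4]
        congr 1
        ring
      · rw [mul_add, map_add, h1, h2, add_zero]
  · intro y hy u hu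
    have h3 : y ∈ lk lam a Y (L * Y') := by rw [h]; exact hy
    exact h3.2 u hu

end SqM

open SqM in
theorem specSq : SpecSq.{u, v} := by
  intro F A _ _ _ G m Y Y' hm hYm hYm' hY hY' a ha b hb
  -- `a * u = 0` for `u ∈ L * Y'`
  have key : ∀ u ∈ G.L * Y', a * u = 0 := by
    intro u hu
    apply G.nondeg (2 * m + 1) hm
    · have h1 : a * u ∈ G.L ^ m * (G.L * G.L ^ m) :=
        Submodule.mul_mem_mul (hYm ha) ((Submodule.mul_le.mpr fun l hl z hz => Submodule.mul_mem_mul hl (hYm' hz)) hu)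
      have h2 : G.L ^ m * (G.L * G.L ^ m) = G.L ^ (2 * m + 1) := by
        rw [← pow_succ', ← pow_add]
        congr 1
        omega
      rwa [h2] at h1
    · intro c _
      have := vanish G.lam c G.fg hY hY' a ha u hu
      rw [← this]
      congr 1
      ring
  apply G.nondeg (2 * m) (by omega)
  · have h1 : a * b ∈ G.L ^ m * G.L ^ m := Submodule.mul_mem_mul (hYm ha) (hYm' hb)
    have h2 : G.L ^ m * G.L ^ m = G.L ^ (2 * m) := by
      rw [← pow_add]
      congr 1
      omega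
    rwa [h2] at h1
  · intro c hc
    have h3 : G.j - 2 * m = (G.j - 2 * m - 1) + 1 := by omega
    rw [h3, pow_succ'] at hc
    refine Submodule.mul_induction_on hc (fun l hl d _ => ?_) (fun c1 c2 h1 h2 => ?_)
    · have h4 := key (l * b) (Submodule.mul_mem_mul hl hb)
      have h5 : a * b * (l * d) = a * (l * b) * d := by ring
      rw [h5, h4, zero_mul, map_zero]
    · rw [mul_add, map_add, h1, h2, add_zero]

end MPcec
end

section
set_option autoImplicit false

open Module Pool.Agent.Lib.CEC001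

namespace MPcec

universe u

/-- unimodality of graded Gorenstein quotients from SpecMain -/
theorem unimodal_of_main (hM : SpecMain.{u}) (k : Type u) [Field k]
    (I : Ideal (MvPolynomial (Fin 4) k)) (hI : Gor I) :
    ¬ ∃ a b c : ℕ, a < b ∧ b < c ∧ hilb I b < hilb I a ∧ hilb I b < hilb I c := by
  obtain ⟨j, Λ, hH, hz, hj1, -⟩ := hI.exists_functional
  -- monotone up to the middle
  have hmono : ∀ m, 2 * (m + 1) ≤ j → hilb I m ≤ hilb I (m + 1) := by
    intro m hm
    have h1 := hM j k Λ m (by omega)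
    rw [hH m (j - m) (by omega), hH (m + 1) (j - (m + 1)) (by omega)]
    exact h1
  have hsymm : ∀ t, t ≤ j → hilb I t = hilb I (j - t) := by
    intro t ht
    rw [hH t (j - t) (by omega), hH (j - t) t (by omega), H_symm]
  have hle : ∀ b a, a ≤ b → 2 * b ≤ j → hilb I a ≤ hilb I b := by
    intro b a hab
    induction b, hab using Nat.le_induction with
    | base => intro _; exact le_rfl
    | succ b _ ih =>
      intro hb
      exact (ih (by omega)).trans (hmono b (by omega))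
  rintro ⟨a, b, c, hab, hbc, h1, h2⟩
  have hc : c ≤ j := by
    by_contra hc
    rw [hz c (by omega)] at h2
    omega
  rcases Nat.lt_or_ge (2 * b) (j + 1) with hb | hb
  · have := hle b a hab.le (by omega)
    omega
  · have h3 := hle (j - b) (j - c) (by omega) (by omega)
    rw [← hsymm b (by omega), ← hsymm c hc] at h3
    omega

/-- the statement of `S00452` from SpecMain -/
theorem S00452_of_main (hM : SpecMain.{0}) :
    ¬ (∃ (k : Type) (_ : Field k) (I : Ideal (MvPolynomial (Fin 4) k)),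
      (∀ p ∈ I, ∀ d : ℕ, MvPolynomial.homogeneousComponent d p ∈ I) ∧
      FiniteDimensional k (MvPolynomial (Fin 4) k ⧸ I) ∧
      Module.finrank k (LinearMap.ker (LinearMap.pi (fun i : Fin 4 =>
        LinearMap.mulLeft k (Ideal.Quotient.mk I (MvPolynomial.X i))))) = 1 ∧
      Module.finrank k (Submodule.map (Ideal.Quotient.mkₐ k I).toLinearMap
        (MvPolynomial.homogeneousSubmodule (Fin 4) k 1)) = 4 ∧
      ∃ a b c : ℕ, a < b ∧ b < c ∧
        Module.finrank k (Submodule.map (Ideal.Quotient.mkₐ k I).toLinearMap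
          (MvPolynomial.homogeneousSubmodule (Fin 4) k b)) <
        Module.finrank k (Submodule.map (Ideal.Quotient.mkₐ k I).toLinearMap
          (MvPolynomial.homogeneousSubmodule (Fin 4) k a)) ∧
        Module.finrank k (Submodule.map (Ideal.Quotient.mkₐ k I).toLinearMap
          (MvPolynomial.homogeneousSubmodule (Fin 4) k b)) <
        Module.finrank k (Submodule.map (Ideal.Quotient.mkₐ k I).toLinearMap
          (MvPolynomial.homogeneousSubmodule (Fin 4) k c))) := by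
  rintro ⟨k, hk, I, h1, h2, h3, -, h4⟩
  exact unimodal_of_main hM k I ⟨h1, h2, h3⟩ h4

end MPcec
end
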