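import Pool.Agent.Lib.MP_cec001_ag.SymAlg
import Pool.Agent.Lib.MP_cec001_ag.Spec
import Pool.Agent.Lib.MP_cec001_ag.Wrap

section
set_option autoImplicit false

open Module MvPolynomial

namespace MPcec

namespace LiftM

universe u

variable {k : Type u} [Field k]

/-- the big polynomial ring in the polynomial ring over the field of parameters. -/
noncomputable def emb (k : Type u) [Field k] (ρ : Type) :
    MvPolynomial (ρ ⊕ (ℕ × Fin 3)) k →+* MvPolynomial ρ (Om k) :=
  (MvPolynomial.map (algebraMap (Sx k) (Om k))).comp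
    (sumAlgEquiv k ρ (ℕ × Fin 3)).toRingEquiv.toRingHom

lemma emb_apply {ρ : Type} (f : MvPolynomial (ρ ⊕ (ℕ × Fin 3)) k) :
    emb k ρ f = MvPolynomial.map (algebraMap (Sx k) (Om k)) (sumAlgEquiv k ρ (ℕ × Fin 3) f) := rfl

lemma emb_inl {ρ : Type} (i : ρ) : emb k ρ (X (Sum.inl i)) = X i := by
  rw [emb_apply, sumAlgEquiv_X_inl, map_X]

lemma emb_inr {ρ : Type} (v : ℕ × Fin 3) : emb k ρ (X (Sum.inr v)) = C (xv k v) := by
  rw [emb_apply, sumAlgEquiv_X_inr, map_C]
  rfl

lemma emb_C {ρ : Type} (c : k) : emb k ρ (C c) = C (algebraMap (Sx k) (Om k) (C c)) := by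
  rw [emb_apply, sumAlgEquiv_C_inl, map_C]

lemma map_injective' {ρ : Type} : Function.Injective
    (MvPolynomial.map (algebraMap (Sx k) (Om k)) : MvPolynomial ρ (Sx k) →+* _) :=
  MvPolynomial.map_injective _ (IsFractionRing.injective (Sx k) (Om k))

lemma emb_injective {ρ : Type} : Function.Injective (emb k ρ) := by
  intro a b h
  rw [emb_apply, emb_apply] at h
  exact (sumAlgEquiv k ρ (ℕ × Fin 3)).injective (map_injective' h)

/-- inclusion of the polynomials free of `U`. -/
noncomputable def inc (k : Type u) [Field k] (ρ : Type) (U : Set (ℕ × Fin 3)) :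
    MvPolynomial (ρ ⊕ (Uᶜ : Set (ℕ × Fin 3))) k →ₐ[k] MvPolynomial (ρ ⊕ (ℕ × Fin 3)) k :=
  rename (Sum.map id Subtype.val)

lemma inc_injective {ρ : Type} (U : Set (ℕ × Fin 3)) : Function.Injective (inc k ρ U) := by
  apply rename_injective
  exact Sum.map_injective.2 ⟨Function.injective_id, Subtype.val_injective⟩

lemma sum_inr {ρ T : Type} (x : MvPolynomial T k) :
    sumAlgEquiv k ρ T (rename Sum.inr x) = C x :=
  DFunLike.congr_fun (sumAlgEquiv_comp_rename_inr (R := k) (S₁ := ρ) (S₂ := T)) x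

lemma sum_inl {ρ T : Type} (x : MvPolynomial ρ k) :
    sumAlgEquiv k ρ T (rename Sum.inl x) = MvPolynomial.map C x :=
  DFunLike.congr_fun (sumAlgEquiv_comp_rename_inl (R := k) (S₁ := ρ) (S₂ := T)) x

lemma sum_inc {ρ : Type} (U : Set (ℕ × Fin 3)) (F : MvPolynomial (ρ ⊕ (Uᶜ : Set (ℕ × Fin 3))) k) :
    sumAlgEquiv k ρ (ℕ × Fin 3) (inc k ρ U F) =
      MvPolynomial.map (rename Subtype.val : MvPolynomial (Uᶜ : Set (ℕ × Fin 3)) k →ₐ[k] _).toRingHom
        (sumAlgEquiv k ρ (Uᶜ : Set (ℕ × Fin 3)) F) := by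
  have : ((sumAlgEquiv k ρ (ℕ × Fin 3)).toRingEquiv.toRingHom).comp (inc k ρ U).toRingHom =
      (MvPolynomial.map (rename Subtype.val :
        MvPolynomial (Uᶜ : Set (ℕ × Fin 3)) k →ₐ[k] _).toRingHom).comp
        (sumAlgEquiv k ρ (Uᶜ : Set (ℕ × Fin 3))).toRingEquiv.toRingHom := by
    apply MvPolynomial.ringHom_ext
    · intro c
      simp [inc]
    · rintro (i | v)
      · simp [inc]
      · simp [inc]
  exact DFunLike.congr_fun this F

lemma freeOf_iff {ρ : Type} (U : Set (ℕ × Fin 3)) (f : MvPolynomial ρ (Om k)) :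
    FreeOf U f ↔ ∃ a : Om k, a ≠ 0 ∧ ∃ F, f = C a * emb k ρ (inc k ρ U F) := by
  classical
  constructor
  · rintro ⟨a, ha, P, hP, rfl⟩
    refine ⟨a, ha, ?_⟩
    have h1 : ∀ μ, ∃ q : MvPolynomial (Uᶜ : Set (ℕ × Fin 3)) k,
        rename Subtype.val q = P.coeff μ := by
      intro μ
      apply exists_rename_eq_of_vars_subset_range _ _ Subtype.val_injective
      intro v hv
      exact ⟨⟨v, hP μ v hv⟩, rfl⟩
    choose q hq using h1
    refine ⟨∑ μ ∈ P.support, rename Sum.inl (monomial μ 1) * rename Sum.inr (q μ), ?_⟩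
    congr 1
    rw [emb_apply]
    congr 1
    have h2 : ∀ x : MvPolynomial ρ k, inc k ρ U (rename Sum.inl x) = rename Sum.inl x := by
      intro x
      rw [inc, rename_rename]
      rfl
    have h3 : ∀ x, inc k ρ U (rename Sum.inr x) = rename Sum.inr (rename Subtype.val x) := by
      intro x
      rw [inc, rename_rename, rename_rename]
      rfl
    rw [map_sum, map_sum]
    conv_lhs => rw [P.as_sum]
    refine Finset.sum_congr rfl (fun μ _ => ?_)
    rw [map_mul, map_mul, h2, h3, sum_inl, sum_inr, hq, map_monomial, map_one, mul_comm,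
      C_mul_monomial, mul_one]
  · rintro ⟨a, ha, F, rfl⟩
    refine ⟨a, ha, sumAlgEquiv k ρ (ℕ × Fin 3) (inc k ρ U F), ?_, rfl⟩
    intro μ v hv
    rw [sum_inc, coeff_map] at hv
    have h4 := vars_rename Subtype.val _ hv
    obtain ⟨j, _, hj⟩ := Finset.mem_image.1 h4
    rw [← hj]
    exact j.2

lemma restr_C {F : Type u} [Field F] {r : ℕ} (a : Fin r → F) (c : F) :
    restr a (C c) = C c := by
  rw [restr, algHom_C]
  rfl

lemma restr_emb {n : ℕ} (w : Fin n → ℕ × Fin 3) (U : Set (ℕ × Fin 3))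
    (F : MvPolynomial (Fin (n + 1) ⊕ (Uᶜ : Set (ℕ × Fin 3))) k) :
    restr (fun i => xv k (w i)) (emb k (Fin (n + 1)) (inc k (Fin (n + 1)) U F)) =
      emb k (Fin n) (phi k w U F) := by
  have : ((restr (fun i => xv k (w i))).toRingHom.comp (emb k (Fin (n + 1)))).comp
      (inc k (Fin (n + 1)) U).toRingHom = (emb k (Fin n)).comp (phi k w U).toRingHom := by
    apply MvPolynomial.ringHom_ext
    · intro c
      simp only [AlgHom.toRingHom_eq_coe, RingHom.comp_apply, RingHom.coe_coe]
      rw [algHom_C, algHom_C]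
      simp only [algebraMap_eq]
      rw [emb_C, restr_C, emb_C]
    · rintro (a | v)
      · refine Fin.lastCases ?_ (fun a => ?_) a
        · simp only [AlgHom.toRingHom_eq_coe, RingHom.comp_apply, RingHom.coe_coe]
          rw [inc, rename_X, Sum.map_inl, id, emb_inl]
          simp only [restr, phi, aeval_X, Sum.elim_inl, Fin.snoc_last, Lf, map_sum, map_mul, emb_inl,
            emb_inr]
          exact Finset.sum_congr rfl (fun i _ => mul_comm _ _)
        · simp only [AlgHom.toRingHom_eq_coe, RingHom.comp_apply, RingHom.coe_coe]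
          rw [inc, rename_X, Sum.map_inl, id, emb_inl]
          simp only [restr, phi, aeval_X, Sum.elim_inl, Fin.snoc_castSucc, emb_inl]
      · simp only [AlgHom.toRingHom_eq_coe, RingHom.comp_apply, RingHom.coe_coe]
        rw [inc, rename_X, Sum.map_inr, emb_inr, restr_C]
        simp only [phi, aeval_X, Sum.elim_inr, emb_inr]
  exact DFunLike.congr_fun this F

lemma restr_eq_zero {n : ℕ} (i0 : Fin n) (w : Fin n → ℕ × Fin 3) (hw : Function.Injective w)
    (U : Set (ℕ × Fin 3)) (hU : ∀ i, w i ∈ U) {f : MvPolynomial (Fin (n + 1)) (Om k)}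
    (hf : FreeOf U f) (h : restr (fun i => xv k (w i)) f = 0) : f = 0 := by
  rw [freeOf_iff] at hf
  obtain ⟨a, ha, F, rfl⟩ := hf
  rw [map_mul, restr_C, restr_emb, mul_eq_zero] at h
  have ha' : (C a : MvPolynomial (Fin n) (Om k)) ≠ 0 := by
    rw [Ne, C_eq_zero]
    exact ha
  have h1 := h.resolve_left ha'
  have h2 : F = 0 := phi_injective w hw U hU i0 (emb_injective (by rw [h1, map_zero, map_zero]))
  rw [h2, map_zero, map_zero, mul_zero]

lemma isHomogeneous_restr {F : Type u} [Field F] {r : ℕ} (a : Fin r → F) {d : ℕ}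
    {f : MvPolynomial (Fin (r + 1)) F} (hf : f.IsHomogeneous d) : (restr a f).IsHomogeneous d := by
  have h := MvPolynomial.IsHomogeneous.aeval hf (n := 1)
    (Fin.snoc (α := fun _ => MvPolynomial (Fin r) F) (fun i => MvPolynomial.X i)
    (∑ i, MvPolynomial.C (a i) * MvPolynomial.X i)) (by
      intro i
      refine Fin.lastCases ?_ (fun i => ?_) i
      · rw [Fin.snoc_last]
        apply IsHomogeneous.sum
        intro j _
        have := (isHomogeneous_C (Fin r) (a j)).mul (isHomogeneous_X F j)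
        rwa [zero_add] at this
      · rw [Fin.snoc_castSucc]
        exact isHomogeneous_X F i)
  rwa [one_mul] at h

lemma restr_comp {F : Type u} [Field F] {r : ℕ} (a : Fin r → F) (d : ℕ)
    (f : MvPolynomial (Fin (r + 1)) F) :
    homogeneousComponent d (restr a f) = restr a (homogeneousComponent d f) := by
  classical
  conv_lhs => rw [← sum_homogeneousComponent f]
  rw [map_sum, map_sum]
  have h1 : ∀ i ∈ Finset.range (f.totalDegree + 1),
      homogeneousComponent d (restr a (homogeneousComponent i f)) =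
        if i = d then restr a (homogeneousComponent d f) else 0 := by
    intro i _
    rw [homogeneousComponent_of_mem (isHomogeneous_restr a (homogeneousComponent_isHomogeneous i f))]
    by_cases h : i = d
    · subst h; simp
    · rw [if_neg (fun h' => h h'.symm), if_neg h]
  rw [Finset.sum_congr rfl h1, Finset.sum_ite_eq']
  split_ifs with h
  · rfl
  · rw [homogeneousComponent_eq_zero, map_zero]
    by_contra hlt
    exact h (Finset.mem_range.2 (by omega))

lemma freeOf_component {ρ : Type} {U : Set (ℕ × Fin 3)} {f : MvPolynomial ρ (Om k)}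
    (hf : FreeOf U f) (d : ℕ) : FreeOf U (homogeneousComponent d f) := by
  classical
  obtain ⟨a, ha, P, hP, rfl⟩ := hf
  refine ⟨a, ha, homogeneousComponent d P, ?_, ?_⟩
  · intro μ v hv
    rw [coeff_homogeneousComponent] at hv
    split_ifs at hv with h
    · exact hP μ v hv
    · rw [vars_0] at hv
      exact absurd hv (Finset.notMem_empty _)
  · rw [homogeneousComponent_C_mul]
    congr 1
    ext μ
    rw [coeff_homogeneousComponent, coeff_map, coeff_map, coeff_homogeneousComponent]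
    split_ifs
    · rfl
    · rw [map_zero]

/-- a form free of `U` whose restriction is homogeneous is homogeneous. -/
lemma isHomogeneous_of_restr {n : ℕ} (i0 : Fin n) (w : Fin n → ℕ × Fin 3)
    (hw : Function.Injective w) (U : Set (ℕ × Fin 3)) (hU : ∀ i, w i ∈ U)
    {f : MvPolynomial (Fin (n + 1)) (Om k)} (hf : FreeOf U f) {s : ℕ}
    (h : (restr (fun i => xv k (w i)) f).IsHomogeneous s) : f.IsHomogeneous s := by
  have h1 : ∀ d, d ≠ s → homogeneousComponent d f = 0 := by
    intro d hd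
    apply restr_eq_zero i0 w hw U hU (freeOf_component hf d)
    rw [← restr_comp, homogeneousComponent_of_mem h, if_neg hd]
  have h2 : f = homogeneousComponent s f := by
    conv_lhs => rw [← sum_homogeneousComponent f]
    by_cases hs : s ∈ Finset.range (f.totalDegree + 1)
    · rw [Finset.sum_eq_single s (fun d _ hd => h1 d hd) (fun hh => absurd hs hh)]
    · rw [Finset.sum_eq_zero (fun d hd => h1 d (fun hh => hs (hh ▸ hd)))]
      symm
      apply homogeneousComponent_eq_zero
      by_contra hlt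
      exact hs (Finset.mem_range.2 (by omega))
  rw [h2]
  exact homogeneousComponent_isHomogeneous s f

/-- clearing denominators. -/
lemma exists_clear {ρ : Type} (g : MvPolynomial ρ (Om k)) : ∃ b : Sx k, b ≠ 0 ∧
    ∃ G : MvPolynomial ρ (Sx k), MvPolynomial.map (algebraMap (Sx k) (Om k)) G =
      C (algebraMap (Sx k) (Om k) b) * g := by
  induction g using MvPolynomial.induction_on with
  | C a =>
    obtain ⟨p, q, hq, rfl⟩ := IsFractionRing.div_surjective (A := Sx k) a
    have hq0 : q ≠ 0 := nonZeroDivisors.ne_zero hq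
    have hq1 : algebraMap (Sx k) (Om k) q ≠ 0 := by
      intro h
      exact hq0 (IsFractionRing.injective (Sx k) (Om k) (by rw [h, map_zero]))
    refine ⟨q, hq0, C p, ?_⟩
    rw [map_C, ← C_mul, mul_div_cancel₀ _ hq1]
  | add p q hp hq =>
    obtain ⟨b, hb, G, hG⟩ := hp
    obtain ⟨b', hb', G', hG'⟩ := hq
    refine ⟨b * b', mul_ne_zero hb hb', C b' * G + C b * G', ?_⟩
    rw [map_add, map_mul, map_mul, hG, hG', map_C, map_C, map_mul, C_mul]
    ring
  | mul_X p v hp =>
    obtain ⟨b, hb, G, hG⟩ := hp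
    refine ⟨b, hb, G * X v, ?_⟩
    rw [map_mul, hG, map_X]
    ring

/-- Gauss's lemma. -/
lemma gauss {ρ : Type} {F : MvPolynomial ρ (Sx k)} {g h : MvPolynomial ρ (Om k)}
    (hF : MvPolynomial.map (algebraMap (Sx k) (Om k)) F = g * h) :
    ∃ γ δ : MvPolynomial ρ (Sx k), F = γ * δ ∧ ∃ c : Om k, c ≠ 0 ∧
      MvPolynomial.map (algebraMap (Sx k) (Om k)) γ = C c * g := by
  obtain ⟨b, hb, G, hG⟩ := exists_clear g
  obtain ⟨b', hb', H, hH⟩ := exists_clear h
  have h1 : G * H = C (b * b') * F := by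
    apply map_injective'
    rw [map_mul, map_mul, hG, hH, hF, map_C, map_mul, C_mul]
    ring
  obtain ⟨a1, a2, ha1, ha2, ha⟩ := exists_dvd_and_dvd_of_dvd_mul (Dvd.intro H h1)
  have hne : ∀ b : Sx k, b ≠ 0 → algebraMap (Sx k) (Om k) b ≠ 0 := by
    intro b hb h0
    exact hb (IsFractionRing.injective (Sx k) (Om k) (by rw [h0, map_zero]))
  have hu : IsUnit (MvPolynomial.map (algebraMap (Sx k) (Om k)) a1) := by
    apply isUnit_of_dvd_unit (map_dvd (MvPolynomial.map (algebraMap (Sx k) (Om k))) ha1)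
    rw [map_C, map_mul]
    exact ((hne b hb).isUnit.mul (hne b' hb').isUnit).map C
  obtain ⟨c0, hc0, hc0'⟩ := isUnit_iff_eq_C_of_isReduced.1 hu
  obtain ⟨δ, hδ⟩ := ha2
  refine ⟨a2, δ, hδ, c0⁻¹ * algebraMap _ _ b, mul_ne_zero (inv_ne_zero hc0.ne_zero) (hne b hb), ?_⟩
  have h2 : C c0 * MvPolynomial.map (algebraMap (Sx k) (Om k)) a2 =
      C (algebraMap (Sx k) (Om k) b) * g := by
    rw [← hc0', ← map_mul, ← ha, hG]
  rw [C_mul, mul_assoc, ← h2, ← mul_assoc, ← C_mul, inv_mul_cancel₀ hc0.ne_zero, C_1, one_mul]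

end LiftM

open LiftM in
/-- LIFT. -/
theorem specLift : SpecLift := by
  intro k _ r w hw U hU f s e g h hf hg hh hfU hres hne
  have hfU' := hfU
  rw [freeOf_iff] at hfU'
  obtain ⟨a, ha, F, hF⟩ := hfU'
  have hCa : (C a : MvPolynomial (Fin (r + 2)) (Om k)) ≠ 0 := by
    rw [Ne, C_eq_zero]
    exact ha
  have hF0 : F ≠ 0 := by
    rintro rfl
    apply hne
    rw [← hres, hF, map_zero, map_zero, mul_zero, map_zero]
  -- the restriction of `F`
  have h1 : MvPolynomial.map (algebraMap (Sx k) (Om k))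
      (sumAlgEquiv k (Fin (r + 2)) (ℕ × Fin 3) (phi k w U F)) = g * (C a⁻¹ * h) := by
    rw [← emb_apply, ← restr_emb]
    have h2 : C a * restr (fun i => xv k (w i))
        (emb k (Fin (r + 2 + 1)) (inc k (Fin (r + 2 + 1)) U F)) = g * h := by
      rw [← hres, hF, map_mul, restr_C]
    have h3 : (C a⁻¹ * C a : MvPolynomial (Fin (r + 2)) (Om k)) = 1 := by
      rw [← C_mul, inv_mul_cancel₀ ha, C_1]
    calc restr (fun i => xv k (w i)) (emb k (Fin (r + 2 + 1)) (inc k (Fin (r + 2 + 1)) U F))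
        = (C a⁻¹ * C a) * restr (fun i => xv k (w i))
            (emb k (Fin (r + 2 + 1)) (inc k (Fin (r + 2 + 1)) U F)) := by rw [h3, one_mul]
      _ = C a⁻¹ * (g * h) := by rw [mul_assoc, h2]
      _ = g * (C a⁻¹ * h) := by ring
  obtain ⟨γ, δ, hγδ, c, hc, hγ⟩ := gauss h1
  set γ' := (sumAlgEquiv k (Fin (r + 2)) (ℕ × Fin 3)).symm γ with hγ'
  set δ' := (sumAlgEquiv k (Fin (r + 2)) (ℕ × Fin 3)).symm δ with hδ'
  have h2 : γ' * δ' = phi k w U F := by
    rw [hγ', hδ', ← map_mul, ← hγδ, AlgEquiv.symm_apply_apply]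
  obtain ⟨Γ, hΓ⟩ := exists_phi w hw U hU hF0 h2
  obtain ⟨Δ, hΔ⟩ := exists_phi w hw U hU hF0 ((mul_comm δ' γ').trans h2)
  have h3 : Γ * Δ = F := by
    apply phi_injective w hw U hU 0
    rw [map_mul, ← hΓ, ← hΔ, h2]
  have hP : FreeOf U (emb k (Fin (r + 2 + 1)) (inc k (Fin (r + 2 + 1)) U Γ)) := by
    rw [freeOf_iff]
    exact ⟨1, one_ne_zero, Γ, by rw [C_1, one_mul]⟩
  have hQ : FreeOf U (C a * emb k (Fin (r + 2 + 1)) (inc k (Fin (r + 2 + 1)) U Δ)) := by
    rw [freeOf_iff]
    exact ⟨a, ha, Δ, rfl⟩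
  have hfac : f = emb k (Fin (r + 2 + 1)) (inc k (Fin (r + 2 + 1)) U Γ) *
      (C a * emb k (Fin (r + 2 + 1)) (inc k (Fin (r + 2 + 1)) U Δ)) := by
    rw [hF, ← h3, map_mul, map_mul]
    ring
  have hresP : restr (fun i => xv k (w i))
      (emb k (Fin (r + 2 + 1)) (inc k (Fin (r + 2 + 1)) U Γ)) = C c * g := by
    rw [restr_emb, ← hΓ, emb_apply, hγ', AlgEquiv.apply_symm_apply, hγ]
  have hg0 : g ≠ 0 := left_ne_zero_of_mul hne
  have hresQ : restr (fun i => xv k (w i))
      (C a * emb k (Fin (r + 2 + 1)) (inc k (Fin (r + 2 + 1)) U Δ)) = C c⁻¹ * h := by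
    have h4 : C c * g * restr (fun i => xv k (w i))
      (C a * emb k (Fin (r + 2 + 1)) (inc k (Fin (r + 2 + 1)) U Δ)) = C c * g * (C c⁻¹ * h) := by
      rw [← hresP, ← map_mul, ← hfac, hres, hresP]
      have h5 : (C c * C c⁻¹ : MvPolynomial (Fin (r + 2)) (Om k)) = 1 := by
        rw [← C_mul, mul_inv_cancel₀ hc, C_1]
      calc g * h = (C c * C c⁻¹) * (g * h) := by rw [h5, one_mul]
        _ = C c * g * (C c⁻¹ * h) := by ring
    have hcg : C c * g ≠ 0 := by
      apply mul_ne_zero _ hg0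
      rw [Ne, C_eq_zero]
      exact hc
    exact mul_left_cancel₀ hcg h4
  refine ⟨_, _, ?_, ?_, hP, hQ, hfac, c, hc, hresP⟩
  · apply isHomogeneous_of_restr 0 w hw U hU hP
    rw [hresP]
    have := (isHomogeneous_C (Fin (r + 2)) c).mul hg
    rwa [zero_add] at this
  · apply isHomogeneous_of_restr 0 w hw U hU hQ
    rw [hresQ]
    have := (isHomogeneous_C (Fin (r + 2)) c⁻¹).mul hh
    rwa [zero_add] at this

end MPcec
end

section
set_option autoImplicit false

open Module MvPolynomial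

namespace MPcec

namespace LiftM

universe u

variable {k : Type u} [Field k]

lemma dvd_of_coprime {ρ : Type} {p q : Sx k} (h : IsRelPrime p q) {A B : MvPolynomial ρ (Sx k)}
    (hAB : C q * A = C p * B) : C q ∣ B := by
  rw [C_dvd_iff_dvd_coeff]
  intro i
  have h1 := congrArg (coeff i) hAB
  rw [coeff_C_mul, coeff_C_mul] at h1
  exact h.symm.dvd_of_dvd_mul_left (Dvd.intro _ h1)

/-- scalar factors of restrictions are free of `U`. -/
lemma exists_scalar {r : ℕ} (w : Fin (r + 2) → ℕ × Fin 3) (hw : Function.Injective w)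
    (U : Set (ℕ × Fin 3)) (hU : ∀ i, w i ∈ U)
    {F : MvPolynomial (Fin (r + 2 + 1) ⊕ (Uᶜ : Set (ℕ × Fin 3))) k} (hF : F ≠ 0) {q : Sx k}
    (h : C q ∣ sumAlgEquiv k (Fin (r + 2)) (ℕ × Fin 3) (phi k w U F)) :
    ∃ q0 : MvPolynomial (Uᶜ : Set (ℕ × Fin 3)) k, rename Subtype.val q0 = q := by
  obtain ⟨δ, hδ⟩ := h
  have h1 : (rename Sum.inr q : MvPolynomial (Fin (r + 2) ⊕ (ℕ × Fin 3)) k) *
      (sumAlgEquiv k (Fin (r + 2)) (ℕ × Fin 3)).symm δ = phi k w U F := by
    apply (sumAlgEquiv k (Fin (r + 2)) (ℕ × Fin 3)).injective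
    rw [map_mul, sum_inr, AlgEquiv.apply_symm_apply, hδ]
  obtain ⟨Q, hQ⟩ := exists_phi w hw U hU hF h1
  refine ⟨aeval (Sum.elim (fun _ => 0) X) Q, ?_⟩
  have h2 : ((aeval (Sum.elim (fun _ => 0) X) :
      MvPolynomial (Fin (r + 2) ⊕ (ℕ × Fin 3)) k →ₐ[k] MvPolynomial (ℕ × Fin 3) k)).comp
        (phi k w U) = (rename Subtype.val).comp
        (aeval (Sum.elim (fun _ => 0) X) :
          MvPolynomial (Fin (r + 2 + 1) ⊕ (Uᶜ : Set (ℕ × Fin 3))) k →ₐ[k]
          MvPolynomial (Uᶜ : Set (ℕ × Fin 3)) k) := by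
    apply MvPolynomial.algHom_ext
    rintro (a | v)
    · refine Fin.lastCases ?_ (fun a => ?_) a
      · simp [phi, Lf]
      · simp [phi]
    · simp [phi]
  have h3 := DFunLike.congr_fun h2 Q
  simp only [AlgHom.comp_apply] at h3
  rw [← h3, ← hQ, aeval_rename]
  exact MvPolynomial.aeval_X_left_apply q

end LiftM

open LiftM in
/-- INJ. -/
theorem specInj : SpecInj := by
  intro k _ r w hw U hU
  refine ⟨fun f hf h => restr_eq_zero 0 w hw U hU hf h, ?_⟩
  rintro d f g _ _ hf hg hg0 ⟨c, hc⟩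
  rw [freeOf_iff] at hf hg
  obtain ⟨a, ha, F, hF⟩ := hf
  obtain ⟨b, hb, G, hG⟩ := hg
  by_cases hF0 : F = 0
  · refine ⟨0, ?_⟩
    rw [hF, hF0, map_zero, map_zero, mul_zero, C_0, zero_mul]
  have hG0 : G ≠ 0 := by
    rintro rfl
    apply hg0
    rw [hG, map_zero, map_zero, mul_zero]
  have h1 : emb k (Fin (r + 2)) (phi k w U F) =
      C (a⁻¹ * c * b) * emb k (Fin (r + 2)) (phi k w U G) := by
    have h2 : C a * emb k (Fin (r + 2)) (phi k w U F) =
        C c * (C b * emb k (Fin (r + 2)) (phi k w U G)) := by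
      rw [← restr_emb, ← restr_emb, ← restr_C (fun i => xv k (w i)) a,
        ← restr_C (fun i => xv k (w i)) b, ← map_mul, ← map_mul, ← hF, ← hG, hc]
    have h3 : (C a⁻¹ * C a : MvPolynomial (Fin (r + 2)) (Om k)) = 1 := by
      rw [← C_mul, inv_mul_cancel₀ ha, C_1]
    calc emb k (Fin (r + 2)) (phi k w U F)
        = (C a⁻¹ * C a) * emb k (Fin (r + 2)) (phi k w U F) := by rw [h3, one_mul]
      _ = C a⁻¹ * (C c * (C b * emb k (Fin (r + 2)) (phi k w U G))) := by rw [mul_assoc, h2]
      _ = C (a⁻¹ * c * b) * emb k (Fin (r + 2)) (phi k w U G) := by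
        rw [C_mul, C_mul]; ring
  obtain ⟨p, q, hpq, hx⟩ := IsFractionRing.exists_reduced_fraction (A := Sx k) (a⁻¹ * c * b)
  have hq0 : algebraMap (Sx k) (Om k) q ≠ 0 := by
    intro h
    exact nonZeroDivisors.ne_zero q.2 (IsFractionRing.injective (Sx k) (Om k) (by rw [h, map_zero]))
  have hx' : algebraMap (Sx k) (Om k) q * (a⁻¹ * c * b) = algebraMap (Sx k) (Om k) p := by
    rw [← hx, IsLocalization.mk'_spec']
  have h4 : C (q : Sx k) * sumAlgEquiv k (Fin (r + 2)) (ℕ × Fin 3) (phi k w U F) =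
      C p * sumAlgEquiv k (Fin (r + 2)) (ℕ × Fin 3) (phi k w U G) := by
    apply map_injective'
    rw [map_mul, map_mul, ← emb_apply, ← emb_apply, map_C, map_C, h1, ← mul_assoc, ← C_mul, hx']
  obtain ⟨q0, hq⟩ := exists_scalar w hw U hU hG0 (dvd_of_coprime hpq h4)
  obtain ⟨p0, hp⟩ := exists_scalar w hw U hU hF0 (dvd_of_coprime hpq.symm h4.symm)
  have hph : ∀ x : MvPolynomial (Uᶜ : Set (ℕ × Fin 3)) k, phi k w U (rename Sum.inr x) =
      rename Sum.inr (rename Subtype.val x) := by
    intro x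
    have : (phi k w U).comp (rename Sum.inr) = (rename Sum.inr).comp (rename Subtype.val) := by
      apply MvPolynomial.algHom_ext
      intro v
      simp [phi]
    exact DFunLike.congr_fun this x
  have h5 : rename Sum.inr q0 * F = rename Sum.inr p0 * G := by
    apply phi_injective w hw U hU 0
    rw [map_mul, map_mul, hph, hph, hq, hp]
    apply (sumAlgEquiv k (Fin (r + 2)) (ℕ × Fin 3)).injective
    rw [map_mul, map_mul, sum_inr, sum_inr, h4]
  have h6 : ∀ x : MvPolynomial (Uᶜ : Set (ℕ × Fin 3)) k,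
      emb k (Fin (r + 2 + 1)) (inc k (Fin (r + 2 + 1)) U (rename Sum.inr x)) =
        C (algebraMap (Sx k) (Om k) (rename Subtype.val x)) := by
    intro x
    rw [inc, rename_rename]
    have : (Sum.map id Subtype.val ∘ Sum.inr :
        (Uᶜ : Set (ℕ × Fin 3)) → Fin (r + 2 + 1) ⊕ (ℕ × Fin 3)) = Sum.inr ∘ Subtype.val := rfl
    rw [this, ← rename_rename, emb_apply, sum_inr, map_C]
  have h7 := congrArg (fun z => emb k (Fin (r + 2 + 1)) (inc k (Fin (r + 2 + 1)) U z)) h5
  simp only [map_mul] at h7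
  rw [h6, h6, hq, hp, ← hx', C_mul, mul_assoc] at h7
  have h8 : emb k (Fin (r + 2 + 1)) (inc k (Fin (r + 2 + 1)) U F) = C (a⁻¹ * c * b) *
      emb k (Fin (r + 2 + 1)) (inc k (Fin (r + 2 + 1)) U G) := by
    refine mul_left_cancel₀ ?_ h7
    rw [Ne, C_eq_zero]
    exact hq0
  refine ⟨c, ?_⟩
  rw [hF, h8, hG, ← mul_assoc, ← mul_assoc, ← C_mul, ← C_mul]
  congr 2
  field_simp

end MPcec
end

section
set_option autoImplicit false

open Module

namespace MPcec

universe u v

namespace Poly3M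

variable {F : Type u} [Field F]

/-- the linear form vanishing on the line. -/
noncomputable def zz (y : Fin 2 → F) : MvPolynomial (Fin 3) F :=
  MvPolynomial.X 2 - (MvPolynomial.C (y 0) * MvPolynomial.X 0 + MvPolynomial.C (y 1) * MvPolynomial.X 1)

lemma restr_castSucc {r : ℕ} (a : Fin r → F) (i : Fin r) :
    restr a (MvPolynomial.X i.castSucc) = MvPolynomial.X i := by
  unfold restr
  rw [MvPolynomial.aeval_X, Fin.snoc_castSucc]

lemma restr_last {r : ℕ} (a : Fin r → F) :
    restr a (MvPolynomial.X (Fin.last r)) = ∑ i, MvPolynomial.C (a i) * MvPolynomial.X i := by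
  unfold restr
  rw [MvPolynomial.aeval_X, Fin.snoc_last]

lemma restr_C {r : ℕ} (a : Fin r → F) (c : F) : restr a (MvPolynomial.C c) = MvPolynomial.C c := by
  unfold restr
  rw [MvPolynomial.aeval_C]
  rfl

lemma restr_homog {r : ℕ} (a : Fin r → F) {d : ℕ} {p : MvPolynomial (Fin (r + 1)) F}
    (hp : p.IsHomogeneous d) : (restr a p).IsHomogeneous d := by
  have h := MvPolynomial.IsHomogeneous.aeval hp
    (Fin.snoc (α := fun _ => MvPolynomial (Fin r) F) (fun i => MvPolynomial.X i)
    (∑ i, MvPolynomial.C (a i) * MvPolynomial.X i)) (n := 1) (by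
      intro i
      refine Fin.lastCases ?_ (fun j => ?_) i
      · rw [Fin.snoc_last]
        exact MvPolynomial.IsHomogeneous.sum _ _ _ (fun j _ => MvPolynomial.isHomogeneous_C_mul_X _ _)
      · rw [Fin.snoc_castSucc]
        exact MvPolynomial.isHomogeneous_X _ _)
  rw [one_mul] at h
  exact h

lemma restr_zz (y : Fin 2 → F) : restr y (zz y) = 0 := by
  unfold zz
  have h2 : restr y (MvPolynomial.X 2 : MvPolynomial (Fin 3) F) = _ := restr_last y
  have h0 : restr y (MvPolynomial.X 0 : MvPolynomial (Fin 3) F) = _ := restr_castSucc y 0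
  have h1 : restr y (MvPolynomial.X 1 : MvPolynomial (Fin 3) F) = _ := restr_castSucc y 1
  rw [map_sub, map_add, map_mul, map_mul, h2, h0, h1, restr_C, restr_C, Fin.sum_univ_two, sub_self]

/-- the section of the restriction. -/
noncomputable def sec : MvPolynomial (Fin 2) F →ₐ[F] MvPolynomial (Fin 3) F :=
  MvPolynomial.rename Fin.castSucc

lemma sub_mem_span (y : Fin 2 → F) (p : MvPolynomial (Fin 3) F) :
    p - sec (restr y p) ∈ Ideal.span {zz y} := by
  have h : (Ideal.Quotient.mkₐ F (Ideal.span {zz y})) =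
      ((Ideal.Quotient.mkₐ F (Ideal.span {zz y})).comp (sec.comp (restr y))) := by
    apply MvPolynomial.algHom_ext
    intro i
    rw [AlgHom.comp_apply, AlgHom.comp_apply]
    fin_cases i
    · have h0 : restr y (MvPolynomial.X 0 : MvPolynomial (Fin 3) F) = _ := restr_castSucc y 0
      change _ = Ideal.Quotient.mkₐ F (Ideal.span {zz y}) (sec (restr y (MvPolynomial.X 0)))
      rw [h0]
      unfold sec
      rw [MvPolynomial.rename_X]
      rfl
    · have h0 : restr y (MvPolynomial.X 1 : MvPolynomial (Fin 3) F) = _ := restr_castSucc y 1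
      change _ = Ideal.Quotient.mkₐ F (Ideal.span {zz y}) (sec (restr y (MvPolynomial.X 1)))
      rw [h0]
      unfold sec
      rw [MvPolynomial.rename_X]
      rfl
    · have h0 : restr y (MvPolynomial.X 2 : MvPolynomial (Fin 3) F) = _ := restr_last y
      change _ = Ideal.Quotient.mkₐ F (Ideal.span {zz y}) (sec (restr y (MvPolynomial.X 2)))
      rw [h0, ← sub_eq_zero, ← map_sub]
      have e : (MvPolynomial.X 2 : MvPolynomial (Fin 3) F) -
          sec (∑ i, MvPolynomial.C (y i) * MvPolynomial.X i) = zz y := by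
        unfold sec zz
        rw [Fin.sum_univ_two, map_add, map_mul, map_mul, MvPolynomial.rename_C, MvPolynomial.rename_C,
          MvPolynomial.rename_X, MvPolynomial.rename_X]
        rfl
      have h3 : (Ideal.Quotient.mkₐ F (Ideal.span {zz y})) (zz y) = 0 :=
        Ideal.Quotient.eq_zero_iff_mem.2 (Ideal.subset_span rfl)
      rw [← h3]
      exact congrArg _ e
  have h1 := DFunLike.congr_fun h p
  rw [AlgHom.comp_apply, AlgHom.comp_apply] at h1
  rw [← Ideal.Quotient.eq_zero_iff_mem]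
  change (Ideal.Quotient.mkₐ F (Ideal.span {zz y})) (p - sec (restr y p)) = 0
  rw [map_sub, ← h1, sub_self]

lemma ker_restr (y : Fin 2 → F) :
    RingHom.ker (restr y : MvPolynomial (Fin 3) F →ₐ[F] MvPolynomial (Fin 2) F) = Ideal.span {zz y} := by
  apply le_antisymm
  · intro p hp
    have h1 := sub_mem_span y p
    have h2 : restr y p = 0 := hp
    rw [h2, map_zero, sub_zero] at h1
    exact h1
  · rw [Ideal.span_le]
    rintro _ rfl
    exact restr_zz y

lemma zz_ne_zero (y : Fin 2 → F) : zz y ≠ 0 := by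
  intro h
  have h1 := congrArg (MvPolynomial.aeval (R := F) (fun i : Fin 3 => if i = 2 then (1 : F) else 0)) h
  unfold zz at h1
  simp at h1

lemma prime_zz (y : Fin 2 → F) : Prime (zz y) := by
  rw [← Ideal.span_singleton_prime (zz_ne_zero y), ← ker_restr]
  exact RingHom.ker_isPrime _

lemma comp_mul {σ : Type*} {s : ℕ} {P : MvPolynomial σ F} (hP : P.IsHomogeneous s)
    (q : MvPolynomial σ F) (n : ℕ) :
    MvPolynomial.homogeneousComponent (s + n) (P * q) = P * MvPolynomial.homogeneousComponent n q := by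
  have h : P * q = ∑ i ∈ Finset.range (q.totalDegree + 1), P * MvPolynomial.homogeneousComponent i q := by
    rw [← Finset.mul_sum, MvPolynomial.sum_homogeneousComponent]
  conv_lhs => rw [h]
  rw [map_sum]
  have h2 : ∀ i, MvPolynomial.homogeneousComponent (s + n) (P * MvPolynomial.homogeneousComponent i q) =
      if i = n then P * MvPolynomial.homogeneousComponent n q else 0 := by
    intro i
    have h3 : (P * MvPolynomial.homogeneousComponent i q).IsHomogeneous (s + i) :=
      hP.mul (MvPolynomial.homogeneousComponent_isHomogeneous i q)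
    rw [MvPolynomial.homogeneousComponent_of_mem h3]
    by_cases hi : i = n
    · subst hi
      rw [if_pos rfl, if_pos rfl]
    · rw [if_neg hi, if_neg (by omega)]
  simp only [h2]
  rw [Finset.sum_ite_eq' (Finset.range (q.totalDegree + 1)) n]
  split_ifs with h4
  · rfl
  · rw [MvPolynomial.homogeneousComponent_eq_zero n q (by rw [Finset.mem_range] at h4; omega), mul_zero]

lemma homog_of_mul {σ : Type*} {s e : ℕ} {P q : MvPolynomial σ F} (hP : P.IsHomogeneous s)
    (hP0 : P ≠ 0) (h : (P * q).IsHomogeneous (s + e)) : q.IsHomogeneous e := by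
  have h1 : ∀ n, n ≠ e → MvPolynomial.homogeneousComponent n q = 0 := by
    intro n hn
    have h2 := comp_mul hP q n
    rw [MvPolynomial.homogeneousComponent_of_mem h, if_neg (by omega)] at h2
    rcases mul_eq_zero.1 h2.symm with h3 | h3
    · exact absurd h3 hP0
    · exact h3
  have h2 : q = MvPolynomial.homogeneousComponent e q := by
    conv_lhs => rw [← MvPolynomial.sum_homogeneousComponent q]
    by_cases he : e ∈ Finset.range (q.totalDegree + 1)
    · rw [Finset.sum_eq_single_of_mem e he (fun n _ hn => h1 n hn)]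
    · rw [Finset.sum_eq_zero (fun n hn => h1 n (by rintro rfl; exact he hn)),
        MvPolynomial.homogeneousComponent_eq_zero e q (by rw [Finset.mem_range] at he; omega)]
  rw [h2]
  exact MvPolynomial.homogeneousComponent_isHomogeneous e q

lemma zz_homog (y : Fin 2 → F) : (zz y).IsHomogeneous 1 := by
  unfold zz
  exact (MvPolynomial.isHomogeneous_X _ _).sub ((MvPolynomial.isHomogeneous_C_mul_X _ _).add
    (MvPolynomial.isHomogeneous_C_mul_X _ _))

lemma div_zz (y : Fin 2 → F) {d : ℕ} {p : MvPolynomial (Fin 3) F} (hp : p.IsHomogeneous d)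
    (hr : restr y p = 0) (hp0 : p ≠ 0) :
    ∃ q : MvPolynomial (Fin 3) F, q.IsHomogeneous (d - 1) ∧ 1 ≤ d ∧ p = zz y * q := by
  have h1 : p ∈ Ideal.span {zz y} := by
    rw [← ker_restr]
    exact hr
  obtain ⟨q, hq⟩ := Ideal.mem_span_singleton'.1 h1
  have hd : 1 ≤ d := by
    by_contra hcon
    have hd0 : d = 0 := by omega
    subst hd0
    obtain ⟨c, hc⟩ : ∃ c, p = MvPolynomial.C c := ⟨_, MvPolynomial.totalDegree_eq_zero_iff_eq_C.1
        (Nat.le_zero.1 (MvPolynomial.IsHomogeneous.totalDegree_le hp))⟩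
    rw [hc, restr_C] at hr
    have h3 : c = 0 := MvPolynomial.C_injective (Fin 2) F (by rw [hr, map_zero])
    apply hp0
    rw [hc, h3, map_zero]
  refine ⟨q, ?_, hd, by rw [← hq, mul_comm]⟩
  apply homog_of_mul (zz_homog y) (zz_ne_zero y)
  rw [mul_comm, hq]
  have e : 1 + (d - 1) = d := by omega
  rw [e]
  exact hp

end Poly3M

theorem specPoly3 : SpecPoly3.{u} := by
  intro F _ y
  exact ⟨Poly3M.prime_zz y, fun d p hp hr hp0 => Poly3M.div_zz y hp hr hp0,
    fun s e P q hP hP0 h => Poly3M.homog_of_mul hP hP0 h⟩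

end MPcec
end

section
set_option autoImplicit false

open Module

namespace MPcec

universe u v

namespace LineM

variable {F : Type u} {A : Type v} [Field F] [CommRing A] [Algebra F A]

/-! ### forms and powers of `L` -/

lemma map_ev (G : G4 F A) (t : ℕ) :
    (MvPolynomial.homogeneousSubmodule (Fin 4) F t).map G.ev.toLinearMap = G.L ^ t := by
  rw [← MvPolynomial.homogeneousSubmodule_one_pow, Submodule.map_pow]
  congr 1
  rw [MvPolynomial.homogeneousSubmodule_one_eq_span_X, Submodule.map_span, G.hL]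
  congr 1
  ext a
  constructor
  · rintro ⟨_, ⟨i, rfl⟩, rfl⟩
    refine ⟨i, ?_⟩
    change _ = G.ev (MvPolynomial.X i)
    unfold G4.ev
    rw [MvPolynomial.aeval_X]
  · rintro ⟨i, rfl⟩
    refine ⟨MvPolynomial.X i, ⟨i, rfl⟩, ?_⟩
    change G.ev (MvPolynomial.X i) = _
    unfold G4.ev
    rw [MvPolynomial.aeval_X]

lemma exists_form (G : G4 F A) {t : ℕ} {a : A} (ha : a ∈ G.L ^ t) :
    ∃ p : MvPolynomial (Fin 4) F, p.IsHomogeneous t ∧ G.ev p = a := by
  rw [← map_ev] at ha
  obtain ⟨p, hp, hp'⟩ := ha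
  exact ⟨p, hp, hp'⟩

lemma ev_mem (G : G4 F A) {t : ℕ} {p : MvPolynomial (Fin 4) F} (hp : p.IsHomogeneous t) :
    G.ev p ∈ G.L ^ t := by
  rw [← map_ev]
  exact ⟨p, hp, rfl⟩

lemma x_mem (G : G4 F A) (i : Fin 4) : G.x i ∈ G.L := by
  rw [G.hL]
  exact Submodule.subset_span ⟨i, rfl⟩

/-! ### duality -/

lemma fin_pow (G : GD F A) (n : ℕ) : FiniteDimensional F (G.L ^ n : Submodule F A) :=
  (Submodule.fg_iff_finiteDimensional _).1 (G.fg.pow n)

lemma fin_le (G : GD F A) {n : ℕ} {W : Submodule F A} (h : W ≤ G.L ^ n) : FiniteDimensional F W := by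
  have := fin_pow G n
  exact Submodule.finiteDimensional_of_le h

/-- the pairing `L^t × L^u → F`. -/
noncomputable def pr (G : GD F A) (t u : ℕ) :
    (G.L ^ t : Submodule F A) →ₗ[F] Module.Dual F (G.L ^ u : Submodule F A) :=
  LinearMap.mk₂ F (fun a b => G.lam ((a : A) * (b : A)))
    (fun a a' b => by rw [Submodule.coe_add, add_mul, map_add])
    (fun c a b => by rw [Submodule.coe_smul, smul_mul_assoc, map_smul])
    (fun a b b' => by rw [Submodule.coe_add, mul_add, map_add])
    (fun c a b => by rw [Submodule.coe_smul, mul_smul_comm, map_smul])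

lemma pr_apply (G : GD F A) (t u : ℕ) (a : (G.L ^ t : Submodule F A)) (b : (G.L ^ u : Submodule F A)) :
    pr G t u a b = G.lam ((a : A) * (b : A)) := rfl

lemma pr_inj (G : GD F A) {t u : ℕ} (h : t + u = G.j) : Function.Injective (pr G t u) := by
  rw [← LinearMap.ker_eq_bot, eq_bot_iff]
  intro a ha
  have h1 : (a : A) = 0 := by
    apply G.nondeg t (by omega) a a.2
    intro b hb
    have e : G.j - t = u := by omega
    rw [e] at hb
    have h2 := DFunLike.congr_fun (show pr G t u a = 0 from ha) ⟨b, hb⟩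
    exact h2
  rw [Submodule.mem_bot]
  exact Subtype.ext h1

lemma finrank_symm (G : GD F A) {t u : ℕ} (h : t + u = G.j) :
    finrank F (G.L ^ t : Submodule F A) = finrank F (G.L ^ u : Submodule F A) := by
  have := fin_pow G t
  have := fin_pow G u
  apply le_antisymm
  · have h1 := LinearMap.finrank_le_finrank_of_injective (pr_inj G h)
    rw [Subspace.dual_finrank_eq] at h1
    exact h1
  · have h1 := LinearMap.finrank_le_finrank_of_injective (pr_inj G (show u + t = G.j by omega))
    rw [Subspace.dual_finrank_eq] at h1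
    exact h1

lemma pr_surj (G : GD F A) {t u : ℕ} (h : t + u = G.j) : Function.Surjective (pr G t u) := by
  have := fin_pow G t
  have := fin_pow G u
  apply (LinearMap.injective_iff_surjective_of_finrank_eq_finrank _).1 (pr_inj G h)
  rw [Subspace.dual_finrank_eq, finrank_symm G h]

/-- functionals on a subspace of `L^u` are given by elements of `L^t`. -/
lemma exists_rep (G : GD F A) {t u : ℕ} (h : t + u = G.j) (W : Submodule F A) (hW : W ≤ G.L ^ u)
    (ψ : W →ₗ[F] F) : ∃ b ∈ G.L ^ t, ∀ w : W, ψ w = G.lam (b * (w : A)) := by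
  obtain ⟨θ, hθ⟩ := LinearMap.exists_extend ψ
  obtain ⟨b, hb⟩ := pr_surj G h (θ.comp (G.L ^ u : Submodule F A).subtype)
  refine ⟨b, b.2, ?_⟩
  intro w
  have h1 := DFunLike.congr_fun hb ⟨(w : A), hW w.2⟩
  rw [pr_apply] at h1
  rw [h1, LinearMap.comp_apply, Submodule.subtype_apply]
  exact (DFunLike.congr_fun hθ w).symm

lemma eq_zero_top (G : GD F A) {a : A} (ha : a ∈ G.L ^ G.j) (h : G.lam a = 0) : a = 0 := by
  apply G.nondeg G.j le_rfl a ha
  intro b hb
  rw [Nat.sub_self, pow_zero] at hb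
  obtain ⟨c, rfl⟩ := Submodule.mem_one.1 hb
  rw [mul_comm, ← Algebra.smul_def, map_smul, h, smul_zero]

lemma eq_zero_of_kill (G : GD F A) {t u : ℕ} (h : t + u = G.j) {a : A} (ha : a ∈ G.L ^ t)
    (h0 : ∀ b ∈ G.L ^ u, b * a = 0) : a = 0 := by
  apply G.nondeg t (by omega) a ha
  intro b hb
  have e : G.j - t = u := by omega
  rw [e] at hb
  rw [mul_comm, h0 b hb, map_zero]

/-! ### actions -/

variable (D : Pl F A)

lemma hz (v : A) (h : D.z * v = 0) : D.G.x 2 * v = D.y 0 • (D.G.x 0 * v) + D.y 1 • (D.G.x 1 * v) := by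
  unfold Pl.z at h
  rw [sub_mul, sub_eq_zero] at h
  rw [h, add_mul, smul_mul_assoc, smul_mul_assoc]

lemma z_mem : D.z ∈ D.G.L := by
  unfold Pl.z
  exact sub_mem (x_mem _ _) (add_mem (Submodule.smul_mem _ _ (x_mem _ _)) (Submodule.smul_mem _ _ (x_mem _ _)))

/-- the vectors on which `x_3` acts as on `E`. -/
def Good (v : A) : Prop := D.G.x 3 * v = ∑ i : Fin 3, D.c i • (D.G.x i.castSucc * v)

lemma good_mul {v : A} (a : A) (h : Good D v) : Good D (a * v) := by
  unfold Good at h ⊢
  have e : D.G.x 3 * (a * v) = a * (D.G.x 3 * v) := by ring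
  rw [e, h, Finset.mul_sum]
  apply Finset.sum_congr rfl
  intro i _
  rw [mul_smul_comm]
  congr 1
  ring

lemma good_add {v w : A} (h : Good D v) (h' : Good D w) : Good D (v + w) := by
  unfold Good at h h' ⊢
  rw [mul_add, h, h', ← Finset.sum_add_distrib]
  apply Finset.sum_congr rfl
  intro i _
  rw [mul_add, smul_add]

lemma good_of_mem {a : ℕ} {v : A} (hv : v ∈ D.G.L ^ a * D.E) : Good D v := by
  induction hv using Submodule.mul_induction_on' with
  | mem_mul_mem m _ n hn => exact good_mul D m (D.hc n hn)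
  | add x _ y _ hx hy => exact good_add D hx hy

lemma act3 {v : A} (h : Good D v) (p : MvPolynomial (Fin 4) F) :
    D.G.ev p * v = D.G.ev3 (restr D.c p) * v := by
  induction p using MvPolynomial.induction_on with
  | C c =>
    rw [Poly3M.restr_C]
    unfold G4.ev G4.ev3
    rw [MvPolynomial.aeval_C, MvPolynomial.aeval_C]
  | add p q hp hq => rw [map_add, map_add, map_add, add_mul, add_mul, hp, hq]
  | mul_X p i hp =>
    have h1 : D.G.ev (MvPolynomial.X i) * v = D.G.ev3 (restr D.c (MvPolynomial.X i)) * v := by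
      refine Fin.lastCases ?_ (fun j => ?_) i
      · rw [Poly3M.restr_last]
        unfold Good at h
        unfold G4.ev G4.ev3
        rw [MvPolynomial.aeval_X]
        rw [map_sum, Finset.sum_mul]
        change D.G.x 3 * v = _
        rw [h]
        apply Finset.sum_congr rfl
        intro i _
        rw [map_mul, MvPolynomial.aeval_C, MvPolynomial.aeval_X, Algebra.smul_def, mul_assoc]
      · rw [Poly3M.restr_castSucc]
        unfold G4.ev G4.ev3
        rw [MvPolynomial.aeval_X, MvPolynomial.aeval_X]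
    rw [map_mul, map_mul, map_mul]
    calc D.G.ev p * D.G.ev (MvPolynomial.X i) * v = D.G.ev p * (D.G.ev (MvPolynomial.X i) * v) := by ring
      _ = D.G.ev3 (restr D.c (MvPolynomial.X i)) * (D.G.ev p * v) := by rw [h1]; ring
      _ = _ := by rw [hp]; ring

lemma act2 {v : A} (h : D.z * v = 0) (p : MvPolynomial (Fin 3) F) :
    D.G.ev3 p * v = D.G.ev2 (restr D.y p) * v := by
  induction p using MvPolynomial.induction_on with
  | C c =>
    rw [Poly3M.restr_C]
    unfold G4.ev2 G4.ev3
    rw [MvPolynomial.aeval_C, MvPolynomial.aeval_C]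
  | add p q hp hq => rw [map_add, map_add, map_add, add_mul, add_mul, hp, hq]
  | mul_X p i hp =>
    have h1 : D.G.ev3 (MvPolynomial.X i) * v = D.G.ev2 (restr D.y (MvPolynomial.X i)) * v := by
      refine Fin.lastCases ?_ (fun j => ?_) i
      · rw [Poly3M.restr_last]
        have h := hz D v h
        unfold G4.ev2 G4.ev3
        rw [MvPolynomial.aeval_X]
        rw [map_sum, Finset.sum_mul]
        change D.G.x 2 * v = _
        rw [h, Fin.sum_univ_two, map_mul, MvPolynomial.aeval_C, MvPolynomial.aeval_X,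
          Algebra.smul_def, map_mul, MvPolynomial.aeval_C, MvPolynomial.aeval_X, Algebra.smul_def,
          mul_assoc, mul_assoc]
        rfl
      · rw [Poly3M.restr_castSucc]
        unfold G4.ev2 G4.ev3
        rw [MvPolynomial.aeval_X, MvPolynomial.aeval_X]
    rw [map_mul, map_mul, map_mul]
    calc D.G.ev3 p * D.G.ev3 (MvPolynomial.X i) * v = D.G.ev3 p * (D.G.ev3 (MvPolynomial.X i) * v) := by ring
      _ = D.G.ev2 (restr D.y (MvPolynomial.X i)) * (D.G.ev3 p * v) := by rw [h1]; ring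
      _ = _ := by rw [hp]; ring

lemma E_le (a : ℕ) : D.G.L ^ a * D.E ≤ D.G.L ^ (a + D.m) := by
  rw [pow_add]
  exact Submodule.mul_le.2 (fun m hm n hn => Submodule.mul_mem_mul hm (D.hE hn))

lemma hN : D.m + D.N = D.G.j := by
  have := D.hm
  unfold Pl.N
  omega

lemma E_sub : D.E ≤ D.G.L ^ 0 * D.E := by
  rw [pow_zero, one_mul]

/-- an element of `L^t` acts on `E` as a form in three variables. -/
lemma exists_form3 {t : ℕ} {b : A} (hb : b ∈ D.G.L ^ t) :
    ∃ p : MvPolynomial (Fin 3) F, p.IsHomogeneous t ∧ ∀ v, Good D v → b * v = D.G.ev3 p * v := by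
  obtain ⟨q, hq, rfl⟩ := exists_form D.G hb
  exact ⟨restr D.c q, Poly3M.restr_homog _ hq, fun v hv => act3 D hv q⟩

lemma ev3_mem {t : ℕ} {p : MvPolynomial (Fin 3) F} (hp : p.IsHomogeneous t) :
    D.G.ev3 p ∈ D.G.L ^ t := by
  have h : D.G.ev3 p = D.G.ev (MvPolynomial.rename Fin.castSucc p) := by
    unfold G4.ev3 G4.ev
    rw [MvPolynomial.aeval_rename]
    rfl
  rw [h]
  exact ev_mem _ (MvPolynomial.IsHomogeneous.rename_isHomogeneous hp)

lemma ev2_mem {t : ℕ} {p : MvPolynomial (Fin 2) F} (hp : p.IsHomogeneous t) :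
    D.G.ev2 p ∈ D.G.L ^ t := by
  have h : D.G.ev2 p = D.G.ev3 (MvPolynomial.rename Fin.castSucc p) := by
    unfold G4.ev2 G4.ev3
    rw [MvPolynomial.aeval_rename]
    rfl
  rw [h]
  exact ev3_mem _ (MvPolynomial.IsHomogeneous.rename_isHomogeneous hp)

lemma mul_mem_pow {t a : ℕ} {b v : A} (hb : b ∈ D.G.L ^ t) (hv : v ∈ D.G.L ^ a * D.E) :
    b * v ∈ D.G.L ^ (t + a) * D.E := by
  rw [pow_add, mul_assoc]
  exact Submodule.mul_mem_mul hb hv

/-- an element of `L^t` killing `L^a E` kills `E` if the degrees are small. -/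
lemma kill_E {t a : ℕ} (h : t + a ≤ D.N) {b : A} (hb : b ∈ D.G.L ^ t)
    (h0 : ∀ v ∈ D.G.L ^ a * D.E, b * v = 0) : ∀ e ∈ D.E, b * e = 0 := by
  have hNN := hN D
  intro e he
  have h1 : b * e ∈ D.G.L ^ (t + D.m) := by
    rw [pow_add]
    exact Submodule.mul_mem_mul hb (D.hE he)
  apply eq_zero_of_kill D.G.toGD (show (t + D.m) + (D.N - t) = D.G.j by omega) h1
  intro c hc
  have e1 : D.N - t = (D.N - t - a) + a := by omega
  rw [e1, pow_add] at hc
  induction hc using Submodule.mul_induction_on' with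
  | mem_mul_mem m _ n hn =>
    have h2 := h0 (n * e) (Submodule.mul_mem_mul hn he)
    have e2 : m * n * (b * e) = m * (b * (n * e)) := by ring
    rw [e2, h2, mul_zero]
  | add x _ y _ hx hy => rw [add_mul, hx, hy, add_zero]

lemma kill_all {a : ℕ} {b : A} (h0 : ∀ e ∈ D.E, b * e = 0) {v : A} (hv : v ∈ D.G.L ^ a * D.E) :
    b * v = 0 := by
  induction hv using Submodule.mul_induction_on' with
  | mem_mul_mem m _ n hn =>
    have e2 : b * (m * n) = m * (b * n) := by ring
    rw [e2, h0 n hn, mul_zero]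
  | add x _ y _ hx hy => rw [mul_add, hx, hy, add_zero]

/-! ### the four statements -/

lemma Z_le (a : ℕ) : D.Z a ≤ D.G.L ^ (a + D.m) := le_trans inf_le_left (E_le D a)

lemma mem_Z {a : ℕ} {v : A} (hv : v ∈ D.Z a) : v ∈ D.G.L ^ a * D.E ∧ D.z * v = 0 := hv

/-- the pairing of binary forms with `Z`. -/
noncomputable def pq (d : ℕ) : (BinM.Q F d) →ₗ[F] Module.Dual F (D.Z (D.N - d)) :=
  LinearMap.mk₂ F (fun q v => D.G.lam (D.G.ev2 (q : MvPolynomial (Fin 2) F) * (v : A)))
    (fun a a' b => by rw [Submodule.coe_add, map_add, add_mul, map_add])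
    (fun c a b => by rw [Submodule.coe_smul, map_smul, smul_mul_assoc, map_smul])
    (fun a b b' => by rw [Submodule.coe_add, mul_add, map_add])
    (fun c a b => by rw [Submodule.coe_smul, mul_smul_comm, map_smul])

lemma pq_apply (d : ℕ) (q : BinM.Q F d) (v : D.Z (D.N - d)) :
    pq D d q v = D.G.lam (D.G.ev2 (q : MvPolynomial (Fin 2) F) * (v : A)) := rfl

lemma partA {d : ℕ} (hd : d ≤ D.N) :
    finrank F (D.C d) + finrank F (D.Z (D.N - d)) = d + 1 := by
  have hNN := hN D
  have hfZ : FiniteDimensional F (D.Z (D.N - d)) := fin_le D.G.toGD (Z_le D _)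
  -- the left kernel
  have hker : (LinearMap.ker (pq D d)).map (BinM.Q F d).subtype = D.C d := by
    ext q
    constructor
    · rintro ⟨q, hq, rfl⟩
      refine ⟨q.2, ?_⟩
      intro v hv
      have h1 := DFunLike.congr_fun (show pq D d q = 0 from hq) ⟨v, hv⟩
      rw [pq_apply] at h1
      apply eq_zero_top D.G.toGD _ h1
      have h2 := Submodule.mul_mem_mul (ev2_mem D q.2) (Z_le D _ hv)
      rw [← pow_add] at h2
      have e : d + (D.N - d + D.m) = D.G.j := by omega
      rw [e] at h2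
      exact h2
    · rintro ⟨hq, hq'⟩
      refine ⟨⟨q, hq⟩, ?_, rfl⟩
      change pq D d ⟨q, hq⟩ = 0
      ext v
      rw [pq_apply, hq' v v.2, map_zero]
      rfl
  have hker2 : finrank F (LinearMap.ker (pq D d)) = finrank F (D.C d) := by
    rw [← hker]
    exact (Submodule.equivMapOfInjective _ (Submodule.injective_subtype _) _).finrank_eq
  -- surjectivity
  have hflip : Function.Injective (pq D d).flip := by
    rw [← LinearMap.ker_eq_bot, eq_bot_iff]
    intro v hv
    obtain ⟨hv1, hv2⟩ := mem_Z D v.2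
    have h1 : (v : A) = 0 := by
      apply D.G.nondeg (D.N - d + D.m) (by omega) v (Z_le D _ v.2)
      intro b hb
      have e : D.G.j - (D.N - d + D.m) = d := by omega
      rw [e] at hb
      obtain ⟨p, hp, hp'⟩ := exists_form3 D hb
      have h3 := hp' v (good_of_mem D hv1)
      rw [act2 D hv2 p] at h3
      have h4 := DFunLike.congr_fun (show (pq D d).flip v = 0 from hv) ⟨restr D.y p, Poly3M.restr_homog _ hp⟩
      rw [LinearMap.flip_apply, pq_apply] at h4
      rw [mul_comm, h3]
      exact h4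
    rw [Submodule.mem_bot]
    exact Subtype.ext h1
  have hsurj : LinearMap.range (pq D d) = ⊤ := by
    rw [LinearMap.range_eq_top]
    exact LinearMap.flip_injective_iff₁.1 hflip
  have h1 := LinearMap.finrank_range_add_finrank_ker (pq D d)
  rw [hker2, hsurj, finrank_top, Subspace.dual_finrank_eq, BinM.finrank_Q] at h1
  omega

lemma partB {d : ℕ} (hd : d + 1 ≤ D.N) {q : MvPolynomial (Fin 2) F} (hq : q ∈ D.C d) (i : Fin 2) :
    MvPolynomial.X i * q ∈ D.C (d + 1) := by
  obtain ⟨hq1, hq2⟩ := hq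
  constructor
  · rw [add_comm]
    exact (MvPolynomial.isHomogeneous_X _ _).mul hq1
  · intro v hv
    obtain ⟨hv1, hv2⟩ := mem_Z D hv
    rw [map_mul]
    have h1 : D.G.ev2 (MvPolynomial.X i) * v ∈ D.Z (D.N - d) := by
      refine ⟨?_, ?_⟩
      · have h2 := mul_mem_pow D (ev2_mem D (MvPolynomial.isHomogeneous_X F i)) hv1
        have e : 1 + (D.N - (d + 1)) = D.N - d := by omega
        rw [e] at h2
        exact h2
      · change D.z * _ = 0
        have e : D.z * (D.G.ev2 (MvPolynomial.X i) * v) = D.G.ev2 (MvPolynomial.X i) * (D.z * v) := by ring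
        rw [e, hv2, mul_zero]
    have h2 := hq2 _ h1
    have e : D.G.ev2 (MvPolynomial.X i) * D.G.ev2 q * v = D.G.ev2 q * (D.G.ev2 (MvPolynomial.X i) * v) := by
      ring
    rw [e, h2]

lemma partC {d : ℕ} {p : MvPolynomial (Fin 3) F} (hp : p ∈ D.J d) : restr D.y p ∈ D.C d := by
  obtain ⟨hp1, hp2⟩ := hp
  refine ⟨Poly3M.restr_homog _ hp1, ?_⟩
  intro v hv
  obtain ⟨hv1, hv2⟩ := mem_Z D hv
  rw [← act2 D hv2]
  exact kill_all D hp2 hv1

lemma z_form : ∃ p : MvPolynomial (Fin 4) F, p.IsHomogeneous 1 ∧ D.G.ev p = D.z ∧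
    restr D.c p = D.zp := by
  refine ⟨MvPolynomial.X 2 - (MvPolynomial.C (D.y 0) * MvPolynomial.X 0 +
    MvPolynomial.C (D.y 1) * MvPolynomial.X 1), ?_, ?_, ?_⟩
  · exact (MvPolynomial.isHomogeneous_X _ _).sub ((MvPolynomial.isHomogeneous_C_mul_X _ _).add
      (MvPolynomial.isHomogeneous_C_mul_X _ _))
  · unfold G4.ev Pl.z
    rw [map_sub, map_add, map_mul, map_mul, MvPolynomial.aeval_C, MvPolynomial.aeval_C,
      MvPolynomial.aeval_X, MvPolynomial.aeval_X, MvPolynomial.aeval_X, Algebra.smul_def, Algebra.smul_def]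
  · have h2 : restr D.c (MvPolynomial.X 2 : MvPolynomial (Fin 4) F) = _ := Poly3M.restr_castSucc D.c 2
    have h0 : restr D.c (MvPolynomial.X 0 : MvPolynomial (Fin 4) F) = _ := Poly3M.restr_castSucc D.c 0
    have h1 : restr D.c (MvPolynomial.X 1 : MvPolynomial (Fin 4) F) = _ := Poly3M.restr_castSucc D.c 1
    rw [map_sub, map_add, map_mul, map_mul, h2, h0, h1, Poly3M.restr_C, Poly3M.restr_C]
    rfl

lemma restr_sec {d : ℕ} {q : MvPolynomial (Fin 2) F} (hq : q.IsHomogeneous d) :
    ∃ p : MvPolynomial (Fin 4) F, p.IsHomogeneous d ∧ D.G.ev p = D.G.ev2 q ∧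
      restr D.y (restr D.c p) = q := by
  refine ⟨MvPolynomial.rename Fin.castSucc (MvPolynomial.rename Fin.castSucc q), ?_, ?_, ?_⟩
  · exact MvPolynomial.IsHomogeneous.rename_isHomogeneous
      (MvPolynomial.IsHomogeneous.rename_isHomogeneous hq)
  · unfold G4.ev G4.ev2
    rw [MvPolynomial.aeval_rename, MvPolynomial.aeval_rename]
    rfl
  · have h : (((restr D.y).comp (restr D.c)).comp (MvPolynomial.rename Fin.castSucc)).comp
        (MvPolynomial.rename Fin.castSucc) = AlgHom.id F (MvPolynomial (Fin 2) F) := by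
      apply MvPolynomial.algHom_ext
      intro i
      rw [AlgHom.comp_apply, AlgHom.comp_apply, AlgHom.comp_apply, MvPolynomial.rename_X,
        MvPolynomial.rename_X, Poly3M.restr_castSucc, Poly3M.restr_castSucc]
      rfl
    exact DFunLike.congr_fun h q

lemma partD {d : ℕ} (hd : d ≤ D.N) {q : MvPolynomial (Fin 2) F} (hq : q ∈ D.C d) :
    ∃ p ∈ D.J d, restr D.y p = q := by
  have hNN := hN D
  obtain ⟨hq1, hq2⟩ := hq
  set a := D.G.ev2 q with ha
  have hamem : a ∈ D.G.L ^ d := ev2_mem D hq1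
  set U : Submodule F A := D.G.L ^ (D.N - d) * D.E with hU
  have hUle : U ≤ D.G.L ^ (D.N - d + D.m) := E_le D _
  -- the element `b`
  obtain ⟨r, hr, hr'⟩ : ∃ r : MvPolynomial (Fin 4) F, r.IsHomogeneous d ∧
      restr D.y (restr D.c r) = 0 ∧ ∀ u ∈ U, (a - D.G.ev r) * u = 0 := by
    rcases Nat.eq_zero_or_pos d with hd0 | hd0
    · refine ⟨0, MvPolynomial.isHomogeneous_zero _ _ _, by rw [map_zero, map_zero], ?_⟩
      intro u hu
      rw [map_zero, sub_zero]
      apply hq2
      refine ⟨hu, ?_⟩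
      change D.z * u = 0
      have h1 : D.z * u ∈ D.G.L ^ (D.G.j + 1) := by
        have h2 := Submodule.mul_mem_mul (z_mem D) (hUle hu)
        rw [← pow_succ'] at h2
        have e : D.N - d + D.m + 1 = D.G.j + 1 := by omega
        rw [e] at h2
        exact h2
      rw [D.G.top, Submodule.mem_bot] at h1
      exact h1
    · -- the functional on `zU`
      set zU : Submodule F A := ml D.z U with hzU
      have hzUle : zU ≤ D.G.L ^ (D.N - d + D.m + 1) := by
        rintro _ ⟨u, hu, rfl⟩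
        rw [pow_succ']
        exact Submodule.mul_mem_mul (z_mem D) (hUle hu)
      let φ : U →ₗ[F] F := (D.G.lam.comp (LinearMap.mulLeft F a)).comp U.subtype
      let ζ : U →ₗ[F] zU := (LinearMap.mulLeft F D.z).restrict (fun u hu => ⟨u, hu, rfl⟩)
      have hζ : Function.Surjective ζ := by
        rintro ⟨_, u, hu, rfl⟩
        exact ⟨⟨u, hu⟩, rfl⟩
      have hkerle : LinearMap.ker ζ ≤ LinearMap.ker φ := by
        intro u hu
        have h1 : D.z * (u : A) = 0 := congrArg Subtype.val (show ζ u = 0 from hu)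
        have h2 : a * (u : A) = 0 := hq2 _ ⟨u.2, h1⟩
        change D.G.lam (a * (u : A)) = 0
        rw [h2, map_zero]
      obtain ⟨ψ, hψ⟩ : ∃ ψ : zU →ₗ[F] F, ∀ u : U, ψ (ζ u) = φ u := by
        obtain ⟨σ, hσ⟩ := ζ.exists_rightInverse_of_surjective (LinearMap.range_eq_top.2 hζ)
        refine ⟨φ.comp σ, ?_⟩
        intro u
        have h1 : σ (ζ u) - u ∈ LinearMap.ker ζ := by
          rw [LinearMap.mem_ker, map_sub, sub_eq_zero]
          exact DFunLike.congr_fun hσ (ζ u)
        have h2 := hkerle h1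
        rw [LinearMap.mem_ker, map_sub, sub_eq_zero] at h2
        exact h2
      obtain ⟨b, hb, hb'⟩ := exists_rep D.G.toGD (show (d - 1) + (D.N - d + D.m + 1) = D.G.j by omega)
        zU hzUle ψ
      obtain ⟨pb, hpb, rfl⟩ := exists_form D.G hb
      obtain ⟨pz, hpz, hpz', hpz''⟩ := z_form D
      refine ⟨pz * pb, ?_, ?_, ?_⟩
      · have h1 := hpz.mul hpb
        have e : 1 + (d - 1) = d := by omega
        rw [e] at h1
        exact h1
      · rw [map_mul, map_mul, hpz'']
        have h1 : restr D.y D.zp = 0 := Poly3M.restr_zz D.y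
        rw [h1, zero_mul]
      · intro u hu
        have h1 : (a - D.G.ev (pz * pb)) * u ∈ D.G.L ^ D.G.j := by
          have h2 : a - D.G.ev (pz * pb) ∈ D.G.L ^ d := by
            apply sub_mem hamem
            apply ev_mem
            have h1 := hpz.mul hpb
            have e : 1 + (d - 1) = d := by omega
            rw [e] at h1
            exact h1
          have h3 := Submodule.mul_mem_mul h2 (hUle hu)
          rw [← pow_add] at h3
          have e : d + (D.N - d + D.m) = D.G.j := by omega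
          rw [e] at h3
          exact h3
        apply eq_zero_top D.G.toGD h1
        have h2 := hψ ⟨u, hu⟩
        rw [hb'] at h2
        have h3 : D.G.lam (D.G.ev pb * (D.z * u)) = D.G.lam (a * u) := h2
        rw [map_mul D.G.ev, hpz', sub_mul, map_sub, sub_eq_zero, ← h3]
        congr 1
        ring
  obtain ⟨hr1, hr2⟩ := hr'
  obtain ⟨pa, hpa, hpa', hpa''⟩ := restr_sec D hq1
  refine ⟨restr D.c (pa - r), ⟨Poly3M.restr_homog _ (hpa.sub hr), ?_⟩, ?_⟩
  · intro e he
    rw [← act3 D (D.hc e he)]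
    refine kill_E D (t := d) (a := D.N - d) (by omega) (ev_mem D.G (hpa.sub hr)) ?_ e he
    intro u hu
    rw [map_sub, hpa']
    exact hr2 u hu
  · rw [map_sub, map_sub, hpa'', hr1, sub_zero]

lemma part1 {a : ℕ} (ha : a < D.N) (h : ∀ p : MvPolynomial (Fin 3) F, p.IsHomogeneous (D.N - a - 1) →
    D.zp * p ∈ D.J (D.N - a) → p ∈ D.J (D.N - a - 1)) :
    ml D.z (D.G.L ^ a * D.E) = D.G.L ^ (a + 1) * D.E := by
  have hNN := hN D
  have hle : ml D.z (D.G.L ^ a * D.E) ≤ D.G.L ^ (a + 1) * D.E := by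
    rintro _ ⟨u, hu, rfl⟩
    rw [pow_succ', mul_assoc]
    exact Submodule.mul_mem_mul (z_mem D) hu
  by_contra hne
  have hlt : ml D.z (D.G.L ^ a * D.E) < D.G.L ^ (a + 1) * D.E := lt_of_le_of_ne hle hne
  obtain ⟨w, hw, hw'⟩ := SetLike.exists_of_lt hlt
  obtain ⟨θ, hθ', hθ⟩ := Submodule.exists_le_ker_of_notMem hw'
  set W : Submodule F A := D.G.L ^ (a + 1) * D.E with hW
  obtain ⟨b, hb, hb'⟩ := exists_rep D.G.toGD (show (D.N - a - 1) + (a + 1 + D.m) = D.G.j by omega)
    W (E_le D _) (θ.comp W.subtype)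
  obtain ⟨p, hp, hp'⟩ := exists_form3 D hb
  have hzp : D.zp.IsHomogeneous 1 := Poly3M.zz_homog D.y
  have hzev : D.G.ev3 D.zp = D.z := by
    unfold G4.ev3 Pl.zp Pl.z
    rw [map_sub, map_add, map_mul, map_mul, MvPolynomial.aeval_C, MvPolynomial.aeval_C,
      MvPolynomial.aeval_X, MvPolynomial.aeval_X, MvPolynomial.aeval_X, Algebra.smul_def, Algebra.smul_def]
    rfl
  have hJ : D.zp * p ∈ D.J (D.N - a) := by
    constructor
    · have h1 := hzp.mul hp
      have e : 1 + (D.N - a - 1) = D.N - a := by omega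
      rw [e] at h1
      exact h1
    · intro e he
      have h1 : ∀ v ∈ D.G.L ^ a * D.E, (D.z * b) * v = 0 := by
        intro v hv
        have h2 : D.z * v ∈ W := hle ⟨v, hv, rfl⟩
        have h3 := hb' ⟨D.z * v, h2⟩
        have h4 : θ (D.z * v) = 0 := hθ ⟨v, hv, rfl⟩
        apply eq_zero_top D.G.toGD
        · have h5 := Submodule.mul_mem_mul hb (E_le D _ h2)
          rw [← pow_add] at h5
          have e1 : D.N - a - 1 + (a + 1 + D.m) = D.G.j := by omega
          rw [e1] at h5
          have e2 : D.z * b * v = b * (D.z * v) := by ring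
          rw [e2]
          exact h5
        · have e2 : D.z * b * v = b * (D.z * v) := by ring
          rw [e2]
          change θ (D.z * v) = _ at h3
          rw [h4] at h3
          exact h3.symm
      have h2 : D.z * b ∈ D.G.L ^ (D.N - a) := by
        have h3 := Submodule.mul_mem_mul (z_mem D) hb
        rw [← pow_succ'] at h3
        have e1 : D.N - a - 1 + 1 = D.N - a := by omega
        rw [e1] at h3
        exact h3
      have h3 := kill_E D (t := D.N - a) (a := a) (by omega) h2 h1 e he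
      rw [map_mul, hzev, mul_assoc, ← hp' e (D.hc e he), ← mul_assoc]
      exact h3
  have h1 := (h p hp hJ).2
  apply hθ'
  have h2 := hb' ⟨w, hw⟩
  change θ w = _ at h2
  have h3 : b * w = 0 := by
    rw [hp' w (good_of_mem D hw)]
    exact kill_all D h1 hw
  rw [h2]
  change D.G.lam (b * w) = 0
  rw [h3, map_zero]

lemma part2 {i s : ℕ} (his : i + s ≤ D.N) {P : MvPolynomial (Fin 3) F} (hP : P.IsHomogeneous s)
    {v : A} (hv : v ∈ ml (D.G.ev3 P) (D.G.L ^ i * D.E))
    (h : ∀ u : MvPolynomial (Fin 3) F, u.IsHomogeneous (D.N - i - s) → D.G.ev3 u * v = 0) : v = 0 := by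
  have hNN := hN D
  obtain ⟨w, hw, rfl⟩ := hv
  have h1 : D.G.ev3 P * w ∈ D.G.L ^ (s + (i + D.m)) := by
    rw [pow_add]
    exact Submodule.mul_mem_mul (ev3_mem D hP) (E_le D _ hw)
  refine eq_zero_of_kill D.G.toGD (show s + (i + D.m) + (D.N - i - s) = D.G.j by omega) h1 ?_
  intro b hb
  obtain ⟨p, hp, hp'⟩ := exists_form3 D hb
  have h2 := hp' (D.G.ev3 P * w) (good_mul D _ (good_of_mem D hw))
  change b * (D.G.ev3 P * w) = 0
  rw [h2]
  exact h p hp

end LineM

theorem specLine : SpecLine.{u, v} := by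
  intro F A _ _ _ D
  exact ⟨fun d hd => LineM.partA D hd, fun d hd q hq i => LineM.partB D hd hq i,
    fun d _ p hp => LineM.partC D hp, fun d hd q hq => LineM.partD D hd hq⟩

theorem specLine2 : SpecLine2.{u, v} := by
  intro F A _ _ _ D
  exact ⟨fun a ha h => LineM.part1 D ha h, fun i s his P hP v hv h => LineM.part2 D his hP hv h⟩

end MPcec
end

section
set_option autoImplicit false

namespace MPcec

universe u

/-- no drop in the first half of the Hilbert function, over every field. -/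
theorem main : SpecMain.{u} :=
  specMain specGrow specDual specSq specUp specChi specPCons specLow (specGrowV specPCons)
    (specFamSym specCanon) (specPlat specPCons specLine specLine2 specPoly3 specBin)
    (specGenL specLift specInj specFree specAut) (specCaseA specLift specInj specFree)
    specAlg specSymAlg specNum1 specNumA specNumB

end MPcec
end
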