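import Pool.Agent.Lib.CEC001.Ideal

set_option autoImplicit false

open Module

namespace MPcec

universe u v

/-! ### commutative algebras -/

section alg

variable {F : Type u} {A : Type v} [Field F] [CommRing A] [Algebra F A]

/-- `a Y`. -/
noncomputable def ml (a : A) (Y : Submodule F A) : Submodule F A := Y.map (LinearMap.mulLeft F a)

/-- `{v ∈ Y | a v = 0}`. -/
noncomputable def ann (a : A) (Y : Submodule F A) : Submodule F A :=
  Y ⊓ LinearMap.ker (LinearMap.mulLeft F a)

/-- `{v ∈ W | L v ⊆ U}`. -/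
def col (L U W : Submodule F A) : Submodule F A where
  carrier := {v | v ∈ W ∧ ∀ l ∈ L, l * v ∈ U}
  add_mem' := by
    rintro a b ⟨ha, ha'⟩ ⟨hb, hb'⟩
    exact ⟨add_mem ha hb, fun l hl => by rw [mul_add]; exact add_mem (ha' l hl) (hb' l hl)⟩
  zero_mem' := ⟨zero_mem _, fun l _ => by rw [mul_zero]; exact zero_mem _⟩
  smul_mem' := by
    rintro c a ⟨ha, ha'⟩
    exact ⟨Submodule.smul_mem _ c ha, fun l hl => by
      rw [mul_smul_comm]; exact Submodule.smul_mem _ c (ha' l hl)⟩

/-- `Y` is tight: every proper subspace `Z` has `dim L Z - dim Z > dim L Y - dim Y`. -/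
def Tight (L Y : Submodule F A) : Prop :=
  Y.FG ∧ ∀ Z : Submodule F A, Z < Y →
    finrank F (L * Y : Submodule F A) + finrank F Z < finrank F (L * Z : Submodule F A) + finrank F Y

/-- `Y` is the smallest subspace of `W` minimizing `dim L Z - dim Z`. -/
def IsCan (L W Y : Submodule F A) : Prop :=
  Y ≤ W ∧
  (∀ Z : Submodule F A, Z ≤ W →
    finrank F (L * Y : Submodule F A) + finrank F Z ≤ finrank F (L * Z : Submodule F A) + finrank F Y) ∧
  (∀ Z : Submodule F A, Z ≤ W →
    finrank F (L * Z : Submodule F A) + finrank F Y ≤ finrank F (L * Y : Submodule F A) + finrank F Z →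
    Y ≤ Z)

end alg

/-- Gorenstein data: `L` is the space of linear forms, `A_d = L ^ d`, socle degree `j`. -/
structure GD (F : Type u) (A : Type v) [Field F] [CommRing A] [Algebra F A] where
  L : Submodule F A
  fg : L.FG
  j : ℕ
  lam : A →ₗ[F] F
  top : L ^ (j + 1) = ⊥
  nondeg : ∀ d ≤ j, ∀ a ∈ L ^ d, (∀ b ∈ L ^ (j - d), lam (a * b) = 0) → a = 0

/-- Gorenstein data with four linear generators. -/
structure G4 (F : Type u) (A : Type v) [Field F] [CommRing A] [Algebra F A] extends GD F A where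
  x : Fin 4 → A
  hL : L = Submodule.span F (Set.range x)

section

variable {F : Type u} {A : Type v} [Field F] [CommRing A] [Algebra F A]

/-- evaluation of polynomials in four variables. -/
noncomputable def G4.ev (G : G4 F A) : MvPolynomial (Fin 4) F →ₐ[F] A := MvPolynomial.aeval G.x

/-- evaluation of polynomials in the first three variables. -/
noncomputable def G4.ev3 (G : G4 F A) : MvPolynomial (Fin 3) F →ₐ[F] A :=
  MvPolynomial.aeval (fun i : Fin 3 => G.x i.castSucc)

/-- evaluation of polynomials in the first two variables. -/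
noncomputable def G4.ev2 (G : G4 F A) : MvPolynomial (Fin 2) F →ₐ[F] A :=
  MvPolynomial.aeval (fun i : Fin 2 => G.x i.castSucc.castSucc)

/-- forms of degree `d` killing `V`. -/
def G4.kil (G : G4 F A) (V : Submodule F A) (d : ℕ) : Submodule F (MvPolynomial (Fin 4) F) where
  carrier := {p | p.IsHomogeneous d ∧ ∀ v ∈ V, G.ev p * v = 0}
  add_mem' := by
    rintro a b ⟨ha, ha'⟩ ⟨hb, hb'⟩
    exact ⟨ha.add hb, fun e he => by rw [map_add, add_mul, ha' e he, hb' e he, add_zero]⟩
  zero_mem' := ⟨MvPolynomial.isHomogeneous_zero _ _ _, fun e _ => by rw [map_zero, zero_mul]⟩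
  smul_mem' := by
    rintro c a ⟨ha, ha'⟩
    refine ⟨Submodule.smul_mem (MvPolynomial.homogeneousSubmodule (Fin 4) F d) c ha, fun e he => ?_⟩
    rw [map_smul, smul_mul_assoc, ha' e he, smul_zero]

/-- all the Gorenstein algebras `A / (0 : f)` of smaller socle degree are unimodal. -/
def G4.Uni (G : G4 F A) : Prop :=
  ∀ e, 1 ≤ e → ∀ f : MvPolynomial (Fin 4) F, f.IsHomogeneous e → ∀ d, 2 * d + 2 + e ≤ G.j →
    finrank F (ml (G.ev f) (G.L ^ d)) ≤ finrank F (ml (G.ev f) (G.L ^ (d + 1)))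

/-- a symmetric family of tight spaces. -/
structure Fam (G : GD F A) (m : ℕ) (w : ℕ → A) (Y : ℕ → Submodule F A) : Prop where
  w_mem : ∀ n, w n ∈ G.L
  le : ∀ n, Y n ≤ G.L ^ m
  kill : ∀ n, ∀ y ∈ Y n, w n * y = 0
  tight : ∀ n, Tight G.L (Y n)
  neg : ∀ n, finrank F (G.L * Y n : Submodule F A) < finrank F (Y n)
  s1 : ∀ a n, finrank F (G.L ^ a * Y n : Submodule F A) = finrank F (G.L ^ a * Y 0 : Submodule F A)
  s2 : ∀ a n i, i ≠ n →
    finrank F (ml (w i) (G.L ^ a * Y n)) = finrank F (ml (w 1) (G.L ^ a * Y 0))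
  s3 : ∀ B : Set ℕ, B.Finite → ⨆ n ∈ Bᶜ, Y n = ⨆ n, Y n

/-- `dim L^a Y`. -/
noncomputable def yy (L Y : Submodule F A) (a : ℕ) : ℕ := finrank F (L ^ a * Y : Submodule F A)

/-- codimension of `z L^a Y` in `L^{a+1} Y` (this is `k_{a+1}` of the text). -/
noncomputable def kk (L Y : Submodule F A) (z : A) (a : ℕ) : ℕ :=
  finrank F (L ^ (a + 1) * Y : Submodule F A) - finrank F (ml z (L ^ a * Y))

/-- dimension of `{v ∈ L^a Y | z v = 0}` (this is `β_{a+1}` of the text). -/
noncomputable def bb (L Y : Submodule F A) (z : A) (a : ℕ) : ℕ := finrank F (ann z (L ^ a * Y))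

end

/-! ### restriction of forms to a hyperplane -/

/-- `X_r ↦ ∑ a_i X_i`. -/
noncomputable def restr {F : Type u} [Field F] {r : ℕ} (a : Fin r → F) :
    MvPolynomial (Fin (r + 1)) F →ₐ[F] MvPolynomial (Fin r) F :=
  MvPolynomial.aeval (Fin.snoc (α := fun _ => MvPolynomial (Fin r) F) (fun i => MvPolynomial.X i)
    (∑ i, MvPolynomial.C (a i) * MvPolynomial.X i))

/-! ### plane data -/

/-- a subspace `E` of `A_m` on which `x_3` acts as `∑ c_i x_i`, and a line `x_2 = y_0 x_0 + y_1 x_1`. -/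
structure Pl (F : Type u) (A : Type v) [Field F] [CommRing A] [Algebra F A] where
  G : G4 F A
  m : ℕ
  hm : m ≤ G.j
  E : Submodule F A
  hE : E ≤ G.L ^ m
  c : Fin 3 → F
  hc : ∀ e ∈ E, G.x 3 * e = ∑ i : Fin 3, c i • (G.x i.castSucc * e)
  y : Fin 2 → F

namespace Pl

variable {F : Type u} {A : Type v} [Field F] [CommRing A] [Algebra F A] (D : Pl F A)

/-- the dual degree. -/
def N : ℕ := D.G.j - D.m

/-- the linear form cutting the line. -/
noncomputable def z : A := D.G.x 2 - (D.y 0 • D.G.x 0 + D.y 1 • D.G.x 1)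

/-- the same linear form as a polynomial in three variables. -/
noncomputable def zp : MvPolynomial (Fin 3) F :=
  MvPolynomial.X 2 - (MvPolynomial.C (D.y 0) * MvPolynomial.X 0 + MvPolynomial.C (D.y 1) * MvPolynomial.X 1)

/-- forms of degree `d` in three variables killing `E`. -/
def J (d : ℕ) : Submodule F (MvPolynomial (Fin 3) F) where
  carrier := {p | p.IsHomogeneous d ∧ ∀ e ∈ D.E, D.G.ev3 p * e = 0}
  add_mem' := by
    rintro a b ⟨ha, ha'⟩ ⟨hb, hb'⟩
    exact ⟨ha.add hb, fun e he => by rw [map_add, add_mul, ha' e he, hb' e he, add_zero]⟩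
  zero_mem' := ⟨MvPolynomial.isHomogeneous_zero _ _ _, fun e _ => by rw [map_zero, zero_mul]⟩
  smul_mem' := by
    rintro c a ⟨ha, ha'⟩
    refine ⟨Submodule.smul_mem (MvPolynomial.homogeneousSubmodule (Fin 3) F d) c ha, fun e he => ?_⟩
    rw [map_smul, smul_mul_assoc, ha' e he, smul_zero]

/-- `{v ∈ L^a E | z v = 0}`. -/
noncomputable def Z (a : ℕ) : Submodule F A := ann D.z (D.G.L ^ a * D.E)

/-- binary forms of degree `d` killing `Z_{N-d}`. -/
def C (d : ℕ) : Submodule F (MvPolynomial (Fin 2) F) where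
  carrier := {q | q.IsHomogeneous d ∧ ∀ v ∈ D.Z (D.N - d), D.G.ev2 q * v = 0}
  add_mem' := by
    rintro a b ⟨ha, ha'⟩ ⟨hb, hb'⟩
    exact ⟨ha.add hb, fun e he => by rw [map_add, add_mul, ha' e he, hb' e he, add_zero]⟩
  zero_mem' := ⟨MvPolynomial.isHomogeneous_zero _ _ _, fun e _ => by rw [map_zero, zero_mul]⟩
  smul_mem' := by
    rintro c a ⟨ha, ha'⟩
    refine ⟨Submodule.smul_mem (MvPolynomial.homogeneousSubmodule (Fin 2) F d) c ha, fun e he => ?_⟩
    rw [map_smul, smul_mul_assoc, ha' e he, smul_zero]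

/-- genericity of the line. -/
structure Gen : Prop where
  g1 : ∀ d ≤ D.N, (∀ p ∈ D.J d, restr D.y p = 0) → D.J d = ⊥
  g2 : ∀ d ≤ D.N, ∀ s ≤ d, ∀ g : MvPolynomial (Fin 2) F, g.IsHomogeneous s → g ≠ 0 → D.J d ≠ ⊥ →
    (∀ p ∈ D.J d, ∃ h : MvPolynomial (Fin 2) F, h.IsHomogeneous (d - s) ∧ restr D.y p = g * h) →
    ∃ P : MvPolynomial (Fin 3) F, P.IsHomogeneous s ∧ (∃ c : F, c ≠ 0 ∧ restr D.y P = MvPolynomial.C c * g) ∧
      ∀ p ∈ D.J d, ∃ q : MvPolynomial (Fin 3) F, q.IsHomogeneous (d - s) ∧ p = P * q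

/-- the numerical profile found by the plateau analysis. -/
def Profile (i s : ℕ) : Prop :=
  i + s ≤ D.N + 1 ∧ kk D.G.L D.E D.z 0 + i ≤ s ∧
  (∀ a < i, kk D.G.L D.E D.z 0 + 1 + a ≤ bb D.G.L D.E D.z a) ∧
  (∀ a, i ≤ a → a < D.N + 1 → min s (D.N + 1 - a) ≤ bb D.G.L D.E D.z a) ∧
  (∀ a, i ≤ a → kk D.G.L D.E D.z a = 0) ∧
  (i + s = D.N + 1 ∨
    (kk D.G.L D.E D.z 0 + i + 1 ≤ s ∧ i + s + 1 ≤ D.N ∧
      ∃ P : MvPolynomial (Fin 3) F, P ≠ 0 ∧ P.IsHomogeneous s ∧ (∀ e ∈ D.E, D.G.ev3 P * e = 0) ∧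
        ∀ p ∈ D.J (D.N - i), ∃ q : MvPolynomial (Fin 3) F, q.IsHomogeneous (D.N - i - s) ∧ p = P * q))

end Pl

/-! ### the field of generic parameters -/

/-- polynomials in the parameters. -/
abbrev Sx (k : Type u) [Field k] : Type u := MvPolynomial (ℕ × Fin 3) k

/-- rational functions in the parameters. -/
abbrev Om (k : Type u) [Field k] : Type u := FractionRing (Sx k)

section

variable (k : Type u) [Field k]

/-- the parameters. -/
noncomputable def xx (n : ℕ) (i : Fin 3) : Om k := algebraMap (Sx k) (Om k) (MvPolynomial.X (n, i))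

/-- a parameter as an element of the field. -/
noncomputable def xv (v : ℕ × Fin 3) : Om k := algebraMap (Sx k) (Om k) (MvPolynomial.X v)

/-- the generic plane number `n`. -/
noncomputable def wp (n : ℕ) : MvPolynomial (Fin 4) (Om k) :=
  MvPolynomial.X 3 - ∑ i : Fin 3, MvPolynomial.C (xx k n i) * MvPolynomial.X i.castSucc

/-- permutation of the parameters. -/
noncomputable def ac (σ : Equiv.Perm ℕ) : Om k ≃+* Om k :=
  IsFractionRing.ringEquivOfRingEquiv (A := Sx k) (B := Sx k) (K := Om k) (L := Om k)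
    (MvPolynomial.renameEquiv k (Equiv.prodCongr σ (Equiv.refl (Fin 3)))).toRingEquiv

variable {k}

/-- `f` is a scalar multiple of a polynomial whose coefficients do not involve the parameters in `U`. -/
def FreeOf {ρ : Type} (U : Set (ℕ × Fin 3)) (f : MvPolynomial ρ (Om k)) : Prop :=
  ∃ a : Om k, a ≠ 0 ∧ ∃ P : MvPolynomial ρ (Sx k),
    (∀ μ, ∀ v ∈ (P.coeff μ).vars, v ∉ U) ∧ f = MvPolynomial.C a * MvPolynomial.map (algebraMap (Sx k) (Om k)) P

/-- coordinates of the line cut by the plane `n` on the plane `0`. -/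
noncomputable def yl (k : Type u) [Field k] (n : ℕ) (i : Fin 2) : Om k :=
  (xx k n i.castSucc - xx k 0 i.castSucc) / (xx k 0 2 - xx k n 2)

/-- semilinear permutation action on an algebra with four generators. -/
structure SymA {A : Type v} [CommRing A] [Algebra (Om k) A] (G : G4 (Om k) A) where
  act : Equiv.Perm ℕ → (A ≃+* A)
  act_smul : ∀ (σ : Equiv.Perm ℕ) (c : Om k) (a : A), act σ (c • a) = (ac k σ c) • act σ a
  act_x : ∀ (σ : Equiv.Perm ℕ) (i : Fin 4), act σ (G.x i) = G.x i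

/-- the annihilator of the generic plane in degree `m`. -/
noncomputable def Wn {A : Type v} [CommRing A] [Algebra (Om k) A] (G : G4 (Om k) A) (m n : ℕ) :
    Submodule (Om k) A := ann (G.ev (wp k n)) (G.L ^ m)

end

/-! ### the algebra of a functional -/

section

variable {F : Type u} [Field F]

/-- annihilator ideal of the degree `j` part of a functional. -/
noncomputable def annI (Λ : MvPolynomial (Fin 4) F →ₗ[F] F) (j : ℕ) : Ideal (MvPolynomial (Fin 4) F) where
  carrier := {f | ∀ g, Λ (MvPolynomial.homogeneousComponent j (f * g)) = 0}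
  add_mem' := by
    intro a b ha hb g
    rw [add_mul, map_add, map_add, ha g, hb g, add_zero]
  zero_mem' := by
    intro g
    rw [zero_mul, map_zero, map_zero]
  smul_mem' := by
    intro c f hf g
    rw [smul_eq_mul, mul_comm c f, mul_assoc]
    exact hf (c * g)

/-- the Gorenstein algebra of a functional. -/
abbrev AL (Λ : MvPolynomial (Fin 4) F →ₗ[F] F) (j : ℕ) : Type u := MvPolynomial (Fin 4) F ⧸ annI Λ j

end

end MPcec
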