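import Pool.Agent.Lib.MP_cec001_ag.Spec
import Pool.Agent.Lib.CEC001.Binary

section
set_option autoImplicit false

open Module Pool.Agent.Lib.CEC001

namespace MPcec

universe u v

namespace AlgM

variable {F : Type u} [Field F]

lemma hc_mul {f g : MvPolynomial (Fin 4) F} {d j : ℕ} (hf : f.IsHomogeneous d) (hd : d ≤ j) :
    MvPolynomial.homogeneousComponent j (f * g) =
      f * MvPolynomial.homogeneousComponent (j - d) g := by
  conv_lhs => rw [← MvPolynomial.sum_homogeneousComponent g]
  rw [Finset.mul_sum, map_sum]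
  have h1 : ∀ i ∈ Finset.range (g.totalDegree + 1),
      MvPolynomial.homogeneousComponent j (f * MvPolynomial.homogeneousComponent i g) =
        if i = j - d then f * MvPolynomial.homogeneousComponent (j - d) g else 0 := by
    intro i _
    have h2 : (f * MvPolynomial.homogeneousComponent i g).IsHomogeneous (d + i) :=
      hf.mul (MvPolynomial.homogeneousComponent_isHomogeneous i g)
    rw [MvPolynomial.homogeneousComponent_of_mem h2]
    by_cases h3 : i = j - d
    · rw [if_pos (by omega), if_pos h3, h3]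
    · rw [if_neg (by omega), if_neg h3]
  rw [Finset.sum_congr rfl h1, Finset.sum_ite_eq']
  split_ifs with h4
  · rfl
  · rw [Finset.mem_range, not_lt] at h4
    rw [MvPolynomial.homogeneousComponent_eq_zero _ _ (by omega), mul_zero]

lemma hc_mul_lt {f g : MvPolynomial (Fin 4) F} {d j : ℕ} (hf : f.IsHomogeneous d) (hd : j < d) :
    MvPolynomial.homogeneousComponent j (f * g) = 0 := by
  conv_lhs => rw [← MvPolynomial.sum_homogeneousComponent g]
  rw [Finset.mul_sum, map_sum]
  refine Finset.sum_eq_zero fun i _ => ?_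
  have h2 : (f * MvPolynomial.homogeneousComponent i g).IsHomogeneous (d + i) :=
    hf.mul (MvPolynomial.homogeneousComponent_isHomogeneous i g)
  rw [MvPolynomial.homogeneousComponent_of_mem h2, if_neg (by omega)]

variable (Λ : MvPolynomial (Fin 4) F →ₗ[F] F) (j : ℕ)

/-- the projection -/
noncomputable def pr : MvPolynomial (Fin 4) F →ₐ[F] AL Λ j := Ideal.Quotient.mkₐ F (annI Λ j)

lemma pr_eq_zero {f : MvPolynomial (Fin 4) F} : pr Λ j f = 0 ↔ f ∈ annI Λ j :=
  Ideal.Quotient.eq_zero_iff_mem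

lemma mem_annI {f : MvPolynomial (Fin 4) F} : f ∈ annI Λ j ↔
    ∀ g, Λ (MvPolynomial.homogeneousComponent j (f * g)) = 0 := Iff.rfl

/-- homogeneous elements of the annihilator -/
lemma mem_annI_hom {f : MvPolynomial (Fin 4) F} {d : ℕ} (hf : f.IsHomogeneous d) (hd : d ≤ j) :
    f ∈ annI Λ j ↔ ∀ g ∈ Rt F (j - d), Λ (f * g) = 0 := by
  rw [mem_annI]
  constructor
  · intro h g hg
    have h1 := h g
    rw [hc_mul hf hd, MvPolynomial.homogeneousComponent_of_mem hg, if_pos rfl] at h1
    exact h1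
  · intro h g
    rw [hc_mul hf hd]
    exact h _ (MvPolynomial.homogeneousComponent_isHomogeneous _ g)

/-- the functional on the quotient -/
noncomputable def lamA : AL Λ j →ₗ[F] F :=
  ((annI Λ j).restrictScalars F).liftQ (Λ.comp (MvPolynomial.homogeneousComponent j)) (by
    intro f hf
    have h1 : f ∈ annI Λ j := hf
    rw [mem_annI] at h1
    have h2 := h1 1
    rw [mul_one] at h2
    exact h2)

lemma lamA_pr (f : MvPolynomial (Fin 4) F) :
    lamA Λ j (pr Λ j f) = Λ (MvPolynomial.homogeneousComponent j f) := rfl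

/-- linear forms of the quotient -/
noncomputable def LL : Submodule F (AL Λ j) :=
  Submodule.span F (Set.range (fun i : Fin 4 => Ideal.Quotient.mk (annI Λ j) (MvPolynomial.X i)))

lemma LL_eq : LL Λ j = (Rt F 1).map (pr Λ j).toLinearMap := by
  unfold LL Rt
  rw [MvPolynomial.homogeneousSubmodule_one_eq_span_X, Submodule.map_span, ← Set.range_comp]
  rfl

lemma LL_pow (d : ℕ) : LL Λ j ^ d = (Rt F d).map (pr Λ j).toLinearMap := by
  rw [LL_eq, Rt, Rt, ← MvPolynomial.homogeneousSubmodule_one_pow (σ := Fin 4) (R := F) d, Submodule.map_pow]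

/-- the Gorenstein data -/
noncomputable def data : G4 F (AL Λ j) where
  L := LL Λ j
  fg := Submodule.fg_span (Set.finite_range _)
  j := j
  lam := lamA Λ j
  top := by
    rw [LL_pow, eq_bot_iff]
    rintro _ ⟨f, hf, rfl⟩
    change pr Λ j f = 0
    rw [pr_eq_zero, mem_annI]
    intro g
    rw [hc_mul_lt hf (by omega), map_zero]
  nondeg := by
    intro d hd a ha h
    rw [LL_pow] at ha
    obtain ⟨f, hf, rfl⟩ := ha
    change pr Λ j f = 0
    rw [pr_eq_zero, mem_annI_hom Λ j hf hd]
    intro g hg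
    have h1 := h (pr Λ j g) (by rw [LL_pow]; exact ⟨g, hg, rfl⟩)
    have h2 : (pr Λ j).toLinearMap f * pr Λ j g = pr Λ j (f * g) := (map_mul (pr Λ j) f g).symm
    rw [h2, lamA_pr] at h1
    have h3 : (f * g).IsHomogeneous (d + (j - d)) := MvPolynomial.IsHomogeneous.mul hf hg
    rw [MvPolynomial.homogeneousComponent_of_mem h3, if_pos (by omega)] at h1
    exact h1
  x := fun i => Ideal.Quotient.mk (annI Λ j) (MvPolynomial.X i)
  hL := rfl

lemma ev_eq (f : MvPolynomial (Fin 4) F) : (data Λ j).ev f = pr Λ j f := by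
  have h : (data Λ j).ev = pr Λ j := by
    apply MvPolynomial.algHom_ext
    intro i
    unfold G4.ev
    rw [MvPolynomial.aeval_X]
    rfl
  rw [h]

/-- dimension of the image of `f · R_d` -/
lemma finrank_image {f : MvPolynomial (Fin 4) F} {e d : ℕ} (hf : f.IsHomogeneous e)
    (hd : e + d ≤ j) :
    finrank F (ml (pr Λ j f) (LL Λ j ^ d)) = H (tw Λ f) d (j - e - d) := by
  let φ : Rt F d →ₗ[F] AL Λ j :=
    (((LinearMap.mulLeft F (pr Λ j f)).comp (pr Λ j).toLinearMap)).domRestrict (Rt F d)
  have h1 := LinearMap.finrank_range_add_finrank_ker φ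
  rw [finrank_Rt] at h1
  have h2 : LinearMap.range φ = ml (pr Λ j f) (LL Λ j ^ d) := by
    rw [LL_pow]
    ext q
    constructor
    · rintro ⟨g, rfl⟩
      exact ⟨pr Λ j g, ⟨g, g.2, rfl⟩, rfl⟩
    · rintro ⟨_, ⟨g, hg, rfl⟩, rfl⟩
      exact ⟨⟨g, hg⟩, rfl⟩
  have hφ : ∀ g : Rt F d, φ g = pr Λ j (f * g) := fun g => (map_mul (pr Λ j) f g).symm
  have h3 : (LinearMap.ker φ).map (Rt F d).subtype = cat (tw Λ f) d (j - e - d) := by
    ext q
    constructor
    · rintro ⟨g, hg, rfl⟩
      refine ⟨g.2, ?_⟩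
      intro h hh
      have h4 : φ g = 0 := hg
      rw [hφ, pr_eq_zero, mem_annI_hom Λ j (hf.mul g.2) hd] at h4
      rw [tw_apply, ← mul_assoc]
      exact h4 h (by rw [show j - (e + d) = j - e - d by omega]; exact hh)
    · rintro ⟨hq, hq'⟩
      refine ⟨⟨q, hq⟩, ?_, rfl⟩
      change φ ⟨q, hq⟩ = 0
      rw [hφ, pr_eq_zero, mem_annI_hom Λ j (hf.mul hq) hd]
      intro g hg
      have h5 := hq' g (by rw [show j - e - d = j - (e + d) by omega]; exact hg)
      rw [tw_apply, ← mul_assoc] at h5
      exact h5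
  have h4 : finrank F (LinearMap.ker φ) = finrank F (cat (tw Λ f) d (j - e - d)) := by
    rw [← h3]
    exact (Submodule.equivMapOfInjective _ (Submodule.injective_subtype _) _).finrank_eq
  have h5 := H_add_finrank_cat (tw Λ f) d (j - e - d)
  rw [h2, h4] at h1
  omega

end AlgM

open AlgM in
theorem specAlg : SpecAlg.{u} := by
  intro F _ Λ j
  refine ⟨data Λ j, rfl, fun i => rfl, fun d hd => ?_, fun e f hf d hd => ?_⟩
  · have h1 := finrank_image Λ j (MvPolynomial.isHomogeneous_one (Fin 4) F) (d := d) (by omega)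
    have h2 : ml (pr Λ j 1) (LL Λ j ^ d) = LL Λ j ^ d := by
      unfold ml
      rw [map_one, LinearMap.mulLeft_one, Submodule.map_id]
    have h3 : tw Λ 1 = Λ := by
      refine LinearMap.ext fun g => ?_
      rw [tw_apply, one_mul]
    rw [h2, h3] at h1
    rw [show j - 0 - d = j - d by omega] at h1
    exact h1
  · rw [ev_eq]
    exact finrank_image Λ j hf hd

end MPcec
end

section
/-!
Problem MP_cec001_ag, module AUT: the automorphism of the field of parameters which moves the
coordinates of a line to parameters.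
-/
set_option autoImplicit false

open Module

namespace MPcec

universe u

namespace Aut

variable (k : Type u) [Field k]

/-- images of the parameters under the inverse automorphism (polynomials). -/
noncomputable def bv (n : ℕ) (v : ℕ × Fin 3) : Sx k :=
  if v = (n, 0) then MvPolynomial.X (n, 0) * (MvPolynomial.X (0, 2) - MvPolynomial.X (n, 2)) +
    MvPolynomial.X (0, 0)
  else if v = (n, 1) then MvPolynomial.X (n, 1) * (MvPolynomial.X (0, 2) - MvPolynomial.X (n, 2)) +
    MvPolynomial.X (0, 1)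
  else MvPolynomial.X v

/-- images of the parameters under the automorphism. -/
noncomputable def av (n : ℕ) (v : ℕ × Fin 3) : Om k :=
  if v = (n, 0) then yl k n 0 else if v = (n, 1) then yl k n 1 else xv k v

noncomputable def b0 (n : ℕ) : Sx k →ₐ[k] Sx k := MvPolynomial.aeval (bv k n)

noncomputable def a0 (n : ℕ) : Sx k →ₐ[k] Om k := MvPolynomial.aeval (av k n)

variable {k}

lemma b0_X (n : ℕ) (v : ℕ × Fin 3) : b0 k n (MvPolynomial.X v) = bv k n v := by
  simp [b0]

lemma a0_X (n : ℕ) (v : ℕ × Fin 3) : a0 k n (MvPolynomial.X v) = av k n v := by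
  simp [a0]

lemma bv0 (n : ℕ) : bv k n (n, 0) = MvPolynomial.X (n, 0) *
    (MvPolynomial.X (0, 2) - MvPolynomial.X (n, 2)) + MvPolynomial.X (0, 0) := by
  simp [bv]

lemma bv1 (n : ℕ) : bv k n (n, 1) = MvPolynomial.X (n, 1) *
    (MvPolynomial.X (0, 2) - MvPolynomial.X (n, 2)) + MvPolynomial.X (0, 1) := by
  simp [bv]

lemma bvo {n : ℕ} {v : ℕ × Fin 3} (h0 : v ≠ (n, 0)) (h1 : v ≠ (n, 1)) :
    bv k n v = MvPolynomial.X v := by simp [bv, h0, h1]

lemma av0 (n : ℕ) : av k n (n, 0) = yl k n 0 := by simp [av]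

lemma av1 (n : ℕ) : av k n (n, 1) = yl k n 1 := by simp [av]

lemma avo {n : ℕ} {v : ℕ × Fin 3} (h0 : v ≠ (n, 0)) (h1 : v ≠ (n, 1)) :
    av k n v = xv k v := by simp [av, h0, h1]

lemma den_ne {n : ℕ} (hn : n ≠ 0) : xv k (0, 2) - xv k (n, 2) ≠ 0 := by
  intro h
  unfold xv at h
  rw [← map_sub] at h
  have h2 := (IsFractionRing.injective (Sx k) (Om k)) (h.trans (map_zero _).symm)
  have h3 := sub_eq_zero.1 h2
  have h4 := MvPolynomial.X_injective h3
  simp only [Prod.mk.injEq, and_true] at h4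
  exact hn h4.symm

lemma a0_b0 {n : ℕ} (hn : n ≠ 0) (p : Sx k) :
    a0 k n (b0 k n p) = algebraMap (Sx k) (Om k) p := by
  have hd := den_ne (k := k) hn
  have h : (a0 k n).comp (b0 k n) = (IsScalarTower.toAlgHom k (Sx k) (Om k)) := by
    apply MvPolynomial.algHom_ext
    intro v
    rw [AlgHom.comp_apply, b0_X, IsScalarTower.coe_toAlgHom']
    have e02 : av k n (0, 2) = xv k (0, 2) := avo (by simp) (by simp)
    have en2 : av k n (n, 2) = xv k (n, 2) := avo (by simp) (by simp)
    have e00 : av k n (0, 0) = xv k (0, 0) := avo (by simp [hn.symm]) (by simp)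
    have e01 : av k n (0, 1) = xv k (0, 1) := avo (by simp) (by simp [hn.symm])
    by_cases h0 : v = (n, 0)
    · subst h0
      rw [bv0, map_add, map_mul, map_sub, a0_X, a0_X, a0_X, a0_X, e02, en2, e00, av0]
      have : yl k n 0 = (xv k (n, 0) - xv k (0, 0)) / (xv k (0, 2) - xv k (n, 2)) := rfl
      rw [this, div_mul_cancel₀ _ hd, sub_add_cancel]
      rfl
    by_cases h1 : v = (n, 1)
    · subst h1
      rw [bv1, map_add, map_mul, map_sub, a0_X, a0_X, a0_X, a0_X, e02, en2, e01, av1]
      have : yl k n 1 = (xv k (n, 1) - xv k (0, 1)) / (xv k (0, 2) - xv k (n, 2)) := rfl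
      rw [this, div_mul_cancel₀ _ hd, sub_add_cancel]
      rfl
    · rw [bvo h0 h1, a0_X, avo h0 h1]
      rfl
  exact DFunLike.congr_fun h p

lemma b0_inj {n : ℕ} (hn : n ≠ 0) : Function.Injective (b0 k n) := by
  intro p q h
  apply IsFractionRing.injective (Sx k) (Om k)
  rw [← a0_b0 hn, ← a0_b0 hn, h]

/-- the inverse automorphism as an endomorphism. -/
noncomputable def BB {n : ℕ} (hn : n ≠ 0) : Om k →+* Om k :=
  IsFractionRing.map (A := Sx k) (B := Sx k) (K := Om k) (L := Om k) (j := (b0 k n).toRingHom)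
    (b0_inj hn)

lemma BB_alg {n : ℕ} (hn : n ≠ 0) (p : Sx k) :
    BB hn (algebraMap (Sx k) (Om k) p) = algebraMap (Sx k) (Om k) (b0 k n p) := by
  unfold BB
  simp [IsFractionRing.map]

lemma BB_a0 {n : ℕ} (hn : n ≠ 0) (p : Sx k) :
    BB hn (a0 k n p) = algebraMap (Sx k) (Om k) p := by
  have hd := den_ne (k := k) hn
  have h : (BB hn).comp (a0 k n).toRingHom = algebraMap (Sx k) (Om k) := by
    apply MvPolynomial.ringHom_ext
    · intro c
      have : a0 k n (MvPolynomial.C c) = algebraMap (Sx k) (Om k) (MvPolynomial.C c) := by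
        rw [← MvPolynomial.algebraMap_eq, AlgHom.commutes, IsScalarTower.algebraMap_apply k (Sx k)]
      simp only [AlgHom.toRingHom_eq_coe, RingHom.comp_apply, RingHom.coe_coe]
      rw [this, BB_alg, ← MvPolynomial.algebraMap_eq, AlgHom.commutes]
    · intro v
      simp only [AlgHom.toRingHom_eq_coe, RingHom.comp_apply, RingHom.coe_coe]
      rw [a0_X]
      have hX : ∀ w : ℕ × Fin 3, BB hn (xv k w) = algebraMap (Sx k) (Om k) (bv k n w) := by
        intro w
        have : xv k w = algebraMap (Sx k) (Om k) (MvPolynomial.X w) := rfl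
        rw [this, BB_alg, b0_X]
      have e02 : bv k n (0, 2) = MvPolynomial.X (0, 2) := bvo (by simp) (by simp)
      have en2 : bv k n (n, 2) = MvPolynomial.X (n, 2) := bvo (by simp) (by simp)
      have e00 : bv k n (0, 0) = MvPolynomial.X (0, 0) := bvo (by simp [hn.symm]) (by simp)
      have e01 : bv k n (0, 1) = MvPolynomial.X (0, 1) := bvo (by simp) (by simp [hn.symm])
      by_cases h0 : v = (n, 0)
      · subst h0
        have : yl k n 0 = (xv k (n, 0) - xv k (0, 0)) / (xv k (0, 2) - xv k (n, 2)) := rfl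
        rw [av0, this, map_div₀, map_sub, map_sub, hX, hX, hX, hX, e02, en2, e00, bv0, map_add,
          map_mul, map_sub, add_sub_cancel_right]
        exact mul_div_cancel_right₀ _ hd
      by_cases h1 : v = (n, 1)
      · subst h1
        have : yl k n 1 = (xv k (n, 1) - xv k (0, 1)) / (xv k (0, 2) - xv k (n, 2)) := rfl
        rw [av1, this, map_div₀, map_sub, map_sub, hX, hX, hX, hX, e02, en2, e01, bv1, map_add,
          map_mul, map_sub, add_sub_cancel_right]
        exact mul_div_cancel_right₀ _ hd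
      · rw [avo h0 h1, hX, bvo h0 h1]
  exact RingHom.congr_fun h p

lemma a0_inj {n : ℕ} (hn : n ≠ 0) : Function.Injective (a0 k n) := by
  intro p q h
  apply IsFractionRing.injective (Sx k) (Om k)
  rw [← BB_a0 hn, ← BB_a0 hn, h]

/-- the automorphism as an endomorphism. -/
noncomputable def AA {n : ℕ} (hn : n ≠ 0) : Om k →+* Om k :=
  IsFractionRing.lift (A := Sx k) (K := Om k) (g := (a0 k n).toRingHom) (a0_inj hn)

lemma AA_alg {n : ℕ} (hn : n ≠ 0) (p : Sx k) :
    AA hn (algebraMap (Sx k) (Om k) p) = a0 k n p := by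
  unfold AA
  rw [IsFractionRing.lift_algebraMap]
  rfl

/-- the automorphism. -/
noncomputable def E {n : ℕ} (hn : n ≠ 0) : Om k ≃+* Om k :=
  RingEquiv.ofRingHom (AA hn) (BB hn)
    (by
      apply IsLocalization.ringHom_ext (nonZeroDivisors (Sx k))
      refine RingHom.ext fun p => ?_
      simp only [RingHom.comp_apply, RingHom.id_apply]
      rw [BB_alg, AA_alg, a0_b0 hn])
    (by
      apply IsLocalization.ringHom_ext (nonZeroDivisors (Sx k))
      refine RingHom.ext fun p => ?_
      simp only [RingHom.comp_apply, RingHom.id_apply]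
      rw [AA_alg, BB_a0 hn])

lemma E_alg {n : ℕ} (hn : n ≠ 0) (p : Sx k) :
    E hn (algebraMap (Sx k) (Om k) p) = a0 k n p := AA_alg hn p

lemma E_xv {n : ℕ} (hn : n ≠ 0) (v : ℕ × Fin 3) : E hn (xv k v) = av k n v := by
  have : xv k v = algebraMap (Sx k) (Om k) (MvPolynomial.X v) := rfl
  rw [this, E_alg, a0_X]

end Aut

/-- module AUT -/
theorem specAut : SpecAut.{u} := by
  intro k _ n hn
  refine ⟨Aut.E hn, ?_, ?_, ?_, ?_⟩
  · intro c
    rw [IsScalarTower.algebraMap_apply k (Sx k), Aut.E_alg, AlgHom.commutes,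
      IsScalarTower.algebraMap_apply k (Sx k)]
  · intro v h0 h1
    rw [Aut.E_xv, Aut.avo h0 h1]
  · rw [Aut.E_xv, Aut.av0]
  · rw [Aut.E_xv, Aut.av1]

end MPcec
end

section
set_option autoImplicit false

open Module

namespace MPcec

universe u v

namespace BinM

open Polynomial Pool.Agent.Lib.CEC001

variable {F : Type u} [Field F]

/-- dehomogenization `X0 ↦ X`, `X1 ↦ 1`. -/
noncomputable def de : MvPolynomial (Fin 2) F →ₐ[F] F[X] := MvPolynomial.aeval ![Polynomial.X, 1]

lemma de_X0 : de (MvPolynomial.X 0 : MvPolynomial (Fin 2) F) = Polynomial.X := by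
  unfold de
  rw [MvPolynomial.aeval_X]
  rfl

lemma de_X1 : de (MvPolynomial.X 1 : MvPolynomial (Fin 2) F) = 1 := by
  unfold de
  rw [MvPolynomial.aeval_X]
  rfl

lemma de_C (c : F) : de (MvPolynomial.C c : MvPolynomial (Fin 2) F) = Polynomial.C c := by
  unfold de
  rw [MvPolynomial.aeval_C]
  rfl

lemma de_apply (q : MvPolynomial (Fin 2) F) :
    de q = ∑ m ∈ q.support, Polynomial.C (q.coeff m) * Polynomial.X ^ (m 0) := by
  unfold de
  rw [MvPolynomial.aeval_def, MvPolynomial.eval₂_eq']
  apply Finset.sum_congr rfl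
  intro m _
  rw [Fin.prod_univ_two]
  simp

lemma deg_supp {d : ℕ} {q : MvPolynomial (Fin 2) F} (hq : q.IsHomogeneous d) {m : Fin 2 →₀ ℕ}
    (hm : m ∈ q.support) : m 0 + m 1 = d := by
  have h : m.degree = d := by
    by_contra hne
    exact (MvPolynomial.mem_support_iff.1 hm) (hq.coeff_eq_zero hne)
  rw [Finsupp.degree_eq_sum, Fin.sum_univ_two] at h
  exact h

lemma de_inj {d : ℕ} {q : MvPolynomial (Fin 2) F} (hq : q.IsHomogeneous d) (h : de q = 0) : q = 0 := by
  by_contra hq0
  obtain ⟨m, hm⟩ := MvPolynomial.support_nonempty.2 hq0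
  have h1 : (de q).coeff (m 0) = q.coeff m := by
    rw [de_apply, Polynomial.finsetSum_coeff, Finset.sum_eq_single_of_mem m hm]
    · rw [Polynomial.coeff_C_mul, Polynomial.coeff_X_pow_self, mul_one]
    · intro m' hm' hne
      rw [Polynomial.coeff_C_mul, Polynomial.coeff_X_pow, if_neg, mul_zero]
      intro h0
      apply hne
      have h2 := deg_supp hq hm
      have h3 := deg_supp hq hm'
      ext i
      fin_cases i
      · exact h0.symm
      · change m' 1 = m 1
        omega
  rw [h, Polynomial.coeff_zero] at h1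
  exact (MvPolynomial.mem_support_iff.1 hm) h1.symm

lemma de_eq {d : ℕ} {q q' : MvPolynomial (Fin 2) F} (hq : q.IsHomogeneous d) (hq' : q'.IsHomogeneous d)
    (h : de q = de q') : q = q' := by
  rw [← sub_eq_zero]
  apply de_inj (hq.sub hq')
  rw [map_sub, h, sub_self]

/-- homogenization. -/
noncomputable def ho (d : ℕ) (r : F[X]) : MvPolynomial (Fin 2) F :=
  ∑ i ∈ Finset.range (d + 1), MvPolynomial.C (r.coeff i) * (MvPolynomial.X 0 ^ i * MvPolynomial.X 1 ^ (d - i))

lemma ho_homog (d : ℕ) (r : F[X]) : (ho d r).IsHomogeneous d := by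
  unfold ho
  apply MvPolynomial.IsHomogeneous.sum
  intro i hi
  rw [Finset.mem_range] at hi
  apply MvPolynomial.IsHomogeneous.C_mul
  have h1 := (MvPolynomial.isHomogeneous_X_pow (R := F) (0 : Fin 2) i).mul
    (MvPolynomial.isHomogeneous_X_pow (R := F) (1 : Fin 2) (d - i))
  have e : i + (d - i) = d := by omega
  rw [e] at h1
  exact h1

lemma de_ho {d : ℕ} {r : F[X]} (h : r ∈ degreeLT F (d + 1)) : de (ho d r) = r := by
  unfold ho
  rw [map_sum]
  have h1 : ∀ i, de (MvPolynomial.C (r.coeff i) * (MvPolynomial.X 0 ^ i * MvPolynomial.X 1 ^ (d - i)) :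
      MvPolynomial (Fin 2) F) = Polynomial.C (r.coeff i) * Polynomial.X ^ i := by
    intro i
    rw [map_mul, map_mul, map_pow, map_pow, de_C, de_X0, de_X1, one_pow, mul_one]
  simp only [h1]
  ext n
  rw [Polynomial.finsetSum_coeff]
  simp only [Polynomial.coeff_C_mul, Polynomial.coeff_X_pow, mul_ite, mul_one, mul_zero]
  rw [Finset.sum_ite_eq]
  split_ifs with hn
  · rfl
  · rw [Polynomial.mem_degreeLT, Polynomial.degree_lt_iff_coeff_zero] at h
    rw [h n (by rw [Finset.mem_range] at hn; omega)]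

lemma de_mem {d : ℕ} {q : MvPolynomial (Fin 2) F} (hq : q.IsHomogeneous d) :
    de q ∈ degreeLT F (d + 1) := by
  rw [de_apply]
  apply Submodule.sum_mem
  intro m hm
  rw [Polynomial.mem_degreeLT]
  have h1 := deg_supp hq hm
  refine lt_of_le_of_lt (Polynomial.degree_C_mul_X_pow_le _ _) ?_
  exact_mod_cast (by omega : m 0 < d + 1)

lemma finrank_map_de {d : ℕ} (W : Submodule F (MvPolynomial (Fin 2) F))
    (hW : ∀ q ∈ W, q.IsHomogeneous d) : finrank F (W.map de.toLinearMap) = finrank F W := by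
  have h1 : W.map de.toLinearMap = LinearMap.range ((de.toLinearMap).domRestrict W) := by
    ext q
    constructor
    · rintro ⟨f, hf, rfl⟩
      exact ⟨⟨f, hf⟩, rfl⟩
    · rintro ⟨f, rfl⟩
      exact ⟨f, f.2, rfl⟩
  rw [h1]
  apply LinearMap.finrank_range_of_inj
  intro a b hab
  apply Subtype.ext
  exact de_eq (hW _ a.2) (hW _ b.2) hab

/-- binary forms of degree `d`. -/
noncomputable abbrev Q (F : Type u) [Field F] (d : ℕ) : Submodule F (MvPolynomial (Fin 2) F) :=
  MvPolynomial.homogeneousSubmodule (Fin 2) F d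

lemma map_Q (d : ℕ) : (Q F d).map de.toLinearMap = degreeLT F (d + 1) := by
  apply le_antisymm
  · rintro _ ⟨q, hq, rfl⟩
    exact de_mem hq
  · intro r hr
    exact ⟨ho d r, ho_homog d r, de_ho hr⟩

lemma finrank_Q (d : ℕ) : finrank F (Q F d) = d + 1 := by
  rw [← finrank_map_de (Q F d) (fun q hq => hq), map_Q, finrank_degreeLT]

instance finite_Q (d : ℕ) : FiniteDimensional F (Q F d) :=
  FiniteDimensional.of_finrank_pos (by rw [finrank_Q]; omega)

lemma mem_iff {e s : ℕ} (hs : s ≤ e) {p : F[X]} (hp : p ∈ degreeLT F (s + 1))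
    (W : Submodule F (MvPolynomial (Fin 2) F)) (hW : ∀ q ∈ W, q.IsHomogeneous e)
    (h : W.map de.toLinearMap = mulP p (e + 1 - s)) (q : MvPolynomial (Fin 2) F) :
    q ∈ W ↔ ∃ h : MvPolynomial (Fin 2) F, h.IsHomogeneous (e - s) ∧ q = ho s p * h := by
  have e1 : e + 1 - s = (e - s) + 1 := by omega
  have e2 : s + (e - s) = e := by omega
  constructor
  · intro hq
    have h1 : de q ∈ mulP p (e + 1 - s) := by
      rw [← h]
      exact ⟨q, hq, rfl⟩
    obtain ⟨r, hr, hr'⟩ := mem_mulP.1 h1
    rw [e1] at hr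
    refine ⟨ho (e - s) r, ho_homog _ _, ?_⟩
    have h2 := (ho_homog s p).mul (ho_homog (e - s) r)
    rw [e2] at h2
    apply de_eq (hW q hq) h2
    rw [map_mul, de_ho hp, de_ho hr, hr']
  · rintro ⟨g, hg, rfl⟩
    have h2 := (ho_homog s p).mul hg
    rw [e2] at h2
    have h1 : de (ho s p * g) ∈ mulP p (e + 1 - s) := by
      rw [mem_mulP, map_mul, de_ho hp]
      refine ⟨de g, ?_, rfl⟩
      rw [e1]
      exact de_mem hg
    rw [← h] at h1
    obtain ⟨q, hq, hq'⟩ := h1
    have h3 : q = ho s p * g := de_eq (hW q hq) h2 hq'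
    rw [← h3]
    exact hq

lemma finite_of_homog {d : ℕ} (W : Submodule F (MvPolynomial (Fin 2) F))
    (hW : ∀ q ∈ W, q.IsHomogeneous d) : FiniteDimensional F W :=
  Submodule.finiteDimensional_of_le (show W ≤ Q F d from hW)

end BinM

open BinM Polynomial Pool.Agent.Lib.CEC001 in
theorem specBin : SpecBin.{u} := by
  intro F _ d C D hC hD hCD hne
  have hfC : FiniteDimensional F C := finite_of_homog C hC
  have hfD : FiniteDimensional F D := finite_of_homog D hD
  have rC := finrank_map_de C hC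
  have rD := finrank_map_de D hD
  set U := C.map de.toLinearMap with hU
  set U' := D.map de.toLinearMap with hU'
  have hfU : FiniteDimensional F U := by rw [hU]; infer_instance
  have hfU' : FiniteDimensional F U' := by rw [hU']; infer_instance
  have hle : sh U ≤ U' := by
    rw [sh_le_iff]
    rintro _ ⟨q, hq, rfl⟩
    constructor
    · refine ⟨_, hCD q hq 1, ?_⟩
      change de _ = de _
      rw [map_mul, de_X1, one_mul]
    · refine ⟨_, hCD q hq 0, ?_⟩
      change de _ = X * de _
      rw [map_mul, de_X0]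
  have hposC : 1 ≤ finrank F C := by
    rw [Nat.one_le_iff_ne_zero]
    intro h0
    exact hne (Submodule.finrank_eq_zero.1 h0)
  have hUne : U ≠ ⊥ := by
    intro h0
    rw [h0, finrank_bot] at rC
    omega
  have h1 := finrank_lt_sh hUne
  have h2 := Submodule.finrank_mono hle
  refine ⟨by omega, ?_⟩
  intro heq
  have h3 : sh U = U' := Submodule.eq_of_le_of_finrank_le hle (by omega)
  obtain ⟨p, hp0, hp⟩ := exists_mulP (finrank F U) U rfl hUne (by rw [h3]; omega)
  have hUle : U ≤ degreeLT F (d + 1) := by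
    rintro _ ⟨q, hq, rfl⟩
    exact de_mem (hC q hq)
  have hcd : finrank F U ≤ d + 1 := by
    have := Submodule.finrank_mono hUle
    rw [finrank_degreeLT] at this
    exact this
  obtain ⟨c, hc⟩ : ∃ c, finrank F U = c + 1 := ⟨finrank F U - 1, by omega⟩
  rw [hc] at hp
  have hps : p ∈ degreeLT F ((d - c) + 1) := by
    have h4 : p * X ^ c ∈ U := by
      rw [hp]
      refine mem_mulP.2 ⟨X ^ c, ?_, rfl⟩
      rw [mem_degreeLT, degree_X_pow]
      exact_mod_cast Nat.lt_succ_self c
    have h5 := hUle h4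
    rw [mem_degreeLT, degree_mul, degree_X_pow, degree_eq_natDegree hp0] at h5
    rw [mem_degreeLT, degree_eq_natDegree hp0]
    have h6 : p.natDegree + c < d + 1 := by exact_mod_cast h5
    exact_mod_cast (by omega : p.natDegree < d - c + 1)
  refine ⟨d - c, ho (d - c) p, by omega, ?_, ho_homog _ _, ?_, ?_⟩
  · intro h0
    have := de_ho hps
    rw [h0, map_zero] at this
    exact hp0 this.symm
  · apply mem_iff (by omega) hps C hC
    have e : d + 1 - (d - c) = c + 1 := by omega
    rw [e]
    exact hp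
  · apply mem_iff (by omega) hps D hD
    have e : d + 1 + 1 - (d - c) = c + 1 + 1 := by omega
    rw [e, ← sh_mulP p (by omega), ← hp, h3]

end MPcec
end

section
set_option autoImplicit false

open Module

namespace MPcec

universe u v

namespace CanonM

variable {F : Type u} {A : Type v} [Field F] [CommRing A] [Algebra F A]

theorem fg_mul {L W : Submodule F A} (hL : L.FG) (hW : W.FG) : (L * W).FG := hL.mul hW

theorem fg_of_le {W Z : Submodule F A} (hW : W.FG) (h : Z ≤ W) : Z.FG := by
  have : FiniteDimensional F W := Module.Finite.iff_fg.mpr hW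
  have : FiniteDimensional F Z := Submodule.finiteDimensional_of_le h
  exact Module.Finite.iff_fg.mp inferInstance

theorem submod {L Z Z' : Submodule F A} (hL : L.FG) (hZ : Z.FG) (hZ' : Z'.FG) :
    finrank F (L * (Z ⊔ Z') : Submodule F A) + finrank F (L * (Z ⊓ Z') : Submodule F A) +
      (finrank F Z + finrank F Z') ≤
    finrank F (L * Z : Submodule F A) + finrank F (L * Z' : Submodule F A) +
      (finrank F (Z ⊔ Z' : Submodule F A) + finrank F (Z ⊓ Z' : Submodule F A)) := by
  have : FiniteDimensional F Z := Module.Finite.iff_fg.mpr hZ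
  have : FiniteDimensional F Z' := Module.Finite.iff_fg.mpr hZ'
  have : FiniteDimensional F (L * Z : Submodule F A) := Module.Finite.iff_fg.mpr (hL.mul hZ)
  have : FiniteDimensional F (L * Z' : Submodule F A) := Module.Finite.iff_fg.mpr (hL.mul hZ')
  have h1 := Submodule.finrank_sup_add_finrank_inf_eq Z Z'
  have h2 := Submodule.finrank_sup_add_finrank_inf_eq (L * Z) (L * Z')
  have h3 : L * (Z ⊔ Z') = L * Z ⊔ L * Z' := Submodule.mul_sup _ _ _
  have h4 : L * (Z ⊓ Z') ≤ L * Z ⊓ L * Z' :=
    le_inf (Submodule.mul_le.mpr fun l hl z hz => Submodule.mul_mem_mul hl (inf_le_left (a := Z) hz))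
      (Submodule.mul_le.mpr fun l hl z hz => Submodule.mul_mem_mul hl (inf_le_right (a := Z) hz))
  have h5 : finrank F (L * (Z ⊓ Z') : Submodule F A) ≤ finrank F (L * Z ⊓ L * Z' : Submodule F A) :=
    Submodule.finrank_mono h4
  rw [h3]
  omega

end CanonM

open CanonM in
theorem specCanon : SpecCanon.{u, v} := by
  intro F A _ _ _ L W hL hW
  classical
  have : FiniteDimensional F W := Module.Finite.iff_fg.mpr hW
  -- the set of values of `dim L Z - dim Z + dim W`
  let P : ℕ → Prop := fun n => ∃ Z : Submodule F A, Z ≤ W ∧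
    finrank F (L * Z : Submodule F A) + (finrank F W - finrank F Z) = n
  have hP : ∃ n, P n := ⟨_, ⊥, bot_le, rfl⟩
  let μ := Nat.find hP
  let Q : ℕ → Prop := fun n => ∃ Z : Submodule F A, Z ≤ W ∧
    finrank F (L * Z : Submodule F A) + (finrank F W - finrank F Z) = μ ∧ finrank F Z = n
  have hQ : ∃ n, Q n := by
    obtain ⟨Z, h1, h2⟩ := Nat.find_spec hP
    exact ⟨_, Z, h1, h2, rfl⟩
  obtain ⟨Y, hYW, hYμ, hYn⟩ := Nat.find_spec hQ
  have hYdim : finrank F Y ≤ finrank F W := Submodule.finrank_mono hYW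
  have hmin : ∀ Z : Submodule F A, Z ≤ W →
      finrank F (L * Y : Submodule F A) + finrank F Z ≤ finrank F (L * Z : Submodule F A) + finrank F Y := by
    intro Z hZ
    have h1 : μ ≤ finrank F (L * Z : Submodule F A) + (finrank F W - finrank F Z) :=
      Nat.find_min' hP ⟨Z, hZ, rfl⟩
    have h2 : finrank F Z ≤ finrank F W := Submodule.finrank_mono hZ
    omega
  have hsm : ∀ Z : Submodule F A, Z ≤ W →
      finrank F (L * Z : Submodule F A) + finrank F Y ≤ finrank F (L * Y : Submodule F A) + finrank F Z →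
      Y ≤ Z := by
    intro Z hZ hle
    have h2 : finrank F Z ≤ finrank F W := Submodule.finrank_mono hZ
    have hs := submod hL (fg_of_le hW hYW) (fg_of_le hW hZ)
    have h3 := hmin (Y ⊔ Z) (sup_le hYW hZ)
    have h4 := hmin (Y ⊓ Z) (inf_le_left.trans hYW)
    have h5 : finrank F (Y ⊓ Z : Submodule F A) ≤ finrank F W :=
      Submodule.finrank_mono (inf_le_left.trans hYW)
    have h6 : Nat.find hQ ≤ finrank F (Y ⊓ Z : Submodule F A) := by
      apply Nat.find_min' hQ
      refine ⟨Y ⊓ Z, inf_le_left.trans hYW, ?_, rfl⟩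
      omega
    have : FiniteDimensional F Y := Submodule.finiteDimensional_of_le hYW
    have h7 : Y ⊓ Z = Y := Submodule.eq_of_le_of_finrank_le inf_le_left (by omega)
    exact inf_eq_left.mp h7
  refine ⟨Y, ⟨hYW, hmin, hsm⟩, fg_of_le hW hYW, fun Z hZ => ?_⟩
  by_contra hcon
  exact absurd (hsm Z (hZ.le.trans hYW) (by omega)) (not_le_of_gt hZ)

end MPcec
end

section
/-!
CASEA: a form killing the common space.
-/
set_option autoImplicit false

open Module MvPolynomial

namespace MPcec

universe u v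

namespace CaseAM

variable {k : Type u} [Field k]

theorem ac_alg (σ : Equiv.Perm ℕ) (s : Sx k) :
    ac k σ (algebraMap (Sx k) (Om k) s) =
      algebraMap (Sx k) (Om k) (rename (Prod.map σ id) s) := by
  unfold ac
  rw [IsFractionRing.ringEquivOfRingEquiv_algebraMap]
  rfl

/-- the action of a product of permutations -/
theorem ac_ac (σ τ : Equiv.Perm ℕ) (x : Om k) : ac k σ (ac k τ x) = ac k (σ * τ) x := by
  have h : ((ac k σ : Om k →+* Om k).comp (ac k τ : Om k →+* Om k)) =
      (ac k (σ * τ) : Om k →+* Om k) := by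
    refine IsLocalization.ringHom_ext (nonZeroDivisors (Sx k)) ?_
    refine RingHom.ext fun s => ?_
    simp only [RingHom.comp_apply, RingHom.coe_coe]
    rw [ac_alg, ac_alg, ac_alg, rename_rename]
    rfl
  exact congrArg (fun f => f x) h

theorem ac_one (x : Om k) : ac k 1 x = x := by
  have h : (ac k (1 : Equiv.Perm ℕ) : Om k →+* Om k) = RingHom.id (Om k) := by
    refine IsLocalization.ringHom_ext (nonZeroDivisors (Sx k)) ?_
    refine RingHom.ext fun s => ?_
    simp only [RingHom.comp_apply, RingHom.coe_coe, RingHom.id_apply]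
    rw [ac_alg]
    have : (Prod.map ((1 : Equiv.Perm ℕ) : ℕ → ℕ) (id : Fin 3 → Fin 3)) = id := by
      funext v
      rfl
    rw [this, rename_id_apply]
  exact congrArg (fun f => f x) h

theorem ac_swap (a b : ℕ) (x : Om k) : ac k (Equiv.swap a b) (ac k (Equiv.swap a b) x) = x := by
  rw [ac_ac, Equiv.swap_mul_self, ac_one]

variable {A : Type v} [CommRing A] [Algebra (Om k) A] {G : G4 (Om k) A}

/-- semilinear evaluation -/
theorem sem_ev {m : ℕ} (x : Fin m → A) (α : A →+* A) (a : Om k →+* Om k)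
    (hs : ∀ c y, α (c • y) = a c • α y) (hx : ∀ i, α (x i) = x i) (p : MvPolynomial (Fin m) (Om k)) :
    α (aeval x p) = aeval x (map a p) := by
  induction p using MvPolynomial.induction_on with
  | C c =>
    rw [map_C, aeval_C, aeval_C, Algebra.algebraMap_eq_smul_one, Algebra.algebraMap_eq_smul_one,
      hs, map_one]
  | add p q hp hq => rw [map_add, map_add, hp, hq, map_add, map_add]
  | mul_X p i hp => rw [map_mul, map_mul, hp, aeval_X, hx, map_mul, map_X, map_mul, aeval_X]

/-- the inverse of the action of a permutation is semilinear -/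
theorem symm_smul (S : SymA G) (σ : Equiv.Perm ℕ) (c : Om k) (y : A) :
    (S.act σ).symm (c • y) = (ac k σ).symm c • (S.act σ).symm y := by
  apply (S.act σ).injective
  rw [S.act_smul, RingEquiv.apply_symm_apply, RingEquiv.apply_symm_apply,
    RingEquiv.apply_symm_apply]

theorem symm_x (S : SymA G) (σ : Equiv.Perm ℕ) (i : Fin 4) :
    (S.act σ).symm (G.x i) = G.x i := by
  rw [RingEquiv.symm_apply_eq, S.act_x]

/-- transport of annihilating forms -/
theorem pull {m : ℕ} (S : SymA G) (x : Fin m → A) (hx : ∀ σ i, S.act σ (x i) = x i)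
    (σ : Equiv.Perm ℕ) (p : MvPolynomial (Fin m) (Om k)) (y : A)
    (h : aeval x p * S.act σ y = 0) :
    aeval x (map ((ac k σ).symm : Om k →+* Om k) p) * y = 0 := by
  have h1 := congrArg (S.act σ).symm h
  rw [map_mul, RingEquiv.symm_apply_apply, map_zero] at h1
  have h2 := sem_ev x ((S.act σ).symm : A →+* A) ((ac k σ).symm : Om k →+* Om k)
    (fun c y => symm_smul S σ c y) (fun i => by
      change (S.act σ).symm (x i) = x i
      rw [RingEquiv.symm_apply_eq, hx]) p
  rw [← h2]
  exact h1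

/-- on the annihilator of the plane the form may be restricted -/
theorem ev_restr (n : ℕ) (f : MvPolynomial (Fin 4) (Om k)) : ∀ y : A, G.ev (wp k n) * y = 0 →
    G.ev f * y = G.ev3 (restr (fun i => xx k n i) f) * y := by
  induction f using MvPolynomial.induction_on with
  | C c =>
    intro y _
    unfold G4.ev G4.ev3 restr
    rw [aeval_C, aeval_C, AlgHom.commutes]
  | add p q hp hq =>
    intro y hy
    rw [map_add, map_add, map_add, add_mul, add_mul, hp y hy, hq y hy]
  | mul_X p i hp =>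
    intro y hy
    rw [map_mul, map_mul, map_mul, mul_assoc, mul_assoc]
    have h1 : G.ev (X i) * y = G.ev3 (restr (fun i => xx k n i) (X i)) * y := by
      refine Fin.lastCases ?_ (fun j => ?_) i
      · have h2 : G.ev (wp k n) = G.x 3 - ∑ j : Fin 3, xx k n j • G.x j.castSucc := by
          unfold G4.ev wp
          rw [map_sub, aeval_X, map_sum]
          congr 1
          refine Finset.sum_congr rfl fun j _ => ?_
          rw [map_mul, aeval_C, aeval_X, ← Algebra.smul_def]
        rw [h2, sub_mul, sub_eq_zero] at hy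
        unfold G4.ev G4.ev3 restr
        rw [aeval_X, aeval_X, Fin.snoc_last, map_sum]
        change G.x 3 * y = _
        rw [hy]
        congr 1
        refine Finset.sum_congr rfl fun j _ => ?_
        rw [map_mul, aeval_C, aeval_X, ← Algebra.smul_def]
      · unfold G4.ev G4.ev3 restr
        rw [aeval_X, aeval_X, Fin.snoc_castSucc, aeval_X]
    rw [h1]
    refine hp _ ?_
    rw [mul_left_comm, hy, mul_zero]

theorem restr_hom {r : ℕ} (a : Fin r → Om k) {f : MvPolynomial (Fin (r + 1)) (Om k)} {d : ℕ}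
    (hf : f.IsHomogeneous d) : (restr a f).IsHomogeneous d := by
  unfold restr
  have := hf.aeval (n := 1) (Fin.snoc (α := fun _ => MvPolynomial (Fin r) (Om k))
    (fun i => MvPolynomial.X i) (∑ i, MvPolynomial.C (a i) * MvPolynomial.X i)) (fun i => by
      refine Fin.lastCases ?_ (fun j => ?_) i
      · rw [Fin.snoc_last]
        refine IsHomogeneous.sum _ _ _ fun j _ => ?_
        have := (isHomogeneous_C (Fin r) (a j)).mul (isHomogeneous_X (Om k) j)
        rwa [zero_add] at this
      · rw [Fin.snoc_castSucc]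
        exact isHomogeneous_X _ _)
  rwa [one_mul] at this

end CaseAM

open CaseAM in
theorem specCaseA (hL : SpecLift.{u}) (hI : SpecInj.{u}) (hF : SpecFree.{u}) :
    SpecCaseA.{u, v} := by
  intro k _ A _ _ G S Y hw hσ hB s e P0 hP0 hP0h hP0k hJ f hf hfh hfk
  have hx3 : ∀ (σ : Equiv.Perm ℕ) (i : Fin 3), S.act σ (G.x i.castSucc) = G.x i.castSucc :=
    fun σ i => S.act_x σ _
  have hY : ∀ n, Y n ≤ ⨆ n, Y n := fun n => le_iSup Y n
  obtain ⟨⟨B, hfB⟩, -, -⟩ := hF k (Fin 4) f
  set U : Set (ℕ × Fin 3) := {v | v.1 ∉ B} with hU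
  obtain ⟨n, hn⟩ := Infinite.exists_notMem_finset B
  set w : Fin (1 + 2) → ℕ × Fin 3 := fun i => (n, i) with hwdef
  have hwi : Function.Injective w := fun i j h => (Prod.mk.inj h).2
  have hwU : ∀ i, w i ∈ U := fun i => hn
  have hwx : (fun i => xv k (w i)) = fun i : Fin 3 => xx k n i := rfl
  -- the restriction
  set p : MvPolynomial (Fin 3) (Om k) := restr (fun i => xx k n i) f with hp
  have hph : p.IsHomogeneous (s + e) := restr_hom _ hfh
  have hp0 : p ≠ 0 := fun h0 => hf ((hI k 1 w hwi U hwU).1 f hfB h0)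
  set ρ := Equiv.swap 0 n with hρ
  have hinv : ∀ x : Om k, (ac k ρ).symm x = ac k ρ x := by
    intro x
    rw [RingEquiv.symm_apply_eq, hρ, ac_swap]
  have hinv' : ((ac k ρ).symm : Om k →+* Om k) = (ac k ρ : Om k →+* Om k) :=
    RingHom.ext hinv
  have hacac : ((ac k ρ : Om k →+* Om k).comp (ac k ρ : Om k →+* Om k)) = RingHom.id (Om k) :=
    RingHom.ext fun x => ac_swap 0 n x
  -- the pull back of the restriction is divisible by `P0`
  obtain ⟨q, hqh, hq⟩ := hJ (map (ac k ρ : Om k →+* Om k) p) (hph.map _) (by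
    intro y hy
    have h1 : S.act ρ y ∈ Y n := by
      have := hσ ρ 0 y hy
      rwa [hρ, Equiv.swap_apply_left] at this
    have h2 : G.ev3 p * S.act ρ y = 0 := by
      rw [hp, ← ev_restr n f _ (hw n _ h1)]
      exact hfk _ (hY n h1)
    have h3 := pull S (fun i : Fin 3 => G.x i.castSucc) hx3 ρ p y h2
    rw [hinv'] at h3
    exact h3)
  set g : MvPolynomial (Fin 3) (Om k) := map (ac k ρ : Om k →+* Om k) P0 with hg
  set h : MvPolynomial (Fin 3) (Om k) := map (ac k ρ : Om k →+* Om k) q with hh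
  have hpg : p = g * h := by
    have h1 := congrArg (map (ac k ρ : Om k →+* Om k)) hq
    rw [map_mul, map_map, hacac, map_id] at h1
    exact h1
  have hgk : ∀ y ∈ Y n, G.ev3 g * y = 0 := by
    intro y hy
    have h1 : S.act ρ y ∈ Y 0 := by
      have := hσ ρ n y hy
      rwa [hρ, Equiv.swap_apply_right] at this
    have h3 := pull S (fun i : Fin 3 => G.x i.castSucc) hx3 ρ P0 y (hP0k _ h1)
    rw [hinv'] at h3
    exact h3
  obtain ⟨P, Q, hPh, -, hPU, -, hPQ, c, hc, hPc⟩ := hL k 1 w hwi U hwU f s e g h hfh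
    (hP0h.map _) (hqh.map _) hfB hpg (hpg ▸ hp0)
  have hPc' : restr (fun i : Fin 3 => xx k n i) P = C c * g := hPc
  refine ⟨P, ?_, hPh, ?_⟩
  · rintro rfl
    exact hf (by rw [hPQ, zero_mul])
  -- `P` kills `Y n`
  have hPn : ∀ y ∈ Y n, G.ev P * y = 0 := by
    intro y hy
    rw [ev_restr n P y (hw n y hy), hPc', map_mul, mul_assoc, hgk y hy, mul_zero]
  -- `P` kills `Y n'`
  have hPn' : ∀ n' ∉ B, ∀ y ∈ Y n', G.ev P * y = 0 := by
    intro n' hn' y hy
    set τ := Equiv.swap n n' with hτ
    have h1 : S.act τ y ∈ Y n := by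
      have := hσ τ n' y hy
      rwa [hτ, Equiv.swap_apply_right] at this
    have h2 := pull S G.x S.act_x τ P y (hPn _ h1)
    obtain ⟨c', hc', h3⟩ := (hF k (Fin 4) P).2.2 B τ (fun b hb => by
      rw [hτ]
      refine Equiv.swap_apply_of_ne_of_ne ?_ ?_
      · rintro rfl
        exact hn hb
      · rintro rfl
        exact hn' hb) hPU
    have hinv2 : ((ac k τ).symm : Om k →+* Om k) = (ac k τ : Om k →+* Om k) :=
      RingHom.ext fun x => by
        change (ac k τ).symm x = ac k τ x
        rw [RingEquiv.symm_apply_eq, hτ, ac_swap]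
    rw [hinv2, h3, map_mul, aeval_C, mul_assoc, ← Algebra.smul_def] at h2
    exact (smul_eq_zero.1 h2).resolve_left hc'
  intro v hv
  rw [← hB (B : Set ℕ) B.finite_toSet] at hv
  have hle : (⨆ n ∈ ((B : Set ℕ))ᶜ, Y n) ≤ LinearMap.ker (LinearMap.mulLeft (Om k) (G.ev P)) := by
    refine iSup₂_le fun n' hn' y hy => ?_
    exact hPn' n' (fun h => hn' h) y hy
  exact hle hv

end MPcec
end

section
set_option autoImplicit false

open Module Pool.Agent.Lib.CEC001

namespace MPcec

namespace DualM

universe u v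

variable {F : Type u} {A : Type v} [Field F] [CommRing A] [Algebra F A]

/-- ranks of a pairing which is nondegenerate on one side. -/
theorem pairing {V W : Type*} [AddCommGroup V] [Module F V] [AddCommGroup W] [Module F W]
    [FiniteDimensional F V] (B : V →ₗ[F] W →ₗ[F] F)
    (hB : Function.Injective B.flip) :
    finrank F W + finrank F (LinearMap.ker B) = finrank F V := by
  have h1 := Subspace.finrank_add_finrank_dualCoannihilator_eq (K := F) (V := V)
    (LinearMap.range B.flip)
  have h2 : finrank F (LinearMap.range B.flip) = finrank F W := LinearMap.finrank_range_of_inj hB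
  have h3 : (LinearMap.range B.flip).dualCoannihilator = LinearMap.ker B := by
    ext x
    rw [Submodule.mem_dualCoannihilator, LinearMap.mem_ker]
    constructor
    · intro h
      ext y
      exact h _ ⟨y, rfl⟩
    · rintro h _ ⟨y, rfl⟩
      rw [LinearMap.flip_apply, h, LinearMap.zero_apply]
  rw [h2, h3] at h1
  exact h1

theorem map_ev (G : G4 F A) (e : ℕ) : (Rt F e).map G.ev.toLinearMap = G.L ^ e := by
  apply le_antisymm
  · rintro _ ⟨p, hp, rfl⟩
    have hp' : p.IsHomogeneous e := hp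
    change G.ev p ∈ _
    rw [p.as_sum, map_sum]
    refine Submodule.sum_mem _ fun d hd => ?_
    have hd' : d.degree = e := by
      by_contra hne
      exact (MvPolynomial.mem_support_iff.1 hd) (hp'.coeff_eq_zero hne)
    unfold G4.ev
    rw [MvPolynomial.aeval_monomial, ← Algebra.smul_def]
    refine Submodule.smul_mem _ _ ?_
    rw [Finsupp.prod_fintype _ _ (fun i => pow_zero _), ← hd', Finsupp.degree_eq_sum]
    have hx : ∀ i, G.x i ∈ G.L := fun i => by
      rw [G.hL]
      exact Submodule.subset_span ⟨i, rfl⟩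
    have hs : ∀ s : Finset (Fin 4), ∏ i ∈ s, G.x i ^ d i ∈ G.L ^ (∑ i ∈ s, d i) := by
      intro s
      induction s using Finset.cons_induction with
      | empty => rw [Finset.prod_empty, Finset.sum_empty, pow_zero]; exact Submodule.one_le.1 le_rfl
      | cons a s ha ih =>
        rw [Finset.prod_cons, Finset.sum_cons, pow_add]
        exact Submodule.mul_mem_mul (Submodule.pow_mem_pow _ (hx a) _) ih
    exact hs _
  · have h1 : G.L ≤ (Rt F 1).map G.ev.toLinearMap := by
      rw [G.hL, Submodule.span_le]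
      rintro _ ⟨i, rfl⟩
      refine ⟨MvPolynomial.X i, X_mem_Rt i, ?_⟩
      change MvPolynomial.aeval G.x (MvPolynomial.X i) = _
      rw [MvPolynomial.aeval_X]
    calc G.L ^ e ≤ ((Rt F 1).map G.ev.toLinearMap) ^ e := pow_le_pow_left' h1 e
      _ = ((Rt F 1) ^ e).map G.ev.toLinearMap := (Submodule.map_pow _ _ _).symm
      _ ≤ (Rt F e).map G.ev.toLinearMap := by
        apply Submodule.map_mono
        induction e with
        | zero =>
          rw [pow_zero, Submodule.one_le]
          exact MvPolynomial.isHomogeneous_one _ _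
        | succ e ih =>
          rw [pow_succ]
          refine le_trans (mul_le_mul' ih le_rfl) ?_
          exact MvPolynomial.homogeneousSubmodule_mul e 1

theorem ev_mem (G : G4 F A) {e : ℕ} {p : MvPolynomial (Fin 4) F} (hp : p.IsHomogeneous e) :
    G.ev p ∈ G.L ^ e := by
  rw [← map_ev]
  exact ⟨p, hp, rfl⟩

theorem exists_ev (G : G4 F A) {e : ℕ} {a : A} (ha : a ∈ G.L ^ e) :
    ∃ p : MvPolynomial (Fin 4) F, p.IsHomogeneous e ∧ G.ev p = a := by
  rw [← map_ev] at ha
  obtain ⟨p, hp, h⟩ := ha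
  exact ⟨p, hp, h⟩

theorem mul_mem_pow (L : Submodule F A) {a b : ℕ} {x y : A} (hx : x ∈ L ^ a) (hy : y ∈ L ^ b) :
    x * y ∈ L ^ (a + b) := by
  rw [pow_add]
  exact Submodule.mul_mem_mul hx hy

/-- DUAL. -/
theorem dual (G : G4 F A) (m : ℕ) (V : Submodule F A) (hm : m ≤ G.j) (hV : V ≤ G.L ^ m)
    (i : ℕ) (hi : i ≤ G.j - m) :
    finrank F (G.L ^ i * V : Submodule F A) + finrank F (G.kil V (G.j - m - i)) =
      (G.j - m - i + 3).choose 3 := by
  set e := G.j - m - i with he
  let B : (Rt F e) →ₗ[F] (G.L ^ i * V : Submodule F A) →ₗ[F] F :=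
    LinearMap.mk₂ F (fun p v => G.lam (G.ev (p : MvPolynomial (Fin 4) F) * (v : A)))
      (by intro a b c; simp [add_mul]) (by intro a b c; simp)
      (by intro a b c; simp [mul_add]) (by intro a b c; simp)
  have hB : ∀ p v, B p v = G.lam (G.ev (p : MvPolynomial (Fin 4) F) * (v : A)) := fun _ _ => rfl
  have hLV : (G.L ^ i * V : Submodule F A) ≤ G.L ^ (m + i) := by
    rw [add_comm, pow_add]
    exact mul_le_mul' le_rfl hV
  have h1 : Function.Injective B.flip := by
    rw [injective_iff_map_eq_zero]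
    intro v hv
    apply Subtype.ext
    refine G.nondeg (m + i) (by omega) _ (hLV v.2) ?_
    intro b hb
    obtain ⟨p, hp, rfl⟩ := exists_ev G hb
    have hp' : p.IsHomogeneous e := by
      have : G.j - (m + i) = e := by omega
      rw [← this]; exact hp
    have := LinearMap.congr_fun hv ⟨p, hp'⟩
    rw [LinearMap.flip_apply, hB, LinearMap.zero_apply] at this
    rw [mul_comm]
    exact this
  have h2 := pairing B h1
  have h3 : (LinearMap.ker B).map (Rt F e).subtype = G.kil V e := by
    ext p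
    constructor
    · rintro ⟨q, hq, rfl⟩
      refine ⟨q.2, fun v hv => ?_⟩
      have hq' : ∀ w ∈ (G.L ^ i * V : Submodule F A), G.lam (G.ev (q : MvPolynomial (Fin 4) F) * w) = 0 := by
        intro w hw
        have := LinearMap.congr_fun (LinearMap.mem_ker.1 hq) ⟨w, hw⟩
        rw [hB, LinearMap.zero_apply] at this
        exact this
      have hmem : G.ev (q : MvPolynomial (Fin 4) F) * v ∈ G.L ^ (e + m) :=
        mul_mem_pow _ (ev_mem G q.2) (hV hv)
      refine G.nondeg (e + m) (by omega) _ hmem ?_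
      intro b hb
      have hj : G.j - (e + m) = i := by omega
      rw [hj] at hb
      rw [mul_assoc, mul_comm v b]
      exact hq' _ (Submodule.mul_mem_mul hb hv)
    · rintro ⟨hp, hp'⟩
      refine ⟨⟨p, hp⟩, ?_, rfl⟩
      rw [SetLike.mem_coe, LinearMap.mem_ker]
      ext ⟨w, hw⟩
      rw [hB, LinearMap.zero_apply]
      change G.lam (G.ev p * w) = 0
      have : G.ev p * w = 0 := by
        refine Submodule.mul_induction_on hw ?_ ?_
        · intro a _ v hv
          rw [mul_left_comm, hp' v hv, mul_zero]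
        · intro a b ha hb
          rw [mul_add, ha, hb, add_zero]
      rw [this, map_zero]
  have h4 : finrank F (LinearMap.ker B) = finrank F (G.kil V e) := by
    rw [← h3]
    exact (Submodule.equivMapOfInjective _ (Submodule.injective_subtype _) _).finrank_eq
  rw [h4, finrank_Rt] at h2
  exact h2

end DualM

universe u v

/-- DUAL. -/
theorem specDual : SpecDual.{u, v} := by
  intro F A _ _ _ G m V hm hV i hi
  exact DualM.dual G m V hm hV i hi

end MPcec
end

section
set_option autoImplicit false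

open Module Pool.Agent.Lib.CEC001

namespace MPcec

namespace ChiM

universe u v

variable {F : Type u} {A : Type v} [Field F] [CommRing A] [Algebra F A]

/-- rank-nullity on a subspace -/
theorem rk {M N : Type*} [AddCommGroup M] [Module F M] [AddCommGroup N] [Module F N]
    (f : M →ₗ[F] N) (W : Submodule F M) [FiniteDimensional F W] :
    finrank F (W.map f) + finrank F ↥(W ⊓ LinearMap.ker f) = finrank F W := by
  have h := LinearMap.finrank_range_add_finrank_ker (f.domRestrict W)
  have h1 : LinearMap.range (f.domRestrict W) = W.map f := by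
    ext y; simp [Submodule.mem_map]
  have h2 : finrank F (LinearMap.ker (f.domRestrict W)) = finrank F ↥(W ⊓ LinearMap.ker f) := by
    have e : (LinearMap.ker (f.domRestrict W)).map W.subtype = W ⊓ LinearMap.ker f := by
      ext y
      simp only [Submodule.mem_map, LinearMap.mem_ker, Submodule.mem_inf]
      constructor
      · rintro ⟨z, hz, rfl⟩
        exact ⟨z.2, hz⟩
      · rintro ⟨h1, h2⟩
        exact ⟨⟨y, h1⟩, h2, rfl⟩
    rw [← e]
    exact (LinearEquiv.finrank_eq (Submodule.equivMapOfInjective _ W.injective_subtype _))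
  rw [h1, h2] at h
  exact h

theorem rk_inj {M N : Type*} [AddCommGroup M] [Module F M] [AddCommGroup N] [Module F N]
    (f : M →ₗ[F] N) (hf : Function.Injective f) (W : Submodule F M) :
    finrank F (W.map f) = finrank F W :=
  (LinearEquiv.finrank_eq (Submodule.equivMapOfInjective f hf W)).symm

/-- the preimage of `V` in the forms of degree `m`. -/
noncomputable def pre (G : G4 F A) (V : Submodule F A) (m : ℕ) :
    Submodule F (MvPolynomial (Fin 4) F) := Rt F m ⊓ V.comap G.ev.toLinearMap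

theorem mem_pre {G : G4 F A} {V : Submodule F A} {m : ℕ} {p : MvPolynomial (Fin 4) F} :
    p ∈ pre G V m ↔ p.IsHomogeneous m ∧ G.ev p ∈ V := Iff.rfl

theorem pre_le (G : G4 F A) (V : Submodule F A) (m : ℕ) : pre G V m ≤ Rt F m := inf_le_left

instance fd_pre (G : G4 F A) (V : Submodule F A) (m : ℕ) : FiniteDimensional F (pre G V m) :=
  Submodule.finiteDimensional_of_le (pre_le G V m)

theorem kil_le (G : G4 F A) (V : Submodule F A) (m : ℕ) : G.kil V m ≤ Rt F m := fun _ h => h.1

instance fd_kil (G : G4 F A) (V : Submodule F A) (m : ℕ) : FiniteDimensional F (G.kil V m) :=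
  Submodule.finiteDimensional_of_le (kil_le G V m)

theorem map_pre {G : G4 F A} {V : Submodule F A} {m : ℕ} (hV : V ≤ G.L ^ m) :
    (pre G V m).map G.ev.toLinearMap = V := by
  ext a
  constructor
  · rintro ⟨p, hp, rfl⟩
    exact hp.2
  · intro ha
    obtain ⟨p, hp, rfl⟩ := DualM.exists_ev G (hV ha)
    exact ⟨p, ⟨hp, ha⟩, rfl⟩

theorem finrank_pre {G : G4 F A} {V : Submodule F A} {m : ℕ} (hV : V ≤ G.L ^ m) :
    finrank F V + (m + 3).choose 3 = finrank F (pre G V m) + finrank F (G.L ^ m : Submodule F A) := by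
  have h1 := rk G.ev.toLinearMap (pre G V m)
  have h2 := rk G.ev.toLinearMap (Rt F m)
  rw [map_pre hV] at h1
  rw [DualM.map_ev, finrank_Rt] at h2
  have h3 : pre G V m ⊓ LinearMap.ker G.ev.toLinearMap = Rt F m ⊓ LinearMap.ker G.ev.toLinearMap := by
    ext p
    constructor
    · rintro ⟨h, h'⟩; exact ⟨h.1, h'⟩
    · rintro ⟨h, h'⟩
      refine ⟨⟨h, ?_⟩, h'⟩
      have : G.ev.toLinearMap p = 0 := h'
      change G.ev.toLinearMap p ∈ V
      rw [this]
      exact V.zero_mem
  rw [h3] at h1
  omega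

theorem pre_le_kil {G : G4 F A} {V : Submodule F A} {m : ℕ} (hVV : ∀ a ∈ V, ∀ b ∈ V, a * b = 0) :
    pre G V m ≤ G.kil V m := fun _ hp => ⟨hp.1, fun v hv => hVV _ hp.2 _ hv⟩

theorem finrank_le_kil {G : G4 F A} {V : Submodule F A} {m : ℕ} (hV : V ≤ G.L ^ m)
    (hVV : ∀ a ∈ V, ∀ b ∈ V, a * b = 0) : finrank F V ≤ finrank F (G.kil V m) := by
  have h1 := rk G.ev.toLinearMap (pre G V m)
  rw [map_pre hV] at h1
  have h2 := Submodule.finrank_mono (pre_le_kil (G := G) (m := m) hVV)
  omega

/-- multiplication by a form maps killers to killers -/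
theorem map_kil_le {G : G4 F A} {V : Submodule F A} {m t : ℕ} {q : MvPolynomial (Fin 4) F}
    (hq : q.IsHomogeneous t) :
    (G.kil V m).map (LinearMap.mulLeft F q) ≤ G.kil V (t + m) := by
  rintro _ ⟨p, hp, rfl⟩
  refine ⟨hq.mul hp.1, fun v hv => ?_⟩
  rw [LinearMap.mulLeft_apply, map_mul, mul_assoc, hp.2 v hv, mul_zero]

theorem hcomp_mul {P : MvPolynomial (Fin 4) F} {s : ℕ} (hP : P.IsHomogeneous s)
    (w : MvPolynomial (Fin 4) F) (d : ℕ) :
    MvPolynomial.homogeneousComponent (s + d) (P * w) = P * MvPolynomial.homogeneousComponent d w := by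
  conv_lhs => rw [← MvPolynomial.sum_homogeneousComponent w]
  rw [Finset.mul_sum, map_sum]
  have h1 : ∀ i, MvPolynomial.homogeneousComponent (s + d) (P * MvPolynomial.homogeneousComponent i w)
      = if d = i then P * MvPolynomial.homogeneousComponent d w else 0 := by
    intro i
    rw [MvPolynomial.homogeneousComponent_of_mem
      (hP.mul (MvPolynomial.homogeneousComponent_isHomogeneous i w))]
    by_cases h : d = i
    · subst h; simp
    · rw [if_neg h, if_neg (by omega)]
  rw [Finset.sum_congr rfl (fun i _ => h1 i), Finset.sum_ite_eq]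
  split_ifs with h
  · rfl
  · rw [Finset.mem_range] at h
    rw [MvPolynomial.homogeneousComponent_eq_zero d w (by omega), mul_zero]

/-- forms of degree `d` divisible by `P`. -/
noncomputable def dv (P : MvPolynomial (Fin 4) F) (d : ℕ) : Submodule F (MvPolynomial (Fin 4) F) :=
  Rt F d ⊓ (Ideal.span {P}).restrictScalars F

theorem mem_dv {P p : MvPolynomial (Fin 4) F} {d : ℕ} :
    p ∈ dv P d ↔ p.IsHomogeneous d ∧ P ∣ p := by
  unfold dv
  rw [Submodule.mem_inf, Submodule.restrictScalars_mem, Ideal.mem_span_singleton]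
  rfl

theorem dv_le (P : MvPolynomial (Fin 4) F) (d : ℕ) : dv P d ≤ Rt F d := inf_le_left

instance fd_dv (P : MvPolynomial (Fin 4) F) (d : ℕ) : FiniteDimensional F (dv P d) :=
  Submodule.finiteDimensional_of_le (dv_le P d)

theorem dv_eq {P : MvPolynomial (Fin 4) F} {s : ℕ} (hP : P.IsHomogeneous s) (d : ℕ) :
    dv P (s + d) = (Rt F d).map (LinearMap.mulLeft F P) := by
  ext p
  rw [mem_dv]
  constructor
  · rintro ⟨hp, w, rfl⟩
    refine ⟨MvPolynomial.homogeneousComponent d w, MvPolynomial.homogeneousComponent_isHomogeneous d w, ?_⟩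
    rw [LinearMap.mulLeft_apply, ← hcomp_mul hP, MvPolynomial.homogeneousComponent_eq_self hp]
  · rintro ⟨w, hw, rfl⟩
    exact ⟨hP.mul hw, w, rfl⟩

theorem dv_eq_bot {P : MvPolynomial (Fin 4) F} (hP0 : P ≠ 0) {s : ℕ} (hP : P.IsHomogeneous s) {d : ℕ}
    (hd : d < s) : dv P d = ⊥ := by
  rw [eq_bot_iff]
  intro p hp
  rw [mem_dv] at hp
  obtain ⟨hp, w, rfl⟩ := hp
  by_contra hne
  have hw : w ≠ 0 := by rintro rfl; exact hne (by rw [mul_zero]; exact Submodule.zero_mem _)
  have h1 : (P * w).totalDegree = d := hp.totalDegree (mul_ne_zero hP0 hw)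
  rw [MvPolynomial.totalDegree_mul_of_isDomain hP0 hw, hP.totalDegree hP0] at h1
  omega

theorem mulL_inj {P : MvPolynomial (Fin 4) F} (hP0 : P ≠ 0) :
    Function.Injective (LinearMap.mulLeft F P) := mulLeft_injective hP0

theorem finrank_dv {P : MvPolynomial (Fin 4) F} (hP0 : P ≠ 0) {s : ℕ} (hP : P.IsHomogeneous s) (d : ℕ) :
    finrank F (dv P d) = (d + 3 - s).choose 3 := by
  rcases lt_or_ge d s with h | h
  · rw [dv_eq_bot hP0 hP h, finrank_bot, Nat.choose_eq_zero_of_lt (by omega)]
  · obtain ⟨e, rfl⟩ := Nat.exists_eq_add_of_le h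
    rw [dv_eq hP, rk_inj _ (mulL_inj hP0), finrank_Rt]
    congr 1
    omega

/-- comparison of Hilbert functions of `c A` and `c P A`. -/
theorem gen (G : G4 F A) (c : A) {P : MvPolynomial (Fin 4) F} (hP0 : P ≠ 0) {s : ℕ}
    (hP : P.IsHomogeneous s) (d : ℕ) :
    finrank F (ml c (G.L ^ (s + d))) + (d + 3).choose 3 ≤
      (s + d + 3).choose 3 + finrank F (ml (c * G.ev P) (G.L ^ d)) := by
  let f : MvPolynomial (Fin 4) F →ₗ[F] A := (LinearMap.mulLeft F c).comp G.ev.toLinearMap
  have h1 := rk f (Rt F (s + d))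
  have h2 := rk f (dv P (s + d))
  have e1 : (Rt F (s + d)).map f = ml c (G.L ^ (s + d)) := by
    rw [Submodule.map_comp, DualM.map_ev]; rfl
  have e2 : (dv P (s + d)).map f = ml (c * G.ev P) (G.L ^ d) := by
    rw [dv_eq hP, ← DualM.map_ev, ml, ← Submodule.map_comp, ← Submodule.map_comp]
    congr 1
    ext p
    change c * G.ev (P * _) = c * G.ev P * G.ev _
    rw [map_mul, mul_assoc]
  rw [e1, finrank_Rt] at h1
  rw [e2, finrank_dv hP0 hP] at h2
  have h3 : dv P (s + d) ⊓ LinearMap.ker f ≤ Rt F (s + d) ⊓ LinearMap.ker f :=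
    inf_le_inf_right _ (dv_le _ _)
  have : FiniteDimensional F ↥(Rt F (s + d) ⊓ LinearMap.ker f) :=
    Submodule.finiteDimensional_of_le inf_le_left
  have h4 := Submodule.finrank_mono h3
  have e3 : s + d + 3 - s = d + 3 := by omega
  rw [e3] at h2
  omega

/-- a prime linear form not dividing `P`. -/
theorem exists_linear [Infinite F] {P : MvPolynomial (Fin 4) F} (hP0 : P ≠ 0) :
    ∃ l : MvPolynomial (Fin 4) F, l.IsHomogeneous 1 ∧ Prime l ∧ ¬ l ∣ P := by
  have h1 : ∃ a : Fin 4 → F, MvPolynomial.eval a P ≠ 0 := by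
    by_contra hcon
    push Not at hcon
    exact hP0 (MvPolynomial.funext (fun x => by rw [hcon x, map_zero]))
  obtain ⟨a, ha⟩ := h1
  have key : ∀ l : MvPolynomial (Fin 4) F, MvPolynomial.eval a l = 0 → ¬ l ∣ P := by
    rintro l hl ⟨w, rfl⟩
    rw [map_mul, hl, zero_mul] at ha
    exact ha rfl
  by_cases h0 : a 0 = 0
  · exact ⟨MvPolynomial.X 0, MvPolynomial.isHomogeneous_X _ _, MvPolynomial.X_prime,
      key _ (by rw [MvPolynomial.eval_X, h0])⟩
  · set l : MvPolynomial (Fin 4) F := MvPolynomial.C (a 1) * MvPolynomial.X 0 - MvPolynomial.C (a 0) * MvPolynomial.X 1 with hl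
    have hl1 : l.IsHomogeneous 1 := by
      refine (((MvPolynomial.isHomogeneous_C _ _).mul (MvPolynomial.isHomogeneous_X _ _)).sub ?_)
      exact ((MvPolynomial.isHomogeneous_C _ _).mul (MvPolynomial.isHomogeneous_X _ _))
    have hc : MvPolynomial.coeff (Finsupp.single 1 1) l = - a 0 := by
      rw [hl, MvPolynomial.coeff_sub, MvPolynomial.coeff_C_mul, MvPolynomial.coeff_C_mul,
        MvPolynomial.coeff_X', MvPolynomial.coeff_X', if_neg, if_pos rfl]
      · ring
      · intro h
        have := DFunLike.congr_fun h 0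
        simp at this
    have hl0 : l ≠ 0 := by
      intro h
      rw [h, MvPolynomial.coeff_zero] at hc
      exact h0 (neg_eq_zero.1 hc.symm)
    refine ⟨l, hl1, ?_, key _ ?_⟩
    · refine Irreducible.prime (MvPolynomial.irreducible_of_totalDegree_eq_one (hl1.totalDegree hl0) ?_)
      intro x hx
      have := hx (Finsupp.single 1 1)
      rw [hc] at this
      rcases eq_or_ne x 0 with rfl | hne
      · exact absurd (neg_eq_zero.1 (zero_dvd_iff.1 this)) h0
      · exact hne.isUnit
    · rw [hl]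
      simp
      ring

/-- UP. -/
theorem up (G : G4 F A) (m : ℕ) (V : Submodule F A) (hm : 2 * m ≤ G.j) (hV : V ≤ G.L ^ m)
    (hVV : ∀ a ∈ V, ∀ b ∈ V, a * b = 0) : 2 * finrank F V ≤ (G.j - m + 3).choose 3 := by
  have h1 := DualM.dual G m V (by omega) hV 0 (Nat.zero_le _)
  rw [pow_zero, one_mul, Nat.sub_zero] at h1
  have h2 := finrank_le_kil hV hVV
  obtain ⟨t, ht⟩ := Nat.exists_eq_add_of_le hm
  have hX : ((MvPolynomial.X 0 : MvPolynomial (Fin 4) F) ^ t).IsHomogeneous t := by
    have := (MvPolynomial.isHomogeneous_X F (0 : Fin 4)).pow t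
    rwa [one_mul] at this
  have h3 := Submodule.finrank_mono (map_kil_le (G := G) (V := V) (m := m) hX)
  rw [rk_inj _ (mulL_inj (pow_ne_zero _ (MvPolynomial.X_ne_zero 0)))] at h3
  have e : t + m = G.j - m := by omega
  rw [e] at h3
  omega

/-- the killers modulo the multiples of `P` grow. -/
theorem grow [Infinite F] (G : G4 F A) (V : Submodule F A) {P : MvPolynomial (Fin 4) F} (hP0 : P ≠ 0)
    {s : ℕ} (hP : P.IsHomogeneous s) (hPV : ∀ v ∈ V, G.ev P * v = 0) (m t : ℕ) :
    finrank F (G.kil V m) + finrank F (dv P (t + m)) ≤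
      finrank F (G.kil V (t + m)) + finrank F (dv P m) := by
  obtain ⟨l, hl1, hlp, hlP⟩ := exists_linear hP0
  have hlt : (l ^ t).IsHomogeneous t := by
    have := hl1.pow t
    rwa [one_mul] at this
  have hlt0 : l ^ t ≠ 0 := pow_ne_zero _ hlp.ne_zero
  have h1 := map_kil_le (G := G) (V := V) (m := m) hlt
  have h2 : dv P (t + m) ≤ G.kil V (t + m) := by
    intro p hp
    rw [mem_dv] at hp
    obtain ⟨hp, w, rfl⟩ := hp
    refine ⟨hp, fun v hv => ?_⟩
    rw [map_mul, mul_right_comm, hPV v hv, zero_mul]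
  have h3 : (G.kil V m).map (LinearMap.mulLeft F (l ^ t)) ⊓ dv P (t + m) ≤
      (dv P m).map (LinearMap.mulLeft F (l ^ t)) := by
    rintro _ ⟨⟨p, hp, rfl⟩, hp'⟩
    rw [SetLike.mem_coe, mem_dv, LinearMap.mulLeft_apply] at hp'
    refine ⟨p, ?_, rfl⟩
    rw [SetLike.mem_coe, mem_dv]
    refine ⟨hp.1, ?_⟩
    obtain ⟨w, hw⟩ := hp'.2
    have h4 : l ^ t ∣ P * w := ⟨p, hw.symm⟩
    obtain ⟨w', rfl⟩ := hlp.pow_dvd_of_dvd_mul_left t hlP h4
    refine ⟨w', ?_⟩
    apply mul_left_cancel₀ hlt0
    rw [hw]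
    ring
  have h4 := Submodule.finrank_sup_add_finrank_inf_eq ((G.kil V m).map (LinearMap.mulLeft F (l ^ t)))
    (dv P (t + m))
  have h5 := Submodule.finrank_mono (sup_le h1 h2)
  have h6 := Submodule.finrank_mono h3
  rw [rk_inj _ (mulL_inj hlt0)] at h4 h6
  omega

/-- CHI. -/
theorem chi [Infinite F] (G : G4 F A) (m : ℕ)
    (V : Submodule F A) (hm : 2 * m + 2 ≤ G.j) (hU : G.Uni) (hV : V ≤ G.L ^ m)
    (hVV : ∀ a ∈ V, ∀ b ∈ V, a * b = 0)
    (s : ℕ) (P : MvPolynomial (Fin 4) F) (hs : 1 ≤ s) (hP : P.IsHomogeneous s) (hP0 : P ≠ 0)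
    (hPV : ∀ v ∈ V, G.ev P * v = 0) :
    2 * finrank F V + (G.j - m + 3 - s).choose 3 + (m + 3 - 2 * s).choose 3 ≤
      (G.j - m + 3).choose 3 + (m + 3 - s).choose 3 := by
  have h1 := DualM.dual G m V (by omega) hV 0 (Nat.zero_le _)
  rw [pow_zero, one_mul, Nat.sub_zero] at h1
  obtain ⟨t, ht⟩ : ∃ t, t + m = G.j - m := ⟨G.j - m - m, by omega⟩
  have h2 := grow G V hP0 hP hPV m t
  rw [ht, finrank_dv hP0 hP, finrank_dv hP0 hP] at h2
  rcases lt_or_ge m s with hms | hms
  · have h3 := finrank_le_kil hV hVV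
    have e1 : (m + 3 - s).choose 3 = 0 := Nat.choose_eq_zero_of_lt (by omega)
    have e2 : (m + 3 - 2 * s).choose 3 = 0 := Nat.choose_eq_zero_of_lt (by omega)
    omega
  · obtain ⟨d, rfl⟩ := Nat.exists_eq_add_of_le hms
    -- (1)
    have h3 := finrank_pre hV
    -- (2)
    have hk : dv P (s + d) ≤ G.kil V (s + d) := by
      intro p hp
      rw [mem_dv] at hp
      obtain ⟨hp, w, rfl⟩ := hp
      refine ⟨hp, fun v hv => ?_⟩
      rw [map_mul, mul_right_comm, hPV v hv, zero_mul]
    let f : MvPolynomial (Fin 4) F →ₗ[F] A :=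
      (LinearMap.mulLeft F (G.ev (P * P))).comp G.ev.toLinearMap
    have h4 := rk f (Rt F d)
    have e1 : (Rt F d).map f = ml (G.ev (P * P)) (G.L ^ d) := by
      rw [Submodule.map_comp, DualM.map_ev]; rfl
    rw [e1, finrank_Rt] at h4
    have h5 : pre G V (s + d) ⊓ dv P (s + d) ≤
        (Rt F d ⊓ LinearMap.ker f).map (LinearMap.mulLeft F P) := by
      rintro p ⟨hp, hp'⟩
      rw [dv_eq hP] at hp'
      obtain ⟨w, hw, rfl⟩ := hp'
      refine ⟨w, ⟨hw, ?_⟩, rfl⟩
      rw [SetLike.mem_coe, LinearMap.mem_ker]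
      change G.ev (P * P) * G.ev w = 0
      rw [map_mul, mul_assoc, ← map_mul]
      exact hPV _ hp.2
    have : FiniteDimensional F ↥(Rt F d ⊓ LinearMap.ker f) :=
      Submodule.finiteDimensional_of_le inf_le_left
    have h6 := Submodule.finrank_mono h5
    rw [rk_inj _ (mulL_inj hP0)] at h6
    have h7 := Submodule.finrank_sup_add_finrank_inf_eq (pre G V (s + d)) (dv P (s + d))
    have h8 := Submodule.finrank_mono (sup_le (pre_le_kil (G := G) (m := s + d) hVV) hk)
    rw [finrank_dv hP0 hP] at h7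
    have e2 : s + d + 3 - s = d + 3 := by omega
    rw [e2] at h7 h2
    -- (3)
    have h9 := gen G 1 hP0 hP d
    have e3 : ml (1 : A) (G.L ^ (s + d)) = G.L ^ (s + d) := by
      unfold ml
      rw [LinearMap.mulLeft_one, Submodule.map_id]
    rw [e3, one_mul] at h9
    have e4 : (s + d + 3 - s).choose 3 = (d + 3).choose 3 := by rw [e2]
    rw [e4]
    rcases lt_or_ge d s with hds | hds
    · have e5 : (s + d + 3 - 2 * s).choose 3 = 0 := Nat.choose_eq_zero_of_lt (by omega)
      have h10 : finrank F (ml (G.ev P) (G.L ^ d)) ≤ (d + 3).choose 3 := by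
        have h11 := rk ((LinearMap.mulLeft F (G.ev P)).comp G.ev.toLinearMap) (Rt F d)
        have e6 : (Rt F d).map ((LinearMap.mulLeft F (G.ev P)).comp G.ev.toLinearMap) =
            ml (G.ev P) (G.L ^ d) := by
          rw [Submodule.map_comp, DualM.map_ev]; rfl
        rw [e6, finrank_Rt] at h11
        omega
      omega
    · obtain ⟨c, rfl⟩ := Nat.exists_eq_add_of_le hds
      have h10 := gen G (G.ev P) hP0 hP c
      rw [← map_mul] at h10
      have h11 : ∀ i, i ≤ s → finrank F (ml (G.ev (P * P)) (G.L ^ c)) ≤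
          finrank F (ml (G.ev (P * P)) (G.L ^ (c + i))) := by
        intro i
        induction i with
        | zero => intro _; exact le_rfl
        | succ i ih =>
          intro hi
          refine le_trans (ih (by omega)) ?_
          exact hU (s + s) (by omega) (P * P) (hP.mul hP) (c + i) (by omega)
      have h12 := h11 s le_rfl
      rw [add_comm c s] at h12
      have e5 : s + (s + c) + 3 - 2 * s = c + 3 := by omega
      rw [e5]
      omega

end ChiM

universe u v

/-- UP. -/
theorem specUp : SpecUp.{u, v} := by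
  intro F A _ _ _ G m V hm hV hVV
  exact ChiM.up G m V hm hV hVV

/-- CHI. -/
theorem specChi : SpecChi.{u, v} := by
  intro F A _ _ _ _ G m V hm hU hV hVV s P hs hP hP0 hPV
  exact ChiM.chi G m V hm hU hV hVV s P hs hP hP0 hPV

end MPcec
end

section
/-!
# LOW: lower bound for the dimension of the sum of a symmetric family
-/
set_option autoImplicit false

open Module

namespace MPcec

universe u v

namespace LowM

variable {F : Type u} {A : Type v} [Field F] [CommRing A] [Algebra F A]

lemma fd_of_fg {Y : Submodule F A} (h : Y.FG) : FiniteDimensional F Y :=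
  (Submodule.fg_iff_finiteDimensional Y).1 h

lemma fg_of_le {Y W : Submodule F A} (h : Y ≤ W) (hW : W.FG) : Y.FG := by
  have : FiniteDimensional F W := fd_of_fg hW
  exact (Submodule.fg_iff_finiteDimensional Y).2 (Submodule.finiteDimensional_of_le h)

lemma fg_ml (a : A) {Y : Submodule F A} (h : Y.FG) : (ml a Y).FG := h.map _

lemma finrank_mono' {Y W : Submodule F A} (h : Y ≤ W) (hW : W.FG) : finrank F Y ≤ finrank F W := by
  have : FiniteDimensional F W := fd_of_fg hW
  exact Submodule.finrank_mono h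

lemma eq_of_finrank {Y W : Submodule F A} (h : Y ≤ W) (hW : W.FG) (hf : finrank F W ≤ finrank F Y) :
    Y = W := by
  have : FiniteDimensional F W := fd_of_fg hW
  exact Submodule.eq_of_le_of_finrank_le h hf

lemma mem_ml {a : A} {Y : Submodule F A} {b : A} : b ∈ ml a Y ↔ ∃ y ∈ Y, a * y = b := by
  simp [ml, Submodule.mem_map]

lemma mem_ann {a : A} {Y : Submodule F A} {b : A} : b ∈ ann a Y ↔ b ∈ Y ∧ a * b = 0 := by
  simp [ann, LinearMap.mem_ker]

lemma ml_mono (a : A) {Y W : Submodule F A} (h : Y ≤ W) : ml a Y ≤ ml a W := Submodule.map_mono h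

lemma ann_mono (a : A) {Y W : Submodule F A} (h : Y ≤ W) : ann a Y ≤ ann a W :=
  inf_le_inf_right _ h

lemma ml_ml (a b : A) (Y : Submodule F A) : ml a (ml b Y) = ml (a * b) Y := by
  ext c
  simp only [mem_ml]
  constructor
  · rintro ⟨_, ⟨y, hy, rfl⟩, rfl⟩
    exact ⟨y, hy, by ring⟩
  · rintro ⟨y, hy, rfl⟩
    exact ⟨b * y, ⟨y, hy, rfl⟩, by ring⟩

lemma ml_one (Y : Submodule F A) : ml 1 Y = Y := by
  ext c; simp [mem_ml]

lemma ml_sup (a : A) (Y W : Submodule F A) : ml a (Y ⊔ W) = ml a Y ⊔ ml a W := Submodule.map_sup _ _ _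

lemma ml_iSup {ι : Sort*} (a : A) (Y : ι → Submodule F A) : ml a (⨆ i, Y i) = ⨆ i, ml a (Y i) :=
  Submodule.map_iSup _ _

/-- rank-nullity for multiplication by `a` on `Y`. -/
lemma rank_ml (a : A) {Y : Submodule F A} (hY : Y.FG) :
    finrank F (ml a Y) + finrank F (ann a Y) = finrank F Y := by
  have : FiniteDimensional F Y := fd_of_fg hY
  set f := LinearMap.mulLeft F a with hf
  have h := LinearMap.finrank_range_add_finrank_ker (f.domRestrict Y)
  have h1 : LinearMap.range (f.domRestrict Y) = ml a Y := by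
    ext y; simp [ml, Submodule.mem_map, hf]
  have h2 : finrank F (LinearMap.ker (f.domRestrict Y)) = finrank F (ann a Y) := by
    have e : (LinearMap.ker (f.domRestrict Y)).map Y.subtype = ann a Y := by
      ext y
      simp only [Submodule.mem_map, LinearMap.mem_ker, ann, Submodule.mem_inf]
      constructor
      · rintro ⟨z, hz, rfl⟩
        exact ⟨z.2, hz⟩
      · rintro ⟨h1, h2⟩
        exact ⟨⟨y, h1⟩, h2, rfl⟩
    rw [← e]
    exact (LinearEquiv.finrank_eq (Submodule.equivMapOfInjective _ Y.injective_subtype _))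
  rw [h1, h2] at h
  exact h

/-- the codimension of the image is at most the codimension. -/
lemma rank_sub (a : A) {Y W : Submodule F A} (h : Y ≤ W) (hW : W.FG) :
    finrank F (ml a W) + finrank F Y ≤ finrank F (ml a Y) + finrank F W := by
  have h1 := rank_ml a hW
  have h2 := rank_ml a (fg_of_le h hW)
  have h3 : finrank F (ann a Y) ≤ finrank F (ann a W) :=
    finrank_mono' (ann_mono a h) (fg_of_le inf_le_left hW)
  omega

lemma ml_le_mul {L : Submodule F A} {a : A} (ha : a ∈ L) (Y : Submodule F A) : ml a Y ≤ L * Y := by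
  intro b hb
  obtain ⟨y, hy, rfl⟩ := mem_ml.mp hb
  exact Submodule.mul_mem_mul ha hy

lemma ml_pow_le {L : Submodule F A} {a : A} (ha : a ∈ L) (Y : Submodule F A) (t : ℕ) :
    ml a (L ^ t * Y) ≤ L ^ (t + 1) * Y := by
  rw [pow_succ', mul_assoc]
  exact ml_le_mul ha _

end LowM

open LowM

namespace Fam

variable {F : Type u} {A : Type v} [Field F] [CommRing A] [Algebra F A]
  {G : GD F A} {m : ℕ} {w : ℕ → A} {Y : ℕ → Submodule F A}

lemma fgY (h : Fam G m w Y) (n : ℕ) : (Y n).FG := fg_of_le (h.le n) (G.fg.pow m)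

lemma fgLY (h : Fam G m w Y) (a n : ℕ) : (G.L ^ a * Y n).FG := (G.fg.pow a).mul (h.fgY n)

lemma le_V (h : Fam G m w Y) : ⨆ n, Y n ≤ G.L ^ m := iSup_le h.le

lemma fgV (h : Fam G m w Y) : (⨆ n, Y n : Submodule F A).FG := fg_of_le h.le_V (G.fg.pow m)

/-- the product of the first planes -/
noncomputable def pr (w : ℕ → A) (t : ℕ) : A := ∏ i ∈ Finset.range t, w i

lemma pr_succ (w : ℕ → A) (t : ℕ) : pr w (t + 1) = w t * pr w t := by
  rw [pr, Finset.prod_range_succ, mul_comm]; rfl

lemma pr_le (h : Fam G m w Y) (t b : ℕ) : ml (pr w t) (Y b) ≤ G.L ^ t * Y b := by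
  induction t with
  | zero => rw [pr, Finset.prod_range_zero, ml_one, pow_zero, one_mul]
  | succ t ih =>
    rw [pr_succ, ← ml_ml]
    exact (ml_mono _ ih).trans (ml_pow_le (h.w_mem t) _ t)

lemma codim (h : Fam G m w Y) (b : ℕ) : ∀ t ≤ b, yy G.L (Y 0) t ≤
    finrank F (ml (pr w t) (Y b)) + ∑ a ∈ Finset.range t, kk G.L (Y 0) (w 1) a := by
  intro t
  induction t with
  | zero =>
    intro _
    rw [pr, Finset.prod_range_zero, ml_one, Finset.sum_range_zero, yy, ← h.s1 0 b, pow_zero, one_mul,
      add_zero]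
  | succ t ih =>
    intro htb
    have ih := ih (by omega)
    have h1 := rank_sub (w t) (h.pr_le t b) (h.fgLY t b)
    rw [ml_ml, ← pr_succ] at h1
    have h2 := h.s2 t b t (by omega)
    have h3 := h.s1 t b
    have h4 : yy G.L (Y 0) (t + 1)
        ≤ kk G.L (Y 0) (w 1) t + finrank F (ml (w 1) (G.L ^ t * Y 0)) := by
      rw [kk, yy]; omega
    rw [Finset.sum_range_succ]
    rw [yy] at ih
    omega

/-- tails of the family -/
def tail (Y : ℕ → Submodule F A) (b : ℕ) : Submodule F A := ⨆ n, Y (n + b)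

lemma tail_eq (Y : ℕ → Submodule F A) (b : ℕ) : tail Y b = Y b ⊔ tail Y (b + 1) := by
  apply le_antisymm
  · refine iSup_le (fun n => ?_)
    rcases n with _ | n
    · rw [zero_add]; exact le_sup_left
    · refine le_trans ?_ le_sup_right
      have : Y (n + 1 + b) = Y (n + (b + 1)) := by congr 1; ring
      rw [this]
      exact le_iSup (fun n => Y (n + (b + 1))) n
  · refine sup_le ?_ (iSup_le (fun n => ?_))
    · have := le_iSup (fun n => Y (n + b)) 0
      simpa [tail] using this
    · have : Y (n + (b + 1)) = Y (n + 1 + b) := by congr 1; ring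
      rw [this]
      exact le_iSup (fun n => Y (n + b)) (n + 1)

lemma tail_le (h : Fam G m w Y) (b : ℕ) : tail Y b ≤ G.L ^ m := iSup_le (fun n => h.le (n + b))

lemma chain (h : Fam G m w Y) (b : ℕ) :
    finrank F (ml (pr w (b + 1)) (tail Y (b + 1))) + finrank F (ml (pr w b) (Y b))
      ≤ finrank F (ml (pr w b) (tail Y b)) := by
  have hfg : (ml (pr w b) (tail Y b)).FG := fg_ml _ (fg_of_le (h.tail_le b) (G.fg.pow m))
  have h1 := rank_ml (w b) hfg
  have hkill : ml (pr w (b + 1)) (Y b) = ⊥ := by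
    rw [eq_bot_iff]
    intro c hc
    obtain ⟨y, hy, rfl⟩ := mem_ml.mp hc
    rw [Submodule.mem_bot, pr_succ]
    calc w b * pr w b * y = pr w b * (w b * y) := by ring
      _ = 0 := by rw [h.kill b y hy, mul_zero]
  have h2 : ml (w b) (ml (pr w b) (tail Y b)) = ml (pr w (b + 1)) (tail Y (b + 1)) := by
    rw [ml_ml, ← pr_succ, tail_eq Y b, ml_sup, hkill, bot_sup_eq]
  have h3 : ml (pr w b) (Y b) ≤ ann (w b) (ml (pr w b) (tail Y b)) := by
    intro c hc
    rw [mem_ann]
    refine ⟨ml_mono _ (by rw [tail_eq]; exact le_sup_left) hc, ?_⟩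
    obtain ⟨y, hy, rfl⟩ := mem_ml.mp hc
    calc w b * (pr w b * y) = pr w b * (w b * y) := by ring
      _ = 0 := by rw [h.kill b y hy, mul_zero]
  have h4 : finrank F (ml (pr w b) (Y b)) ≤ finrank F (ann (w b) (ml (pr w b) (tail Y b))) :=
    finrank_mono' h3 (fg_of_le inf_le_left hfg)
  rw [h2] at h1
  omega

lemma sum_le (h : Fam G m w Y) (B : ℕ) :
    ∑ b ∈ Finset.range B, finrank F (ml (pr w b) (Y b)) + finrank F (ml (pr w B) (tail Y B))
      ≤ finrank F (⨆ n, Y n : Submodule F A) := by
  induction B with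
  | zero =>
    rw [Finset.sum_range_zero, zero_add, pr, Finset.prod_range_zero, ml_one]
    have : tail Y 0 = ⨆ n, Y n := by simp [tail]
    rw [this]
  | succ B ih =>
    rw [Finset.sum_range_succ]
    have := h.chain B
    omega

end Fam

theorem specLow : SpecLow.{u, v} := by
  intro F A _ _ _ G m w Y h
  have h1 := h.sum_le (G.j - m + 1)
  refine le_trans ?_ (le_trans (Nat.le_add_right _ _) h1)
  refine Finset.sum_le_sum (fun b _ => ?_)
  have h2 := h.codim b b le_rfl
  omega

end MPcec
end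

section
/-!
# GROWV: lower bound by growth for the sum of a symmetric family
-/
set_option autoImplicit false

open Module

namespace MPcec

universe u v

open LowM

namespace Fam

variable {F : Type u} {A : Type v} [Field F] [CommRing A] [Algebra F A]
  {G : GD F A} {m : ℕ} {w : ℕ → A} {Y : ℕ → Submodule F A}

lemma mul_iSup' {ι : Sort*} (L : Submodule F A) (Z : ι → Submodule F A) :
    L * (⨆ i, Z i) = ⨆ i, L * Z i := Submodule.mul_iSup _ _

/-- the sum of the family is a finite sum -/
lemma exists_finite (h : Fam G m w Y) : ∃ t : Finset ℕ, (⨆ n, Y n) = ⨆ n ∈ t, Y n := by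
  classical
  -- choose a finite set with the largest sum
  have hbd : ∀ t : Finset ℕ, finrank F (⨆ n ∈ t, Y n : Submodule F A)
      ≤ finrank F (G.L ^ m : Submodule F A) := by
    intro t
    exact finrank_mono' (iSup₂_le (fun n _ => h.le n)) (G.fg.pow m)
  have hne : ∃ q, ∃ t : Finset ℕ, finrank F (⨆ n ∈ t, Y n : Submodule F A) + q
      = finrank F (G.L ^ m : Submodule F A) :=
    ⟨finrank F (G.L ^ m : Submodule F A) - finrank F (⨆ n ∈ (∅ : Finset ℕ), Y n : Submodule F A), ∅, by
      have := hbd ∅; omega⟩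
  classical
  obtain ⟨t, ht⟩ := Nat.find_spec hne
  have hmin := fun q hq => Nat.find_min hne (m := q) hq
  refine ⟨t, le_antisymm (iSup_le (fun n => ?_)) (iSup₂_le (fun n _ => le_iSup Y n))⟩
  have hle : (⨆ i ∈ t, Y i) ≤ (⨆ i ∈ insert n t, Y i) :=
    iSup₂_le (fun i hi => le_iSup₂_of_le i (Finset.mem_insert_of_mem hi) le_rfl)
  have hfg : (⨆ i ∈ insert n t, Y i : Submodule F A).FG :=
    fg_of_le (iSup₂_le (fun i _ => h.le i)) (G.fg.pow m)
  have heq : (⨆ i ∈ t, Y i) = (⨆ i ∈ insert n t, Y i) := by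
    refine eq_of_finrank hle hfg ?_
    by_contra hcon
    push Not at hcon
    have h1 := hbd (insert n t)
    refine hmin (finrank F (G.L ^ m : Submodule F A)
      - finrank F (⨆ i ∈ insert n t, Y i : Submodule F A)) (by omega) ⟨insert n t, by omega⟩
  rw [heq]
  exact le_iSup₂_of_le n (Finset.mem_insert_self _ _) le_rfl

/-- monotonicity for finite sums -/
lemma mono_fin (h : Fam G m w Y) (hP : SpecPCons.{u, v}) (a : ℕ) (t : Finset ℕ) :
    finrank F (G.L ^ (a + 1) * (⨆ n ∈ t, Y n) : Submodule F A)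
      ≤ finrank F (G.L ^ a * (⨆ n ∈ t, Y n) : Submodule F A) := by
  classical
  induction t using Finset.induction_on with
  | empty =>
    have h0 : (⨆ n ∈ (∅ : Finset ℕ), Y n) = ⊥ := by
      rw [eq_bot_iff]
      exact iSup₂_le (fun i hi => absurd hi (Finset.notMem_empty i))
    rw [h0, Submodule.mul_bot, Submodule.mul_bot]
  | insert n t _ ih =>
    obtain ⟨hWM, hDEC, _, _⟩ := hP F A G.L (Y n) G.fg (h.tight n)
    rw [Finset.iSup_insert, Submodule.mul_sup, Submodule.mul_sup]
    set V := ⨆ n ∈ t, Y n with hV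
    have hVfg : V.FG := fg_of_le (iSup₂_le (fun i _ => h.le i)) (G.fg.pow m)
    set P := G.L ^ a * V with hPdef
    set Q := G.L ^ a * Y n with hQ
    have hPfg : P.FG := (G.fg.pow a).mul hVfg
    have hQfg : Q.FG := (G.fg.pow a).mul (h.fgY n)
    have hLP : G.L ^ (a + 1) * V = G.L * P := by rw [pow_succ', mul_assoc]
    have hLQ : G.L ^ (a + 1) * Y n = G.L * Q := by rw [pow_succ', mul_assoc]
    have i1 : FiniteDimensional F P := fd_of_fg hPfg
    have i2 : FiniteDimensional F Q := fd_of_fg hQfg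
    have i3 : FiniteDimensional F (G.L * P : Submodule F A) := fd_of_fg (G.fg.mul hPfg)
    have i4 : FiniteDimensional F (G.L * Q : Submodule F A) := fd_of_fg (G.fg.mul hQfg)
    have h1 := Submodule.finrank_sup_add_finrank_inf_eq Q P
    have h2 := Submodule.finrank_sup_add_finrank_inf_eq (G.L * Q) (G.L * P)
    have h3 : finrank F (G.L * (Q ⊓ P) : Submodule F A)
        ≤ finrank F ((G.L * Q) ⊓ (G.L * P) : Submodule F A) := by
      refine finrank_mono' (le_inf ?_ ?_) (fg_of_le inf_le_left (G.fg.mul hQfg))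
      · exact mul_le_mul_right inf_le_left _
      · exact mul_le_mul_right inf_le_right _
    have h4 := hWM a (Q ⊓ P) inf_le_left
    rw [hLQ, ← hQ] at h4
    rw [hLP] at ih
    rw [hLP, hLQ]
    omega

lemma mono (h : Fam G m w Y) (hP : SpecPCons.{u, v}) (a : ℕ) :
    finrank F (G.L ^ (a + 1) * (⨆ n, Y n) : Submodule F A)
      ≤ finrank F (G.L ^ a * (⨆ n, Y n) : Submodule F A) := by
  obtain ⟨t, ht⟩ := h.exists_finite
  rw [ht]
  exact h.mono_fin hP a t

lemma kk_zero (h : Fam G m w Y) (hP : SpecPCons.{u, v}) (a : ℕ) :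
    kk G.L (Y 0) (w 1) a ≤ kk G.L (Y 0) (w 1) 0 - a := by
  obtain ⟨_, _, hK, _⟩ := hP F A G.L (Y 0) G.fg (h.tight 0)
  induction a with
  | zero => simp
  | succ a ih =>
    have := hK (w 1) (h.w_mem 1) a
    omega

lemma yy_anti (h : Fam G m w Y) (hP : SpecPCons.{u, v}) (a : ℕ) :
    yy G.L (Y 0) (a + 1) ≤ yy G.L (Y 0) a := by
  obtain ⟨_, hD, _, _⟩ := hP F A G.L (Y 0) G.fg (h.tight 0)
  by_cases hz : G.L ^ (a + 1) * Y 0 = ⊥
  · rw [yy, hz]; simp
  · exact (hD a hz).le

lemma step (h : Fam G m w Y) (hP : SpecPCons.{u, v}) (a : ℕ)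
    (ha : kk G.L (Y 0) (w 1) 0 ≤ a) :
    finrank F (G.L ^ (a + 1) * (⨆ n, Y n) : Submodule F A) + yy G.L (Y 0) a
      ≤ finrank F (G.L ^ a * (⨆ n, Y n) : Submodule F A) := by
  have hfg : (G.L ^ a * (⨆ n, Y n) : Submodule F A).FG := (G.fg.pow a).mul h.fgV
  have h0 : kk G.L (Y 0) (w 1) a = 0 := by
    have := h.kk_zero hP a
    omega
  have h1 : ∀ n, n ≠ 1 → ml (w 1) (G.L ^ a * Y n) = G.L ^ (a + 1) * Y n := by
    intro n hn
    refine eq_of_finrank (ml_pow_le (h.w_mem 1) _ a) (h.fgLY (a + 1) n) ?_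
    rw [h.s2 a n 1 (Ne.symm hn), h.s1 (a + 1) n]
    rw [kk] at h0
    omega
  have h2 : ml (w 1) (G.L ^ a * (⨆ n, Y n)) = G.L ^ (a + 1) * (⨆ n, Y n) := by
    apply le_antisymm (ml_pow_le (h.w_mem 1) _ a)
    rw [← h.s3 {1} (Set.finite_singleton 1)]
    rw [Submodule.mul_iSup, Submodule.mul_iSup, ml_iSup]
    refine iSup_mono (fun n => ?_)
    rw [Submodule.mul_iSup, Submodule.mul_iSup, ml_iSup]
    refine iSup_mono (fun hn => ?_)
    rw [h1 n (by simpa using hn)]
  have h3 := rank_ml (w 1) hfg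
  have h4 : G.L ^ a * Y 1 ≤ ann (w 1) (G.L ^ a * (⨆ n, Y n)) := by
    intro c hc
    rw [mem_ann]
    refine ⟨mul_le_mul_right (le_iSup Y 1) _ hc, ?_⟩
    induction hc using Submodule.mul_induction_on' with
    | mem_mul_mem p _ q hq =>
      calc w 1 * (p * q) = p * (w 1 * q) := by ring
        _ = 0 := by rw [h.kill 1 q hq, mul_zero]
    | add x _ y _ hx hy => rw [mul_add, hx, hy, add_zero]
  have h5 : yy G.L (Y 0) a ≤ finrank F (ann (w 1) (G.L ^ a * (⨆ n, Y n))) := by
    rw [yy, ← h.s1 a 1]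
    exact finrank_mono' h4 (fg_of_le inf_le_left hfg)
  rw [h2] at h3
  omega

end Fam

/-- GROWV. -/
theorem specGrowV (hP : SpecPCons.{u, v}) : SpecGrowV.{u, v} := by
  intro F A _ _ _ G m w Y h i
  induction i with
  | zero => rw [pow_zero, one_mul, Nat.zero_sub, zero_mul, add_zero]
  | succ i ih =>
    have h1 := h.mono hP i
    have h2 := h.yy_anti hP i
    rcases Nat.lt_or_ge i (kk G.L (Y 0) (w 1) 0) with hi | hi
    · have : i + 1 - kk G.L (Y 0) (w 1) 0 = 0 := by omega
      rw [this]
      omega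
    · have h3 := h.step hP i hi
      have h4 : i + 1 - kk G.L (Y 0) (w 1) 0 = (i - kk G.L (Y 0) (w 1) 0) + 1 := by omega
      rw [h4]
      have h5 : (i - kk G.L (Y 0) (w 1) 0) * yy G.L (Y 0) (i + 1)
          ≤ (i - kk G.L (Y 0) (w 1) 0) * yy G.L (Y 0) i := Nat.mul_le_mul_left _ h2
      rw [add_mul, one_mul]
      omega

end MPcec
end

section
/-!
# FAMSYM: the family of canonical spaces of the generic planes
-/
set_option autoImplicit false

open Module

namespace MPcec

universe u v

open LowM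

namespace FamSymM

variable {k : Type u} [Field k]

lemma ac_xx (σ : Equiv.Perm ℕ) (n : ℕ) (i : Fin 3) : ac k σ (xx k n i) = xx k (σ n) i := by
  rw [ac, xx, IsFractionRing.ringEquivOfRingEquiv_algebraMap]
  simp [xx]

variable {A : Type v} [CommRing A] [Algebra (Om k) A] {G : G4 (Om k) A} (S : SymA G)

lemma symm_smul (σ : Equiv.Perm ℕ) (c : Om k) (a : A) :
    (S.act σ).symm (c • a) = (ac k σ).symm c • (S.act σ).symm a := by
  rw [RingEquiv.symm_apply_eq, S.act_smul, RingEquiv.apply_symm_apply, RingEquiv.apply_symm_apply]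

lemma symm_x (σ : Equiv.Perm ℕ) (i : Fin 4) : (S.act σ).symm (G.x i) = G.x i := by
  rw [RingEquiv.symm_apply_eq, S.act_x]

/-- transport of subspaces -/
def tr (σ : Equiv.Perm ℕ) (Y : Submodule (Om k) A) : Submodule (Om k) A where
  carrier := {a | (S.act σ).symm a ∈ Y}
  add_mem' := by
    intro a b ha hb
    change _ ∈ Y
    rw [map_add]
    exact Y.add_mem ha hb
  zero_mem' := by
    change _ ∈ Y
    rw [map_zero]
    exact Y.zero_mem
  smul_mem' := by
    intro c a ha
    change _ ∈ Y
    rw [symm_smul]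
    exact Y.smul_mem _ ha

/-- inverse transport of subspaces -/
def itr (σ : Equiv.Perm ℕ) (Y : Submodule (Om k) A) : Submodule (Om k) A where
  carrier := {a | S.act σ a ∈ Y}
  add_mem' := by
    intro a b ha hb
    change _ ∈ Y
    rw [map_add]
    exact Y.add_mem ha hb
  zero_mem' := by
    change _ ∈ Y
    rw [map_zero]
    exact Y.zero_mem
  smul_mem' := by
    intro c a ha
    change _ ∈ Y
    rw [S.act_smul]
    exact Y.smul_mem _ ha

lemma mem_tr {σ : Equiv.Perm ℕ} {Y : Submodule (Om k) A} {a : A} :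
    a ∈ tr S σ Y ↔ (S.act σ).symm a ∈ Y := Iff.rfl

lemma mem_itr {σ : Equiv.Perm ℕ} {Y : Submodule (Om k) A} {a : A} :
    a ∈ itr S σ Y ↔ S.act σ a ∈ Y := Iff.rfl

lemma act_mem_tr {σ : Equiv.Perm ℕ} {Y : Submodule (Om k) A} {a : A} :
    S.act σ a ∈ tr S σ Y ↔ a ∈ Y := by rw [mem_tr, RingEquiv.symm_apply_apply]

lemma tr_itr (σ : Equiv.Perm ℕ) (Y : Submodule (Om k) A) : tr S σ (itr S σ Y) = Y := by
  ext a; rw [mem_tr, mem_itr, RingEquiv.apply_symm_apply]

lemma itr_tr (σ : Equiv.Perm ℕ) (Y : Submodule (Om k) A) : itr S σ (tr S σ Y) = Y := by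
  ext a; rw [mem_itr, mem_tr, RingEquiv.symm_apply_apply]

lemma tr_mono (σ : Equiv.Perm ℕ) {Y Z : Submodule (Om k) A} (h : Y ≤ Z) : tr S σ Y ≤ tr S σ Z :=
  fun _ ha => h ha

lemma itr_mono (σ : Equiv.Perm ℕ) {Y Z : Submodule (Om k) A} (h : Y ≤ Z) : itr S σ Y ≤ itr S σ Z :=
  fun _ ha => h ha

lemma tr_le_iff (σ : Equiv.Perm ℕ) {Y Z : Submodule (Om k) A} : tr S σ Y ≤ Z ↔ Y ≤ itr S σ Z := by
  constructor
  · intro h; rw [← itr_tr S σ Y]; exact itr_mono S σ h
  · intro h; rw [← tr_itr S σ Z]; exact tr_mono S σ h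

lemma le_tr_iff (σ : Equiv.Perm ℕ) {Y Z : Submodule (Om k) A} : Z ≤ tr S σ Y ↔ itr S σ Z ≤ Y := by
  constructor
  · intro h; rw [← itr_tr S σ Y]; exact itr_mono S σ h
  · intro h; rw [← tr_itr S σ Z]; exact tr_mono S σ h

lemma finrank_tr (σ : Equiv.Perm ℕ) (Y : Submodule (Om k) A) :
    finrank (Om k) (tr S σ Y) = finrank (Om k) Y := by
  have h : Module.rank (Om k) Y = Module.rank (Om k) (tr S σ Y) := by
    refine rank_eq_of_equiv_equiv (ac k σ)
      { toFun := fun a => ⟨S.act σ a.1, (act_mem_tr S).mpr a.2⟩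
        invFun := fun a => ⟨(S.act σ).symm a.1, a.2⟩
        left_inv := fun a => Subtype.ext (RingEquiv.symm_apply_apply _ _)
        right_inv := fun a => Subtype.ext (RingEquiv.apply_symm_apply _ _)
        map_add' := fun a b => Subtype.ext (map_add _ _ _) } (ac k σ).bijective ?_
    intro c a
    exact Subtype.ext (S.act_smul σ c a.1)
  rw [finrank, finrank, h]

lemma tr_mul (σ : Equiv.Perm ℕ) (Y Z : Submodule (Om k) A) :
    tr S σ (Y * Z) = tr S σ Y * tr S σ Z := by
  apply le_antisymm
  · rw [tr_le_iff, Submodule.mul_le]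
    intro y hy z hz
    rw [mem_itr, map_mul]
    exact Submodule.mul_mem_mul ((act_mem_tr S).mpr hy) ((act_mem_tr S).mpr hz)
  · rw [Submodule.mul_le]
    intro y hy z hz
    rw [mem_tr, map_mul]
    exact Submodule.mul_mem_mul hy hz

lemma tr_L (σ : Equiv.Perm ℕ) : tr S σ G.L = G.L := by
  rw [G.hL]
  apply le_antisymm
  · rw [tr_le_iff, Submodule.span_le]
    rintro _ ⟨i, rfl⟩
    rw [SetLike.mem_coe, mem_itr, S.act_x]
    exact Submodule.subset_span ⟨i, rfl⟩
  · rw [Submodule.span_le]
    rintro _ ⟨i, rfl⟩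
    rw [SetLike.mem_coe, mem_tr, symm_x]
    exact Submodule.subset_span ⟨i, rfl⟩

lemma tr_one (σ : Equiv.Perm ℕ) : tr S σ 1 = 1 := by
  rw [Submodule.one_eq_span]
  apply le_antisymm
  · rw [tr_le_iff, Submodule.span_le, Set.singleton_subset_iff, SetLike.mem_coe, mem_itr, map_one]
    exact Submodule.mem_span_singleton_self _
  · rw [Submodule.span_le, Set.singleton_subset_iff, SetLike.mem_coe, mem_tr, map_one]
    exact Submodule.mem_span_singleton_self _

lemma tr_pow (σ : Equiv.Perm ℕ) (a : ℕ) : tr S σ (G.L ^ a) = G.L ^ a := by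
  induction a with
  | zero => rw [pow_zero, tr_one]
  | succ a ih => rw [pow_succ, tr_mul, ih, tr_L]

lemma tr_iSup {ι : Sort*} (σ : Equiv.Perm ℕ) (Y : ι → Submodule (Om k) A) :
    tr S σ (⨆ i, Y i) = ⨆ i, tr S σ (Y i) := by
  apply le_antisymm
  · rw [tr_le_iff]
    refine iSup_le (fun i => ?_)
    rw [← tr_le_iff]
    exact le_iSup (fun i => tr S σ (Y i)) i
  · exact iSup_le (fun i => tr_mono S σ (le_iSup Y i))

lemma tr_ml (σ : Equiv.Perm ℕ) (a : A) (Y : Submodule (Om k) A) :
    tr S σ (ml a Y) = ml (S.act σ a) (tr S σ Y) := by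
  ext b
  rw [mem_tr, mem_ml, mem_ml]
  constructor
  · rintro ⟨y, hy, h⟩
    refine ⟨S.act σ y, (act_mem_tr S).mpr hy, ?_⟩
    rw [← map_mul, h, RingEquiv.apply_symm_apply]
  · rintro ⟨y, hy, rfl⟩
    exact ⟨(S.act σ).symm y, hy, by rw [map_mul, RingEquiv.symm_apply_apply]⟩

lemma tr_ann (σ : Equiv.Perm ℕ) (a : A) (Y : Submodule (Om k) A) :
    tr S σ (ann a Y) = ann (S.act σ a) (tr S σ Y) := by
  ext b
  rw [mem_tr, mem_ann, mem_ann, mem_tr]
  refine and_congr_right (fun _ => ?_)
  rw [← (S.act σ).map_eq_zero_iff, map_mul, RingEquiv.apply_symm_apply]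

lemma ev_wp (n : ℕ) : G.ev (wp k n) = G.x 3 - ∑ i : Fin 3, xx k n i • G.x i.castSucc := by
  simp [G4.ev, wp, Algebra.smul_def]

lemma act_wp (σ : Equiv.Perm ℕ) (n : ℕ) : S.act σ (G.ev (wp k n)) = G.ev (wp k (σ n)) := by
  rw [ev_wp, ev_wp, map_sub, map_sum, S.act_x]
  congr 1
  refine Finset.sum_congr rfl (fun i _ => ?_)
  rw [S.act_smul, S.act_x, ac_xx]

lemma tr_Wn (σ : Equiv.Perm ℕ) (m n : ℕ) : tr S σ (Wn G m n) = Wn G m (σ n) := by
  rw [Wn, Wn, tr_ann, act_wp, tr_pow]

/-- uniqueness of the canonical space -/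
lemma IsCan.unique {F : Type*} {A : Type*} [Field F] [CommRing A] [Algebra F A]
    {L W Y Y' : Submodule F A} (h : IsCan L W Y) (h' : IsCan L W Y') : Y = Y' :=
  le_antisymm (h.2.2 Y' h'.1 (h'.2.1 Y h.1)) (h'.2.2 Y h.1 (h.2.1 Y' h'.1))

lemma tr_can (σ : Equiv.Perm ℕ) {m n : ℕ} {Y : Submodule (Om k) A}
    (h : IsCan G.L (Wn G m n) Y) : IsCan G.L (Wn G m (σ n)) (tr S σ Y) := by
  have key : ∀ Z : Submodule (Om k) A, finrank (Om k) (G.L * tr S σ Z : Submodule (Om k) A)
      = finrank (Om k) (G.L * Z : Submodule (Om k) A) := by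
    intro Z
    have : G.L * tr S σ Z = tr S σ (G.L * Z) := by rw [tr_mul, tr_L]
    rw [this, finrank_tr]
  obtain ⟨h1, h2, h3⟩ := h
  rw [← tr_Wn S σ m n]
  refine ⟨tr_mono S σ h1, ?_, ?_⟩
  · intro Z hZ
    rw [le_tr_iff] at hZ
    have := h2 _ hZ
    rw [← key (itr S σ Z), ← finrank_tr S σ (itr S σ Z), tr_itr] at this
    rw [key, finrank_tr]
    exact this
  · intro Z hZ hle
    rw [le_tr_iff] at hZ
    rw [tr_le_iff]
    refine h3 _ hZ ?_
    rw [← key (itr S σ Z), ← finrank_tr S σ (itr S σ Z), tr_itr]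
    rw [key, finrank_tr] at hle
    exact hle

/-- exchange of two blocks -/
def blk (K : ℕ) : Equiv.Perm ℕ where
  toFun n := if n < K then n + K else if n < 2 * K then n - K else n
  invFun n := if n < K then n + K else if n < 2 * K then n - K else n
  left_inv n := by
    dsimp only
    split_ifs <;> omega
  right_inv n := by
    dsimp only
    split_ifs <;> omega

lemma blk_lt {K n : ℕ} (h : n < K) : blk K n = n + K := by
  simp [blk, h]

/-- a permutation with prescribed values at `0` and `1` -/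
lemma exists_perm {n i : ℕ} (h : i ≠ n) : ∃ σ : Equiv.Perm ℕ, σ 0 = n ∧ σ 1 = i := by
  classical
  let τ : Equiv.Perm ℕ := Equiv.swap 0 n
  refine ⟨(Equiv.swap (τ 1) i) * τ, ?_, ?_⟩
  · have h1 : τ 0 = n := Equiv.swap_apply_left _ _
    have h2 : τ 1 ≠ n := by
      rw [← h1]
      intro h3
      exact absurd (τ.injective h3) (by norm_num)
    rw [Equiv.Perm.mul_apply, h1]
    exact Equiv.swap_apply_of_ne_of_ne h2.symm h.symm
  · rw [Equiv.Perm.mul_apply]
    exact Equiv.swap_apply_left _ _

end FamSymM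

open FamSymM

/-- FAMSYM. -/
theorem specFamSym (hC : SpecCanon.{u, v}) : SpecFamSym.{u, v} := by
  intro k _ A _ _ G S m hneg
  have hWfg : ∀ n, (Wn G m n).FG := fun n => fg_of_le inf_le_left (G.fg.pow m)
  choose Y hcan htight using fun n => hC (Om k) A G.L (Wn G m n) G.fg (hWfg n)
  have htr : ∀ (σ : Equiv.Perm ℕ) (n : ℕ), tr S σ (Y n) = Y (σ n) := fun σ n =>
    FamSymM.IsCan.unique (tr_can S σ (hcan n)) (hcan (σ n))
  have hle : ∀ n, Y n ≤ G.L ^ m := fun n => (hcan n).1.trans inf_le_left
  have hkill : ∀ n, ∀ y ∈ Y n, G.ev (wp k n) * y = 0 := fun n y hy =>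
    (mem_ann.mp ((hcan n).1 hy)).2
  have htrV : ∀ σ : Equiv.Perm ℕ, tr S σ (⨆ n, Y n) = ⨆ n, Y n := by
    intro σ
    rw [tr_iSup]
    simp_rw [htr]
    exact σ.surjective.iSup_comp (fun n => Y n)
  have hfgV : (⨆ n, Y n : Submodule (Om k) A).FG := fg_of_le (iSup_le hle) (G.fg.pow m)
  refine ⟨Y, hcan, ⟨?_, hle, hkill, htight, ?_, ?_, ?_, ?_⟩, ?_⟩
  · intro n
    rw [ev_wp]
    have hx : ∀ i, G.x i ∈ G.L := by
      intro i
      rw [G.hL]
      exact Submodule.subset_span ⟨i, rfl⟩
    exact Submodule.sub_mem _ (hx 3) (Submodule.sum_mem _ (fun i _ => Submodule.smul_mem _ _ (hx _)))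
  · intro n
    have h1 := (hcan n).2.1 (Wn G m n) le_rfl
    have h2 := hneg n
    omega
  · intro a n
    have h1 := htr (Equiv.swap 0 n) 0
    rw [Equiv.swap_apply_left] at h1
    have h2 : G.L ^ a * Y n = tr S (Equiv.swap 0 n) (G.L ^ a * Y 0) := by
      rw [tr_mul, tr_pow, h1]
    rw [h2, finrank_tr]
  · intro a n i hin
    obtain ⟨σ, h0, h1⟩ := exists_perm hin
    have h2 := htr σ 0
    rw [h0] at h2
    have h3 : ml (G.ev (wp k i)) (G.L ^ a * Y n)
        = tr S σ (ml (G.ev (wp k 1)) (G.L ^ a * Y 0)) := by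
      rw [tr_ml, act_wp, h1, tr_mul, tr_pow, h2]
    rw [h3, finrank_tr]
  · intro B hB
    apply le_antisymm (iSup₂_le (fun n _ => le_iSup Y n))
    obtain ⟨t, ht⟩ : ∃ t : Finset ℕ, (⨆ n, Y n) = ⨆ n ∈ t, Y n := by
      -- a finite subfamily suffices
      have h1 : IsCompactElement (⨆ n, Y n : Submodule (Om k) A) :=
        (Submodule.fg_iff_compact _).mp hfgV
      obtain ⟨t, ht⟩ := CompleteLattice.IsCompactElement.exists_finset_of_le_iSup _ h1 Y le_rfl
      exact ⟨t, le_antisymm ht (iSup₂_le (fun n _ => le_iSup Y n))⟩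
    obtain ⟨K, hK⟩ : ∃ K : ℕ, (∀ n ∈ t, n < K) ∧ ∀ n ∈ B, n < K := by
      refine ⟨(t ∪ hB.toFinset).sup id + 1, ?_, ?_⟩
      · intro n hn
        exact Nat.lt_succ_of_le (Finset.le_sup (f := id) (Finset.mem_union_left _ hn))
      · intro n hn
        exact Nat.lt_succ_of_le (Finset.le_sup (f := id)
          (Finset.mem_union_right _ (hB.mem_toFinset.mpr hn)))
    have h1 := htrV (blk K)
    rw [← h1]
    rw [ht, tr_iSup]
    refine iSup_le (fun n => ?_)
    rw [tr_iSup]
    refine iSup_le (fun hn => ?_)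
    rw [htr, blk_lt (hK.1 n hn)]
    refine le_iSup₂_of_le (n + K) ?_ le_rfl
    intro hnB
    have := hK.2 _ hnB
    omega
  · intro σ n a ha
    rw [← htr σ n, act_mem_tr]
    exact ha

end MPcec
end

section
set_option autoImplicit false

open Module

namespace MPcec

open Pool.Agent.Lib.CEC001

/-- FINAL: `SpecMain` gives the frozen statement S00452 (no descent in the first half, symmetry). -/
theorem final_of_main (hM : SpecMain.{0}) :
    ¬ (∃ (k : Type) (_ : Field k) (I : Ideal (MvPolynomial (Fin 4) k)),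
      (∀ p ∈ I, ∀ d : ℕ, MvPolynomial.homogeneousComponent d p ∈ I) ∧
      FiniteDimensional k (MvPolynomial (Fin 4) k ⧸ I) ∧
      Module.finrank k (LinearMap.ker (LinearMap.pi (fun i : Fin 4 =>
        LinearMap.mulLeft k (Ideal.Quotient.mk I (MvPolynomial.X i))))) = 1 ∧
      Module.finrank k (Submodule.map (Ideal.Quotient.mkₐ k I).toLinearMap
        (MvPolynomial.homogeneousSubmodule (Fin 4) k 1)) = 4 ∧
      ∃ a b c : ℕ, a < b ∧ b < c ∧
        Module.finrank k (Submodule.map (Ideal.Quotient.mkₐ k I).toLinearMap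
          (MvPolynomial.homogeneousSubmodule (Fin 4) k b)) <
        Module.finrank k (Submodule.map (Ideal.Quotient.mkₐ k I).toLinearMap
          (MvPolynomial.homogeneousSubmodule (Fin 4) k a)) ∧
        Module.finrank k (Submodule.map (Ideal.Quotient.mkₐ k I).toLinearMap
          (MvPolynomial.homogeneousSubmodule (Fin 4) k b)) <
        Module.finrank k (Submodule.map (Ideal.Quotient.mkₐ k I).toLinearMap
          (MvPolynomial.homogeneousSubmodule (Fin 4) k c))) := by
  rintro ⟨k, hk, I, h1, h2, h3, -, a, b, c, hab, hbc, h1', h2'⟩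
  have hI : Gor I := ⟨h1, h2, h3⟩
  change hilb I b < hilb I a at h1'
  change hilb I b < hilb I c at h2'
  obtain ⟨j, Λ, hH, hz, hj1, -⟩ := hI.exists_functional
  have hmono : ∀ m, 2 * (m + 1) ≤ j → hilb I m ≤ hilb I (m + 1) := by
    intro m hm
    have h1 := hM j k Λ m (by omega)
    rw [hH m (j - m) (by omega), hH (m + 1) (j - (m + 1)) (by omega)]
    exact h1
  have hsymm : ∀ t, t ≤ j → hilb I t = hilb I (j - t) := by
    intro t ht
    rw [hH t (j - t) (by omega), hH (j - t) t (by omega), H_symm]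
  have hle : ∀ b a, a ≤ b → 2 * b ≤ j → hilb I a ≤ hilb I b := by
    intro b a hab
    induction b, hab using Nat.le_induction with
    | base => intro _; exact le_rfl
    | succ b _ ih =>
      intro hb
      exact (ih (by omega)).trans (hmono b (by omega))
  have hc : c ≤ j := by
    by_contra hc
    rw [hz c (by omega)] at h2'
    omega
  rcases Nat.lt_or_ge (2 * b) (j + 1) with hb | hb
  · have := hle b a hab.le (by omega)
    omega
  · have h3 := hle (j - b) (j - c) (by omega) (by omega)
    rw [← hsymm b (by omega), ← hsymm c hc] at h3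
    omega

end MPcec
end

section
/-!
Problem MP_cec001_ag, module FREE: forms over the field of parameters involve finitely many
parameters.
-/
set_option autoImplicit false

open Module

namespace MPcec

universe u

namespace Free

variable {k : Type u} [Field k]

lemma mono {ρ : Type} {U U' : Set (ℕ × Fin 3)} (h : U' ⊆ U) {f : MvPolynomial ρ (Om k)}
    (hf : FreeOf U f) : FreeOf U' f := by
  obtain ⟨a, ha, P, hP, hfP⟩ := hf
  exact ⟨a, ha, P, fun μ v hv hv' => hP μ v hv (h hv'), hfP⟩

lemma exists_finite {ρ : Type} (f : MvPolynomial ρ (Om k)) :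
    ∃ B : Finset ℕ, FreeOf {v : ℕ × Fin 3 | v.1 ∉ B} f := by
  classical
  obtain ⟨b, hb⟩ := IsLocalization.exist_integer_multiples (nonZeroDivisors (Sx k)) f.support
    (fun μ => f.coeff μ)
  choose num hnum using hb
  have hb0 : algebraMap (Sx k) (Om k) (b : Sx k) ≠ 0 := by
    intro h
    exact nonZeroDivisors.coe_ne_zero b
      ((IsFractionRing.injective (Sx k) (Om k)) (by rw [h, map_zero]))
  let P : MvPolynomial ρ (Sx k) := ∑ μ ∈ f.support.attach,
    MvPolynomial.monomial (μ : ρ →₀ ℕ) (num μ μ.2)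
  have hcoef : ∀ μ : ρ →₀ ℕ, P.coeff μ = if h : μ ∈ f.support then num μ h else 0 := by
    intro μ
    simp only [P, MvPolynomial.coeff_sum, MvPolynomial.coeff_monomial]
    split_ifs with h
    · rw [Finset.sum_eq_single ⟨μ, h⟩]
      · simp
      · rintro ⟨ν, hν⟩ _ hne
        rw [if_neg]
        rintro rfl
        exact hne rfl
      · intro h'
        exact absurd (Finset.mem_attach _ _) h'
    · apply Finset.sum_eq_zero
      rintro ⟨ν, hν⟩ _
      rw [if_neg]
      rintro rfl
      exact h hν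
  refine ⟨f.support.biUnion fun μ => (P.coeff μ).vars.image Prod.fst,
    (algebraMap (Sx k) (Om k) (b : Sx k))⁻¹, inv_ne_zero hb0, P, ?_, ?_⟩
  · intro μ v hv hv'
    apply hv'
    rw [Finset.mem_biUnion]
    by_cases h : μ ∈ f.support
    · exact ⟨μ, h, Finset.mem_image_of_mem _ hv⟩
    · rw [hcoef, dif_neg h, MvPolynomial.vars_0] at hv
      exact absurd hv (Finset.notMem_empty _)
  · ext μ
    rw [MvPolynomial.coeff_C_mul, MvPolynomial.coeff_map, hcoef]
    split_ifs with h
    · rw [hnum μ h, Algebra.smul_def, inv_mul_cancel_left₀ hb0]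
    · rw [map_zero, mul_zero]
      exact MvPolynomial.notMem_support_iff.1 h

lemma ac_algebraMap (σ : Equiv.Perm ℕ) (p : Sx k) :
    ac k σ (algebraMap (Sx k) (Om k) p) =
      algebraMap (Sx k) (Om k) (MvPolynomial.rename (Prod.map σ id) p) := by
  unfold ac
  rw [IsFractionRing.ringEquivOfRingEquiv_algebraMap]
  rfl

lemma rename_eq_self {σ : Equiv.Perm ℕ} {p : Sx k}
    (h : ∀ v ∈ p.vars, σ v.1 = v.1) : MvPolynomial.rename (Prod.map σ id) p = p := by
  have := MvPolynomial.hom_congr_vars
    (f₁ := (MvPolynomial.rename (Prod.map σ id) : Sx k →ₐ[k] Sx k).toRingHom)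
    (f₂ := RingHom.id (Sx k)) (p₁ := p) (p₂ := p) ?_ ?_ rfl
  · simpa using this
  · ext c
    simp
  · intro v hv _
    obtain ⟨n, i⟩ := v
    have := h _ hv
    simp only [AlgHom.toRingHom_eq_coe, RingHom.coe_coe, MvPolynomial.rename_X, Prod.map_apply,
      id_eq, RingHom.id_apply]
    rw [this]

lemma ac_of_vars {σ : Equiv.Perm ℕ} {p : Sx k} (h : ∀ v ∈ p.vars, σ v.1 = v.1) :
    ac k σ (algebraMap (Sx k) (Om k) p) = algebraMap (Sx k) (Om k) p := by
  rw [ac_algebraMap, rename_eq_self h]

/-- a ring endomorphism of the field of parameters which fixes the coefficients changes a form by a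
scalar. -/
lemma map_of_fix {ρ : Type} {U : Set (ℕ × Fin 3)} {f : MvPolynomial ρ (Om k)} (hf : FreeOf U f)
    (φ : Om k →+* Om k)
    (hφ : ∀ p : Sx k, (∀ v ∈ p.vars, v ∉ U) →
      φ (algebraMap (Sx k) (Om k) p) = algebraMap (Sx k) (Om k) p) :
    ∃ c : Om k, c ≠ 0 ∧ MvPolynomial.map φ f = MvPolynomial.C c * f := by
  obtain ⟨a, ha, P, hP, hfP⟩ := hf
  refine ⟨φ a / a, div_ne_zero ((map_ne_zero φ).2 ha) ha, ?_⟩
  rw [hfP, map_mul, MvPolynomial.map_C, ← mul_assoc, ← MvPolynomial.C_mul, div_mul_cancel₀ _ ha]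
  congr 1
  ext μ
  rw [MvPolynomial.coeff_map, MvPolynomial.coeff_map, hφ _ (hP μ)]

end Free

/-- module FREE -/
theorem specFree : SpecFree.{u} := by
  intro k _ ρ f
  refine ⟨Free.exists_finite f, fun U U' h hf => Free.mono h hf, ?_⟩
  intro B σ hσ hf
  refine Free.map_of_fix hf _ ?_
  intro p hp
  exact Free.ac_of_vars fun v hv => hσ _ (by simpa using hp v hv)

end MPcec
end

section
/-!
Problem MP_cec001_ag, module GENL: genericity of the lines.
-/
set_option autoImplicit false

open Module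

namespace MPcec

universe u

namespace GenL

/-- naturality of the restriction. -/
lemma restr_map {F F' : Type u} [Field F] [Field F'] (φ : F →+* F') {r : ℕ} (a : Fin r → F)
    (p : MvPolynomial (Fin (r + 1)) F) :
    restr (fun i => φ (a i)) (MvPolynomial.map φ p) = MvPolynomial.map φ (restr a p) := by
  have h : (restr (fun i => φ (a i))).toRingHom.comp (MvPolynomial.map φ) =
      (MvPolynomial.map φ).comp (restr a).toRingHom := by
    apply MvPolynomial.ringHom_ext
    · intro c
      simp [restr]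
    · intro i
      simp only [AlgHom.toRingHom_eq_coe, RingHom.comp_apply, RingHom.coe_coe, MvPolynomial.map_X,
        restr, MvPolynomial.aeval_X]
      refine Fin.lastCases ?_ (fun j => ?_) i
      · simp
      · simp
  exact RingHom.congr_fun h p

variable {k : Type u} [Field k]

lemma free_smul {ρ : Type} {U : Set (ℕ × Fin 3)} {f : MvPolynomial ρ (Om k)} (hf : FreeOf U f)
    {c : Om k} (hc : c ≠ 0) : FreeOf U (MvPolynomial.C c * f) := by
  obtain ⟨a, ha, P, hP, hfP⟩ := hf
  refine ⟨c * a, mul_ne_zero hc ha, P, hP, ?_⟩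
  rw [hfP, ← mul_assoc, ← MvPolynomial.C_mul]

/-- a ring endomorphism fixing constants and the parameters outside `U` fixes the polynomials in
these parameters. -/
lemma fix_alg {U : Set (ℕ × Fin 3)} (φ : Om k →+* Om k)
    (hc : ∀ c : k, φ (algebraMap k (Om k) c) = algebraMap k (Om k) c)
    (hv : ∀ v, v ∉ U → φ (xv k v) = xv k v) (p : Sx k) (hp : ∀ v ∈ p.vars, v ∉ U) :
    φ (algebraMap (Sx k) (Om k) p) = algebraMap (Sx k) (Om k) p := by
  have := MvPolynomial.hom_congr_vars
    (f₁ := φ.comp (algebraMap (Sx k) (Om k)))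
    (f₂ := algebraMap (Sx k) (Om k)) (p₁ := p) (p₂ := p) ?_ ?_ rfl
  · simpa using this
  · refine RingHom.ext fun c => ?_
    have h1 : algebraMap (Sx k) (Om k) (MvPolynomial.C c) = algebraMap k (Om k) c := by
      rw [← MvPolynomial.algebraMap_eq, ← IsScalarTower.algebraMap_apply]
    simp only [RingHom.comp_apply, h1, hc]
  · intro v h _
    exact hv v (hp v h)

lemma map_symm_map {ρ : Type} (α : Om k ≃+* Om k) (p : MvPolynomial ρ (Om k)) :
    MvPolynomial.map (α : Om k →+* Om k) (MvPolynomial.map (α.symm : Om k →+* Om k) p) = p := by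
  rw [MvPolynomial.map_map]
  have : (α : Om k →+* Om k).comp (α.symm : Om k →+* Om k) = RingHom.id _ := by
    ext x; simp
  rw [this, MvPolynomial.map_id]

lemma map_map_symm {ρ : Type} (α : Om k ≃+* Om k) (p : MvPolynomial ρ (Om k)) :
    MvPolynomial.map (α.symm : Om k →+* Om k) (MvPolynomial.map (α : Om k →+* Om k) p) = p := by
  rw [MvPolynomial.map_map]
  have : (α.symm : Om k →+* Om k).comp (α : Om k →+* Om k) = RingHom.id _ := by
    ext x; simp
  rw [this, MvPolynomial.map_id]

lemma map_inj {ρ : Type} (α : Om k ≃+* Om k) {p : MvPolynomial ρ (Om k)}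
    (h : MvPolynomial.map (α : Om k →+* Om k) p = 0) : p = 0 := by
  rw [← map_map_symm α p, h, map_zero]

end GenL

/-- module GENL -/
theorem specGenL (hL : SpecLift.{u}) (hI : SpecInj.{u}) (hF : SpecFree.{u}) (hA : SpecAut.{u}) :
    SpecGenL.{u} := by
  classical
  intro k _ d W hW
  have hfg : W.FG := by
    have h1 : (MvPolynomial.homogeneousSubmodule (Fin 3) (Om k) d).FG :=
      MvPolynomial.homogeneousSubmodule_fg _ _ d
    exact Submodule.FG.of_le h1 fun p hp => (MvPolynomial.mem_homogeneousSubmodule _ _).2 (hW p hp)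
  obtain ⟨T, hT⟩ := hfg
  have hTW : ∀ t ∈ T, t ∈ W := fun t ht => hT ▸ Submodule.subset_span ht
  choose Bf hBf using fun f : MvPolynomial (Fin 3) (Om k) => (hF k (Fin 3) f).1
  refine ⟨insert 0 (T.biUnion Bf), ?_⟩
  intro n hn
  have hn0 : n ≠ 0 := by
    rintro rfl
    exact hn (Finset.mem_insert_self _ _)
  set U : Set (ℕ × Fin 3) := {v | v.1 ∉ insert 0 (T.biUnion Bf)} with hU
  have hfree : ∀ t ∈ T, FreeOf U t := by
    intro t ht
    refine (hF k (Fin 3) t).2.1 _ _ ?_ (hBf t)
    intro v hv hv'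
    exact hv (Finset.mem_insert_of_mem (Finset.mem_biUnion.2 ⟨t, ht, hv'⟩))
  obtain ⟨α, hαc, hαv, hα0, hα1⟩ := hA k n hn0
  -- the parameters of the line
  let w : Fin (0 + 2) → ℕ × Fin 3 := fun i => (n, (i : Fin 2).castSucc)
  have hw : Function.Injective w := by
    intro i j hij
    have : (i : Fin 2).castSucc = (j : Fin 2).castSucc := (Prod.ext_iff.1 hij).2
    exact Fin.castSucc_injective 2 this
  have hwU : ∀ i, w i ∈ U := fun i => hn
  have hαw : (fun i => (α : Om k →+* Om k) (xv k (w i))) = yl k n := by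
    funext i
    refine Fin.cases ?_ (fun i => ?_) i
    · exact hα0
    · refine Fin.cases ?_ (fun i => i.elim0) i
      exact hα1
  have hre : ∀ p : MvPolynomial (Fin (2 + 1)) (Om k),
      restr (yl k n) (MvPolynomial.map (α : Om k →+* Om k) p) =
        MvPolynomial.map (α : Om k →+* Om k) (restr (fun i => xv k (w i)) p) := by
    intro p
    rw [← hαw]
    exact GenL.restr_map (α : Om k →+* Om k) (fun i => xv k (w i)) p
  have hre' : ∀ p : MvPolynomial (Fin (2 + 1)) (Om k),
      restr (fun i => xv k (w i)) (MvPolynomial.map (α.symm : Om k →+* Om k) p) =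
        MvPolynomial.map (α.symm : Om k →+* Om k) (restr (yl k n) p) := by
    intro p
    have h := hre (MvPolynomial.map (α.symm : Om k →+* Om k) p)
    rw [GenL.map_symm_map] at h
    rw [h, GenL.map_map_symm]
  have hfix : ∀ p : Sx k, (∀ v ∈ p.vars, v ∉ U) →
      (α.symm : Om k →+* Om k) (algebraMap (Sx k) (Om k) p) = algebraMap (Sx k) (Om k) p := by
    intro p hp
    have h := GenL.fix_alg (U := U) (α : Om k →+* Om k) hαc (fun v hv => hαv v ?_ ?_) p hp
    · have h' := congrArg α.symm h
      simpa using h'.symm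
    · rintro rfl
      exact hv hn
    · rintro rfl
      exact hv hn
  have hfree' : ∀ t ∈ T, FreeOf U (MvPolynomial.map (α.symm : Om k →+* Om k) t) := by
    intro t ht
    obtain ⟨c, hc, hct⟩ := Free.map_of_fix (hfree t ht) (α.symm : Om k →+* Om k) hfix
    rw [hct]
    exact GenL.free_smul (hfree t ht) hc
  have hI1 := (hI k 0 w hw U hwU).1
  have hI2 := (hI k 0 w hw U hwU).2
  have hz : ∀ t ∈ T, restr (yl k n) t = 0 → t = 0 := by
    intro t ht h0
    have h1 := hI1 _ (hfree' t ht) (by rw [hre', h0, map_zero])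
    exact GenL.map_inj α.symm h1
  refine ⟨?_, ?_⟩
  · intro h0
    rw [← hT, Submodule.span_eq_bot]
    intro t ht
    exact hz t ht (h0 t (hTW t ht))
  · intro s hs g hg hg0 hW0 hdiv
    set g' := MvPolynomial.map (α.symm : Om k →+* Om k) g with hg'
    have hg'0 : g' ≠ 0 := fun h => hg0 (GenL.map_inj α.symm h)
    have hg'h : g'.IsHomogeneous s := hg.map _
    have hlift : ∀ t ∈ T, t ≠ 0 → ∃ P Q : MvPolynomial (Fin (0 + 2 + 1)) (Om k),
        P.IsHomogeneous s ∧ Q.IsHomogeneous (d - s) ∧ FreeOf U P ∧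
        MvPolynomial.map (α.symm : Om k →+* Om k) t = P * Q ∧
        ∃ c : Om k, c ≠ 0 ∧ restr (fun i => xv k (w i)) P = MvPolynomial.C c * g' := by
      intro t ht ht0
      obtain ⟨h, hh, hth⟩ := hdiv t (hTW t ht)
      have h1 : restr (fun i => xv k (w i)) (MvPolynomial.map (α.symm : Om k →+* Om k) t) =
          g' * MvPolynomial.map (α.symm : Om k →+* Om k) h := by
        rw [hre', hth, map_mul]
      have h2 : g' * MvPolynomial.map (α.symm : Om k →+* Om k) h ≠ 0 := by
        rw [← h1]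
        intro h0
        exact ht0 (GenL.map_inj α.symm (hI1 _ (hfree' t ht) h0))
      have h3 : (MvPolynomial.map (α.symm : Om k →+* Om k) t).IsHomogeneous (s + (d - s)) := by
        rw [Nat.add_sub_cancel' hs]
        exact (hW t (hTW t ht)).map _
      obtain ⟨P, Q, hP, hQ, hPf, -, hPQ, hc⟩ := hL k 0 w hw U hwU _ s (d - s) g' _ h3 hg'h
        (hh.map _) (hfree' t ht) h1 h2
      exact ⟨P, Q, hP, hQ, hPf, hPQ, hc⟩
    obtain ⟨t0, ht0, ht00⟩ : ∃ t ∈ T, t ≠ 0 := by
      by_contra hcon
      push Not at hcon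
      apply hW0
      rw [← hT, Submodule.span_eq_bot]
      exact hcon
    obtain ⟨P0, Q0, hP0, hQ0, hP0f, hPQ0, c0, hc0, hr0⟩ := hlift t0 ht0 ht00
    have hP00 : P0 ≠ 0 := by
      rintro rfl
      rw [map_zero] at hr0
      exact mul_ne_zero ((MvPolynomial.C_ne_zero).2 hc0) hg'0 hr0.symm
    have hq : ∀ t ∈ T, ∃ q : MvPolynomial (Fin 3) (Om k), q.IsHomogeneous (d - s) ∧
        t = MvPolynomial.map (α : Om k →+* Om k) P0 * q := by
      intro t ht
      by_cases htz : t = 0
      · refine ⟨0, MvPolynomial.isHomogeneous_zero _ _ _, ?_⟩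
        rw [mul_zero, htz]
      obtain ⟨P, Q, hP, hQ, hPf, hPQ, c, hc, hr⟩ := hlift t ht htz
      obtain ⟨e, he⟩ := hI2 s P P0 hP hP0 hPf hP0f hP00 ⟨c / c0, by
        rw [hr, hr0, ← mul_assoc, ← MvPolynomial.C_mul, div_mul_cancel₀ _ hc0]⟩
      refine ⟨MvPolynomial.map (α : Om k →+* Om k) (MvPolynomial.C e * Q), ?_, ?_⟩
      · have h1 : (MvPolynomial.C e * Q).IsHomogeneous (0 + (d - s)) :=
          (MvPolynomial.isHomogeneous_C _ _).mul hQ
        have h2 : (MvPolynomial.C e * Q).IsHomogeneous (d - s) :=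
          (Nat.zero_add (d - s)) ▸ h1
        exact h2.map _
      · rw [← map_mul, ← GenL.map_symm_map α t, hPQ, he]
        congr 1
        ring
    refine ⟨MvPolynomial.map (α : Om k →+* Om k) P0, hP0.map _, ⟨α c0, ?_, ?_⟩, ?_⟩
    · exact (map_ne_zero α).2 hc0
    · rw [hre, hr0, map_mul, MvPolynomial.map_C, hg', GenL.map_symm_map]
      rfl
    · intro p hp
      rw [← hT] at hp
      refine Submodule.span_induction (p := fun x _ => ∃ q : MvPolynomial (Fin 3) (Om k),
        q.IsHomogeneous (d - s) ∧ x = MvPolynomial.map (α : Om k →+* Om k) P0 * q) ?_ ?_ ?_ ?_ hp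
      · intro x hx
        exact hq x hx
      · exact ⟨0, MvPolynomial.isHomogeneous_zero _ _ _, by rw [mul_zero]⟩
      · rintro x y _ _ ⟨q, hq1, hq2⟩ ⟨r, hr1, hr2⟩
        exact ⟨q + r, hq1.add hr1, by rw [hq2, hr2, mul_add]⟩
      · rintro a x _ ⟨q, hq1, hq2⟩
        refine ⟨a • q, ?_, by rw [hq2, mul_smul_comm]⟩
        exact Submodule.smul_mem (MvPolynomial.homogeneousSubmodule (Fin 3) (Om k) (d - s)) a hq1

end MPcec
end

section
set_option autoImplicit false

open Module Submodule

namespace MPcecP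

variable {K A : Type*} [Field K] [CommRing A] [Algebra K A]

/-- the excess `dim LY - dim Y` -/
noncomputable def phi (L Y : Submodule K A) : ℤ := (finrank K ↥(L * Y) : ℤ) - finrank K Y

/-- tight subspaces -/
def Tight (L Y : Submodule K A) : Prop := FiniteDimensional K Y ∧ ∀ Z < Y, phi L Y < phi L Z

/-- rank-nullity on a subspace -/
theorem rk (f : A →ₗ[K] A) (W : Submodule K A) [FiniteDimensional K W] :
    finrank K (W.map f) + finrank K ↥(W ⊓ LinearMap.ker f) = finrank K W := by
  have h := LinearMap.finrank_range_add_finrank_ker (f.domRestrict W)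
  have h1 : LinearMap.range (f.domRestrict W) = W.map f := by
    ext y; simp [Submodule.mem_map]
  have h2 : finrank K (LinearMap.ker (f.domRestrict W)) = finrank K ↥(W ⊓ LinearMap.ker f) := by
    have e : (LinearMap.ker (f.domRestrict W)).map W.subtype = W ⊓ LinearMap.ker f := by
      ext y
      simp only [Submodule.mem_map, LinearMap.mem_ker, Submodule.mem_inf]
      constructor
      · rintro ⟨z, hz, rfl⟩
        exact ⟨z.2, hz⟩
      · rintro ⟨h1, h2⟩
        exact ⟨⟨y, h1⟩, h2, rfl⟩
    rw [← e]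
    exact (LinearEquiv.finrank_eq (Submodule.equivMapOfInjective _ W.injective_subtype _))
  rw [h1, h2] at h
  exact h

/-- rank of `f` on `W` modulo `U` -/
theorem rkmod (f : A →ₗ[K] A) (W U : Submodule K A) [FiniteDimensional K W]
    [FiniteDimensional K U] :
    finrank K ↥(W ⊓ U.comap f) + finrank K ↥(W.map f ⊔ U) = finrank K W + finrank K U := by
  have h1 := rk f W
  have h2 := rk f (W ⊓ U.comap f)
  have h3 : (W ⊓ U.comap f).map f = W.map f ⊓ U := by
    ext y
    simp only [Submodule.mem_map, Submodule.mem_inf, Submodule.mem_comap]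
    constructor
    · rintro ⟨x, ⟨hx, hx'⟩, rfl⟩
      exact ⟨⟨x, hx, rfl⟩, hx'⟩
    · rintro ⟨⟨x, hx, rfl⟩, hx'⟩
      exact ⟨x, ⟨hx, hx'⟩, rfl⟩
  have h4 : (W ⊓ U.comap f) ⊓ LinearMap.ker f = W ⊓ LinearMap.ker f := by
    ext y
    simp only [Submodule.mem_inf, Submodule.mem_comap, LinearMap.mem_ker]
    constructor
    · rintro ⟨⟨h1, h2⟩, h3⟩
      exact ⟨h1, h3⟩
    · rintro ⟨h1, h3⟩
      exact ⟨⟨h1, by rw [h3]; exact U.zero_mem⟩, h3⟩
  rw [h3, h4] at h2
  have h5 := Submodule.finrank_sup_add_finrank_inf_eq (W.map f) U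
  omega

theorem fd_mul (L Y : Submodule K A) [FiniteDimensional K L] [FiniteDimensional K Y] :
    FiniteDimensional K ↥(L * Y) := by
  have h1 : L.FG := (Submodule.fg_iff_finiteDimensional L).2 inferInstance
  have h2 : Y.FG := (Submodule.fg_iff_finiteDimensional Y).2 inferInstance
  exact (Submodule.fg_iff_finiteDimensional _).1 (h1.mul h2)

theorem fd_pow (L : Submodule K A) [FiniteDimensional K L] (n : ℕ) :
    FiniteDimensional K ↥(L ^ n) := by
  have h1 : L.FG := (Submodule.fg_iff_finiteDimensional L).2 inferInstance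
  exact (Submodule.fg_iff_finiteDimensional _).1 (h1.pow n)

theorem fd_le {U W : Submodule K A} [FiniteDimensional K W] (h : U ≤ W) :
    FiniteDimensional K U := Submodule.finiteDimensional_of_le h

/-- the case `a = 0` of persistence -/
theorem persist_zero {L Y : Submodule K A} [FiniteDimensional K L] (hY : Tight L Y)
    (U : Submodule K A) (hU : U < L * Y) :
    finrank K ↥(L * Y) + finrank K ↥(Y ⊓ U / L) < finrank K Y + finrank K U := by
  have := hY.1
  have := fd_mul L Y
  have : FiniteDimensional K U := fd_le hU.le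
  have h1 : (U / L) * L ≤ U := Submodule.le_div_iff_mul_le.1 le_rfl
  have h2 : Y ⊓ U / L < Y := by
    refine lt_of_le_of_ne inf_le_left fun h => ?_
    have h3 : Y ≤ U / L := inf_eq_left.1 h
    have h4 : L * Y ≤ U := by
      rw [mul_comm]
      exact Submodule.le_div_iff_mul_le.1 h3
    exact absurd h4 (not_le_of_gt hU)
  have h3 := hY.2 _ h2
  have h4 : L * (Y ⊓ U / L) ≤ U := by
    rw [mul_comm]
    exact le_trans (mul_le_mul' inf_le_right le_rfl) h1
  have h5 := Submodule.finrank_mono h4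
  unfold phi at h3
  omega


/-- persistence of strict excess -/
theorem persist {L Y : Submodule K A} [FiniteDimensional K L] (hY : Tight L Y) (a : ℕ) :
    ∀ U < L ^ (a + 1) * Y,
      finrank K ↥(L ^ (a + 1) * Y) + finrank K ↥((L ^ a * Y) ⊓ U / L) <
        finrank K ↥(L ^ a * Y) + finrank K U := by
  have := hY.1
  have := fd_mul L Y
  have fLa : FiniteDimensional K ↥(L ^ a) := fd_pow L a
  have fLa1 : FiniteDimensional K ↥(L ^ (a + 1)) := fd_pow L (a + 1)
  have fW : FiniteDimensional K ↥(L ^ (a + 1) * Y) := fd_mul _ _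
  have fW0 : FiniteDimensional K ↥(L ^ a * Y) := fd_mul _ _
  rcases Nat.eq_zero_or_pos a with rfl | ha
  · intro U hU
    rw [zero_add, pow_one] at hU ⊢
    rw [pow_zero, one_mul]
    exact persist_zero hY U hU
  -- induction on the codimension
  have key : ∀ n : ℕ, ∀ U < L ^ (a + 1) * Y,
      finrank K ↥(L ^ (a + 1) * Y) = finrank K U + n →
      finrank K ↥(L ^ (a + 1) * Y) + finrank K ↥((L ^ a * Y) ⊓ U / L) <
        finrank K ↥(L ^ a * Y) + finrank K U := by
    intro n
    induction n using Nat.strong_induction_on with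
    | _ n ih =>
      intro U hU hn
      by_contra hcon
      push Not at hcon
      have fU : FiniteDimensional K U := fd_le hU.le
      set U1 : Submodule K A := (L ^ a * Y) ⊓ U / L with hU1
      have fU1 : FiniteDimensional K U1 := fd_le inf_le_left
      -- larger subspaces
      have big : ∀ U', U < U' → U' ≤ L ^ (a + 1) * Y →
          finrank K ↥(L ^ (a + 1) * Y) + finrank K ↥((L ^ a * Y) ⊓ U' / L) ≤
            finrank K ↥(L ^ a * Y) + finrank K U' := by
        intro U' h1 h2
        rcases eq_or_lt_of_le h2 with h3 | h3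
        · have h4 : finrank K ↥((L ^ a * Y) ⊓ U' / L) ≤ finrank K ↥(L ^ a * Y) :=
            Submodule.finrank_mono inf_le_left
          rw [h3] at h4 ⊢
          omega
        · have fU' : FiniteDimensional K U' := fd_le h2
          have h4 := Submodule.finrank_lt_finrank_of_lt h1
          have h5 := Submodule.finrank_lt_finrank_of_lt h3
          exact (ih (finrank K ↥(L ^ (a + 1) * Y) - finrank K U') (by omega) U' h3
            (by omega)).le
      set P : Submodule K A := (L * Y) ⊓ U / L ^ a with hP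
      set Q : Submodule K A := Y ⊓ P / L with hQ
      have fP : FiniteDimensional K P := fd_le inf_le_left
      have fQ : FiniteDimensional K Q := fd_le inf_le_left
      have hPl : P * L ^ a ≤ U :=
        le_trans (mul_le_mul' inf_le_right le_rfl) (Submodule.le_div_iff_mul_le.1 le_rfl)
      have hQl : Q * L ≤ P :=
        le_trans (mul_le_mul' inf_le_right le_rfl) (Submodule.le_div_iff_mul_le.1 le_rfl)
      have hPlt : P < L * Y := by
        refine lt_of_le_of_ne inf_le_left fun h => ?_
        have h3 : L * Y ≤ U / L ^ a := inf_eq_left.1 h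
        have h4 : L ^ (a + 1) * Y ≤ U := by
          have h5 := Submodule.le_div_iff_mul_le.1 h3
          refine le_trans (le_of_eq ?_) h5
          ring
        exact absurd h4 (not_le_of_gt hU)
      have hψY := persist_zero hY P hPlt
      -- a minimal `G`
      classical
      let S : ℕ → Prop := fun d => ∃ G : Submodule K A, Q ≤ G ∧ G ≤ Y ∧ finrank K G = d ∧
        finrank K ↥(G * L ⊔ P) + finrank K Q < finrank K G + finrank K P
      have hS : ∃ d, S d := by
        refine ⟨finrank K Y, Y, inf_le_left, le_rfl, rfl, ?_⟩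
        rw [sup_eq_left.2 (by rw [mul_comm]; exact hPlt.le), mul_comm Y L]
        exact hψY
      obtain ⟨G, hQG, hGY, hGd, hG⟩ := Nat.find_spec hS
      have fG : FiniteDimensional K G := fd_le hGY
      have fGL : FiniteDimensional K ↥(G * L) := fd_mul _ _
      -- the key claim
      have claim : ∀ x ∈ L ^ a, ∀ g ∈ G, x * g ∈ U1 := by
        intro x hx
        let f : A →ₗ[K] A := LinearMap.mulLeft K x
        have hf : ∀ y, f y = x * y := fun y => rfl
        let G0 : Submodule K A := G ⊓ U1.comap f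
        -- ranks
        have r1 := rkmod f G U1
        have r2 := rkmod f (G * L ⊔ P) U
        have hmapG : G.map f ≤ L ^ a * Y := by
          rintro _ ⟨g, hg, rfl⟩
          rw [hf]
          exact Submodule.mul_mem_mul hx (hGY hg)
        have hmapP : P.map f ≤ U := by
          rintro _ ⟨g, hg, rfl⟩
          rw [hf, mul_comm]
          exact hPl (Submodule.mul_mem_mul hg hx)
        have hmapGL : (G * L).map f = G.map f * L := by
          apply le_antisymm
          · rw [Submodule.map_le_iff_le_comap, Submodule.mul_le]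
            intro g hg l hl
            rw [Submodule.mem_comap, hf, ← mul_assoc]
            exact Submodule.mul_mem_mul ⟨g, hg, rfl⟩ hl
          · rw [Submodule.mul_le]
            rintro _ ⟨g, hg, rfl⟩ l hl
            exact ⟨g * l, Submodule.mul_mem_mul hg hl, by rw [hf, hf, mul_assoc]⟩
        have e2 : (G * L ⊔ P).map f ⊔ U = G.map f * L ⊔ U := by
          rw [Submodule.map_sup, hmapGL, sup_assoc, sup_eq_right.2 hmapP]
        rw [e2] at r2
        -- the comparison of the ranks
        have fm : FiniteDimensional K ↥(G.map f) := inferInstance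
        have fm2 : FiniteDimensional K ↥(G.map f * L) := fd_mul _ _
        have hcmp : finrank K ↥(G.map f ⊔ U1) + finrank K U ≤
            finrank K ↥(G.map f * L ⊔ U) + finrank K U1 := by
          have hsub : G.map f ⊔ U1 ≤ (L ^ a * Y) ⊓ (G.map f * L ⊔ U) / L := by
            refine sup_le (le_inf hmapG ?_) (le_inf inf_le_left ?_)
            · rw [Submodule.le_div_iff_mul_le]
              exact le_sup_left
            · rw [Submodule.le_div_iff_mul_le]
              exact le_trans (le_trans (mul_le_mul' inf_le_right le_rfl)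
                (Submodule.le_div_iff_mul_le.1 le_rfl)) le_sup_right
          have hle : G.map f * L ⊔ U ≤ L ^ (a + 1) * Y := by
            refine sup_le ?_ hU.le
            refine le_trans (mul_le_mul' hmapG le_rfl) (le_of_eq ?_)
            ring
          have fi : FiniteDimensional K ↥((L ^ a * Y) ⊓ (G.map f * L ⊔ U) / L) :=
            fd_le inf_le_left
          rcases eq_or_lt_of_le (le_sup_right : U ≤ G.map f * L ⊔ U) with h1 | h1
          · have h2 : G.map f ≤ U1 := by
              refine le_inf hmapG ?_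
              rw [Submodule.le_div_iff_mul_le]
              exact le_trans le_sup_left h1.symm.le
            rw [← h1, sup_eq_right.2 h2]
            omega
          · have h2 := big _ h1 hle
            have h3 := Submodule.finrank_mono hsub
            omega
        -- `G0` is as good as `G`
        have hQG0 : Q ≤ G0 := by
          refine le_inf hQG ?_
          intro q hq
          rw [Submodule.mem_comap, hf]
          refine ⟨Submodule.mul_mem_mul hx ((inf_le_left : Q ≤ Y) hq), ?_⟩
          change x * q ∈ U / L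
          rw [Submodule.mem_div_iff_forall_mul_mem]
          intro l hl
          have h1 : (q * l) * x ∈ U := hPl (Submodule.mul_mem_mul (hQl (Submodule.mul_mem_mul hq hl)) hx)
          have h2 : x * q * l = (q * l) * x := by ring
          rw [h2]
          exact h1
        have hG0Y : G0 ≤ Y := le_trans inf_le_left hGY
        have fG0 : FiniteDimensional K G0 := fd_le hG0Y
        have fG0L : FiniteDimensional K ↥(G0 * L) := fd_mul _ _
        have hG0sub : G0 * L ⊔ P ≤ (G * L ⊔ P) ⊓ U.comap f := by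
          refine sup_le (le_inf (le_trans (mul_le_mul' inf_le_left le_rfl) le_sup_left) ?_)
            (le_inf le_sup_right ?_)
          · rw [Submodule.mul_le]
            intro g hg l hl
            rw [Submodule.mem_comap, hf, ← mul_assoc]
            have h1 : f g ∈ U1 := hg.2
            rw [hf] at h1
            exact (Submodule.mem_div_iff_forall_mul_mem.1 h1.2) l hl
          · rw [← Submodule.map_le_iff_le_comap]
            exact hmapP
        have h3 := Submodule.finrank_mono hG0sub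
        have h4 : finrank K ↥(G0 * L ⊔ P) + finrank K Q < finrank K G0 + finrank K P := by
          have r1' : finrank K G0 + finrank K ↥(G.map f ⊔ U1) = finrank K G + finrank K U1 := r1
          omega
        have h5 : Nat.find hS ≤ finrank K G0 := Nat.find_le ⟨G0, hQG0, hG0Y, rfl, h4⟩
        have h6 : G0 = G := Submodule.eq_of_le_of_finrank_le inf_le_left (by omega)
        intro g hg
        rw [← h6] at hg
        exact hg.2
      -- conclusion
      have hGQ : G ≤ Q := by
        refine le_inf hGY ?_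
        rw [Submodule.le_div_iff_mul_le]
        refine le_inf ?_ ?_
        · rw [mul_comm L Y]
          exact mul_le_mul' hGY le_rfl
        · rw [Submodule.le_div_iff_mul_le, mul_assoc]
          rw [Submodule.mul_le]
          intro g hg
          have hgen : ∀ w ∈ L * L ^ a, g * w ∈ U := by
            intro w hw
            refine Submodule.mul_induction_on hw ?_ ?_
            · intro l hl x hx
              have h1 := claim x hx g hg
              have h2 := (Submodule.mem_div_iff_forall_mul_mem.1 h1.2) l hl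
              have h3 : g * (l * x) = x * g * l := by ring
              rw [h3]
              exact h2
            · intro w1 w2 h1 h2
              rw [mul_add]
              exact U.add_mem h1 h2
          exact hgen
      have hGe : G = Q := le_antisymm hGQ hQG
      rw [hGe] at hG
      have fQL : FiniteDimensional K ↥(Q * L) := fd_mul _ _
      have := Submodule.finrank_mono (le_sup_right : P ≤ Q * L ⊔ P)
      omega
  intro U hU
  have h1 := Submodule.finrank_mono hU.le
  exact key (finrank K ↥(L ^ (a + 1) * Y) - finrank K U) U hU (by omega)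


/-! ### consequences -/

theorem colon_mono {W U L Z : Submodule K A} (hZ : Z ≤ W) (h : Z * L ≤ U) : Z ≤ W ⊓ U / L :=
  le_inf hZ (Submodule.le_div_iff_mul_le.2 h)

theorem pow_succ_mul (L Y : Submodule K A) (a : ℕ) : L ^ (a + 1) * Y = L ^ a * Y * L := by ring

/-- (WM) -/
theorem wm {L Y : Submodule K A} [FiniteDimensional K L] (hY : Tight L Y) (a : ℕ)
    (Z : Submodule K A) (hZ : Z ≤ L ^ a * Y) : phi L (L ^ a * Y) ≤ phi L Z := by
  have := hY.1
  have fLa : FiniteDimensional K ↥(L ^ a) := fd_pow L a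
  have fLa1 : FiniteDimensional K ↥(L ^ (a + 1)) := fd_pow L (a + 1)
  have fW : FiniteDimensional K ↥(L ^ (a + 1) * Y) := fd_mul _ _
  have fW0 : FiniteDimensional K ↥(L ^ a * Y) := fd_mul _ _
  have fZ : FiniteDimensional K Z := fd_le hZ
  have e1 : L * (L ^ a * Y) = L ^ (a + 1) * Y := by ring
  have hle : L * Z ≤ L ^ (a + 1) * Y := by
    rw [← e1]
    exact mul_le_mul' le_rfl hZ
  have h0 := Submodule.finrank_mono hZ
  unfold phi
  rw [e1]
  rcases eq_or_lt_of_le hle with h | h
  · rw [h]
    omega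
  · have h1 := persist hY a _ h
    have h2 : Z ≤ (L ^ a * Y) ⊓ (L * Z) / L := colon_mono hZ (by rw [mul_comm])
    have f2 : FiniteDimensional K ↥((L ^ a * Y) ⊓ (L * Z) / L) := fd_le inf_le_left
    have h3 := Submodule.finrank_mono h2
    omega

/-- (DEC) -/
theorem dec {L Y : Submodule K A} [FiniteDimensional K L] (hY : Tight L Y) (a : ℕ)
    (h : L ^ (a + 1) * Y ≠ ⊥) : finrank K ↥(L ^ (a + 1) * Y) < finrank K ↥(L ^ a * Y) := by
  have h1 := persist hY a ⊥ (bot_lt_iff_ne_bot.2 h)
  rw [finrank_bot] at h1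
  omega

/-- (K) -/
theorem kk {L Y : Submodule K A} [FiniteDimensional K L] (hY : Tight L Y) {z : A} (hz : z ∈ L)
    (a : ℕ) (h : (L ^ (a + 1) * Y).map (LinearMap.mulLeft K z) ≠ L ^ (a + 2) * Y) :
    finrank K ↥(L ^ (a + 2) * Y) + finrank K ↥((L ^ a * Y).map (LinearMap.mulLeft K z)) <
      finrank K ↥(L ^ (a + 1) * Y) +
        finrank K ↥((L ^ (a + 1) * Y).map (LinearMap.mulLeft K z)) := by
  have := hY.1
  have fLa1 : FiniteDimensional K ↥(L ^ (a + 1)) := fd_pow L (a + 1)
  have fW : FiniteDimensional K ↥(L ^ (a + 1) * Y) := fd_mul _ _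
  have hle : (L ^ (a + 1) * Y).map (LinearMap.mulLeft K z) ≤ L ^ (a + 1 + 1) * Y := by
    rintro _ ⟨y, hy, rfl⟩
    rw [LinearMap.mulLeft_apply]
    have e1 : L ^ (a + 1 + 1) * Y = L * (L ^ (a + 1) * Y) := by ring
    rw [e1]
    exact Submodule.mul_mem_mul hz hy
  have h1 := persist hY (a + 1) _ (lt_of_le_of_ne hle h)
  have h2 : (L ^ a * Y).map (LinearMap.mulLeft K z) ≤
      (L ^ (a + 1) * Y) ⊓ ((L ^ (a + 1) * Y).map (LinearMap.mulLeft K z)) / L := by
    refine colon_mono ?_ ?_
    · rintro _ ⟨y, hy, rfl⟩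
      rw [LinearMap.mulLeft_apply]
      have e1 : L ^ (a + 1) * Y = L * (L ^ a * Y) := by ring
      rw [e1]
      exact Submodule.mul_mem_mul hz hy
    · rw [Submodule.mul_le]
      rintro _ ⟨y, hy, rfl⟩ l hl
      refine ⟨y * l, ?_, ?_⟩
      · rw [pow_succ_mul]
        exact Submodule.mul_mem_mul hy hl
      · simp only [LinearMap.mulLeft_apply]
        ring
  have f2 : FiniteDimensional K ↥((L ^ (a + 1) * Y) ⊓
      ((L ^ (a + 1) * Y).map (LinearMap.mulLeft K z)) / L) := fd_le inf_le_left
  have h3 := Submodule.finrank_mono h2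
  have e2 : L ^ (a + 1 + 1) * Y = L ^ (a + 2) * Y := rfl
  rw [e2] at h1
  omega

/-- (GG) -/
theorem gg {L Y : Submodule K A} [FiniteDimensional K L] (hY : Tight L Y) (G : A) (a : ℕ)
    (h : (L ^ (a + 1) * Y).map (LinearMap.mulLeft K G) ≠ ⊥) :
    finrank K ↥((L ^ (a + 1) * Y).map (LinearMap.mulLeft K G)) <
      finrank K ↥((L ^ a * Y).map (LinearMap.mulLeft K G)) := by
  have := hY.1
  have fLa : FiniteDimensional K ↥(L ^ a) := fd_pow L a
  have fLa1 : FiniteDimensional K ↥(L ^ (a + 1)) := fd_pow L (a + 1)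
  have fW : FiniteDimensional K ↥(L ^ (a + 1) * Y) := fd_mul _ _
  have fW0 : FiniteDimensional K ↥(L ^ a * Y) := fd_mul _ _
  set f : A →ₗ[K] A := LinearMap.mulLeft K G with hf
  set U : Submodule K A := (L ^ (a + 1) * Y) ⊓ LinearMap.ker f with hU
  have hlt : U < L ^ (a + 1) * Y := by
    refine lt_of_le_of_ne inf_le_left fun h' => h ?_
    have h2 : L ^ (a + 1) * Y ≤ LinearMap.ker f := inf_eq_left.1 h'
    rw [eq_bot_iff]
    rintro _ ⟨y, hy, rfl⟩
    exact h2 hy
  have h1 := persist hY a U hlt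
  have h2 : (L ^ a * Y) ⊓ LinearMap.ker f ≤ (L ^ a * Y) ⊓ U / L := by
    refine colon_mono inf_le_left ?_
    rw [Submodule.mul_le]
    intro y hy l hl
    refine ⟨?_, ?_⟩
    · rw [pow_succ_mul]
      exact Submodule.mul_mem_mul hy.1 hl
    · have h3 : f y = 0 := hy.2
      rw [hf, LinearMap.mulLeft_apply] at h3
      change f (y * l) = 0
      rw [hf, LinearMap.mulLeft_apply, ← mul_assoc, h3, zero_mul]
  have f2 : FiniteDimensional K ↥((L ^ a * Y) ⊓ U / L) := fd_le inf_le_left
  have h3 := Submodule.finrank_mono h2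
  have r1 := rk f (L ^ (a + 1) * Y)
  have r2 := rk f (L ^ a * Y)
  rw [← hU] at r1
  omega

/-- submodularity of the excess -/
theorem phi_submod (L P Q : Submodule K A) [FiniteDimensional K L] [FiniteDimensional K P]
    [FiniteDimensional K Q] : phi L (P ⊔ Q) + phi L (P ⊓ Q) ≤ phi L P + phi L Q := by
  have f1 : FiniteDimensional K ↥(P ⊓ Q) := fd_le inf_le_left
  have f2 : FiniteDimensional K ↥(L * P) := fd_mul _ _
  have f3 : FiniteDimensional K ↥(L * Q) := fd_mul _ _
  have f4 : FiniteDimensional K ↥(L * P ⊓ L * Q) := fd_le inf_le_left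
  have h1 := Submodule.finrank_sup_add_finrank_inf_eq P Q
  have h2 := Submodule.finrank_sup_add_finrank_inf_eq (L * P) (L * Q)
  have h3 : L * (P ⊓ Q) ≤ L * P ⊓ L * Q :=
    le_inf (mul_le_mul' le_rfl inf_le_left) (mul_le_mul' le_rfl inf_le_right)
  have h4 := Submodule.finrank_mono h3
  unfold phi
  rw [Submodule.mul_sup]
  omega

/-- adding `L^a Y`, `Y` tight, does not increase the excess by more than `phi (L^a Y)` -/
theorem phi_add {L Y : Submodule K A} [FiniteDimensional K L] (hY : Tight L Y) (a : ℕ)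
    (P : Submodule K A) [FiniteDimensional K P] : phi L (P ⊔ L ^ a * Y) ≤ phi L P := by
  have := hY.1
  have fLa : FiniteDimensional K ↥(L ^ a) := fd_pow L a
  have fW0 : FiniteDimensional K ↥(L ^ a * Y) := fd_mul _ _
  have h1 := phi_submod L P (L ^ a * Y)
  have h2 := wm hY a (P ⊓ L ^ a * Y) inf_le_right
  omega

/-- the excess of `L^a Y` is nonpositive -/
theorem phi_pow_nonpos {L Y : Submodule K A} [FiniteDimensional K L] (hY : Tight L Y) (a : ℕ) :
    phi L (L ^ a * Y) ≤ 0 := by
  have e1 : L * (L ^ a * Y) = L ^ (a + 1) * Y := by ring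
  unfold phi
  rw [e1]
  by_cases h : L ^ (a + 1) * Y = ⊥
  · rw [h, finrank_bot]
    omega
  · have := dec hY a h
    omega

/-- (MONO) for finite sums of tight spaces -/
theorem mono {L : Submodule K A} [FiniteDimensional K L] (a : ℕ) {ι : Type*} (s : Finset ι)
    (Y : ι → Submodule K A) (hY : ∀ i ∈ s, Tight L (Y i)) :
    phi L (L ^ a * s.sup Y) ≤ 0 := by
  classical
  have fLa : FiniteDimensional K ↥(L ^ a) := fd_pow L a
  induction s using Finset.induction_on with
  | empty =>
    rw [Finset.sup_empty, Submodule.mul_bot]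
    unfold phi
    rw [Submodule.mul_bot, finrank_bot]
    simp
  | insert i s hi ih =>
    have ih' := ih fun j hj => hY j (Finset.mem_insert_of_mem hj)
    have fs : FiniteDimensional K ↥(s.sup Y) := by
      clear ih' ih
      induction s using Finset.induction_on with
      | empty => rw [Finset.sup_empty]; infer_instance
      | insert j s hj ihs =>
        rw [Finset.sup_insert]
        have h1 := (hY j (by simp)).1
        have h2 := ihs (fun h => hi (Finset.mem_insert_of_mem h)) (fun k hk => hY k (by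
          rw [Finset.mem_insert] at hk ⊢
          rcases hk with h | h
          · exact Or.inl h
          · exact Or.inr (Finset.mem_insert_of_mem h)))
        infer_instance
    have fP : FiniteDimensional K ↥(L ^ a * s.sup Y) := fd_mul _ _
    rw [Finset.sup_insert, Submodule.mul_sup, sup_comm]
    exact le_trans (phi_add (hY i (Finset.mem_insert_self i s)) a _) ih'


/-! ### translation to the Specs -/

theorem tight_iff (L Y : Submodule K A) : MPcec.Tight L Y ↔ Tight L Y := by
  unfold MPcec.Tight Tight phi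
  rw [Submodule.fg_iff_finiteDimensional]
  constructor
  · rintro ⟨h1, h2⟩
    refine ⟨h1, fun Z hZ => ?_⟩
    have := h2 Z hZ
    omega
  · rintro ⟨h1, h2⟩
    refine ⟨h1, fun Z hZ => ?_⟩
    have := h2 Z hZ
    omega

theorem col_eq (L U W : Submodule K A) : MPcec.col L U W = W ⊓ U / L := by
  ext v
  change (v ∈ W ∧ ∀ l ∈ L, l * v ∈ U) ↔ (v ∈ W ∧ v ∈ U / L)
  rw [Submodule.mem_div_iff_forall_mul_mem]
  constructor
  · rintro ⟨h1, h2⟩
    exact ⟨h1, fun l hl => by rw [mul_comm]; exact h2 l hl⟩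
  · rintro ⟨h1, h2⟩
    exact ⟨h1, fun l hl => by rw [mul_comm]; exact h2 l hl⟩

end MPcecP

namespace MPcec

universe u v

theorem specPersist : SpecPersist.{u, v} := by
  intro F A _ _ _ L Y hL hY a U hU
  have : FiniteDimensional F L := (Submodule.fg_iff_finiteDimensional L).1 hL
  rw [MPcecP.col_eq]
  exact MPcecP.persist ((MPcecP.tight_iff L Y).1 hY) a U hU

theorem specPCons : SpecPCons.{u, v} := by
  intro F A _ _ _ L Y hL hY
  have : FiniteDimensional F L := (Submodule.fg_iff_finiteDimensional L).1 hL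
  have hY' := (MPcecP.tight_iff L Y).1 hY
  have := hY'.1
  refine ⟨fun a Z hZ => ?_, fun a h => MPcecP.dec hY' a h, fun z hz a => ?_, fun g a h =>
    MPcecP.gg hY' g a h⟩
  · have h1 := MPcecP.wm hY' a Z hZ
    unfold MPcecP.phi at h1
    have e1 : L * (L ^ a * Y) = L ^ (a + 1) * Y := by ring
    rw [e1] at h1
    omega
  · unfold kk ml
    by_cases h : (L ^ (a + 1) * Y).map (LinearMap.mulLeft F z) = L ^ (a + 1 + 1) * Y
    · left
      rw [h]
      omega
    · right
      have h1 := MPcecP.kk hY' hz a h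
      have fLa : FiniteDimensional F ↥(L ^ a) := MPcecP.fd_pow L a
      have fLa1 : FiniteDimensional F ↥(L ^ (a + 1)) := MPcecP.fd_pow L (a + 1)
      have fLa2 : FiniteDimensional F ↥(L ^ (a + 1 + 1)) := MPcecP.fd_pow L (a + 1 + 1)
      have fW1 : FiniteDimensional F ↥(L ^ (a + 1) * Y) := MPcecP.fd_mul _ _
      have fW2 : FiniteDimensional F ↥(L ^ (a + 1 + 1) * Y) := MPcecP.fd_mul _ _
      have h2 : (L ^ (a + 1) * Y).map (LinearMap.mulLeft F z) ≤ L ^ (a + 1 + 1) * Y := by
        rintro _ ⟨y, hy, rfl⟩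
        rw [LinearMap.mulLeft_apply]
        have e1 : L ^ (a + 1 + 1) * Y = L * (L ^ (a + 1) * Y) := by ring
        rw [e1]
        exact Submodule.mul_mem_mul hz hy
      have h3 : (L ^ a * Y).map (LinearMap.mulLeft F z) ≤ L ^ (a + 1) * Y := by
        rintro _ ⟨y, hy, rfl⟩
        rw [LinearMap.mulLeft_apply]
        have e1 : L ^ (a + 1) * Y = L * (L ^ a * Y) := by ring
        rw [e1]
        exact Submodule.mul_mem_mul hz hy
      have h4 := Submodule.finrank_mono h2
      have h5 := Submodule.finrank_mono h3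
      have e2 : L ^ (a + 1 + 1) * Y = L ^ (a + 2) * Y := rfl
      rw [e2] at h4 ⊢
      omega

end MPcec
end

section
/-!
GROW: annihilators of linear forms contract.
-/
set_option autoImplicit false

open Module

namespace MPcec

universe u v

namespace GrowM

variable {F : Type u} {A : Type v} [Field F] [CommRing A] [Algebra F A]

theorem fd_pow (G : GD F A) (d : ℕ) : FiniteDimensional F ↥(G.L ^ d) := by
  have h1 : FiniteDimensional F ↥G.L := (Submodule.fg_iff_finiteDimensional _).1 G.fg
  exact MPcecP.fd_pow G.L d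

theorem rk (l : A) (Y : Submodule F A) [FiniteDimensional F Y] :
    finrank F (ml l Y) + finrank F (ann l Y) = finrank F Y :=
  MPcecP.rk (LinearMap.mulLeft F l) Y

/-- the pairing `(u, v) ↦ lam (l u v)` -/
noncomputable def pr (G : GD F A) (l : A) (a b : ℕ) :
    ↥(G.L ^ a) →ₗ[F] Dual F ↥(G.L ^ b) :=
  LinearMap.mk₂ F (fun u v => G.lam (l * (u : A) * (v : A)))
    (fun u u' v => by simp only [Submodule.coe_add, mul_add, add_mul, map_add])
    (fun c u v => by simp only [Submodule.coe_smul, mul_smul_comm, smul_mul_assoc, map_smul])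
    (fun u v v' => by simp only [Submodule.coe_add, mul_add, map_add])
    (fun c u v => by simp only [Submodule.coe_smul, mul_smul_comm, map_smul])

theorem pr_apply (G : GD F A) (l : A) (a b : ℕ) (u : ↥(G.L ^ a)) (v : ↥(G.L ^ b)) :
    pr G l a b u v = G.lam (l * (u : A) * (v : A)) := rfl

theorem range_pr (G : GD F A) {l : A} (hl : l ∈ G.L) {a b : ℕ} (h : a + b + 1 = G.j) :
    finrank F (LinearMap.range (pr G l a b)) = finrank F (ml l (G.L ^ a)) := by
  have := fd_pow G a
  have h1 := LinearMap.finrank_range_add_finrank_ker (pr G l a b)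
  have h2 := rk l (G.L ^ a)
  have h3 : finrank F (LinearMap.ker (pr G l a b)) = finrank F (ann l (G.L ^ a)) := by
    have e : (LinearMap.ker (pr G l a b)).map (G.L ^ a).subtype = ann l (G.L ^ a) := by
      ext y
      simp only [Submodule.mem_map, LinearMap.mem_ker, ann, Submodule.mem_inf,
        LinearMap.mulLeft_apply]
      constructor
      · rintro ⟨z, hz, rfl⟩
        refine ⟨z.2, ?_⟩
        refine G.nondeg (a + 1) (by omega) _ ?_ fun w hw => ?_
        · rw [pow_succ']
          exact Submodule.mul_mem_mul hl z.2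
        · have h4 : G.j - (a + 1) = b := by omega
          rw [h4] at hw
          have h5 := congrArg (fun f => f ⟨w, hw⟩) hz
          simpa [pr_apply] using h5
      · rintro ⟨hy, hy2⟩
        refine ⟨⟨y, hy⟩, ?_, rfl⟩
        ext v
        rw [pr_apply]
        simp [hy2]
    rw [← e]
    exact LinearEquiv.finrank_eq (Submodule.equivMapOfInjective _ (G.L ^ a).injective_subtype _)
  omega

theorem ml_dual (G : GD F A) {l : A} (hl : l ∈ G.L) {a b : ℕ} (h : a + b + 1 = G.j) :
    finrank F (ml l (G.L ^ a)) = finrank F (ml l (G.L ^ b)) := by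
  have := fd_pow G a
  have := fd_pow G b
  rw [← range_pr G hl h, ← range_pr G hl (show b + a + 1 = G.j by omega),
    ← LinearMap.finrank_range_dualMap_eq_finrank_range]
  have h1 : pr G l b a = (pr G l a b).dualMap ∘ₗ (Dual.eval F ↥(G.L ^ b)) := by
    ext v u
    simp only [LinearMap.comp_apply, LinearMap.dualMap_apply, Dual.eval_apply, pr_apply]
    congr 1
    ring
  have h2 : LinearMap.range (Dual.eval F ↥(G.L ^ b)) = ⊤ := by
    rw [LinearMap.range_eq_top]
    exact (Module.bijective_dual_eval F ↥(G.L ^ b)).surjective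
  rw [h1, LinearMap.range_comp_of_range_eq_top _ h2]

theorem exists_form (G : G4 F A) {l : A} (hl : l ∈ G.L) :
    ∃ f : MvPolynomial (Fin 4) F, f.IsHomogeneous 1 ∧ G.ev f = l := by
  rw [G.hL] at hl
  induction hl using Submodule.span_induction with
  | mem y hy =>
    obtain ⟨i, rfl⟩ := hy
    exact ⟨MvPolynomial.X i, MvPolynomial.isHomogeneous_X F i, by simp [G4.ev]⟩
  | zero => exact ⟨0, MvPolynomial.isHomogeneous_zero _ _ _, map_zero _⟩
  | add y z _ _ hy hz =>
    obtain ⟨f, hf, rfl⟩ := hy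
    obtain ⟨g, hg, rfl⟩ := hz
    exact ⟨f + g, hf.add hg, map_add _ _ _⟩
  | smul c y _ hy =>
    obtain ⟨f, hf, rfl⟩ := hy
    exact ⟨c • f, Submodule.smul_mem (MvPolynomial.homogeneousSubmodule (Fin 4) F 1) c hf,
      map_smul _ _ _⟩

end GrowM

theorem specGrow : SpecGrow.{u, v} := by
  intro F A _ _ _ G m hm hU hlt l hl
  have := GrowM.fd_pow G.toGD m
  have := GrowM.fd_pow G.toGD (m + 1)
  have h1 := GrowM.rk l (G.L ^ m)
  have h2 := GrowM.rk l (G.L ^ (m + 1))
  have h3 : finrank F (ml l (G.L ^ m)) ≤ finrank F (ml l (G.L ^ (m + 1))) := by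
    by_cases hj : 2 * m + 3 ≤ G.j
    · obtain ⟨f, hf, rfl⟩ := GrowM.exists_form G hl
      exact hU 1 le_rfl f hf m (by omega)
    · exact (GrowM.ml_dual G.toGD hl (by omega)).le
  have h4 : G.L * ann l (G.L ^ m) ≤ ann l (G.L ^ (m + 1)) := by
    rw [Submodule.mul_le]
    intro x hx y hy
    refine ⟨?_, ?_⟩
    · rw [pow_succ']
      exact Submodule.mul_mem_mul hx hy.1
    · have h5 : l * y = 0 := hy.2
      change l * (x * y) = 0
      rw [mul_left_comm, h5, mul_zero]
  have h5 : FiniteDimensional F ↥(ann l (G.L ^ (m + 1))) :=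
    MPcecP.fd_le (W := G.L ^ (m + 1)) inf_le_left
  have h6 := Submodule.finrank_mono h4
  omega

end MPcec
end

section
set_option autoImplicit false

open Module MvPolynomial

namespace MPcec

namespace LiftM

universe u

section flat

variable {k : Type u} [Field k] {T : Type} {n : ℕ}

/-- the linear form `∑ u_i X_i`. -/
noncomputable def Lf (k : Type u) [Field k] (w : Fin n → T) : MvPolynomial (Fin n ⊕ T) k :=
  ∑ i, X (Sum.inl i) * X (Sum.inr (w i))

/-- restriction of polynomials free of `U`. -/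
noncomputable def phi (k : Type u) [Field k] (w : Fin n → T) (U : Set T) :
    MvPolynomial (Fin (n + 1) ⊕ (Uᶜ : Set T)) k →ₐ[k] MvPolynomial (Fin n ⊕ T) k :=
  aeval (Sum.elim (Fin.snoc (α := fun _ => MvPolynomial (Fin n ⊕ T) k)
    (fun i => X (Sum.inl i)) (Lf k w)) (fun v => X (Sum.inr v.1)))

open Classical in
/-- the substitution `u_{i0} ↦ L`. -/
noncomputable def th (k : Type u) [Field k] (w : Fin n → T) (i0 : Fin n) :
    MvPolynomial (Fin n ⊕ T) k →ₐ[k] MvPolynomial (Fin n ⊕ T) k :=
  aeval (Sum.elim (fun i => X (Sum.inl i)) (fun v => if v = w i0 then Lf k w else X (Sum.inr v)))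

/-- renaming of variables. -/
def ren (w : Fin n → T) (U : Set T) (i0 : Fin n) : Fin (n + 1) ⊕ (Uᶜ : Set T) → Fin n ⊕ T :=
  Sum.elim (Fin.snoc (α := fun _ => Fin n ⊕ T) (fun i => Sum.inl i) (Sum.inr (w i0)))
    (fun v => Sum.inr v.1)

lemma ren_injective (w : Fin n → T) (U : Set T) (hU : ∀ i, w i ∈ U) (i0 : Fin n) :
    Function.Injective (ren w U i0) := by
  rintro (a | a) (b | b) h
  · revert h
    refine Fin.lastCases ?_ (fun a => ?_) a <;> refine Fin.lastCases ?_ (fun b => ?_) b
    · intro _; rfl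
    · intro h; simp [ren] at h
    · intro h; simp [ren] at h
    · intro h; simp [ren] at h; rw [h]
  · revert h
    refine Fin.lastCases ?_ (fun a => ?_) a
    · intro h
      simp [ren] at h
      exact absurd (hU i0) (h ▸ b.2)
    · intro h; simp [ren] at h
  · revert h
    refine Fin.lastCases ?_ (fun b => ?_) b
    · intro h
      simp [ren] at h
      exact absurd (hU i0) (h ▸ a.2)
    · intro h; simp [ren] at h
  · simp [ren] at h
    rw [Subtype.ext h]

lemma th_ren (w : Fin n → T) (U : Set T) (hU : ∀ i, w i ∈ U) (i0 : Fin n)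
    (F : MvPolynomial (Fin (n + 1) ⊕ (Uᶜ : Set T)) k) :
    th k w i0 (rename (ren w U i0) F) = phi k w U F := by
  have : (th k w i0).comp (rename (ren w U i0)) = phi k w U := by
    apply MvPolynomial.algHom_ext
    rintro (a | v)
    · refine Fin.lastCases ?_ (fun a => ?_) a
      · simp [th, phi, ren]
      · simp [th, phi, ren]
    · have hv : v.1 ≠ w i0 := by
        intro h
        exact v.2 (h ▸ hU i0)
      simp [th, phi, ren, hv]
  exact DFunLike.congr_fun this F

/-- the inclusion in the field of fractions. -/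
noncomputable abbrev toK (k : Type u) [Field k] (n : ℕ) (T : Type) :
    MvPolynomial (Fin n ⊕ T) k →+* FractionRing (MvPolynomial (Fin n ⊕ T) k) :=
  algebraMap (MvPolynomial (Fin n ⊕ T) k) (FractionRing (MvPolynomial (Fin n ⊕ T) k))

open Classical in
/-- left inverse of `th` in the field of fractions. -/
noncomputable def thf (k : Type u) [Field k] (w : Fin n → T) (i0 : Fin n) :
    MvPolynomial (Fin n ⊕ T) k →ₐ[k] FractionRing (MvPolynomial (Fin n ⊕ T) k) :=
  aeval (Sum.elim (fun i => toK k n T (X (Sum.inl i)))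
    (fun v => if v = w i0 then
      (toK k n T (X (Sum.inr (w i0)) - ∑ i ∈ Finset.univ.erase i0,
        X (Sum.inl i) * X (Sum.inr (w i)))) / toK k n T (X (Sum.inl i0))
      else toK k n T (X (Sum.inr v))))

lemma thf_th (w : Fin n → T) (hw : Function.Injective w) (i0 : Fin n)
    (F : MvPolynomial (Fin n ⊕ T) k) :
    thf k w i0 (th k w i0 F) = algebraMap _ (FractionRing (MvPolynomial (Fin n ⊕ T) k)) F := by
  have : (thf k w i0).comp (th k w i0) =
      IsScalarTower.toAlgHom k (MvPolynomial (Fin n ⊕ T) k)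
        (FractionRing (MvPolynomial (Fin n ⊕ T) k)) := by
    apply MvPolynomial.algHom_ext
    rintro (a | v)
    · simp [th, thf]
    · by_cases hv : v = w i0
      · subst hv
        have h0 : algebraMap (MvPolynomial (Fin n ⊕ T) k)
            (FractionRing (MvPolynomial (Fin n ⊕ T) k)) (X (Sum.inl i0)) ≠ 0 := by
          intro h
          have := IsFractionRing.injective (MvPolynomial (Fin n ⊕ T) k)
            (FractionRing (MvPolynomial (Fin n ⊕ T) k)) (h.trans (map_zero _).symm)
          exact X_ne_zero _ this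
        have h1 : ∀ i ∈ Finset.univ.erase i0, thf k w i0 (X (Sum.inl i) * X (Sum.inr (w i))) =
            algebraMap (MvPolynomial (Fin n ⊕ T) k)
            (FractionRing (MvPolynomial (Fin n ⊕ T) k)) (X (Sum.inl i) * X (Sum.inr (w i))) := by
          intro i hi
          have : w i ≠ w i0 := fun h => (Finset.ne_of_mem_erase hi) (hw h)
          rw [map_mul, map_mul]
          simp [thf, this]
        have h2 : thf k w i0 (X (Sum.inl i0) * X (Sum.inr (w i0))) =
            algebraMap (MvPolynomial (Fin n ⊕ T) k)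
            (FractionRing (MvPolynomial (Fin n ⊕ T) k)) (X (Sum.inr (w i0)) -
              ∑ i ∈ Finset.univ.erase i0, X (Sum.inl i) * X (Sum.inr (w i))) := by
          rw [map_mul]
          simp only [thf, aeval_X, Sum.elim_inl, Sum.elim_inr, if_true]
          field_simp
        have h3 : th k w i0 (X (Sum.inr (w i0))) = Lf k w := by simp [th]
        rw [AlgHom.comp_apply, h3, Lf, ← Finset.add_sum_erase _ _ (Finset.mem_univ i0), map_add, h2,
          map_sum, Finset.sum_congr rfl h1, ← map_sum, ← map_add, sub_add_cancel]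
        rfl
      · simp [th, thf, hv]
  exact DFunLike.congr_fun this F

lemma th_injective (w : Fin n → T) (hw : Function.Injective w) (i0 : Fin n) :
    Function.Injective (th k w i0) := by
  intro a b h
  have h1 := congrArg (thf k w i0) h
  rw [thf_th w hw, thf_th w hw] at h1
  exact IsFractionRing.injective (MvPolynomial (Fin n ⊕ T) k)
    (FractionRing (MvPolynomial (Fin n ⊕ T) k)) h1

lemma phi_injective (w : Fin n → T) (hw : Function.Injective w) (U : Set T) (hU : ∀ i, w i ∈ U)
    (i0 : Fin n) : Function.Injective (phi k w U) := by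
  intro a b h
  rw [← th_ren w U hU i0, ← th_ren w U hU i0] at h
  exact rename_injective _ (ren_injective w U hU i0) (th_injective w hw i0 h)

lemma exists_th (w : Fin n → T) (hw : Function.Injective w) (i0 : Fin n)
    (γ : MvPolynomial (Fin n ⊕ T) k) : ∃ (M : ℕ) (γ' : MvPolynomial (Fin n ⊕ T) k),
      X (Sum.inl i0) ^ M * γ = th k w i0 γ' := by
  have hX : ∀ i : Fin n, th k w i0 (X (Sum.inl i)) = X (Sum.inl i) := by
    intro i; simp [th]
  induction γ using MvPolynomial.induction_on with
  | C a => exact ⟨0, C a, by rw [pow_zero, one_mul, algHom_C]; rfl⟩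
  | add p q hp hq =>
    obtain ⟨M, p', hp⟩ := hp
    obtain ⟨M', q', hq⟩ := hq
    refine ⟨M + M', X (Sum.inl i0) ^ M' * p' + X (Sum.inl i0) ^ M * q', ?_⟩
    rw [map_add, map_mul, map_mul, map_pow, map_pow, hX, ← hp, ← hq]
    ring
  | mul_X p v hp =>
    obtain ⟨M, p', hp⟩ := hp
    obtain ⟨M', q', hq⟩ : ∃ (M : ℕ) (γ' : MvPolynomial (Fin n ⊕ T) k),
      X (Sum.inl i0) ^ M * X v = th k w i0 γ' := by
      rcases v with i | v
      · exact ⟨0, X (Sum.inl i), by rw [hX, pow_zero, one_mul]⟩
      · by_cases hv : v = w i0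
        · refine ⟨1, X (Sum.inr (w i0)) - ∑ i ∈ Finset.univ.erase i0,
            X (Sum.inl i) * X (Sum.inr (w i)), ?_⟩
          have h1 : ∀ i ∈ Finset.univ.erase i0, th k w i0 (X (Sum.inl i) * X (Sum.inr (w i))) =
              X (Sum.inl i) * X (Sum.inr (w i)) := by
            intro i hi
            have : w i ≠ w i0 := fun h => (Finset.ne_of_mem_erase hi) (hw h)
            simp [th, this]
          have h3 : th k w i0 (X (Sum.inr (w i0))) = Lf k w := by simp [th]
          rw [map_sub, map_sum, Finset.sum_congr rfl h1, h3, Lf,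
            ← Finset.add_sum_erase _ _ (Finset.mem_univ i0), hv, pow_one]
          ring
        · exact ⟨0, X (Sum.inr v), by simp [th, hv]⟩
    refine ⟨M + M', p' * q', ?_⟩
    rw [map_mul, ← hp, ← hq]
    ring

lemma exists_rename_of_mul {σ τ : Type} (r : σ → τ) (hr : Function.Injective r)
    {q : MvPolynomial σ k} {γ δ : MvPolynomial τ k} (hq : q ≠ 0) (h : γ * δ = rename r q) :
    ∃ D, rename r D = γ := by
  classical
  have hne : rename r q ≠ 0 := by
    intro h0
    exact hq (rename_injective r hr (by rw [h0, map_zero]))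
  have hγ : γ ≠ 0 := by
    rintro rfl
    rw [zero_mul] at h
    exact hne h.symm
  have hδ : δ ≠ 0 := by
    rintro rfl
    rw [mul_zero] at h
    exact hne h.symm
  apply exists_rename_eq_of_vars_subset_range γ r hr
  intro i hi
  have h1 : γ.degreeOf i ≠ 0 := mem_vars_iff_degreeOf_ne_zero.1 hi
  have h2 : (rename r q).degreeOf i ≠ 0 := by
    rw [← h, degreeOf_mul_eq hγ hδ]
    omega
  have h3 : i ∈ (rename r q).vars := mem_vars_iff_degreeOf_ne_zero.2 h2
  have h4 := vars_rename r q h3
  obtain ⟨j, _, hj⟩ := Finset.mem_image.1 h4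
  exact ⟨j, hj⟩

lemma exists_chart (w : Fin n → T) (hw : Function.Injective w) (U : Set T) (hU : ∀ i, w i ∈ U)
    (i0 : Fin n) {F : MvPolynomial (Fin (n + 1) ⊕ (Uᶜ : Set T)) k} (hF : F ≠ 0)
    {γ δ : MvPolynomial (Fin n ⊕ T) k} (h : γ * δ = phi k w U F) :
    ∃ (M : ℕ) (D : MvPolynomial (Fin (n + 1) ⊕ (Uᶜ : Set T)) k),
      X (Sum.inl i0) ^ M * γ = phi k w U D := by
  obtain ⟨M, γ', hγ⟩ := exists_th w hw i0 γ
  obtain ⟨M', δ', hδ⟩ := exists_th w hw i0 δ
  have hXp : phi k w U (X (Sum.inl i0.castSucc)) = X (Sum.inl i0) := by simp [phi]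
  have h1 : γ' * δ' = rename (ren w U i0) (X (Sum.inl i0.castSucc) ^ (M + M') * F) := by
    apply th_injective w hw i0
    rw [map_mul, ← hγ, ← hδ, th_ren w U hU, map_mul, map_pow, hXp, ← h]
    ring
  obtain ⟨D, hD⟩ := exists_rename_of_mul (ren w U i0) (ren_injective w U hU i0)
    (mul_ne_zero (pow_ne_zero _ (X_ne_zero _)) hF) h1
  refine ⟨M, D, ?_⟩
  rw [hγ, ← hD, th_ren w U hU]

/-- factors of restrictions are restrictions. -/
lemma exists_phi {r : ℕ} (w : Fin (r + 2) → T) (hw : Function.Injective w) (U : Set T)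
    (hU : ∀ i, w i ∈ U) {F : MvPolynomial (Fin (r + 2 + 1) ⊕ (Uᶜ : Set T)) k} (hF : F ≠ 0)
    {γ δ : MvPolynomial (Fin (r + 2) ⊕ T) k} (h : γ * δ = phi k w U F) :
    ∃ D : MvPolynomial (Fin (r + 2 + 1) ⊕ (Uᶜ : Set T)) k, γ = phi k w U D := by
  obtain ⟨M, D, hD⟩ := exists_chart w hw U hU 0 hF h
  obtain ⟨M', D', hD'⟩ := exists_chart w hw U hU 1 hF h
  have hXp : ∀ i : Fin (r + 2), phi k w U (X (Sum.inl i.castSucc)) = X (Sum.inl i) := by
    intro i; simp [phi]
  have h1 : X (Sum.inl (0 : Fin (r + 2)).castSucc) ^ M * D' =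
      X (Sum.inl (1 : Fin (r + 2)).castSucc) ^ M' * D := by
    apply phi_injective w hw U hU 0
    rw [map_mul, map_mul, map_pow, map_pow, hXp, hXp, ← hD, ← hD']
    ring
  have hp : Prime (X (Sum.inl (0 : Fin (r + 2)).castSucc) :
      MvPolynomial (Fin (r + 2 + 1) ⊕ (Uᶜ : Set T)) k) := X_prime
  have h2 : (X (Sum.inl (0 : Fin (r + 2)).castSucc) :
      MvPolynomial (Fin (r + 2 + 1) ⊕ (Uᶜ : Set T)) k) ^ M ∣ D := by
    refine hp.pow_dvd_of_dvd_mul_left M ?_ (Dvd.intro D' h1)
    intro h3
    have h4 := hp.dvd_of_dvd_pow h3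
    rw [X_dvd_X] at h4
    simp at h4
  obtain ⟨E, hE⟩ := h2
  refine ⟨E, ?_⟩
  have h3 : (X (Sum.inl (0 : Fin (r + 2))) : MvPolynomial (Fin (r + 2) ⊕ T) k) ^ M * γ =
      X (Sum.inl (0 : Fin (r + 2))) ^ M * phi k w U E := by
    rw [hD, hE, map_mul, map_pow, hXp]
  exact mul_left_cancel₀ (pow_ne_zero _ (X_ne_zero _)) h3

end flat

end LiftM

end MPcec
end

section
set_option autoImplicit false

open Module Pool.Agent.Lib.CEC001

namespace MPcec

universe u v

namespace SymAlgM

variable {k : Type u} [Field k]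

lemma ac_algebraMap (σ : Equiv.Perm ℕ) (p : Sx k) :
    ac k σ (algebraMap (Sx k) (Om k) p) =
      algebraMap (Sx k) (Om k) (MvPolynomial.rename (Prod.map σ id) p) := by
  unfold ac
  rw [IsFractionRing.ringEquivOfRingEquiv_algebraMap]
  rfl

lemma ac_const (σ : Equiv.Perm ℕ) (c : k) :
    ac k σ (algebraMap k (Om k) c) = algebraMap k (Om k) c := by
  rw [IsScalarTower.algebraMap_apply k (Sx k) (Om k), ac_algebraMap]
  congr 1
  rw [MvPolynomial.algebraMap_eq, MvPolynomial.rename_C]

lemma hc_map {R : Type*} [CommRing R] (φ : R →+* R) (j : ℕ) (f : MvPolynomial (Fin 4) R) :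
    MvPolynomial.homogeneousComponent j (MvPolynomial.map φ f) =
      MvPolynomial.map φ (MvPolynomial.homogeneousComponent j f) := by
  ext d
  rw [MvPolynomial.coeff_map, MvPolynomial.coeff_homogeneousComponent,
    MvPolynomial.coeff_homogeneousComponent, MvPolynomial.coeff_map]
  split_ifs
  · rfl
  · rw [map_zero]

/-- the functional with constant coefficients is equivariant -/
lemma up_map (Λ : MvPolynomial (Fin 4) k →ₗ[k] k) (σ : Equiv.Perm ℕ)
    (f : MvPolynomial (Fin 4) (Om k)) :
    up (Om k) Λ (MvPolynomial.map (ac k σ : Om k →+* Om k) f) = ac k σ (up (Om k) Λ f) := by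
  induction f using MvPolynomial.induction_on' with
  | monomial d c =>
    have h1 : MvPolynomial.monomial d c = c • MvPolynomial.monomial d (1 : Om k) := by
      rw [MvPolynomial.smul_monomial, smul_eq_mul, mul_one]
    have h2 : MvPolynomial.monomial d (ac k σ c) =
        (ac k σ c) • MvPolynomial.monomial d (1 : Om k) := by
      rw [MvPolynomial.smul_monomial, smul_eq_mul, mul_one]
    rw [MvPolynomial.map_monomial]
    change up (Om k) Λ (MvPolynomial.monomial d (ac k σ c)) = _
    rw [h2, h1, map_smul, map_smul, up_monomial_one, smul_eq_mul, smul_eq_mul, map_mul, ac_const]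
  | add f g hf hg => rw [map_add, map_add, map_add, map_add, hf, hg]

variable (Λ : MvPolynomial (Fin 4) k →ₗ[k] k) (j : ℕ)

/-- permutation of the coefficients -/
noncomputable def me (σ : Equiv.Perm ℕ) :
    MvPolynomial (Fin 4) (Om k) ≃+* MvPolynomial (Fin 4) (Om k) :=
  MvPolynomial.mapEquiv (Fin 4) (ac k σ)

lemma me_apply (σ : Equiv.Perm ℕ) (f : MvPolynomial (Fin 4) (Om k)) :
    me σ f = MvPolynomial.map (ac k σ : Om k →+* Om k) f := rfl

lemma mem_iff (σ : Equiv.Perm ℕ) (f : MvPolynomial (Fin 4) (Om k)) :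
    me σ f ∈ annI (up (Om k) Λ) j ↔ f ∈ annI (up (Om k) Λ) j := by
  rw [AlgM.mem_annI, AlgM.mem_annI]
  have key : ∀ g, up (Om k) Λ (MvPolynomial.homogeneousComponent j (me σ f * me σ g)) =
      ac k σ (up (Om k) Λ (MvPolynomial.homogeneousComponent j (f * g))) := by
    intro g
    rw [← map_mul, me_apply, hc_map, up_map]
  constructor
  · intro h g
    have h1 := h (me σ g)
    rw [key] at h1
    exact (map_eq_zero_iff _ (ac k σ).injective).1 h1
  · intro h g
    obtain ⟨g', rfl⟩ := (me (k := k) σ).surjective g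
    rw [key, h g', map_zero]

lemma map_annI (σ : Equiv.Perm ℕ) : annI (up (Om k) Λ) j =
    Ideal.map ((me (k := k) σ : MvPolynomial (Fin 4) (Om k) ≃+* MvPolynomial (Fin 4) (Om k)) :
      MvPolynomial (Fin 4) (Om k) →+* MvPolynomial (Fin 4) (Om k)) (annI (up (Om k) Λ) j) := by
  apply le_antisymm
  · intro f hf
    obtain ⟨g, rfl⟩ := (me (k := k) σ).surjective f
    exact Ideal.mem_map_of_mem _ ((mem_iff Λ j σ g).1 hf)
  · rw [Ideal.map_le_iff_le_comap]
    intro f hf
    exact (mem_iff Λ j σ f).2 hf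

/-- the action -/
noncomputable def actA (σ : Equiv.Perm ℕ) : AL (up (Om k) Λ) j ≃+* AL (up (Om k) Λ) j :=
  Ideal.quotientEquiv _ _ (me σ) (map_annI Λ j σ)

lemma actA_mk (σ : Equiv.Perm ℕ) (f : MvPolynomial (Fin 4) (Om k)) :
    actA Λ j σ (Ideal.Quotient.mk (annI (up (Om k) Λ) j) f) =
      Ideal.Quotient.mk (annI (up (Om k) Λ) j) (me σ f) := rfl

end SymAlgM

open SymAlgM in
theorem specSymAlg : SpecSymAlg.{u} := by
  intro k _ Λ j G hG
  refine ⟨⟨actA Λ j, ?_, ?_⟩⟩
  · intro σ c a
    obtain ⟨f, rfl⟩ := Ideal.Quotient.mk_surjective a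
    have h1 : c • (Ideal.Quotient.mk (annI (up (Om k) Λ) j) f) =
        Ideal.Quotient.mk (annI (up (Om k) Λ) j) (MvPolynomial.C c * f) := by
      rw [← MvPolynomial.smul_eq_C_mul]
      rfl
    have h2 : (ac k σ c) • (Ideal.Quotient.mk (annI (up (Om k) Λ) j) (me σ f)) =
        Ideal.Quotient.mk (annI (up (Om k) Λ) j) (MvPolynomial.C (ac k σ c) * me σ f) := by
      rw [← MvPolynomial.smul_eq_C_mul]
      rfl
    rw [h1, actA_mk, actA_mk, h2, map_mul, me_apply, MvPolynomial.map_C]
    rfl
  · intro σ i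
    rw [hG, actA_mk, me_apply, MvPolynomial.map_X]

end MPcec
end
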